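import Pool.Agent.RCN.Targets

/-!
# A2: nets may be translated
-/

namespace RCN

theorem A2_mem (i j : ℤ) (P : Finset Cell) (p : Cell) :
    p ∈ shift i j P ↔ (p.1 - i, p.2 - j) ∈ P := by
  rw [shift, Finset.mem_image]
  constructor
  · rintro ⟨a, ha, rfl⟩
    simpa using ha
  · intro h
    exact ⟨_, h, by simp⟩

theorem A2_adj (i j : ℤ) (p q : Cell) (h : Adj p q) :
    Adj (p.1 + i, p.2 + j) (q.1 + i, q.2 + j) := by
  unfold Adj at *
  simp only
  omega

theorem A2_poly (i j : ℤ) (P : Finset Cell) (h : IsPolyomino P) :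
    IsPolyomino (shift i j P) := by
  refine ⟨h.1.image _, ?_⟩
  intro p hp q hq
  rw [shift, Finset.mem_image] at hp hq
  obtain ⟨a, ha, rfl⟩ := hp
  obtain ⟨b, hb, rfl⟩ := hq
  refine Relation.ReflTransGen.lift (fun p : Cell => (p.1 + i, p.2 + j)) ?_ a b (h.2 a ha b hb)
  intro c d hcd
  exact ⟨A2_adj i j c d hcd.1, Finset.mem_image_of_mem _ hcd.2⟩

/-- Nets may be translated. -/
theorem pA2 : tA2 := by
  rintro n P i j ⟨hP, f, hf⟩
  refine ⟨A2_poly i j P hP, fun p => f (p.1 - i, p.2 - j), ?_⟩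
  refine ⟨?_, ?_, ?_, ?_⟩
  · intro p hp
    exact hf.on _ ((A2_mem i j P p).1 hp)
  · intro x y h1 h2
    have h3 := (A2_mem i j P _).1 h1
    have h4 := (A2_mem i j P _).1 h2
    have h5 := hf.right (x - i) (y - j) h3 (by rw [show x - i + 1 = x + 1 - i by ring]; exact h4)
    have h6 : x + 1 - i = x - i + 1 := by ring
    show GlueR (f (x - i, y - j)) (f (x + 1 - i, y - j))
    rw [h6]
    exact h5
  · intro x y h1 h2
    have h3 := (A2_mem i j P _).1 h1
    have h4 := (A2_mem i j P _).1 h2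
    have h6 : y + 1 - j = y - j + 1 := by ring
    have h5 := hf.up (x - i) (y - j) h3 (by rw [← h6]; exact h4)
    show GlueU (f (x - i, y - j)) (f (x - i, y + 1 - j))
    rw [h6]
    exact h5
  · intro o ho
    obtain ⟨p, ⟨hp, hpo⟩, hu⟩ := hf.once o ho
    refine ⟨(p.1 + i, p.2 + j), ⟨?_, ?_⟩, ?_⟩
    · rw [A2_mem]
      simpa using hp
    · simpa using hpo
    · rintro q ⟨hq, hqo⟩
      have h1 := hu (q.1 - i, q.2 - j) ⟨(A2_mem i j P q).1 hq, hqo⟩
      rw [← h1]
      simp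

end RCN
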