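import Pool.Agent.RCN.Targets

/-!
# Nets may be turned by 90 degrees
-/

set_option autoImplicit false

namespace RCN

/-- the quarter turn -/
def A3_rot (p : Cell) : Cell := (-p.2, p.1)

/-- its inverse -/
def A3_inv (p : Cell) : Cell := (p.2, -p.1)

lemma A3_inv_rot (p : Cell) : A3_inv (A3_rot p) = p := by
  unfold A3_inv A3_rot
  ext <;> simp

lemma A3_rot_inv (p : Cell) : A3_rot (A3_inv p) = p := by
  unfold A3_inv A3_rot
  ext <;> simp

lemma A3_mem (P : Finset Cell) (p : Cell) :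
    p ∈ P.image (fun p => (-p.2, p.1)) ↔ A3_inv p ∈ P := by
  rw [Finset.mem_image]
  constructor
  · rintro ⟨q, hq, rfl⟩
    have := A3_inv_rot q
    unfold A3_rot at this
    rw [this]
    exact hq
  · intro h
    exact ⟨A3_inv p, h, A3_rot_inv p⟩

lemma A3_adj {a b : Cell} (h : Adj a b) : Adj (A3_rot a) (A3_rot b) := by
  unfold Adj A3_rot at *
  simp only
  omega

/-- turn a placement -/
def A3_pl (s : Placement) : Placement := ⟨s.o, -s.v, s.u⟩

lemma A3_on {n : ℤ} {s : Placement} (h : OnCube n s) : OnCube n (A3_pl s) := by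
  obtain ⟨h1, h2, h3, h4⟩ := h
  unfold A3_pl OnCube
  refine ⟨?_, h1, ?_, ?_⟩
  · simp only [dot, Prod.fst_neg, Prod.snd_neg] at *
    linarith
  · simp only [dot, Prod.fst_neg, Prod.snd_neg] at *
    linarith
  · simp only [Prod.fst_neg, Prod.snd_neg, neg_eq_zero]
    rcases h4 with h | h | h
    · exact Or.inl ⟨h.1, h.2.1, h.2.2.1, h.2.2.2.2, h.2.2.2.1⟩
    · exact Or.inr (Or.inl ⟨h.1, h.2.1, h.2.2.1, h.2.2.2.2, h.2.2.2.1⟩)
    · exact Or.inr (Or.inr ⟨h.1, h.2.1, h.2.2.1, h.2.2.2.2, h.2.2.2.1⟩)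

theorem pA3 : tA3 := by
  intro n P hP
  obtain ⟨⟨⟨p0, hp0⟩, hconn⟩, f, hf⟩ := hP
  refine ⟨⟨⟨A3_rot p0, ?_⟩, ?_⟩, fun p => A3_pl (f (A3_inv p)), ?_, ?_, ?_, ?_⟩
  · rw [A3_mem, A3_inv_rot]
    exact hp0
  · intro p hp q hq
    rw [A3_mem] at hp hq
    have h := hconn _ hp _ hq
    have h2 : Relation.ReflTransGen (fun a b => Adj a b ∧
        b ∈ P.image (fun p => (-p.2, p.1))) (A3_rot (A3_inv p)) (A3_rot (A3_inv q)) :=
      Relation.ReflTransGen.lift (r := fun a b => Adj a b ∧ b ∈ P) A3_rot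
        (fun a b hab => ⟨A3_adj hab.1, by
          rw [A3_mem, A3_inv_rot]
          exact hab.2⟩) _ _ h
    rw [A3_rot_inv, A3_rot_inv] at h2
    exact h2
  · intro p hp
    rw [A3_mem] at hp
    exact A3_on (hf.on _ hp)
  · intro x y h1 h2
    rw [A3_mem] at h1 h2
    have e1 : A3_inv (x, y) = (y, -x) := rfl
    have e2 : A3_inv (x + 1, y) = (y, -x - 1) := by
      unfold A3_inv
      ext
      · rfl
      · simp only
        ring
    rw [e1] at h1
    rw [e2] at h2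
    have e3 : (-x - 1 + 1 : ℤ) = -x := by ring
    have h3 := hf.up y (-x - 1) h2 (by rw [e3]; exact h1)
    rw [e3] at h3
    simp only [e1, e2]
    obtain ⟨h4, h5⟩ := h3
    refine ⟨?_, h5.symm⟩
    show (f (y, -x)).o + -(f (y, -x)).v = (f (y, -x - 1)).o - -(f (y, -x - 1)).v
    rw [sub_neg_eq_add, ← sub_eq_add_neg]
    exact h4.symm
  · intro x y h1 h2
    rw [A3_mem] at h1 h2
    have e1 : A3_inv (x, y) = (y, -x) := rfl
    have e2 : A3_inv (x, y + 1) = (y + 1, -x) := rfl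
    rw [e1] at h1
    rw [e2] at h2
    obtain ⟨h4, h5⟩ := hf.right y (-x) h1 h2
    simp only [e1, e2]
    refine ⟨h4, ?_⟩
    show -(f (y, -x)).v = -(f (y + 1, -x)).v
    rw [h5]
  · intro o ho
    obtain ⟨p, ⟨hp1, hp2⟩, hp3⟩ := hf.once o ho
    refine ⟨A3_rot p, ⟨?_, ?_⟩, ?_⟩
    · rw [A3_mem, A3_inv_rot]
      exact hp1
    · simp only [A3_inv_rot]
      exact hp2
    · rintro q ⟨hq1, hq2⟩
      rw [A3_mem] at hq1
      have := hp3 (A3_inv q) ⟨hq1, hq2⟩
      rw [← this, A3_rot_inv]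

end RCN
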