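import Pool.Agent.RCN.Targets

/-!
# RCN: unions of packings (A4)
-/

set_option autoImplicit false

namespace RCN

theorem A4_nonempty {n : ℕ} {t : Finset Cell} (h : IsCubeNet n t) : t.Nonempty := h.1.1

theorem A4_disj {S S' : Set Cell} (hS : Disjoint S S') {t t' : Finset Cell}
    (h : (t : Set Cell) ⊆ S) (h' : (t' : Set Cell) ⊆ S') : Disjoint t t' := by
  rw [← Finset.disjoint_coe]
  exact Set.disjoint_of_subset h h' hS

theorem pA4 : tA4 := by
  classical
  refine ⟨?_, ?_, ?_⟩
  · rintro S S' N hSS ⟨T, hN, h1, h2, h3⟩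
    exact ⟨T, hN, h1, fun t ht => (h2 t ht).trans hSS, h3⟩
  · rintro S S' N N' ⟨T, hN, h1, h2, h3⟩ ⟨T', hN', h1', h2', h3'⟩ hd
    have hTT : Disjoint T T' := by
      rw [Finset.disjoint_left]
      intro t ht ht'
      have h4 : Disjoint t t := A4_disj hd (h2 t ht) (h2' t ht')
      have h5 := A4_nonempty (h1 t ht)
      rw [disjoint_self] at h4
      rw [h4] at h5
      exact Finset.not_nonempty_empty h5
    refine ⟨T ∪ T', ?_, ?_, ?_, ?_⟩
    · rw [Finset.card_union_of_disjoint hTT, hN, hN']
    · intro t ht
      rcases Finset.mem_union.1 ht with ht | ht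
      · exact h1 t ht
      · exact h1' t ht
    · intro t ht
      rcases Finset.mem_union.1 ht with ht | ht
      · exact (h2 t ht).trans Set.subset_union_left
      · exact (h2' t ht).trans Set.subset_union_right
    · intro s hs t ht hst
      rcases Finset.mem_union.1 hs with hs | hs <;> rcases Finset.mem_union.1 ht with ht | ht
      · exact h3 s hs t ht hst
      · exact A4_disj hd (h2 s hs) (h2' t ht)
      · exact (A4_disj hd (h2 t ht) (h2' s hs)).symm
      · exact h3' s hs t ht hst
  · intro S
    exact ⟨∅, rfl, fun t ht => absurd ht (Finset.notMem_empty t),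
      fun t ht => absurd ht (Finset.notMem_empty t), fun s hs => absurd hs (Finset.notMem_empty s)⟩

end RCN
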