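import Pool.Agent.RCN.Targets

/-!
# RCN, target A5: packings may be translated and turned
-/

namespace RCN

/-- transport of a packing by an injective map which preserves the nets of the unit cube -/
theorem A5_transport (σ τ : Cell → Cell) (hστ : ∀ q, τ (σ q) = q)
    (hnet : ∀ t : Finset Cell, IsCubeNet 1 t → IsCubeNet 1 (t.image σ))
    (S : Set Cell) (N : ℕ) (h : Pack S N) : Pack {p | τ p ∈ S} N := by
  obtain ⟨T, hcard, hn, hsub, hdis⟩ := h
  have hinj : Function.Injective σ := fun a b hab => by rw [← hστ a, ← hστ b, hab]
  refine ⟨T.image (fun t => t.image σ), ?_, ?_, ?_, ?_⟩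
  · rw [Finset.card_image_of_injective _ (Finset.image_injective hinj), hcard]
  · intro t ht
    obtain ⟨s, hs, rfl⟩ := Finset.mem_image.1 ht
    exact hnet s (hn s hs)
  · intro t ht
    obtain ⟨s, hs, rfl⟩ := Finset.mem_image.1 ht
    intro p hp
    obtain ⟨q, hq, rfl⟩ := Finset.mem_image.1 (Finset.mem_coe.1 hp)
    show τ (σ q) ∈ S
    rw [hστ]
    exact hsub s hs hq
  · intro s hs t ht hst
    obtain ⟨s', hs', rfl⟩ := Finset.mem_image.1 hs
    obtain ⟨t', ht', rfl⟩ := Finset.mem_image.1 ht
    rw [Finset.disjoint_image hinj]
    refine hdis s' hs' t' ht' ?_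
    rintro rfl
    exact hst rfl

theorem pA5 (hA2 : tA2) (hA3 : tA3) : tA5 := by
  constructor
  · intro S N i j h
    exact A5_transport (fun p => (p.1 + i, p.2 + j)) (fun p => (p.1 - i, p.2 - j))
      (fun q => by simp) (fun t ht => hA2 1 t i j ht) S N h
  · intro S N c k h
    induction k with
    | zero => exact h
    | succ k ih =>
      have h1 := A5_transport (fun p => (c - 1 - p.2, p.1)) (fun p => (p.2, c - 1 - p.1))
        (fun q => by simp) (fun t ht => by
          have h2 := hA2 1 _ (c - 1) 0 (hA3 1 t ht)
          have h3 : shift (c - 1) 0 (t.image (fun p => (-p.2, p.1))) =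
              t.image (fun p => (c - 1 - p.2, p.1)) := by
            unfold shift
            rw [Finset.image_image]
            congr 1
            funext p
            simp only [Function.comp]
            ext
            · simp only; ring
            · simp
          rw [h3] at h2
          exact h2) {p | fr c k p ∈ S} N ih
      exact h1

end RCN
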