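import Pool.Agent.RCN.Targets

/-!
# From a nest with the right number of tiles to a division (A6)
-/

set_option autoImplicit false

namespace RCN

theorem pA6 (hA1 : tA1) : tA6 := by
  intro b c Q P hbc hQ hP hN
  obtain ⟨hQP, T, hTc, hTn, hTs, hTd⟩ := hN
  have hdis : ∀ t ∈ T, Disjoint Q t := by
    intro t ht
    rw [Finset.disjoint_left]
    intro x hxQ hxt
    exact (hTs t ht hxt).2 hxQ
  have hsub : Q ∪ T.biUnion id ⊆ P := by
    refine Finset.union_subset hQP ?_
    rw [Finset.biUnion_subset]
    intro t ht x hx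
    exact (hTs t ht hx).1
  have hcardT : (T.biUnion id).card = 6 * (c ^ 2 - b ^ 2) := by
    have h0 : (T.biUnion id).card = ∑ t ∈ T, (id t).card :=
      Finset.card_biUnion (t := id) (fun s hs t ht hst => hTd s hs t ht hst)
    rw [h0]
    have h1 : ∀ t ∈ T, (id t).card = 6 := by
      intro t ht
      have h2 := hA1 1 t (hTn t ht)
      simpa using h2
    rw [Finset.sum_congr rfl h1, Finset.sum_const, hTc, smul_eq_mul, mul_comm]
  have hd : Disjoint Q (T.biUnion id) := by
    rw [Finset.disjoint_biUnion_right]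
    intro t ht
    exact hdis t ht
  have hpow : b ^ 2 ≤ c ^ 2 := Nat.pow_le_pow_left hbc 2
  have hcard : P.card ≤ (Q ∪ T.biUnion id).card := by
    rw [Finset.card_union_of_disjoint hd, hcardT, hA1 b Q hQ, hA1 c P hP]
    omega
  exact ⟨P, Q, T, hP, hQ, hTn, hTc, hdis, hTd,
    (Finset.eq_of_subset_of_card_le hsub hcard).symm⟩

end RCN
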