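import Pool.Agent.RCN.Targets

/-!
# RCN-A7: nests may be composed and translated
-/

namespace RCN

/-- membership in a translated set of cells -/
lemma A7_mem_shift (i j : ℤ) (P : Finset Cell) (p : Cell) :
    p ∈ shift i j P ↔ ((p.1 - i, p.2 - j) : Cell) ∈ P := by
  unfold shift
  rw [Finset.mem_image]
  constructor
  · rintro ⟨a, ha, rfl⟩
    have h : ((a.1 + i - i, a.2 + j - j) : Cell) = a := by
      apply Prod.ext <;> simp
    rw [h]
    exact ha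
  · intro h
    refine ⟨_, h, ?_⟩
    apply Prod.ext <;> simp

theorem pA7 (hA4 : tA4) (hA5 : tA5) : tA7 := by
  obtain ⟨hmono, hunion, _⟩ := hA4
  obtain ⟨hshift, _⟩ := hA5
  refine ⟨?_, ?_, ?_⟩
  · rintro Q P R N M ⟨hQP, h1⟩ ⟨hPR, h2⟩
    refine ⟨hQP.trans hPR, ?_⟩
    have hd : Disjoint {p : Cell | p ∈ P ∧ p ∉ Q} {p : Cell | p ∈ R ∧ p ∉ P} := by
      rw [Set.disjoint_left]
      rintro p ⟨hp, _⟩ ⟨_, hp'⟩
      exact hp' hp
    refine hmono _ _ _ ?_ (hunion _ _ _ _ h1 h2 hd)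
    rintro p (⟨hp, hq⟩ | ⟨hp, hq⟩)
    · exact ⟨hPR hp, hq⟩
    · exact ⟨hp, fun h => hq (hQP h)⟩
  · rintro Q P N i j ⟨hQP, h1⟩
    refine ⟨Finset.image_subset_image hQP, ?_⟩
    refine hmono _ _ _ ?_ (hshift _ _ i j h1)
    rintro p ⟨hp, hq⟩
    exact ⟨(A7_mem_shift i j P p).2 hp, fun h => hq ((A7_mem_shift i j Q p).1 h)⟩
  · intro P i j k l
    ext p
    rw [A7_mem_shift, A7_mem_shift, A7_mem_shift]
    have h : ((p.1 - i - k, p.2 - j - l) : Cell) = (p.1 - (i + k), p.2 - (j + l)) := by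
      apply Prod.ext <;> simp <;> ring
    simp only [h]

end RCN
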