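import Pool.Agent.RCN.Targets

/-!
# RCN, target tFC: steps of type C for all sizes (helper86)
-/

namespace RCN

/-- one step: the size grows by 2, the number of tiles of one arm by 2 -/
theorem FC_step (hT1 : tT1) (hT2 : tT2) (hT4 : tT4) (c : ℤ) (hc : 6 ≤ c) (mk N : ℕ)
    (h : Pack (TReg c 1 1 1 1 mk mk 6 2 (3 * c - 1) c) N) :
    Pack (TReg (c + 2) 1 1 1 1 mk mk 6 2 (3 * (c + 2) - 1) (c + 2)) (N + 2) := by
  have h1 := hT1 c 1 1 1 1 mk mk 6 2 (3 * c - 1) c N h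
  have h2 := hT2 (c + 2) 1 1 1 1 mk mk 6 2 (3 * c - 1) c N 1 (by norm_num) le_rfl (by norm_num)
    (by norm_num) (by omega) (by omega) (by norm_num) (by push_cast; omega) h1
  have h3 := hT4 (c + 2) 1 1 1 1 mk mk 6 2 (3 * c - 1 + 6) c (N + 1) le_rfl le_rfl (by omega)
    (by omega) (by omega) (by norm_num) h2
  have e : 3 * (c + 2) - 1 = 3 * c - 1 + 6 := by ring
  rw [e]
  exact h3

/-- the same, any number of steps -/
theorem FC_steps (hT1 : tT1) (hT2 : tT2) (hT4 : tT4) (n0 : ℕ) (hn : 4 ≤ n0) (mk N : ℕ)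
    (h : Pack (TReg ((n0 : ℤ) + 2) 1 1 1 1 mk mk 6 2 (3 * ((n0 : ℤ) + 2) - 1) ((n0 : ℤ) + 2)) N)
    (m : ℕ) :
    Pack (TReg ((n0 : ℤ) + 2 * m + 2) 1 1 1 1 mk mk 6 2 (3 * ((n0 : ℤ) + 2 * m + 2) - 1)
      ((n0 : ℤ) + 2 * m + 2)) (N + 2 * m) := by
  induction m with
  | zero => simpa using h
  | succ m ih =>
    have h1 := FC_step hT1 hT2 hT4 ((n0 : ℤ) + 2 * m + 2) (by omega) mk (N + 2 * m) ih
    have e : (n0 : ℤ) + 2 * ((m + 1 : ℕ) : ℤ) + 2 = (n0 : ℤ) + 2 * m + 2 + 2 := by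
      push_cast; ring
    have e2 : N + 2 * (m + 1) = N + 2 * m + 2 := by ring
    rw [e, e2]
    exact h1

/-- Type C for all sizes. -/
theorem pFC (hT1 : tT1) (hT2 : tT2) (hT4 : tT4) (hSC : tSC) : tFC := by
  intro D n0 N N0 N1 N2 N3 hn hOK h0 h1 h2 h3 hsum m
  have hb := (hOK m).1
  have hc := hOK (m + 1)
  have e : (n0 : ℤ) + 2 * ((m + 1 : ℕ) : ℤ) = (n0 : ℤ) + 2 * m + 2 := by push_cast; ring
  rw [e] at hc
  have k0 := FC_steps hT1 hT2 hT4 n0 hn D.m0 N0 h0 m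
  have k1 := FC_steps hT1 hT2 hT4 n0 hn D.m1 N1 h1 m
  have k2 := FC_steps hT1 hT2 hT4 n0 hn D.m2 N2 h2 m
  have k3 := FC_steps hT1 hT2 hT4 n0 hn D.m3 N3 h3 m
  have h := hSC D ((n0 : ℤ) + 2 * m) N (N0 + 2 * m) (N1 + 2 * m) (N2 + 2 * m) (N3 + 2 * m)
    (by omega) hc.1 hb hc.2 k0 k1 k2 k3
  have e3 : N0 + 2 * m + (N1 + 2 * m) + (N2 + 2 * m) + (N3 + 2 * m) = 4 * (n0 + 2 * m) + 4 := by
    omega
  rw [e3] at h
  exact h

end RCN
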