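import Pool.Agent.RCN.Targets

/-!
# RCN: the family of steps of type D
-/

namespace RCN

/-- one period (the size grows by 6) of an arm region -/
theorem FD_step (hT1 : tT1) (hT2 : tT2) (hT3 : tT3) (c go go' gi gi' : ℤ) (mo mi : ℕ)
    (dp dq A B : ℤ) (N l e : ℕ) (h0 : 0 ≤ go) (h1 : go ≤ 1) (h2 : 0 ≤ go') (h3 : 0 ≤ gi')
    (h4 : gi ≤ 1) (hA : 5 ≤ A) (hA' : 5 + dp ≤ A) (hl : dq + gi - go = 2 * (l : ℤ))
    (hB : go + 2 * (l : ℤ) - 1 ≤ B) (hB1 : 4 ≤ B) (hB2 : 4 + dq ≤ B) (hA2 : dp - gi' ≤ A)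
    (he : dp + go' - gi' = 2 * (e : ℤ)) (h : Pack (TReg c go go' gi gi' mo mi dp dq A B) N) :
    Pack (TReg (c + 6) go go' gi gi' mo mi dp dq (A + 18) (B + 6)) (N + 3 * l + e) := by
  have a1 := hT1 _ _ _ _ _ _ _ _ _ _ _ _ (hT1 _ _ _ _ _ _ _ _ _ _ _ _
    (hT1 _ _ _ _ _ _ _ _ _ _ _ _ h))
  have e1 : c + 2 + 2 + 2 = c + 6 := by ring
  rw [e1] at a1
  have a2 := hT2 _ _ _ _ _ _ _ _ _ _ _ _ l h0 h1 h2 h3 hA hA' hl hB a1
  have a3 := hT2 _ _ _ _ _ _ _ _ _ _ _ _ l h0 h1 h2 h3 (by omega) (by omega) hl hB a2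
  have a4 := hT2 _ _ _ _ _ _ _ _ _ _ _ _ l h0 h1 h2 h3 (by omega) (by omega) hl hB a3
  have a5 := hT3 _ _ _ _ _ _ _ _ _ _ _ _ e h1 h4 hB1 hB2 (by omega) he a4
  have e2 : A + 6 + 6 + 6 = A + 18 := by ring
  have e3 : N + l + l + l + e = N + 3 * l + e := by ring
  rw [e2, e3] at a5
  exact a5

/-- a diagonal strip of width two is a union of blocks -/
theorem FD_strip (hA4 : tA4) (hU3 : tU3) (P Q : ℤ) (R : ℕ) :
    Pack {p : Cell | P ≤ p.1 - p.2 ∧ p.1 - p.2 ≤ P + 6 * (R : ℤ) - 1 ∧ Q ≤ p.1 + p.2 ∧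
      p.1 + p.2 ≤ Q + 1} R := by
  induction R with
  | zero => exact hA4.2.2 _
  | succ R ih =>
    have h1 := (hU3 (P + 6 * (R : ℤ)) Q).1
    have h2 := hA4.2.1 _ _ _ _ ih h1 (by
      rw [Set.disjoint_left]
      intro p hp hp'
      have a := hp.2.1
      have b := hp'.1
      omega)
    refine hA4.1 _ _ _ ?_ h2
    intro p hp
    simp only [Set.mem_union, Set.mem_setOf_eq] at hp ⊢
    push_cast
    omega

/-- the corner region is translated -/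
theorem FD_T (hA5 : tA5) (q0 d c : ℤ) (N : ℕ) (h : Pack (regT q0 d c) N) :
    Pack (regT q0 d (c + 6)) N := by
  have h1 := hA5.1 _ _ 12 (-6) h
  have e1 : {p : Cell | ((p.1 - 12, p.2 - (-6)) : Cell) ∈ regT q0 d c} = regT q0 d (c + 6) := by
    ext p
    simp only [regT, Set.mem_setOf_eq]
    omega
  rw [e1] at h1
  exact h1

/-- the strip along the arm 0 -/
theorem FD_F (hA4 : tA4) (hU3 : tU3) (d pf c : ℤ) (R : ℕ)
    (hR : 2 * c - d - 1 - pf = 6 * (R : ℤ)) : Pack (regF d pf c) R := by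
  refine hA4.1 _ _ _ ?_ (FD_strip hA4 hU3 (c + pf + 1) (c - 2) R)
  intro p hp
  simp only [regF, Set.mem_setOf_eq] at hp ⊢
  omega

theorem FD_arm0 (hT1 : tT1) (hT2 : tT2) (hT3 : tT3) (O I : Pin) (q0 pL c : ℤ) (N : ℕ)
    (hc : 12 ≤ c) (hq : 7 ≤ c + q0) (h : Pack (regD O I q0 pL c 0) N) :
    Pack (regD O I q0 pL (c + 6) 0) (N + 8) := by
  have h1 := FD_step hT1 hT2 hT3 c 1 1 1 0 O.m0 I.m0 9 2 (3 * c - 1) (c + q0 - 1) N 1 5
    (by norm_num) (by norm_num) (by norm_num) (by norm_num) (by norm_num) (by omega) (by omega)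
    (by norm_num) (by push_cast; omega) (by omega) (by omega) (by omega) (by norm_num) h
  have e1 : 3 * c - 1 + 18 = 3 * (c + 6) - 1 := by ring
  have e2 : c + q0 - 1 + 6 = c + 6 + q0 - 1 := by ring
  rw [e1, e2] at h1
  exact h1

theorem FD_arm1 (hT1 : tT1) (hT2 : tT2) (hT3 : tT3) (O I : Pin) (q0 pL c : ℤ) (N : ℕ)
    (hc : 12 ≤ c) (hq : pL ≤ 12) (h : Pack (regD O I q0 pL c 1) N) :
    Pack (regD O I q0 pL (c + 6) 1) (N + 8) := by
  have h1 := FD_step hT1 hT2 hT3 c 1 1 0 1 O.m1 I.m1 10 3 (3 * c - (pL + 1)) c N 1 5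
    (by norm_num) (by norm_num) (by norm_num) (by norm_num) (by norm_num) (by omega) (by omega)
    (by norm_num) (by push_cast; omega) (by omega) (by omega) (by omega) (by norm_num) h
  have e1 : 3 * c - (pL + 1) + 18 = 3 * (c + 6) - (pL + 1) := by ring
  rw [e1] at h1
  exact h1

theorem FD_arm2 (hT1 : tT1) (hT2 : tT2) (hT3 : tT3) (O I : Pin) (q0 pL c : ℤ) (N : ℕ)
    (hc : 12 ≤ c) (h : Pack (regD O I q0 pL c 2) N) :
    Pack (regD O I q0 pL (c + 6) 2) (N + 11) := by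
  have h1 := FD_step hT1 hT2 hT3 c 1 1 1 0 O.m2 I.m2 9 4 (3 * c - 1) c N 2 5
    (by norm_num) (by norm_num) (by norm_num) (by norm_num) (by norm_num) (by omega) (by omega)
    (by norm_num) (by push_cast; omega) (by omega) (by omega) (by omega) (by norm_num) h
  have e1 : 3 * c - 1 + 18 = 3 * (c + 6) - 1 := by ring
  rw [e1] at h1
  exact h1

theorem FD_arm3 (hT1 : tT1) (hT2 : tT2) (hT3 : tT3) (O I : Pin) (q0 pL c : ℤ) (N : ℕ)
    (hc : 12 ≤ c) (h : Pack (regD O I q0 pL c 3) N) :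
    Pack (regD O I q0 pL (c + 6) 3) (N + 7) := by
  have h1 := FD_step hT1 hT2 hT3 c 1 1 0 1 O.m3 I.m3 8 3 (3 * c - 1) c N 1 4
    (by norm_num) (by norm_num) (by norm_num) (by norm_num) (by norm_num) (by omega) (by omega)
    (by norm_num) (by push_cast; omega) (by omega) (by omega) (by omega) (by norm_num) h
  have e1 : 3 * c - 1 + 18 = 3 * (c + 6) - 1 := by ring
  rw [e1] at h1
  exact h1

theorem pFD (hT1 : tT1) (hT2 : tT2) (hT3 : tT3) (hA4 : tA4) (hA5 : tA5) (hU3 : tU3)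
    (hSD : tSD) : tFD := by
  intro O I q0 d pf pL b0 r N M N0 N1 N2 N3 N4 N6 hb hq1 hq2 hq3 hd1 hd2 hp1 hp2 hL1 hL2 hr hOK
    h0 h1 h2 h3 h4 h6 hN m
  have key : ∀ m : ℕ, Pack (regD O I q0 pL ((b0 : ℤ) + 6 * (m : ℤ) + 3) 0) (N0 + 8 * m) ∧
      Pack (regD O I q0 pL ((b0 : ℤ) + 6 * (m : ℤ) + 3) 1) (N1 + 8 * m) ∧
      Pack (regD O I q0 pL ((b0 : ℤ) + 6 * (m : ℤ) + 3) 2) (N2 + 11 * m) ∧
      Pack (regD O I q0 pL ((b0 : ℤ) + 6 * (m : ℤ) + 3) 3) (N3 + 7 * m) ∧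
      Pack (regT q0 d ((b0 : ℤ) + 6 * (m : ℤ) + 3)) N4 := by
    intro m
    induction m with
    | zero =>
      have e : (b0 : ℤ) + 6 * ((0 : ℕ) : ℤ) + 3 = (b0 : ℤ) + 3 := by push_cast; ring
      rw [e]
      exact ⟨h0, h1, h2, h3, h4⟩
    | succ m ih =>
      obtain ⟨i0, i1, i2, i3, i4⟩ := ih
      have e : (b0 : ℤ) + 6 * ((m + 1 : ℕ) : ℤ) + 3 = ((b0 : ℤ) + 6 * (m : ℤ) + 3) + 6 := by
        push_cast; ring
      rw [e]
      have j0 := FD_arm0 hT1 hT2 hT3 O I q0 pL _ _ (by omega) (by omega) i0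
      have j1 := FD_arm1 hT1 hT2 hT3 O I q0 pL _ _ (by omega) (by omega) i1
      have j2 := FD_arm2 hT1 hT2 hT3 O I q0 pL _ _ (by omega) i2
      have j3 := FD_arm3 hT1 hT2 hT3 O I q0 pL _ _ (by omega) i3
      have j4 := FD_T hA5 q0 d _ _ i4
      have e0 : N0 + 8 * (m + 1) = N0 + 8 * m + 8 := by ring
      have e1 : N1 + 8 * (m + 1) = N1 + 8 * m + 8 := by ring
      have e2 : N2 + 11 * (m + 1) = N2 + 11 * m + 11 := by ring
      have e3 : N3 + 7 * (m + 1) = N3 + 7 * m + 7 := by ring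
      rw [e0, e1, e2, e3]
      exact ⟨j0, j1, j2, j3, j4⟩
  obtain ⟨k0, k1, k2, k3, k4⟩ := key m
  have k5 : Pack (regF d pf ((b0 : ℤ) + 6 * (m : ℤ) + 3)) (r + 2 * m) :=
    FD_F hA4 hU3 d pf _ _ (by push_cast; omega)
  have hfin := hSD O I q0 d pf pL ((b0 : ℤ) + 6 * (m : ℤ)) N M _ _ _ _ _ _ _ (by omega) hq1 hq2
    (by omega) hd1 hd2 hp1 hp2 hL1 hL2 (by omega) (hOK m).1 (hOK m).2.1 (hOK m).2.2
    k0 k1 k2 k3 k4 k5 h6
  have ec : N0 + 8 * m + (N1 + 8 * m) + (N2 + 11 * m) + (N3 + 7 * m) + N4 + (r + 2 * m) + N6 =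
      6 * (b0 + 6 * m) + 9 := by omega
  rw [ec] at hfin
  exact hfin

end RCN
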