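import Pool.Agent.RCN.Targets

/-!
# Type M for all sizes of a class modulo 6 (`tFM`)
-/

namespace RCN

/-- one step of a region `TReg`: `c` grows by 6, `A` by 18, `B` by 6 -/
lemma FM_gen (hT1 : tT1) (hT2 : tT2) (hT3 : tT3) (c go go' gi gi' : ℤ) (mo mi : ℕ)
    (dp dq A B : ℤ) (N l e : ℕ) (h1 : 0 ≤ go) (h2 : go ≤ 1) (h3 : 0 ≤ go') (h4 : 0 ≤ gi')
    (h5 : gi ≤ 1) (h6 : 5 ≤ A) (h7 : 5 + dp ≤ A) (h8 : dq + gi - go = 2 * (l : ℤ))
    (h9 : go + 2 * (l : ℤ) - 1 ≤ B) (h10 : 4 ≤ B) (h11 : 4 + dq ≤ B) (h12 : dp - gi' ≤ A)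
    (h13 : dp + go' - gi' = 2 * (e : ℤ))
    (h : Pack (TReg c go go' gi gi' mo mi dp dq A B) N) :
    Pack (TReg (c + 6) go go' gi gi' mo mi dp dq (A + 18) (B + 6)) (N + (3 * l + e)) := by
  have a1 := hT1 _ _ _ _ _ _ _ _ _ _ _ _ h
  have a2 := hT1 _ _ _ _ _ _ _ _ _ _ _ _ a1
  have a3 := hT1 _ _ _ _ _ _ _ _ _ _ _ _ a2
  have b1 := hT2 _ _ _ _ _ _ _ _ _ _ _ _ l h1 h2 h3 h4 h6 h7 h8 h9 a3
  have b2 := hT2 _ _ _ _ _ _ _ _ _ _ _ _ l h1 h2 h3 h4 (by linarith) (by linarith) h8 h9 b1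
  have b3 := hT2 _ _ _ _ _ _ _ _ _ _ _ _ l h1 h2 h3 h4 (by linarith) (by linarith) h8 h9 b2
  have c1 := hT3 _ _ _ _ _ _ _ _ _ _ _ _ e h2 h5 h10 h11 (by linarith [h12]) h13 b3
  have e1 : c + 2 + 2 + 2 = c + 6 := by ring
  have e2 : A + 6 + 6 + 6 = A + 18 := by ring
  have e3 : N + l + l + l + e = N + (3 * l + e) := by ring
  rw [e1, e2, e3] at c1
  exact c1

lemma FM_step0 (hT1 : tT1) (hT2 : tT2) (hT3 : tT3) (O I : Pin) (c : ℤ) (N : ℕ) (hc : 6 ≤ c)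
    (h : Pack (regM O I c 0) N) : Pack (regM O I (c + 6) 0) (N + 1) := by
  have h' : Pack (TReg c 1 0 1 1 O.m0 I.m0 3 0 (3 * c - 1) (c - 1)) N := h
  have g := FM_gen hT1 hT2 hT3 c 1 0 1 1 O.m0 I.m0 3 0 (3 * c - 1) (c - 1) N 0 1 (by norm_num)
    (by norm_num) (by norm_num) (by norm_num) (by norm_num) (by linarith) (by linarith)
    (by norm_num) (by push_cast; linarith) (by linarith) (by linarith) (by linarith)
    (by norm_num) h'
  have e2 : 3 * c - 1 + 18 = 3 * (c + 6) - 1 := by ring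
  have e3 : c - 1 + 6 = c + 6 - 1 := by ring
  rw [e2, e3] at g
  exact g

lemma FM_step1 (hT1 : tT1) (hT2 : tT2) (hT3 : tT3) (O I : Pin) (c : ℤ) (N : ℕ) (hc : 6 ≤ c)
    (h : Pack (regM O I c 1) N) : Pack (regM O I (c + 6) 1) (N + 5) := by
  have h' : Pack (TReg c 0 1 1 1 O.m1 I.m1 4 1 (3 * c) c) N := h
  have g := FM_gen hT1 hT2 hT3 c 0 1 1 1 O.m1 I.m1 4 1 (3 * c) c N 1 2 (by norm_num)
    (by norm_num) (by norm_num) (by norm_num) (by norm_num) (by linarith) (by linarith)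
    (by norm_num) (by push_cast; linarith) (by linarith) (by linarith) (by linarith)
    (by norm_num) h'
  have e2 : 3 * c + 18 = 3 * (c + 6) := by ring
  rw [e2] at g
  exact g

lemma FM_step2 (hT1 : tT1) (hT2 : tT2) (hT3 : tT3) (O I : Pin) (c : ℤ) (N : ℕ) (hc : 6 ≤ c)
    (h : Pack (regM O I c 2) N) : Pack (regM O I (c + 6) 2) (N + 5) := by
  have h' : Pack (TReg c 1 1 1 0 O.m2 I.m2 3 2 (3 * c - 1) c) N := h
  have g := FM_gen hT1 hT2 hT3 c 1 1 1 0 O.m2 I.m2 3 2 (3 * c - 1) c N 1 2 (by norm_num)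
    (by norm_num) (by norm_num) (by norm_num) (by norm_num) (by linarith) (by linarith)
    (by norm_num) (by push_cast; linarith) (by linarith) (by linarith) (by linarith)
    (by norm_num) h'
  have e2 : 3 * c - 1 + 18 = 3 * (c + 6) - 1 := by ring
  rw [e2] at g
  exact g

lemma FM_step3 (hT1 : tT1) (hT2 : tT2) (hT3 : tT3) (O I : Pin) (c : ℤ) (N : ℕ) (hc : 6 ≤ c)
    (h : Pack (regM O I c 3) N) : Pack (regM O I (c + 6) 3) (N + 1) := by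
  have h' : Pack (TReg c 1 1 0 1 O.m3 I.m3 2 1 (3 * c - 1) c) N := h
  have g := FM_gen hT1 hT2 hT3 c 1 1 0 1 O.m3 I.m3 2 1 (3 * c - 1) c N 0 1 (by norm_num)
    (by norm_num) (by norm_num) (by norm_num) (by norm_num) (by linarith) (by linarith)
    (by norm_num) (by push_cast; linarith) (by linarith) (by linarith) (by linarith)
    (by norm_num) h'
  have e2 : 3 * c - 1 + 18 = 3 * (c + 6) - 1 := by ring
  rw [e2] at g
  exact g

/-- the four steps repeated `m` times -/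
lemma FM_iter (O I : Pin) (b0 k d : ℕ) (hb : 5 ≤ b0)
    (hs : ∀ (c : ℤ) (N : ℕ), 6 ≤ c → Pack (regM O I c k) N → Pack (regM O I (c + 6) k) (N + d))
    (N : ℕ) (h : Pack (regM O I (b0 + 1) k) N) (m : ℕ) :
    Pack (regM O I ((b0 : ℤ) + 6 * m + 1) k) (N + d * m) := by
  induction m with
  | zero =>
    have e : (b0 : ℤ) + 6 * ((0 : ℕ) : ℤ) + 1 = b0 + 1 := by push_cast; ring
    rw [e, Nat.mul_zero, Nat.add_zero]
    exact h
  | succ m ih =>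
    have hc : (6 : ℤ) ≤ (b0 : ℤ) + 6 * m + 1 := by
      have h1 : (5 : ℤ) ≤ (b0 : ℤ) := by exact_mod_cast hb
      have h2 : (0 : ℤ) ≤ (m : ℤ) := Int.natCast_nonneg m
      linarith
    have g := hs _ _ hc ih
    have e1 : (b0 : ℤ) + 6 * m + 1 + 6 = (b0 : ℤ) + 6 * ((m + 1 : ℕ) : ℤ) + 1 := by
      push_cast; ring
    have e2 : N + d * m + d = N + d * (m + 1) := by ring
    rw [e1, e2] at g
    exact g

/-- Type M for all sizes of a class modulo 6. -/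
theorem pFM (hT1 : tT1) (hT2 : tT2) (hT3 : tT3) (hSM : tSM) : tFM := by
  intro O I b0 N M N0 N1 N2 N3 hb0 hOK p0 p1 p2 p3 hsum m
  obtain ⟨hO, hI, hM⟩ := hOK m
  have q0 := FM_iter O I b0 0 1 hb0 (fun c N hc h => FM_step0 hT1 hT2 hT3 O I c N hc h) N0 p0 m
  have q1 := FM_iter O I b0 1 5 hb0 (fun c N hc h => FM_step1 hT1 hT2 hT3 O I c N hc h) N1 p1 m
  have q2 := FM_iter O I b0 2 5 hb0 (fun c N hc h => FM_step2 hT1 hT2 hT3 O I c N hc h) N2 p2 m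
  have q3 := FM_iter O I b0 3 1 hb0 (fun c N hc h => FM_step3 hT1 hT2 hT3 O I c N hc h) N3 p3 m
  have hb : (4 : ℤ) ≤ (b0 : ℤ) + 6 * m := by
    have h1 : (5 : ℤ) ≤ (b0 : ℤ) := by exact_mod_cast hb0
    have h2 : (0 : ℤ) ≤ (m : ℤ) := Int.natCast_nonneg m
    linarith
  have g := hSM O I ((b0 : ℤ) + 6 * m) N M (N0 + 1 * m) (N1 + 5 * m) (N2 + 5 * m) (N3 + 1 * m)
    hb hO hI hM q0 q1 q2 q3
  have e : N0 + 1 * m + (N1 + 5 * m) + (N2 + 5 * m) + (N3 + 1 * m) = 2 * (b0 + 6 * m) + 1 := by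
    have h1 : N0 + 1 * m + (N1 + 5 * m) + (N2 + 5 * m) + (N3 + 1 * m)
        = (N0 + N1 + N2 + N3) + 12 * m := by ring
    rw [h1, hsum]; ring
  rw [e] at g
  exact g

end RCN
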