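import Pool.Agent.RCN.Targets

/-!
# RCN: composition with the chain of steps of type C (tFX)
-/

namespace RCN

theorem FX_chain (hA2 : tA2) (hA7 : tA7) (D : Pin) (b n : ℕ) (Q : Finset Cell) (hb : b ≤ n)
    (hC : ∀ m : ℕ, Nest (shift 1 1 (D.set (n + 2 * m))) (D.set (n + 2 * m + 2))
      (4 * (n + 2 * m) + 4))
    (hQ : IsCubeNet b Q) (hN : Nest Q (D.set n) (n ^ 2 - b ^ 2)) (k : ℕ) :
    ∃ Q' : Finset Cell, IsCubeNet b Q' ∧ Nest Q' (D.set ((n + 2 * k : ℕ) : ℤ))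
      ((n + 2 * k) ^ 2 - b ^ 2) := by
  induction k with
  | zero => exact ⟨Q, hQ, hN⟩
  | succ k ih =>
    obtain ⟨Q', h1, h2⟩ := ih
    refine ⟨shift 1 1 Q', hA2 b Q' 1 1 h1, ?_⟩
    have h3 := hA7.2.1 Q' _ _ 1 1 h2
    have e1 : ((n + 2 * k : ℕ) : ℤ) = (n : ℤ) + 2 * (k : ℤ) := by push_cast; ring
    have e2 : ((n + 2 * (k + 1) : ℕ) : ℤ) = (n : ℤ) + 2 * (k : ℤ) + 2 := by push_cast; ring
    rw [e1] at h3
    have h4 := hA7.1 _ _ _ _ _ h3 (hC k)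
    rw [e2]
    have hle : b ^ 2 ≤ (n + 2 * k) ^ 2 := Nat.pow_le_pow_left (by omega) 2
    have e3 : (n + 2 * (k + 1)) ^ 2 = (n + 2 * k) ^ 2 + (4 * (n + 2 * k) + 4) := by ring
    have e4 : (n + 2 * (k + 1)) ^ 2 - b ^ 2 = (n + 2 * k) ^ 2 - b ^ 2 + (4 * (n + 2 * k) + 4) := by
      rw [e3]
      exact Nat.sub_add_comm hle
    rw [e4]
    exact h4

theorem pFX (hA2 : tA2) (hA6 : tA6) (hA7 : tA7) (hP11 : tP11) : tFX := by
  intro D N b n Q hN4 hNn hb hOK hC hQ hN k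
  obtain ⟨Q', h1, h2⟩ := FX_chain hA2 hA7 D b n Q hb hC hQ hN k
  have e1 : ((n + 2 * k : ℕ) : ℤ) = (n : ℤ) + 2 * (k : ℤ) := by push_cast; ring
  have hOK' : D.OK ((n + 2 * k : ℕ) : ℤ) N := by
    rw [e1]
    exact hOK k
  have hle : N ≤ ((n + 2 * k : ℕ) : ℤ) := by
    rw [e1]
    omega
  exact hA6 b (n + 2 * k) Q' _ (by omega) h1 (hP11 D (n + 2 * k) N hN4 hle hOK') h2

end RCN
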