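import Pool.Agent.RCN.HTargets

/-!
# A cell-by-cell net without holes and touching corners is a net in the topological sense
-/

namespace RCN

open Pool.Agent.RepCube (NoHoles IsNet CNet ctr Valid)

/-- a vector as a function -/
def H1_vec (a : Vec) : Fin 3 → ℤ := ![a.1, a.2.1, a.2.2]

/-- corner of a placement -/
def H1_cor (s : Placement) : Fin 3 → ℤ := fun i => (H1_vec s.o i - H1_vec s.u i - H1_vec s.v i) / 2

theorem H1_vec_inj {a b : Vec} (h : H1_vec a = H1_vec b) : a = b := by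
  obtain ⟨a1, a2, a3⟩ := a
  obtain ⟨b1, b2, b3⟩ := b
  have h0 := congrFun h 0
  have h1 := congrFun h 1
  have h2 := congrFun h 2
  simp only [H1_vec, Matrix.cons_val_zero, Matrix.cons_val_one, Matrix.cons_val] at h0 h1 h2
  rw [h0, h1, h2]

theorem H1_vec_add (a b : Vec) (i : Fin 3) : H1_vec (a + b) i = H1_vec a i + H1_vec b i := by
  fin_cases i <;> rfl

theorem H1_vec_sub (a b : Vec) (i : Fin 3) : H1_vec (a - b) i = H1_vec a i - H1_vec b i := by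
  fin_cases i <;> rfl

theorem H1_bd {a b : ℤ} (h : a * a + b * b = 1) : -1 ≤ a ∧ a ≤ 1 ∧ -1 ≤ b ∧ b ≤ 1 := by
  refine ⟨?_, ?_, ?_, ?_⟩ <;> nlinarith [mul_self_nonneg a, mul_self_nonneg b]

theorem H1_two {a b c d : ℤ} (h1 : a * a + b * b = 1) (h2 : c * c + d * d = 1)
    (h3 : a * c + b * d = 0) :
    ((a = 1 ∨ a = -1) ∧ b = 0 ∧ c = 0 ∧ (d = 1 ∨ d = -1)) ∨
      (a = 0 ∧ (b = 1 ∨ b = -1) ∧ (c = 1 ∨ c = -1) ∧ d = 0) := by
  obtain ⟨a1, a2, b1, b2⟩ := H1_bd h1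
  obtain ⟨c1, c2, d1, d2⟩ := H1_bd h2
  interval_cases a <;> interval_cases b <;> interval_cases c <;> interval_cases d <;> simp_all

/-- the three coordinates of a placement on the cube -/
def H1_Tri (n : ℤ) (s : Placement) (i j k : Fin 3) : Prop :=
  End n (H1_vec s.o i) ∧ H1_vec s.u i = 0 ∧ H1_vec s.v i = 0 ∧ Mid n (H1_vec s.o j) ∧
    (H1_vec s.u j = 1 ∨ H1_vec s.u j = -1) ∧ H1_vec s.v j = 0 ∧ Mid n (H1_vec s.o k) ∧
    H1_vec s.u k = 0 ∧ (H1_vec s.v k = 1 ∨ H1_vec s.v k = -1)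

theorem H1_tri {n : ℤ} {s : Placement} (h : OnCube n s) :
    ∃ i j k : Fin 3, i ≠ j ∧ j ≠ k ∧ i ≠ k ∧ H1_Tri n s i j k := by
  obtain ⟨h1, h2, h3, h4⟩ := h
  unfold dot at h1 h2 h3
  rcases h4 with ⟨e, m, m', u, v⟩ | ⟨m, e, m', u, v⟩ | ⟨m, m', e, u, v⟩
  · rw [u] at h1 h3
    rw [v] at h2 h3
    rcases H1_two (a := s.u.2.1) (b := s.u.2.2) (c := s.v.2.1) (d := s.v.2.2) (by linarith)
      (by linarith) (by linarith) with ⟨a, b, c, d⟩ | ⟨a, b, c, d⟩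
    · exact ⟨0, 1, 2, by decide, by decide, by decide, e, u, v, m, a, c, m', b, d⟩
    · exact ⟨0, 2, 1, by decide, by decide, by decide, e, u, v, m', b, d, m, a, c⟩
  · rw [u] at h1 h3
    rw [v] at h2 h3
    rcases H1_two (a := s.u.1) (b := s.u.2.2) (c := s.v.1) (d := s.v.2.2) (by linarith)
      (by linarith) (by linarith) with ⟨a, b, c, d⟩ | ⟨a, b, c, d⟩
    · exact ⟨1, 0, 2, by decide, by decide, by decide, e, u, v, m, a, c, m', b, d⟩
    · exact ⟨1, 2, 0, by decide, by decide, by decide, e, u, v, m', b, d, m, a, c⟩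
  · rw [u] at h1 h3
    rw [v] at h2 h3
    rcases H1_two (a := s.u.1) (b := s.u.2.1) (c := s.v.1) (d := s.v.2.1) (by linarith)
      (by linarith) (by linarith) with ⟨a, b, c, d⟩ | ⟨a, b, c, d⟩
    · exact ⟨2, 0, 1, by decide, by decide, by decide, e, u, v, m, a, c, m', b, d⟩
    · exact ⟨2, 1, 0, by decide, by decide, by decide, e, u, v, m', b, d, m, a, c⟩

theorem H1_valid {n : ℤ} {s : Placement} (h : OnCube n s) :
    Valid n (H1_cor s) (H1_vec s.u) (H1_vec s.v) := by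
  obtain ⟨i, j, k, hij, hjk, hik, e, ui, vi, mj, uj, vj, mk, uk, vk⟩ := H1_tri h
  obtain ⟨oj, lj, gj⟩ := mj
  obtain ⟨ok, lk, gk⟩ := mk
  rw [Int.odd_iff] at oj ok
  unfold End at e
  refine ⟨i, j, k, hij, hjk, hik, ?_, ui, vi, uj, uk, vj, vk, ?_⟩
  · simp only [H1_cor, ui, vi]
    omega
  · simp only [H1_cor, uk, vj]
    omega

theorem H1_ctr {n : ℤ} {s : Placement} (h : OnCube n s) :
    ctr (H1_cor s) (H1_vec s.u) (H1_vec s.v) = H1_vec s.o := by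
  obtain ⟨i, j, k, hij, hjk, hik, e, ui, vi, mj, uj, vj, mk, uk, vk⟩ := H1_tri h
  obtain ⟨oj, lj, gj⟩ := mj
  obtain ⟨ok, lk, gk⟩ := mk
  rw [Int.odd_iff] at oj ok
  unfold End at e
  funext m
  simp only [ctr, H1_cor]
  rcases Pool.Agent.RepCube.fin3_cases hij hjk hik m with rfl | rfl | rfl
  · rw [ui, vi]; omega
  · rw [vj]; omega
  · rw [uk]; omega

theorem H1_surf {n : ℤ} {s : Placement} (h : OnCube n s) : Surf n s.o := by
  obtain ⟨-, -, -, h4⟩ := h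
  rcases h4 with ⟨e, m, m', -, -⟩ | ⟨m, e, m', -, -⟩ | ⟨m, m', e, -, -⟩
  · exact Or.inl ⟨e, m, m'⟩
  · exact Or.inr (Or.inl ⟨m, e, m'⟩)
  · exact Or.inr (Or.inr ⟨m, m', e⟩)

theorem H1_ex {n : ℤ} {i j k : Fin 3} (hij : i ≠ j) (hjk : j ≠ k) (hik : i ≠ k) {a b c : ℤ}
    (ha : End n a) (hb : Mid n b) (hc : Mid n c) :
    ∃ o : Vec, Surf n o ∧ H1_vec o i = a ∧ H1_vec o j = b ∧ H1_vec o k = c := by
  fin_cases i <;> fin_cases j <;> fin_cases k <;>
    first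
    | exact absurd rfl hij
    | exact absurd rfl hjk
    | exact absurd rfl hik
    | exact ⟨(a, b, c), Or.inl ⟨ha, hb, hc⟩, rfl, rfl, rfl⟩
    | exact ⟨(a, c, b), Or.inl ⟨ha, hc, hb⟩, rfl, rfl, rfl⟩
    | exact ⟨(b, a, c), Or.inr (Or.inl ⟨hb, ha, hc⟩), rfl, rfl, rfl⟩
    | exact ⟨(c, a, b), Or.inr (Or.inl ⟨hc, ha, hb⟩), rfl, rfl, rfl⟩
    | exact ⟨(b, c, a), Or.inr (Or.inr ⟨hb, hc, ha⟩), rfl, rfl, rfl⟩
    | exact ⟨(c, b, a), Or.inr (Or.inr ⟨hc, hb, ha⟩), rfl, rfl, rfl⟩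

theorem H1_r {s t : Placement} (h : GlueR s t) (i : Fin 3) :
    H1_cor t i = H1_cor s i + H1_vec s.u i := by
  have h1 := congrArg (fun a => H1_vec a i) h.1
  simp only [H1_vec_add, H1_vec_sub] at h1
  simp only [H1_cor, ← h.2]
  omega

theorem H1_u {s t : Placement} (h : GlueU s t) (i : Fin 3) :
    H1_cor t i = H1_cor s i + H1_vec s.v i := by
  have h1 := congrArg (fun a => H1_vec a i) h.1
  simp only [H1_vec_add, H1_vec_sub] at h1
  simp only [H1_cor, ← h.2]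
  omega

/-- the combinatorial net of helper31 -/
def H1_net {n : ℤ} {P : Finset Cell} {f : Cell → Placement} (hf : IsFolding n P f)
    (hp : NoPinch P) : CNet P n where
  p := fun c => H1_cor (f c)
  u := fun c => H1_vec (f c).u
  v := fun c => H1_vec (f c).v
  valid := fun c hc => H1_valid (hf.on c hc)
  hor := fun a b h1 h2 => by
    have h := hf.right a b h1 h2
    exact ⟨fun i => H1_r h i, fun i => by rw [h.2]⟩
  ver := fun a b h1 h2 => by
    have h := hf.up a b h1 h2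
    exact ⟨fun i => H1_u h i, fun i => by rw [h.2]⟩
  pinch1 := fun a b h1 h2 => (hp a b).1 h1 h2
  pinch2 := fun a b h1 h2 => (hp a b).2 h1 h2
  inj := fun c hc d hd h => by
    rw [H1_ctr (hf.on c hc), H1_ctr (hf.on d hd)] at h
    have h' := H1_vec_inj h
    exact (hf.once _ (H1_surf (hf.on d hd))).unique ⟨hc, h'⟩ ⟨hd, rfl⟩
  cov := fun i j k hij hjk hik a s t ha hs hs' ht ht' => by
    obtain ⟨o, ho, e1, e2, e3⟩ := H1_ex (n := n) hij hjk hik (a := 2 * a) (b := 2 * s + 1)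
      (c := 2 * t + 1) (by unfold End; omega) ⟨⟨s, rfl⟩, by omega, by omega⟩
      ⟨⟨t, rfl⟩, by omega, by omega⟩
    obtain ⟨c, ⟨hc, hco⟩, -⟩ := hf.once o ho
    refine ⟨c, hc, ?_⟩
    rw [H1_ctr (hf.on c hc), hco]
    exact ⟨e1, e2, e3⟩

/-- connectedness -/
theorem H1_conn {P : Finset Cell} {p q : Cell} (hp : p ∈ P)
    (h : Relation.ReflTransGen (fun a b => Adj a b ∧ b ∈ P) p q) :
    Relation.ReflTransGen (fun x y => x ∈ P ∧ y ∈ P ∧ Pool.Agent.RepCube.Adj x y) p q ∧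
      q ∈ P := by
  induction h with
  | refl => exact ⟨Relation.ReflTransGen.refl, hp⟩
  | tail _ hs ih =>
    refine ⟨ih.1.tail ⟨ih.2, hs.2, ?_⟩, hs.2⟩
    have h1 := hs.1
    unfold Adj at h1
    unfold Pool.Agent.RepCube.Adj
    omega

theorem pH1 : tH1 := by
  intro n P hn h
  obtain ⟨⟨⟨hne, hcon⟩, f, hf⟩, hp, hh⟩ := h
  exact (H1_net hf hp).isNet rfl hn
    ⟨hne, fun c hc d hd => (H1_conn hc (hcon c hc d hd)).1, hh⟩

end RCN
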