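import Pool.Agent.RCN.HTargets

/-!
# RCN, H10: explicit nest of an explicit list of cells in a pinwheel net
-/

set_option autoImplicit false

namespace RCN

theorem H10_arm (n g g' : ℤ) (m : ℕ) (x y : ℤ) :
    (decide (y < 0) && (core g g' m (x - y - 3 * n) (x + y + 1) &&
      decide (x + y + 1 ≤ n + g' - 1))) = true ↔ Arm n g g' m x y := by
  unfold Arm
  rw [Bool.and_eq_true, Bool.and_eq_true, decide_eq_true_iff, decide_eq_true_iff]

theorem H10_pinB (D : Pin) (n i j : ℤ) (p : Cell) :
    pinB D n i j p = true ↔ D.Mem n (p.1 - i) (p.2 - j) := by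
  unfold pinB Pin.Mem
  simp only [Bool.or_eq_true, H10_arm]
  refine or_congr ?_ Iff.rfl
  simp only [Bool.and_eq_true, decide_eq_true_iff, and_assoc]

theorem pH10 (hU4 : tU4) (hA4 : tA4) (hP2 : tP2) : tH10 := by
  intro O N c Q T hc hO hQ hT
  have hc' : (4 : ℤ) ≤ (c : ℤ) := by exact_mod_cast hc
  have hmem : ∀ p : Cell, pinB O c 0 0 p = true ↔ p ∈ O.set c := by
    rintro ⟨x, y⟩
    rw [H10_pinB, hP2 O c N x y hc' hO]
    simp only [sub_zero]
  constructor
  · intro p hp
    rw [List.mem_toFinset] at hp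
    exact (hmem p).1 (List.all_eq_true.1 hQ p hp)
  · refine hA4.1 _ _ _ ?_ (hU4 _ T hT)
    intro p hp
    have hp' : (pinB O c 0 0 p && !Q.contains p) = true := hp
    rw [Bool.and_eq_true] at hp'
    refine ⟨(hmem p).1 hp'.1, ?_⟩
    intro h
    rw [List.mem_toFinset] at h
    have h2 := hp'.2
    rw [List.contains_iff_mem.2 h] at h2
    exact absurd h2 (by decide)

end RCN
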