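import Pool.Agent.RCN.HTargets

/-!
# MP_404bc2_co: target tH11, explicit nest of a pinwheel net in a pinwheel net (helper49)
-/

set_option autoImplicit false

namespace RCN

theorem H11_pinB (D : Pin) (n i j : ℤ) (p : Cell) :
    pinB D n i j p = true ↔ D.Mem n (p.1 - i) (p.2 - j) := by
  unfold pinB Pin.Mem Arm
  simp only [Bool.or_eq_true, Bool.and_eq_true, decide_eq_true_eq, and_assoc]

theorem H11_range (a : ℤ) (k : ℕ) (x : ℤ) (h1 : a ≤ x) (h2 : x < a + k) : x ∈ intRange a k := by
  unfold intRange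
  rw [List.mem_map]
  refine ⟨((x - a).toNat : ℤ), ?_, by omega⟩
  simp only [List.pure_def, List.bind_eq_flatMap, List.mem_flatMap, List.mem_range,
    List.mem_singleton]
  exact ⟨(x - a).toNat, by omega, rfl⟩

theorem pH11 (hU4 : tU4) (hA4 : tA4) (hP2 : tP2) : tH11 := by
  intro O I N M b c i j T hb hc hO hI hincl hcert
  have hc' : (4 : ℤ) ≤ c := by exact_mod_cast hc
  have hb' : (4 : ℤ) ≤ b := by exact_mod_cast hb
  refine ⟨?_, ?_⟩
  · intro p hp
    unfold shift at hp
    rw [Finset.mem_image] at hp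
    obtain ⟨⟨x, y⟩, hxy, rfl⟩ := hp
    have hm : I.Mem b x y := (hP2 I b M x y hb' hI).1 hxy
    have hbox : -2 * (b : ℤ) ≤ x ∧ x ≤ 3 * b ∧ -2 * (b : ℤ) ≤ y ∧ y ≤ 3 * b := by
      unfold Pin.set at hxy
      rw [Finset.mem_filter, Finset.mem_product, Finset.mem_Icc, Finset.mem_Icc] at hxy
      dsimp only at hxy
      omega
    unfold inclB at hincl
    rw [List.all_eq_true] at hincl
    have h1 := hincl x (H11_range _ _ _ (by omega) (by omega))
    rw [List.all_eq_true] at h1
    have h2 := h1 y (H11_range _ _ _ (by omega) (by omega))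
    rw [Bool.or_eq_true, Bool.not_eq_true'] at h2
    have h3 : pinB I b 0 0 (x, y) = true := by
      rw [H11_pinB]
      simpa using hm
    have h4 : pinB O c 0 0 (x + i, y + j) = true := by
      rcases h2 with h2 | h2
      · rw [h3] at h2
        exact absurd h2 (by simp)
      · exact h2
    rw [H11_pinB] at h4
    refine (hP2 O c N (x + i) (y + j) hc' hO).2 ?_
    simpa using h4
  · refine hA4.1 _ _ _ ?_ (hU4 _ T hcert)
    rintro ⟨x, y⟩ hp
    change (pinB O c 0 0 (x, y) && !pinB I b i j (x, y)) = true at hp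
    rw [Bool.and_eq_true, Bool.not_eq_true', H11_pinB] at hp
    refine ⟨(hP2 O c N x y hc' hO).2 (by simpa using hp.1), fun h => ?_⟩
    unfold shift at h
    rw [Finset.mem_image] at h
    obtain ⟨⟨x', y'⟩, hxy, he⟩ := h
    have hm : I.Mem b x' y' := (hP2 I b M x' y' hb' hI).1 hxy
    have e1 : x' + i = x := congrArg Prod.fst he
    have e2 : y' + j = y := congrArg Prod.snd he
    have h5 : pinB I b i j (x, y) = true := by
      rw [H11_pinB]
      dsimp only
      rw [← e1, ← e2, add_sub_cancel_right, add_sub_cancel_right]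
      exact hm
    rw [hp.2] at h5
    exact absurd h5 (by simp)

end RCN
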