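import Pool.Agent.RCN.HTargets

/-!
# RCN: target H12
-/

namespace RCN

theorem pH12 (hU4 : tU4) (hA4 : tA4) : tH12 := by
  intro P Q T hQP hT
  refine ⟨?_, ?_⟩
  · intro p hp
    rw [List.mem_toFinset] at hp ⊢
    have h := List.all_eq_true.1 hQP p hp
    exact List.contains_iff_mem.1 h
  · refine hA4.1 _ _ _ ?_ (hU4 _ _ hT)
    intro p hp
    have h : (P.contains p && !Q.contains p) = true := hp
    rw [Bool.and_eq_true, Bool.not_eq_true'] at h
    refine ⟨List.mem_toFinset.2 (List.contains_iff_mem.1 h.1), fun hq => ?_⟩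
    have h2 := List.contains_iff_mem.2 (List.mem_toFinset.1 hq)
    rw [h.2] at h2
    exact Bool.false_ne_true h2

end RCN
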