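import Pool.Agent.RCN.HTargets

/-!
# RCN, target tH2: nets of the unit cube have no touching corners and no holes
-/

namespace RCN

open Pool.Agent.RepCube (NoHoles)

/-- separation: a connected set which avoids `C` does not leave `Q` -/
theorem H2_sep {t : Finset Cell} (ht : IsPolyomino t) (C Q : ℤ → ℤ → Prop)
    (hC : ∀ p ∈ t, ¬ C p.1 p.2)
    (hcl : ∀ x y x' y' : ℤ, ¬ C x y → ¬ C x' y' →
      ((x' = x + 1 ∧ y' = y) ∨ (x' = x - 1 ∧ y' = y) ∨ (x' = x ∧ y' = y + 1) ∨
        (x' = x ∧ y' = y - 1)) → Q x y → Q x' y')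
    {p q : Cell} (hp : p ∈ t) (hq : q ∈ t) (h1 : Q p.1 p.2) (h2 : ¬ Q q.1 q.2) : False := by
  have key : ∀ r : Cell, Relation.ReflTransGen (fun a b => Adj a b ∧ b ∈ t) p r →
      r ∈ t ∧ Q r.1 r.2 := by
    intro r hr
    induction hr with
    | refl => exact ⟨hp, h1⟩
    | tail _ hbc ih =>
      refine ⟨hbc.2, hcl _ _ _ _ (hC _ ih.1) (hC _ hbc.2) ?_ ih.2⟩
      exact hbc.1
  exact h2 (key q (ht.2 p hp q hq)).2

/-- counting the eight sectors around a cell -/
theorem H2_card {t : Finset Cell} (h6 : t.card = 6) (a b : ℤ) (S : Finset (ℤ × ℤ))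
    (hS : S.card = 7)
    (hsub : ∀ s ∈ S, ∃ p ∈ t, (Int.sign (p.1 - a), Int.sign (p.2 - b)) = s) : False := by
  have h1 : S ⊆ t.image (fun p => (Int.sign (p.1 - a), Int.sign (p.2 - b))) := by
    intro s hs
    obtain ⟨p, hp, e⟩ := hsub s hs
    exact Finset.mem_image.2 ⟨p, hp, e⟩
  have h2 := Finset.card_le_card h1
  have h3 : (t.image (fun p => (Int.sign (p.1 - a), Int.sign (p.2 - b)))).card ≤ t.card :=
    Finset.card_image_le
  omega

theorem H2_pos {z w : ℤ} (h : w < z) : Int.sign (z - w) = 1 :=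
  Int.sign_eq_one_of_pos (by omega)

theorem H2_neg {z w : ℤ} (h : z < w) : Int.sign (z - w) = -1 :=
  Int.sign_eq_neg_one_of_neg (by omega)

theorem H2_zero {z w : ℤ} (h : z = w) : Int.sign (z - w) = 0 := by
  rw [h, sub_self, Int.sign_zero]

/-- some ray is free -/
theorem H2_ray {t : Finset Cell} (ht : IsPolyomino t) (h6 : t.card = 6) {a b : ℤ}
    (hc : (a, b) ∉ t) :
    (∀ p ∈ t, ¬ (a < p.1 ∧ p.2 = b)) ∨ (∀ p ∈ t, ¬ (p.1 = a ∧ b < p.2)) ∨
      (∀ p ∈ t, ¬ (p.1 < a ∧ p.2 = b)) ∨ (∀ p ∈ t, ¬ (p.1 = a ∧ p.2 < b)) := by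
  by_contra hcon
  push Not at hcon
  obtain ⟨⟨e, he, he1, he2⟩, ⟨n, hn, hn1, hn2⟩, ⟨w, hw, hw1, hw2⟩, ⟨s, hs, hs1, hs2⟩⟩ := hcon
  have hne : ∀ p ∈ t, ¬ (p.1 = a ∧ p.2 = b) := by
    rintro ⟨x, y⟩ hp ⟨rfl, rfl⟩
    exact hc hp
  have k1 : (∃ p ∈ t, a < p.1 ∧ b < p.2) ∨ (∃ p ∈ t, p.1 < a ∧ b < p.2) := by
    by_contra hm
    push Not at hm
    refine H2_sep ht (fun x y => (x = a ∧ y = b) ∨ (a < x ∧ b < y) ∨ (x < a ∧ b < y))
      (fun x y => b < y) ?_ ?_ hn he hn2 (by omega)
    · intro p hp h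
      have h1 := hm.1 p hp
      have h2 := hm.2 p hp
      have h3 := hne p hp
      omega
    · intro x y x' y' h1 h2 h3 h4
      omega
  have k2 : (∃ p ∈ t, a < p.1 ∧ b < p.2) ∨ (∃ p ∈ t, p.1 < a ∧ p.2 < b) := by
    by_contra hm
    push Not at hm
    refine H2_sep ht (fun x y => (x = a ∧ y = b) ∨ (a < x ∧ b < y) ∨ (x < a ∧ y < b))
      (fun x y => x ≤ a ∧ b ≤ y) ?_ ?_ hn he ⟨by omega, by omega⟩ (by omega)
    · intro p hp h
      have h1 := hm.1 p hp
      have h2 := hm.2 p hp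
      have h3 := hne p hp
      omega
    · intro x y x' y' h1 h2 h3 h4
      omega
  have k3 : (∃ p ∈ t, a < p.1 ∧ b < p.2) ∨ (∃ p ∈ t, a < p.1 ∧ p.2 < b) := by
    by_contra hm
    push Not at hm
    refine H2_sep ht (fun x y => (x = a ∧ y = b) ∨ (a < x ∧ b < y) ∨ (a < x ∧ y < b))
      (fun x y => a < x) ?_ ?_ he hn he1 (by omega)
    · intro p hp h
      have h1 := hm.1 p hp
      have h2 := hm.2 p hp
      have h3 := hne p hp
      omega
    · intro x y x' y' h1 h2 h3 h4
      omega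
  have k4 : (∃ p ∈ t, p.1 < a ∧ b < p.2) ∨ (∃ p ∈ t, p.1 < a ∧ p.2 < b) := by
    by_contra hm
    push Not at hm
    refine H2_sep ht (fun x y => (x = a ∧ y = b) ∨ (x < a ∧ b < y) ∨ (x < a ∧ y < b))
      (fun x y => x < a) ?_ ?_ hw hn hw1 (by omega)
    · intro p hp h
      have h1 := hm.1 p hp
      have h2 := hm.2 p hp
      have h3 := hne p hp
      omega
    · intro x y x' y' h1 h2 h3 h4
      omega
  have k5 : (∃ p ∈ t, p.1 < a ∧ b < p.2) ∨ (∃ p ∈ t, a < p.1 ∧ p.2 < b) := by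
    by_contra hm
    push Not at hm
    refine H2_sep ht (fun x y => (x = a ∧ y = b) ∨ (x < a ∧ b < y) ∨ (a < x ∧ y < b))
      (fun x y => x ≤ a ∧ y ≤ b) ?_ ?_ hw he ⟨by omega, by omega⟩ (by omega)
    · intro p hp h
      have h1 := hm.1 p hp
      have h2 := hm.2 p hp
      have h3 := hne p hp
      omega
    · intro x y x' y' h1 h2 h3 h4
      omega
  have k6 : (∃ p ∈ t, p.1 < a ∧ p.2 < b) ∨ (∃ p ∈ t, a < p.1 ∧ p.2 < b) := by
    by_contra hm
    push Not at hm
    refine H2_sep ht (fun x y => (x = a ∧ y = b) ∨ (x < a ∧ y < b) ∨ (a < x ∧ y < b))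
      (fun x y => y < b) ?_ ?_ hs he hs2 (by omega)
    · intro p hp h
      have h1 := hm.1 p hp
      have h2 := hm.2 p hp
      have h3 := hne p hp
      omega
    · intro x y x' y' h1 h2 h3 h4
      omega
  have sE : (Int.sign (e.1 - a), Int.sign (e.2 - b)) = ((1 : ℤ), (0 : ℤ)) := by
    rw [H2_pos he1, H2_zero he2]
  have sN : (Int.sign (n.1 - a), Int.sign (n.2 - b)) = ((0 : ℤ), (1 : ℤ)) := by
    rw [H2_zero hn1, H2_pos hn2]
  have sW : (Int.sign (w.1 - a), Int.sign (w.2 - b)) = ((-1 : ℤ), (0 : ℤ)) := by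
    rw [H2_neg hw1, H2_zero hw2]
  have sS : (Int.sign (s.1 - a), Int.sign (s.2 - b)) = ((0 : ℤ), (-1 : ℤ)) := by
    rw [H2_zero hs1, H2_neg hs2]
  have c1 : ∀ p : Cell, a < p.1 ∧ b < p.2 →
      (Int.sign (p.1 - a), Int.sign (p.2 - b)) = ((1 : ℤ), (1 : ℤ)) := fun p h => by
    rw [H2_pos h.1, H2_pos h.2]
  have c2 : ∀ p : Cell, p.1 < a ∧ b < p.2 →
      (Int.sign (p.1 - a), Int.sign (p.2 - b)) = ((-1 : ℤ), (1 : ℤ)) := fun p h => by
    rw [H2_neg h.1, H2_pos h.2]
  have c3 : ∀ p : Cell, p.1 < a ∧ p.2 < b →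
      (Int.sign (p.1 - a), Int.sign (p.2 - b)) = ((-1 : ℤ), (-1 : ℤ)) := fun p h => by
    rw [H2_neg h.1, H2_neg h.2]
  have c4 : ∀ p : Cell, a < p.1 ∧ p.2 < b →
      (Int.sign (p.1 - a), Int.sign (p.2 - b)) = ((1 : ℤ), (-1 : ℤ)) := fun p h => by
    rw [H2_pos h.1, H2_neg h.2]
  have fin : ∀ u v z : ℤ × ℤ, (∃ p ∈ t, (Int.sign (p.1 - a), Int.sign (p.2 - b)) = u) →
      (∃ p ∈ t, (Int.sign (p.1 - a), Int.sign (p.2 - b)) = v) →
      (∃ p ∈ t, (Int.sign (p.1 - a), Int.sign (p.2 - b)) = z) →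
      ({(1, 0), (0, 1), (-1, 0), (0, -1), u, v, z} : Finset (ℤ × ℤ)).card = 7 → False := by
    intro u v z hu hv hz h7
    refine H2_card h6 a b _ h7 ?_
    intro r hr
    simp only [Finset.mem_insert, Finset.mem_singleton] at hr
    rcases hr with rfl | rfl | rfl | rfl | rfl | rfl | rfl
    · exact ⟨e, he, sE⟩
    · exact ⟨n, hn, sN⟩
    · exact ⟨w, hw, sW⟩
    · exact ⟨s, hs, sS⟩
    · exact hu
    · exact hv
    · exact hz
  have m1 : (∃ p ∈ t, a < p.1 ∧ b < p.2) →
      ∃ p ∈ t, (Int.sign (p.1 - a), Int.sign (p.2 - b)) = ((1 : ℤ), (1 : ℤ)) :=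
    fun ⟨p, hp, h⟩ => ⟨p, hp, c1 p h⟩
  have m2 : (∃ p ∈ t, p.1 < a ∧ b < p.2) →
      ∃ p ∈ t, (Int.sign (p.1 - a), Int.sign (p.2 - b)) = ((-1 : ℤ), (1 : ℤ)) :=
    fun ⟨p, hp, h⟩ => ⟨p, hp, c2 p h⟩
  have m3 : (∃ p ∈ t, p.1 < a ∧ p.2 < b) →
      ∃ p ∈ t, (Int.sign (p.1 - a), Int.sign (p.2 - b)) = ((-1 : ℤ), (-1 : ℤ)) :=
    fun ⟨p, hp, h⟩ => ⟨p, hp, c3 p h⟩
  have m4 : (∃ p ∈ t, a < p.1 ∧ p.2 < b) →
      ∃ p ∈ t, (Int.sign (p.1 - a), Int.sign (p.2 - b)) = ((1 : ℤ), (-1 : ℤ)) :=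
    fun ⟨p, hp, h⟩ => ⟨p, hp, c4 p h⟩
  by_cases q1 : ∃ p ∈ t, a < p.1 ∧ b < p.2
  · by_cases q2 : ∃ p ∈ t, p.1 < a ∧ b < p.2
    · rcases k6 with q3 | q4
      · exact fin _ _ _ (m1 q1) (m2 q2) (m3 q3) (by decide)
      · exact fin _ _ _ (m1 q1) (m2 q2) (m4 q4) (by decide)
    · have q3 := k4.resolve_left q2
      have q4 := k5.resolve_left q2
      exact fin _ _ _ (m1 q1) (m3 q3) (m4 q4) (by decide)
  · have q2 := k1.resolve_left q1
    have q3 := k2.resolve_left q1
    have q4 := k3.resolve_left q1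
    exact fin _ _ _ (m2 q2) (m3 q3) (m4 q4) (by decide)

/-- walking along a free ray -/
theorem H2_walk {t : Finset Cell} {a b : ℤ} (d : Cell)
    (hd : d = (1, 0) ∨ d = (-1, 0) ∨ d = (0, 1) ∨ d = (0, -1))
    (hf : ∀ k : ℕ, (a + k * d.1, b + k * d.2) ∉ t) (k : ℕ) :
    Relation.ReflTransGen (fun x y => x ∉ t ∧ y ∉ t ∧ Pool.Agent.RepCube.Adj x y)
      (a, b) (a + k * d.1, b + k * d.2) := by
  induction k with
  | zero => simp only [Nat.cast_zero, zero_mul, add_zero]; exact Relation.ReflTransGen.refl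
  | succ k ih =>
    refine ih.tail ⟨hf k, hf (k + 1), ?_⟩
    unfold Pool.Agent.RepCube.Adj
    push_cast
    rcases hd with rfl | rfl | rfl | rfl
    · simp only; left; constructor
      · ring
      · left; ring
    · simp only; left; constructor
      · ring
      · right; ring
    · simp only; right; constructor
      · ring
      · left; ring
    · simp only; right; constructor
      · ring
      · right; ring

theorem pH2 (hA1 : tA1) : tH2 := by
  intro t ht
  have hpol : IsPolyomino t := ht.1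
  have h6 : t.card = 6 := by
    have := hA1 1 t ht
    simpa using this
  refine ⟨?_, ?_⟩
  · intro x y
    refine ⟨?_, ?_⟩
    · intro h1 h2
      by_contra hcon
      push Not at hcon
      obtain ⟨h3, h4⟩ := hcon
      have r1 := H2_ray hpol h6 h3
      have r2 := H2_ray hpol h6 h4
      have r1' : (∀ p ∈ t, ¬ (x + 1 < p.1 ∧ p.2 = y)) ∨ (∀ p ∈ t, ¬ (p.1 = x + 1 ∧ p.2 < y)) := by
        rcases r1 with r | r | r | r
        · exact Or.inl r
        · exact absurd ⟨rfl, by simp only; omega⟩ (r _ h2)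
        · exact absurd ⟨by simp only; omega, rfl⟩ (r _ h1)
        · exact Or.inr r
      have r2' : (∀ p ∈ t, ¬ (p.1 = x ∧ y + 1 < p.2)) ∨ (∀ p ∈ t, ¬ (p.1 < x ∧ p.2 = y + 1)) := by
        rcases r2 with r | r | r | r
        · exact absurd ⟨by simp only; omega, rfl⟩ (r _ h2)
        · exact Or.inl r
        · exact Or.inr r
        · exact absurd ⟨rfl, by simp only; omega⟩ (r _ h1)
      have e3 : ∀ p ∈ t, ¬ (p.1 = x + 1 ∧ p.2 = y) := by
        rintro ⟨u, v⟩ hp ⟨rfl, rfl⟩; exact h3 hp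
      have e4 : ∀ p ∈ t, ¬ (p.1 = x ∧ p.2 = y + 1) := by
        rintro ⟨u, v⟩ hp ⟨rfl, rfl⟩; exact h4 hp
      rcases r1' with r | r
      · rcases r2' with s | s
        · refine H2_sep hpol (fun u v => (x + 1 ≤ u ∧ v = y) ∨ (u = x ∧ y + 1 ≤ v))
            (fun u v => x + 1 ≤ u ∧ y + 1 ≤ v) ?_ ?_ h2 h1 ⟨le_rfl, le_rfl⟩
            (by simp only; omega)
          · intro p hp h
            have a1 := r p hp
            have a2 := s p hp
            have a3 := e3 p hp
            have a4 := e4 p hp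
            omega
          · intro u v u' v' b1 b2 b3 b4
            omega
        · refine H2_sep hpol (fun u v => (x + 1 ≤ u ∧ v = y) ∨ (u ≤ x ∧ v = y + 1))
            (fun u v => v ≤ y) ?_ ?_ h1 h2 le_rfl (by simp only; omega)
          · intro p hp h
            have a1 := r p hp
            have a2 := s p hp
            have a3 := e3 p hp
            have a4 := e4 p hp
            omega
          · intro u v u' v' b1 b2 b3 b4
            omega
      · rcases r2' with s | s
        · refine H2_sep hpol (fun u v => (u = x + 1 ∧ v ≤ y) ∨ (u = x ∧ y + 1 ≤ v))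
            (fun u v => u ≤ x) ?_ ?_ h1 h2 le_rfl (by simp only; omega)
          · intro p hp h
            have a1 := r p hp
            have a2 := s p hp
            have a3 := e3 p hp
            have a4 := e4 p hp
            omega
          · intro u v u' v' b1 b2 b3 b4
            omega
        · refine H2_sep hpol (fun u v => (u = x + 1 ∧ v ≤ y) ∨ (u ≤ x ∧ v = y + 1))
            (fun u v => u ≤ x ∧ v ≤ y) ?_ ?_ h1 h2 ⟨le_rfl, le_rfl⟩ (by simp only; omega)
          · intro p hp h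
            have a1 := r p hp
            have a2 := s p hp
            have a3 := e3 p hp
            have a4 := e4 p hp
            omega
          · intro u v u' v' b1 b2 b3 b4
            omega
    · intro h1 h2
      by_contra hcon
      push Not at hcon
      obtain ⟨h3, h4⟩ := hcon
      have r1 := H2_ray hpol h6 h3
      have r2 := H2_ray hpol h6 h4
      have r1' : (∀ p ∈ t, ¬ (p.1 < x ∧ p.2 = y)) ∨ (∀ p ∈ t, ¬ (p.1 = x ∧ p.2 < y)) := by
        rcases r1 with r | r | r | r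
        · exact absurd ⟨by simp only; omega, rfl⟩ (r _ h1)
        · exact absurd ⟨rfl, by simp only; omega⟩ (r _ h2)
        · exact Or.inl r
        · exact Or.inr r
      have r2' : (∀ p ∈ t, ¬ (x + 1 < p.1 ∧ p.2 = y + 1)) ∨
          (∀ p ∈ t, ¬ (p.1 = x + 1 ∧ y + 1 < p.2)) := by
        rcases r2 with r | r | r | r
        · exact Or.inl r
        · exact Or.inr r
        · exact absurd ⟨by simp only; omega, rfl⟩ (r _ h2)
        · exact absurd ⟨rfl, by simp only; omega⟩ (r _ h1)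
      have e3 : ∀ p ∈ t, ¬ (p.1 = x ∧ p.2 = y) := by
        rintro ⟨u, v⟩ hp ⟨rfl, rfl⟩; exact h3 hp
      have e4 : ∀ p ∈ t, ¬ (p.1 = x + 1 ∧ p.2 = y + 1) := by
        rintro ⟨u, v⟩ hp ⟨rfl, rfl⟩; exact h4 hp
      rcases r1' with r | r
      · rcases r2' with s | s
        · refine H2_sep hpol (fun u v => (u ≤ x ∧ v = y) ∨ (x + 1 ≤ u ∧ v = y + 1))
            (fun u v => v ≤ y) ?_ ?_ h1 h2 le_rfl (by simp only; omega)
          · intro p hp h
            have a1 := r p hp
            have a2 := s p hp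
            have a3 := e3 p hp
            have a4 := e4 p hp
            omega
          · intro u v u' v' b1 b2 b3 b4
            omega
        · refine H2_sep hpol (fun u v => (u ≤ x ∧ v = y) ∨ (u = x + 1 ∧ y + 1 ≤ v))
            (fun u v => u ≤ x ∧ y + 1 ≤ v) ?_ ?_ h2 h1 ⟨le_rfl, le_rfl⟩
            (by simp only; omega)
          · intro p hp h
            have a1 := r p hp
            have a2 := s p hp
            have a3 := e3 p hp
            have a4 := e4 p hp
            omega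
          · intro u v u' v' b1 b2 b3 b4
            omega
      · rcases r2' with s | s
        · refine H2_sep hpol (fun u v => (u = x ∧ v ≤ y) ∨ (x + 1 ≤ u ∧ v = y + 1))
            (fun u v => x + 1 ≤ u ∧ v ≤ y) ?_ ?_ h1 h2 ⟨le_rfl, le_rfl⟩
            (by simp only; omega)
          · intro p hp h
            have a1 := r p hp
            have a2 := s p hp
            have a3 := e3 p hp
            have a4 := e4 p hp
            omega
          · intro u v u' v' b1 b2 b3 b4
            omega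
        · refine H2_sep hpol (fun u v => (u = x ∧ v ≤ y) ∨ (u = x + 1 ∧ y + 1 ≤ v))
            (fun u v => u ≤ x) ?_ ?_ h2 h1 le_rfl (by simp only; omega)
          · intro p hp h
            have a1 := r p hp
            have a2 := s p hp
            have a3 := e3 p hp
            have a4 := e4 p hp
            omega
          · intro u v u' v' b1 b2 b3 b4
            omega
  · rintro ⟨a, b⟩ hc N
    have go : ∀ d : Cell, (d = (1, 0) ∨ d = (-1, 0) ∨ d = (0, 1) ∨ d = (0, -1)) →
        (∀ k : ℕ, (a + k * d.1, b + k * d.2) ∉ t) → ∃ d : Cell, N ≤ |d.1| + |d.2| ∧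
        Relation.ReflTransGen (fun x y => x ∉ t ∧ y ∉ t ∧ Pool.Agent.RepCube.Adj x y)
          (a, b) d := by
      intro d hd hf
      refine ⟨_, ?_, H2_walk d hd hf (N.toNat + a.natAbs + b.natAbs)⟩
      have hN : N ≤ (N.toNat : ℤ) := Int.self_le_toNat N
      rcases hd with rfl | rfl | rfl | rfl
      all_goals
        simp only [mul_one, mul_zero, mul_neg, add_zero]
        push_cast
        have ha := abs_nonneg a
        have hb := abs_nonneg b
        have ha1 := le_abs_self a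
        have hb1 := le_abs_self b
        have ha2 := neg_abs_le a
        have hb2 := neg_abs_le b
      · have h1 := le_abs_self (a + ((N.toNat : ℤ) + |a| + |b|))
        omega
      · have h1 := neg_abs_le (a + -((N.toNat : ℤ) + |a| + |b|))
        omega
      · have h1 := le_abs_self (b + ((N.toNat : ℤ) + |a| + |b|))
        omega
      · have h1 := neg_abs_le (b + -((N.toNat : ℤ) + |a| + |b|))
        omega
    rcases H2_ray hpol h6 hc with r | r | r | r
    · refine go (1, 0) (by tauto) fun k hk => ?_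
      rcases Nat.eq_zero_or_pos k with rfl | h
      · simp only [Nat.cast_zero, zero_mul, add_zero] at hk
        exact hc hk
      · exact r _ hk ⟨by simp only; omega, by simp only; omega⟩
    · refine go (0, 1) (by tauto) fun k hk => ?_
      rcases Nat.eq_zero_or_pos k with rfl | h
      · simp only [Nat.cast_zero, zero_mul, add_zero] at hk
        exact hc hk
      · exact r _ hk ⟨by simp only; omega, by simp only; omega⟩
    · refine go (-1, 0) (by tauto) fun k hk => ?_
      rcases Nat.eq_zero_or_pos k with rfl | h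
      · simp only [Nat.cast_zero, zero_mul, add_zero] at hk
        exact hc hk
      · exact r _ hk ⟨by simp only; omega, by simp only; omega⟩
    · refine go (0, -1) (by tauto) fun k hk => ?_
      rcases Nat.eq_zero_or_pos k with rfl | h
      · simp only [Nat.cast_zero, zero_mul, add_zero] at hk
        exact hc hk
      · exact r _ hk ⟨by simp only; omega, by simp only; omega⟩

end RCN
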