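import Pool.Agent.RCN.HTargets

/-!
# RCN, target H4: pinwheel nets have no holes (helper12)
-/

set_option autoImplicit false

namespace RCN

/-- `c` can be joined outside `F` to cells arbitrarily far away -/
def H4_Esc (F : Cell → Prop) (c : Cell) : Prop :=
  ∀ M : ℤ, ∃ d : Cell, M ≤ |d.1| + |d.2| ∧
    Relation.ReflTransGen (fun a b => ¬ F a ∧ ¬ F b ∧ Pool.Agent.RepCube.Adj a b) c d

theorem H4_step {F : Cell → Prop} {c c' : Cell} (h : ¬ F c) (h' : ¬ F c')
    (ha : Pool.Agent.RepCube.Adj c c') (he : H4_Esc F c') : H4_Esc F c := by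
  intro M
  obtain ⟨d, hd, hr⟩ := he M
  exact ⟨d, hd, Relation.ReflTransGen.head ⟨h, h', ha⟩ hr⟩

/-- the ray to the right -/
theorem H4_rayR {F : Cell → Prop} {x y : ℤ} (h : ∀ k : ℕ, ¬ F (x + k, y)) : H4_Esc F (x, y) := by
  have hp : ∀ k : ℕ, Relation.ReflTransGen
      (fun a b => ¬ F a ∧ ¬ F b ∧ Pool.Agent.RepCube.Adj a b) (x, y) (x + k, y) := by
    intro k
    induction k with
    | zero => simpa using Relation.ReflTransGen.refl
    | succ k ih =>
      refine ih.tail ⟨h k, h (k + 1), Or.inl ⟨rfl, Or.inl ?_⟩⟩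
      push_cast
      ring
  intro M
  refine ⟨(x + ((|M| + |x|).toNat : ℕ), y), ?_, hp _⟩
  have h1 : (((|M| + |x|).toNat : ℕ) : ℤ) = |M| + |x| :=
    Int.toNat_of_nonneg (by positivity)
  dsimp only
  rw [h1]
  have h2 := le_abs_self M
  have h3 := neg_abs_le x
  have h4 := le_abs_self (x + (|M| + |x|))
  have h5 := abs_nonneg y
  linarith

/-- the ray downwards -/
theorem H4_rayD {F : Cell → Prop} {x y : ℤ} (h : ∀ k : ℕ, ¬ F (x, y - k)) : H4_Esc F (x, y) := by
  have hp : ∀ k : ℕ, Relation.ReflTransGen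
      (fun a b => ¬ F a ∧ ¬ F b ∧ Pool.Agent.RepCube.Adj a b) (x, y) (x, y - k) := by
    intro k
    induction k with
    | zero => simpa using Relation.ReflTransGen.refl
    | succ k ih =>
      refine ih.tail ⟨h k, h (k + 1), Or.inr ⟨rfl, Or.inr ?_⟩⟩
      push_cast
      ring
  intro M
  refine ⟨(x, y - ((|M| + |y|).toNat : ℕ)), ?_, hp _⟩
  have h1 : (((|M| + |y|).toNat : ℕ) : ℤ) = |M| + |y| :=
    Int.toNat_of_nonneg (by positivity)
  dsimp only
  rw [h1]
  have h2 := le_abs_self M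
  have h3 := le_abs_self y
  have h4 := neg_abs_le (y - (|M| + |y|))
  have h5 := abs_nonneg x
  linarith

/-- walk to the left -/
theorem H4_left {F : Cell → Prop} {y : ℤ} (h0 : H4_Esc F (0, y)) :
    ∀ k : ℕ, (∀ i : ℕ, i ≤ k → ¬ F ((i : ℤ), y)) → H4_Esc F ((k : ℤ), y)
  | 0, _ => by simpa using h0
  | k + 1, h => by
    have ih := H4_left h0 k fun i hi => h i (by omega)
    refine H4_step (h (k + 1) le_rfl) (h k (by omega)) (Or.inl ⟨rfl, Or.inr ?_⟩) ih
    push_cast
    ring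

theorem H4_box (p q : ℤ) : inBox p q = true ↔
    -4 ≤ p + q ∧ p + q ≤ 4 ∧ -4 ≤ q - p ∧ q - p ≤ 4 := by
  simp [inBox, and_assoc]

theorem H4_core {g g' p q : ℤ} {m : ℕ} (h : ¬ (inBox p q = true)) :
    core g g' m p q = true ↔ g ≤ q ∧ p ≤ g' - 1 := by
  unfold core
  rw [if_neg h]
  simp

/-- cells outside the window -/
theorem H4_out {F : Cell → Prop} {n g g' : ℤ} {m : ℕ} (hn : 4 ≤ n) (hg : g = 0 ∨ g = 1)
    (hg' : g' = 0 ∨ g' = 1)
    (hF : ∀ x y, 0 ≤ x → y < 0 → (F (x, y) ↔ Arm n g g' m x y)) (x y : ℤ) (hx : 0 ≤ x)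
    (hy : y < 0) (hb : ¬ (inBox (x - y - 3 * n) (x + y + 1) = true)) (h : ¬ F (x, y)) :
    H4_Esc F (x, y) := by
  have hb' := hb
  rw [H4_box] at hb'
  rw [hF x y hx hy] at h
  unfold Arm at h
  rw [H4_core hb] at h
  have hcase : x + y + 1 ≤ g - 1 ∨ g' ≤ x - y - 3 * n ∨ n + g' ≤ x + y + 1 := by omega
  rcases hcase with hc | hc | hc
  · -- to the left and down
    have hkey : ∀ x' y' : ℤ, 0 ≤ x' → y' < 0 → x' + y' + 1 ≤ g - 1 →
        ¬ (inBox (x' - y' - 3 * n) (x' + y' + 1) = true) → ¬ F (x', y') := by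
      intro x' y' hx' hy' hc' hb1
      rw [hF x' y' hx' hy']
      rintro ⟨-, h1, -⟩
      rw [H4_core hb1] at h1
      omega
    have hdown : H4_Esc F (0, y) := by
      refine H4_rayD fun k => hkey 0 (y - k) le_rfl (by omega) (by omega) ?_
      rw [H4_box]
      omega
    have hxk : ((x.toNat : ℕ) : ℤ) = x := Int.toNat_of_nonneg hx
    have hl := H4_left hdown x.toNat fun i hi =>
      hkey i y (by omega) hy (by omega) (by
        rw [H4_box]
        omega)
    rwa [hxk] at hl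
  · refine H4_rayR fun k => ?_
    rw [hF _ _ (by omega) hy]
    rintro ⟨-, h1, -⟩
    rw [H4_core (by rw [H4_box]; omega)] at h1
    omega
  · refine H4_rayR fun k => ?_
    rw [hF _ _ (by omega) hy]
    rintro ⟨-, -, h1⟩
    omega

/-- the whole sector -/
theorem H4_sector {F : Cell → Prop} {n N g g' : ℤ} {m : ℕ} (hN : 4 ≤ N) (hn : N ≤ n)
    (hg : g = 0 ∨ g = 1) (hg' : g' = 0 ∨ g' = 1) (ha : ArmOK n N g g' m)
    (hco : CoArmOK n g g' m)
    (hF : ∀ x y, 0 ≤ x → y < 0 → (F (x, y) ↔ Arm n g g' m x y)) (x y : ℤ) (hx : 0 ≤ x)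
    (hy : y < 0) (h : ¬ F (x, y)) : H4_Esc F (x, y) := by
  obtain ⟨r, hr⟩ := hco
  have hwin : ∀ k : ℕ, ∀ x y : ℤ, 0 ≤ x → y < 0 →
      inBox (x - y - 3 * n) (x + y + 1) = true →
      core g g' m (x - y - 3 * n) (x + y + 1) = false →
      r (x - y - 3 * n) (x + y + 1) ≤ k → H4_Esc F (x, y) := by
    have hstep : ∀ x y : ℤ, 0 ≤ x → y < 0 →
        core g g' m (x - y - 3 * n) (x + y + 1) = false → ¬ F (x, y) := by
      intro x y hx hy hc
      rw [hF x y hx hy]
      rintro ⟨-, h1, -⟩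
      rw [hc] at h1
      exact Bool.false_ne_true h1
    intro k
    induction k with
    | zero =>
      intro x y hx hy hb hc hk
      obtain ⟨d, hd, hd1, hd2⟩ := hr _ _ hb (by omega) hc
      have hbb := (H4_box _ _).1 hb
      have hout : inBox (x - y - 3 * n + d.1) (x + y + 1 + d.2) = false := by
        rcases hd2 with hd2 | hd2
        · exact hd2
        · omega
      simp only [List.mem_cons, List.not_mem_nil, or_false] at hd
      rcases hd with rfl | rfl | rfl | rfl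
      · rw [show x - y - 3 * n + 1 = (x + 1) - y - 3 * n by ring,
          show x + y + 1 + 1 = (x + 1) + y + 1 by ring] at hd1 hout
        refine H4_step (hstep x y hx hy hc) (hstep (x + 1) y (by omega) hy hd1)
          (Or.inl ⟨rfl, Or.inl rfl⟩) (H4_out (by omega) hg hg' hF _ _ (by omega) hy
            (by rw [hout]; exact Bool.false_ne_true) (hstep (x + 1) y (by omega) hy hd1))
      · rw [show x - y - 3 * n + -1 = (x - 1) - y - 3 * n by ring,
          show x + y + 1 + -1 = (x - 1) + y + 1 by ring] at hd1 hout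
        refine H4_step (hstep x y hx hy hc) (hstep (x - 1) y (by omega) hy hd1)
          (Or.inl ⟨rfl, Or.inr (by ring)⟩) (H4_out (by omega) hg hg' hF _ _ (by omega) hy
            (by rw [hout]; exact Bool.false_ne_true) (hstep (x - 1) y (by omega) hy hd1))
      · rw [show x - y - 3 * n + -1 = x - (y + 1) - 3 * n by ring,
          show x + y + 1 + 1 = x + (y + 1) + 1 by ring] at hd1 hout
        refine H4_step (hstep x y hx hy hc) (hstep x (y + 1) hx (by omega) hd1)
          (Or.inr ⟨rfl, Or.inl rfl⟩) (H4_out (by omega) hg hg' hF _ _ hx (by omega)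
            (by rw [hout]; exact Bool.false_ne_true) (hstep x (y + 1) hx (by omega) hd1))
      · rw [show x - y - 3 * n + 1 = x - (y - 1) - 3 * n by ring,
          show x + y + 1 + -1 = x + (y - 1) + 1 by ring] at hd1 hout
        refine H4_step (hstep x y hx hy hc) (hstep x (y - 1) hx (by omega) hd1)
          (Or.inr ⟨rfl, Or.inr (by ring)⟩) (H4_out (by omega) hg hg' hF _ _ hx (by omega)
            (by rw [hout]; exact Bool.false_ne_true) (hstep x (y - 1) hx (by omega) hd1))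
    | succ k ih =>
      intro x y hx hy hb hc hk
      obtain ⟨d, hd, hd1, hd2⟩ := hr _ _ hb (by omega) hc
      have hbb := (H4_box _ _).1 hb
      have hgo : ∀ x' y' : ℤ, 0 ≤ x' → y' < 0 →
          core g g' m (x' - y' - 3 * n) (x' + y' + 1) = false →
          (inBox (x' - y' - 3 * n) (x' + y' + 1) = false ∨
            r (x' - y' - 3 * n) (x' + y' + 1) < r (x - y - 3 * n) (x + y + 1)) →
          H4_Esc F (x', y') := by
        intro x' y' hx' hy' hc' hor
        by_cases hb' : inBox (x' - y' - 3 * n) (x' + y' + 1) = true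
        · refine ih x' y' hx' hy' hb' hc' ?_
          rcases hor with hor | hor
          · rw [hor] at hb'
            exact absurd hb' Bool.false_ne_true
          · omega
        · exact H4_out (by omega) hg hg' hF _ _ hx' hy' hb' (hstep x' y' hx' hy' hc')
      simp only [List.mem_cons, List.not_mem_nil, or_false] at hd
      rcases hd with rfl | rfl | rfl | rfl
      · rw [show x - y - 3 * n + 1 = (x + 1) - y - 3 * n by ring,
          show x + y + 1 + 1 = (x + 1) + y + 1 by ring] at hd1 hd2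
        exact H4_step (hstep x y hx hy hc) (hstep (x + 1) y (by omega) hy hd1)
          (Or.inl ⟨rfl, Or.inl rfl⟩) (hgo _ _ (by omega) hy hd1 hd2)
      · rw [show x - y - 3 * n + -1 = (x - 1) - y - 3 * n by ring,
          show x + y + 1 + -1 = (x - 1) + y + 1 by ring] at hd1 hd2
        exact H4_step (hstep x y hx hy hc) (hstep (x - 1) y (by omega) hy hd1)
          (Or.inl ⟨rfl, Or.inr (by ring)⟩) (hgo _ _ (by omega) hy hd1 hd2)
      · rw [show x - y - 3 * n + -1 = x - (y + 1) - 3 * n by ring,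
          show x + y + 1 + 1 = x + (y + 1) + 1 by ring] at hd1 hd2
        exact H4_step (hstep x y hx hy hc) (hstep x (y + 1) hx (by omega) hd1)
          (Or.inr ⟨rfl, Or.inl rfl⟩) (hgo _ _ hx (by omega) hd1 hd2)
      · rw [show x - y - 3 * n + 1 = x - (y - 1) - 3 * n by ring,
          show x + y + 1 + -1 = x + (y - 1) + 1 by ring] at hd1 hd2
        exact H4_step (hstep x y hx hy hc) (hstep x (y - 1) hx (by omega) hd1)
          (Or.inr ⟨rfl, Or.inr (by ring)⟩) (hgo _ _ hx (by omega) hd1 hd2)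
  by_cases hb : inBox (x - y - 3 * n) (x + y + 1) = true
  · have hc : core g g' m (x - y - 3 * n) (x + y + 1) = false := by
      by_contra hc
      have hc' : core g g' m (x - y - 3 * n) (x + y + 1) = true := by
        simpa using hc
      obtain ⟨r', hr'⟩ := ha
      obtain ⟨h1, -⟩ := hr' _ _ hb (by omega) hc'
      exact h ((hF x y hx hy).2 ⟨hy, hc', by omega⟩)
    exact hwin _ x y hx hy hb hc le_rfl
  · exact H4_out (by omega) hg hg' hF x y hx hy hb h

/-- sector 0 of a pinwheel net -/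
theorem H4_sec0 (hP1 : tP1) (D : Pin) {n N : ℤ} (hN : 4 ≤ N) (hn : N ≤ n) (h : D.OK n N)
    (h' : D.OKH n N) (x y : ℤ) (hx : 0 ≤ x) (hy : y < 0) (hm : ¬ D.Mem n x y) :
    H4_Esc (fun a => D.Mem n a.1 a.2) (x, y) := by
  have b0 := h.b0
  have b1 := h.b1
  have b2 := h.b2
  have b3 := h.b3
  refine H4_sector hN hn b0 b1 h.a0 h'.h0 ?_ x y hx hy hm
  intro x y hx hy
  show D.Mem n x y ↔ _
  unfold Pin.Mem
  constructor
  · rintro (h1 | h1 | h1 | h1 | h1)
    · omega
    · exact h1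
    · obtain ⟨c1, -, -, -, -⟩ := hP1 _ _ _ _ _ _ (by omega) (by omega) (by omega) (by omega)
        (by omega) h1
      omega
    · obtain ⟨-, -, -, c1, -⟩ := hP1 _ _ _ _ _ _ (by omega) (by omega) (by omega) (by omega)
        (by omega) h1
      omega
    · obtain ⟨-, -, -, c1, -⟩ := hP1 _ _ _ _ _ _ (by omega) (by omega) (by omega) (by omega)
        (by omega) h1
      omega
  · exact fun h1 => Or.inr (Or.inl h1)

/-- turning the frame -/
theorem H4_turn (hP0 : tP0) (D : Pin) (n x y : ℤ)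
    (h : H4_Esc (fun a => D.rot.Mem n a.1 a.2) (y, n - 1 - x)) :
    H4_Esc (fun a => D.Mem n a.1 a.2) (x, y) := by
  intro M
  obtain ⟨d, hd, hr⟩ := h (M + |n| + 1)
  refine ⟨(n - 1 - d.2, d.1), ?_, ?_⟩
  · dsimp only
    have h1 := abs_sub_abs_le_abs_sub d.2 (n - 1)
    rw [abs_sub_comm d.2 (n - 1)] at h1
    have h2 : |n - 1| ≤ |n| + 1 := by
      have := abs_sub n 1
      simpa using this
    linarith
  · have hl := hr.lift (fun a : Cell => ((n - 1 - a.2, a.1) : Cell))
      (p := fun a b => ¬ D.Mem n a.1 a.2 ∧ ¬ D.Mem n b.1 b.2 ∧ Pool.Agent.RepCube.Adj a b) ?_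
    · have e : ((n - 1 - (y, n - 1 - x).2, (y, n - 1 - x).1) : Cell) = (x, y) := by
        simp
      have hl' : Relation.ReflTransGen (fun a b => ¬ D.Mem n a.1 a.2 ∧ ¬ D.Mem n b.1 b.2 ∧
          Pool.Agent.RepCube.Adj a b) ((n - 1 - (y, n - 1 - x).2, (y, n - 1 - x).1) : Cell)
          (n - 1 - d.2, d.1) := hl
      rw [e] at hl'
      exact hl'
    · rintro ⟨a1, a2⟩ ⟨b1, b2⟩ ⟨k1, k2, k3⟩
      dsimp only at k1 k2 ⊢
      refine ⟨?_, ?_, ?_⟩
      · rw [hP0.1 D n (n - 1 - a2) a1, show n - 1 - (n - 1 - a2) = a2 by ring]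
        exact k1
      · rw [hP0.1 D n (n - 1 - b2) b1, show n - 1 - (n - 1 - b2) = b2 by ring]
        exact k2
      · unfold Pool.Agent.RepCube.Adj at k3 ⊢
        dsimp only at k3 ⊢
        omega

theorem H4_rotH {D : Pin} {n N : ℤ} (h : D.OKH n N) : D.rot.OKH n N :=
  ⟨h.h1, h.h2, h.h3, h.h0, h.p1, h.p2, h.p3, h.p0⟩

theorem pH4 (hP0 : tP0) (hP1 : tP1) (hP2 : tP2) : tH4 := by
  intro D n N hN hn h h'
  have hmem : ∀ c : Cell, c ∈ D.set n ↔ D.Mem n c.1 c.2 :=
    fun c => hP2 D n N c.1 c.2 (by omega) h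
  have hesc : ∀ x y : ℤ, ¬ D.Mem n x y → H4_Esc (fun a => D.Mem n a.1 a.2) (x, y) := by
    intro x y hm
    have hb : ¬ (0 ≤ x ∧ x < n ∧ 0 ≤ y ∧ y < n) := fun hb => hm (Or.inl hb)
    have hcase : (0 ≤ x ∧ y < 0) ∨ (n ≤ x ∧ 0 ≤ y) ∨ (n ≤ y ∧ x < n) ∨ (x < 0 ∧ y < n) := by
      omega
    rcases hcase with hc | hc | hc | hc
    · exact H4_sec0 hP1 D hN hn h h' x y hc.1 hc.2 hm
    · apply H4_turn hP0
      refine H4_sec0 hP1 D.rot hN hn (hP0.2 D n N h) (H4_rotH h') _ _ hc.2 (by omega) ?_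
      rwa [← hP0.1]
    · apply H4_turn hP0
      apply H4_turn hP0
      refine H4_sec0 hP1 D.rot.rot hN hn (hP0.2 _ n N (hP0.2 D n N h)) (H4_rotH (H4_rotH h'))
        _ _ (by omega) (by omega) ?_
      rwa [← hP0.1, ← hP0.1]
    · apply H4_turn hP0
      apply H4_turn hP0
      apply H4_turn hP0
      refine H4_sec0 hP1 D.rot.rot.rot hN hn (hP0.2 _ n N (hP0.2 _ n N (hP0.2 D n N h)))
        (H4_rotH (H4_rotH (H4_rotH h'))) _ _ (by omega) (by omega) ?_
      rwa [← hP0.1, ← hP0.1, ← hP0.1]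
  intro c hc M
  obtain ⟨d, hd, hr⟩ := hesc c.1 c.2 (fun hm => hc ((hmem c).2 hm)) M
  refine ⟨d, hd, ?_⟩
  have hle : (fun a b : Cell => ¬ (fun a : Cell => D.Mem n a.1 a.2) a ∧
      ¬ (fun a : Cell => D.Mem n a.1 a.2) b ∧ Pool.Agent.RepCube.Adj a b) ≤
      fun a b => a ∉ D.set n ∧ b ∉ D.set n ∧ Pool.Agent.RepCube.Adj a b := by
    rintro a b ⟨k1, k2, k3⟩
    exact ⟨fun t => k1 ((hmem a).1 t), fun t => k2 ((hmem b).1 t), k3⟩
  exact Relation.ReflTransGen.mono hle _ _ hr

end RCN
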