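import Pool.Agent.RCN.HTargets

/-! Job RCN-H5: soundness of `holeCheck`. -/

namespace RCN

theorem H5_mem_nine {p : ℤ} (h1 : -4 ≤ p) (h2 : p ≤ 4) : p ∈ nine := by
  have : p = -4 ∨ p = -3 ∨ p = -2 ∨ p = -1 ∨ p = 0 ∨ p = 1 ∨ p = 2 ∨ p = 3 ∨ p = 4 := by omega
  simp only [nine, List.mem_cons, List.not_mem_nil, or_false]
  exact this

theorem H5_mem_intRange {a x : ℤ} {k : ℕ} (h1 : a ≤ x) (h2 : x < a + k) : x ∈ intRange a k := by
  unfold intRange
  rw [List.mem_map]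
  refine ⟨((x - a).toNat : ℤ), ?_, ?_⟩
  · simp only [bind_pure_comp, List.map_eq_map, List.mem_map, List.mem_range, Nat.cast_inj,
      exists_eq_right]
    omega
  · omega

theorem H5_inBox {p q : ℤ} (h : inBox p q = true) : -4 ≤ p ∧ p ≤ 4 ∧ -4 ≤ q ∧ q ≤ 4 := by
  simp only [inBox, Bool.and_eq_true, decide_eq_true_eq] at h
  omega

theorem H5_co {n n' g g' : ℤ} {m t : ℕ} (h : coCheck n g g' m t = true)
    (hn : (n' - n) % 2 = 0) : CoArmOK n' g g' m := by
  refine ⟨rankTab t, fun p q hb hp hc => ?_⟩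
  obtain ⟨b1, b2, b3, b4⟩ := H5_inBox hb
  have h1 := List.all_eq_true.1 h p (H5_mem_nine b1 b2)
  have h2 := List.all_eq_true.1 h1 q (H5_mem_nine b3 b4)
  have hpar : (p + q + n + 1) % 2 = 0 := by omega
  rw [hb, hc, decide_eq_true hpar] at h2
  simp only [Bool.not_false, Bool.and_self, Bool.not_true, Bool.false_or] at h2
  obtain ⟨d, hd, hd'⟩ := List.any_eq_true.1 h2
  refine ⟨d, hd, ?_⟩
  simpa only [Bool.and_eq_true, Bool.or_eq_true, Bool.not_eq_true', decide_eq_true_eq] using hd'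

theorem H5_pinch {n n' N g g' : ℤ} {m : ℕ} (h : pinchCheck n N g g' m = true)
    (hn : (n' - n) % 2 = 0) : PinchOK n' N g g' m := by
  intro B hB1 hB2 hN hpar p q p1 p2 q1 q2 hpq
  have h1 := List.all_eq_true.1 h B (H5_mem_intRange hB1 (by push_cast; omega))
  have e1 : (B - g' + 1 - n) % 2 = 0 := by omega
  rw [decide_eq_true hN, decide_eq_true e1] at h1
  simp only [Bool.and_self, Bool.not_true, Bool.false_or] at h1
  have h2 := List.all_eq_true.1 h1 p (H5_mem_intRange p1 (by push_cast; omega))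
  have h3 := List.all_eq_true.1 h2 q (H5_mem_intRange q1 (by push_cast; omega))
  have e2 : (p + q + n + 1) % 2 = 0 := by omega
  rw [decide_eq_true e2] at h3
  simpa only [Bool.not_true, Bool.false_or] using h3

theorem pH5 : tH5 := by
  intro D n n' N t0 t1 t2 t3 h hn
  simp only [holeCheck, Bool.and_eq_true] at h
  obtain ⟨⟨⟨⟨⟨⟨⟨c0, c1⟩, c2⟩, c3⟩, p0⟩, p1⟩, p2⟩, p3⟩ := h
  exact ⟨H5_co c0 hn, H5_co c1 hn, H5_co c2 hn, H5_co c3 hn, H5_pinch p0 hn, H5_pinch p1 hn,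
    H5_pinch p2 hn, H5_pinch p3 hn⟩

end RCN
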