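import Pool.Agent.RCN.HTargets

/-!
# RCN, target H6: soundness of the explicit checks
-/

set_option autoImplicit false

namespace RCN

/-- one step outside `P` -/
def H6_St (P : Finset Cell) (x y : Cell) : Prop :=
  x ∉ P ∧ y ∉ P ∧ Pool.Agent.RepCube.Adj x y

/-- the cell escapes -/
def H6_Esc (P : Finset Cell) (c : Cell) : Prop :=
  ∀ N : ℤ, ∃ d : Cell, N ≤ |d.1| + |d.2| ∧ Relation.ReflTransGen (H6_St P) c d

theorem H6_ray (P : Finset Cell) (c : Cell) (dx dy : ℤ)
    (hd : (dx = 1 ∧ dy = 0) ∨ (dx = -1 ∧ dy = 0) ∨ (dx = 0 ∧ dy = 1) ∨ (dx = 0 ∧ dy = -1))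
    (h : ∀ i : ℕ, (c.1 + i * dx, c.2 + i * dy) ∉ P) : H6_Esc P c := by
  have key : ∀ i : ℕ, Relation.ReflTransGen (H6_St P) c (c.1 + i * dx, c.2 + i * dy) := by
    intro i
    induction i with
    | zero => simp only [Nat.cast_zero, zero_mul, add_zero]; exact Relation.ReflTransGen.refl
    | succ i ih =>
      refine ih.tail ⟨h i, h (i + 1), ?_⟩
      unfold Pool.Agent.RepCube.Adj
      simp only
      push_cast
      rcases hd with ⟨e1, e2⟩ | ⟨e1, e2⟩ | ⟨e1, e2⟩ | ⟨e1, e2⟩ <;> subst e1 <;> subst e2 <;> omega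
  intro N
  refine ⟨_, ?_, key (N.toNat + c.1.natAbs + c.2.natAbs)⟩
  simp only [Int.abs_eq_natAbs]
  rcases hd with ⟨e1, e2⟩ | ⟨e1, e2⟩ | ⟨e1, e2⟩ | ⟨e1, e2⟩ <;> subst e1 <;> subst e2 <;> omega

theorem H6_step (P : Finset Cell) (c q : Cell) (hc : c ∉ P) (hq : q ∉ P) (hn : q ∈ nbrs c)
    (h : H6_Esc P q) : H6_Esc P c := by
  intro N
  obtain ⟨d, h1, h2⟩ := h N
  refine ⟨d, h1, Relation.ReflTransGen.head ⟨hc, hq, ?_⟩ h2⟩
  unfold nbrs at hn
  unfold Pool.Agent.RepCube.Adj
  simp only [List.mem_cons, List.not_mem_nil, or_false] at hn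
  rcases hn with hn | hn | hn | hn <;> subst hn <;> simp

theorem H6_out (P : Finset Cell) (a : ℤ) (k : ℕ) (hP : ∀ p ∈ P, inSq a k p = true) (c : Cell)
    (hc : inSq a k c = false) : H6_Esc P c := by
  have hP' : ∀ x y : ℤ, (x < a ∨ a + k ≤ x ∨ y < a ∨ a + k ≤ y) → (x, y) ∉ P := by
    intro x y h hm
    have := hP _ hm
    simp only [inSq, Bool.and_eq_true, decide_eq_true_eq] at this
    omega
  have h1 : c.1 < a ∨ a + k ≤ c.1 ∨ c.2 < a ∨ a + k ≤ c.2 := by
    by_contra h
    push Not at h
    have h2 : inSq a k c = true := by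
      simp only [inSq, Bool.and_eq_true, decide_eq_true_eq]
      omega
    rw [hc] at h2
    exact Bool.noConfusion h2
  rcases h1 with h1 | h1 | h1 | h1
  · exact H6_ray P c (-1) 0 (by simp) fun i => hP' _ _ (by left; omega)
  · exact H6_ray P c 1 0 (by simp) fun i => hP' _ _ (by right; left; omega)
  · exact H6_ray P c 0 (-1) (by simp) fun i => hP' _ _ (by right; right; left; omega)
  · exact H6_ray P c 0 1 (by simp) fun i => hP' _ _ (by right; right; right; omega)

theorem H6_esc (C : List Cell) (a : ℤ) (k : ℕ) (hP : ∀ p ∈ C.toFinset, inSq a k p = true)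
    (l : List Cell) : ∀ seen : List Cell, (∀ s ∈ seen, s ∉ C.toFinset ∧ H6_Esc C.toFinset s) →
    escList a k C seen l = true → ∀ p ∈ l, p ∉ C.toFinset ∧ H6_Esc C.toFinset p := by
  induction l with
  | nil => intro seen _ _ p hp; simp at hp
  | cons q l ih =>
    intro seen hs h
    simp only [escList, Bool.and_eq_true, List.any_eq_true, Bool.or_eq_true,
      Bool.not_eq_true', List.contains_iff_mem] at h
    obtain ⟨⟨h1, r, hr, h2⟩, h3⟩ := h
    have hq : q ∉ C.toFinset := by
      intro hm
      rw [List.mem_toFinset] at hm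
      have : C.contains q = true := List.contains_iff_mem.2 hm
      rw [h1] at this
      exact Bool.noConfusion this
    have hr' : r ∉ C.toFinset ∧ H6_Esc C.toFinset r := by
      rcases h2 with h2 | h2
      · refine ⟨fun hm => ?_, H6_out _ a k hP r h2⟩
        have := hP r hm
        rw [h2] at this
        exact Bool.noConfusion this
      · exact hs r h2
    have hq' : q ∉ C.toFinset ∧ H6_Esc C.toFinset q :=
      ⟨hq, H6_step _ q r hq hr'.1 hr hr'.2⟩
    intro p hp
    rcases List.mem_cons.1 hp with hp | hp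
    · subst hp; exact hq'
    · refine ih (q :: seen) ?_ h3 p hp
      intro s hs'
      rcases List.mem_cons.1 hs' with hs' | hs'
      · subst hs'; exact hq'
      · exact hs s hs'

theorem H6_range (a : ℤ) (k : ℕ) (x : ℤ) (h1 : a ≤ x) (h2 : x < a + k) : x ∈ intRange a k := by
  simp [intRange]
  refine ⟨(x - a).toNat, ?_, ?_⟩ <;> omega

theorem H6_hole (C ord : List Cell) (a : ℤ) (k : ℕ) (h : holeB a k C ord = true) :
    Pool.Agent.RepCube.NoHoles C.toFinset := by
  simp only [holeB, Bool.and_eq_true, List.all_eq_true, Bool.or_eq_true,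
    List.contains_iff_mem] at h
  obtain ⟨⟨h1, h2⟩, h3⟩ := h
  have hP : ∀ p ∈ C.toFinset, inSq a k p = true := fun p hp => h1 p (List.mem_toFinset.1 hp)
  intro c hc
  have hE : H6_Esc C.toFinset c := by
    by_cases hb : inSq a k c = true
    · have hb' := hb
      simp only [inSq, Bool.and_eq_true, decide_eq_true_eq] at hb'
      have h4 := h3 c.1 (H6_range a k c.1 (by omega) (by omega)) c.2
        (H6_range a k c.2 (by omega) (by omega))
      rcases h4 with h4 | h4
      · exact absurd (List.mem_toFinset.2 h4) hc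
      · exact (H6_esc C a k hP ord [] (by simp) h2 c h4).2
    · exact H6_out _ a k hP c (by simpa using hb)
  exact hE

theorem H6_pinch (C : List Cell) (h : pinchB C = true) : NoPinch C.toFinset := by
  simp only [pinchB, List.all_eq_true, Bool.and_eq_true, Bool.or_eq_true, Bool.not_eq_true',
    List.contains_iff_mem] at h
  intro x y
  simp only [List.mem_toFinset]
  refine ⟨fun h1 h2 => ?_, fun h1 h2 => ?_⟩
  · rcases (h _ h1).1 with h3 | h3
    · have : C.contains (x + 1, y + 1) = true := List.contains_iff_mem.2 h2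
      rw [h3] at this
      exact Bool.noConfusion this
    · exact h3
  · have e : x + 1 - 1 = x := by ring
    have h0 := (h _ h1).2
    simp only [e] at h0
    rcases h0 with h3 | h3
    · have : C.contains (x, y + 1) = true := List.contains_iff_mem.2 h2
      rw [h3] at this
      exact Bool.noConfusion this
    · exact h3

theorem pH6 (hU1 : tU1) : tH6 := by
  intro n a k L ord h
  simp only [strongB, Bool.and_eq_true] at h
  exact ⟨hU1 n L h.1.1, H6_pinch _ h.1.2, H6_hole _ ord a k h.2⟩

end RCN
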