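import Pool.Agent.RCN.HTargets

/-!
# Target H7: moving a strong net (helper93)
-/

set_option autoImplicit false

namespace RCN

open Pool.Agent.RepCube (NoHoles)

theorem H7_mem (P : Finset Cell) (i j x y : ℤ) :
    (x, y) ∈ shift i j P ↔ (x - i, y - j) ∈ P := by
  unfold shift
  rw [Finset.mem_image]
  constructor
  · rintro ⟨p, hp, h⟩
    have h1 : p.1 + i = x := congrArg Prod.fst h
    have h2 : p.2 + j = y := congrArg Prod.snd h
    have h3 : ((x - i, y - j) : Cell) = p := Prod.ext (by simp; omega) (by simp; omega)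
    rw [h3]; exact hp
  · intro h
    exact ⟨_, h, by simp⟩

theorem H7_pin (P : Finset Cell) (i j : ℤ) (h : NoPinch P) : NoPinch (shift i j P) := by
  intro x y
  have h' := h (x - i) (y - j)
  have e1 : x + 1 - i = x - i + 1 := by ring
  have e2 : y + 1 - j = y - j + 1 := by ring
  simp only [H7_mem, e1, e2]
  exact h'

theorem H7_adj {i j : ℤ} {x y : Cell} (h : Pool.Agent.RepCube.Adj x y) :
    Pool.Agent.RepCube.Adj ((x.1 + i, x.2 + j) : Cell) ((y.1 + i, y.2 + j) : Cell) := by
  unfold Pool.Agent.RepCube.Adj at h ⊢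
  simp only
  omega

theorem H7_hol (P : Finset Cell) (i j : ℤ) (h : NoHoles P) : NoHoles (shift i j P) := by
  intro c hc N
  have hc' : ((c.1 - i, c.2 - j) : Cell) ∉ P := fun hm => hc ((H7_mem P i j c.1 c.2).2 hm)
  obtain ⟨d, hd, hpath⟩ := h _ hc' (N + |i| + |j|)
  refine ⟨(d.1 + i, d.2 + j), ?_, ?_⟩
  · have h1 : |d.1| ≤ |d.1 + i| + |i| := by
      have := abs_sub (d.1 + i) i
      simpa using this
    have h2 : |d.2| ≤ |d.2 + j| + |j| := by
      have := abs_sub (d.2 + j) j
      simpa using this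
    show N ≤ |d.1 + i| + |d.2 + j|
    linarith
  · have hx : ∀ x : Cell, x ∉ P → ((x.1 + i, x.2 + j) : Cell) ∉ shift i j P := by
      intro x hx hm
      rw [H7_mem] at hm
      apply hx
      simpa using hm
    have hst : ∀ a b : Cell, (a ∉ P ∧ b ∉ P ∧ Pool.Agent.RepCube.Adj a b) →
        (((a.1 + i, a.2 + j) : Cell) ∉ shift i j P ∧ ((b.1 + i, b.2 + j) : Cell) ∉ shift i j P ∧
          Pool.Agent.RepCube.Adj ((a.1 + i, a.2 + j) : Cell) ((b.1 + i, b.2 + j) : Cell)) :=
      fun a b hab => ⟨hx a hab.1, hx b hab.2.1, H7_adj hab.2.2⟩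
    clear hd
    have e : c = ((c.1 - i, c.2 - j).1 + i, (c.1 - i, c.2 - j).2 + j) := by
      ext <;> simp
    rw [e]
    induction hpath with
    | refl => exact Relation.ReflTransGen.refl
    | tail _ h2 ih => exact ih.tail (hst _ _ h2)

theorem pH7 (hA2 : tA2) : tH7 := fun n P i j h =>
  ⟨hA2 n P i j h.net, H7_pin P i j h.pin, H7_hol P i j h.hol⟩

end RCN
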