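import Pool.Agent.RCN.HTargets

/-! From a nest to a division in the strong sense (target `tH8`) -/

set_option autoImplicit false

namespace RCN

open Pool.Agent.RepCube (NoHoles IsNet)

/-- counting: the tiles of a nest fill the difference -/
theorem H8_fill (hA1 : tA1) {b c : ℕ} {Q P : Finset Cell} (hbc : b ≤ c) (hQ : IsCubeNet b Q)
    (hP : IsCubeNet c P) (hQP : Q ⊆ P) (T : Finset (Finset Cell)) (hT : T.card = c ^ 2 - b ^ 2)
    (hnet : ∀ t ∈ T, IsCubeNet 1 t) (hsub : ∀ t ∈ T, ∀ x ∈ t, x ∈ P ∧ x ∉ Q)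
    (hdis : ∀ s ∈ T, ∀ t ∈ T, s ≠ t → Disjoint s t) : P = Q ∪ T.biUnion id := by
  have h1 : (T.biUnion id).card = 6 * (c ^ 2 - b ^ 2) := by
    have hc : (T.biUnion id).card = ∑ t ∈ T, (id t : Finset Cell).card :=
      Finset.card_biUnion (fun s hs t ht hst => hdis s hs t ht hst)
    have hs : ∑ t ∈ T, (id t : Finset Cell).card = ∑ _t ∈ T, 6 :=
      Finset.sum_congr rfl (fun t ht => by
        have := hA1 1 t (hnet t ht)
        simpa using this)
    rw [hc, hs, Finset.sum_const, hT, smul_eq_mul, mul_comm]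
  have h2 : Disjoint Q (T.biUnion id) := by
    rw [Finset.disjoint_left]
    intro x hx hx'
    rw [Finset.mem_biUnion] at hx'
    obtain ⟨t, ht, hxt⟩ := hx'
    exact (hsub t ht x hxt).2 hx
  have h3 : (Q ∪ T.biUnion id).card = 6 * c ^ 2 := by
    rw [Finset.card_union_of_disjoint h2, h1, hA1 b Q hQ]
    have h4 : b ^ 2 ≤ c ^ 2 := Nat.pow_le_pow_left hbc 2
    omega
  have h5 : Q ∪ T.biUnion id ⊆ P := by
    intro x hx
    rw [Finset.mem_union] at hx
    rcases hx with hx | hx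
    · exact hQP hx
    · rw [Finset.mem_biUnion] at hx
      obtain ⟨t, ht, hxt⟩ := hx
      exact (hsub t ht x hxt).1
  exact (Finset.eq_of_subset_of_card_le h5 (by rw [h3, hA1 c P hP])).symm

theorem pH8 (hA1 : tA1) (hH1 : tH1) (hH2 : tH2) : tH8 := by
  intro b c Q P hb hbc hQ hP hN
  obtain ⟨hQP, T, hT, hnet, hsub, hdis⟩ := hN
  have hsub' : ∀ t ∈ T, ∀ x ∈ t, x ∈ P ∧ x ∉ Q := fun t ht x hx => hsub t ht hx
  refine ⟨P, Q, T, hH1 c P (by omega) hP, hH1 b Q hb hQ, hT, ?_, hdis, ?_,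
    H8_fill hA1 hbc hQ.net hP.net hQP T hT hnet hsub' hdis⟩
  · intro t ht
    exact hH1 1 t one_pos ⟨hnet t ht, (hH2 t (hnet t ht)).1, (hH2 t (hnet t ht)).2⟩
  · intro t ht
    rw [Finset.disjoint_left]
    intro x hx hx'
    exact (hsub' t ht x hx').2 hx

end RCN
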