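import Pool.Agent.RCN.HTargets

/-!
# tH9: composition with the chain
-/

namespace RCN

lemma H9_chain (hA7 : tA7) (D : Pin) (b n : ℕ) (Q : Finset Cell) (hbn : b ≤ n)
    (hC : ∀ m : ℕ, Nest (shift 1 1 (D.set (n + 2 * m))) (D.set (n + 2 * m + 2))
      (4 * (n + 2 * m) + 4))
    (hQ : Nest Q (D.set n) (n ^ 2 - b ^ 2)) (k : ℕ) :
    ∃ i j : ℤ, Nest (shift i j Q) (D.set ((n + 2 * k : ℕ) : ℤ)) ((n + 2 * k) ^ 2 - b ^ 2) := by
  obtain ⟨h1, h2, h3⟩ := hA7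
  induction k with
  | zero =>
    refine ⟨0, 0, ?_⟩
    have h0 : shift 0 0 Q = Q := by
      unfold shift
      simp
    rw [h0]
    simpa using hQ
  | succ k ih =>
    obtain ⟨i, j, h⟩ := ih
    refine ⟨1 + i, 1 + j, ?_⟩
    have h4 := h2 _ _ _ 1 1 h
    rw [h3] at h4
    have h5 := hC k
    have e1 : ((n : ℤ) + 2 * (k : ℤ)) = ((n + 2 * k : ℕ) : ℤ) := by push_cast; ring
    rw [e1] at h5
    have h6 := h1 _ _ _ _ _ h4 h5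
    have e2 : ((n + 2 * k : ℕ) : ℤ) + 2 = ((n + 2 * (k + 1) : ℕ) : ℤ) := by push_cast; ring
    rw [e2] at h6
    have hle : b ^ 2 ≤ (n + 2 * k) ^ 2 := Nat.pow_le_pow_left (by omega) 2
    have e3 : (n + 2 * k) ^ 2 - b ^ 2 + (4 * (n + 2 * k) + 4) = (n + 2 * (k + 1)) ^ 2 - b ^ 2 := by
      have e4 : (n + 2 * (k + 1)) ^ 2 = (n + 2 * k) ^ 2 + (4 * (n + 2 * k) + 4) := by ring
      omega
    rw [e3] at h6
    exact h6

theorem pH9 (hA7 : tA7) (hP11 : tP11) (hH3 : tH3) (hH4 : tH4) (hH7 : tH7) (hH8 : tH8) :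
    tH9 := by
  intro D N b n Q h4 h6 hNn hb hbn hOK hC hS hQ k
  obtain ⟨i, j, h⟩ := H9_chain hA7 D b n Q hbn hC hQ k
  have e1 : ((n : ℤ) + 2 * (k : ℤ)) = ((n + 2 * k : ℕ) : ℤ) := by push_cast; ring
  obtain ⟨hok, hokh⟩ := hOK k
  rw [e1] at hok hokh
  have hN : N ≤ ((n + 2 * k : ℕ) : ℤ) := by push_cast; omega
  exact hH8 b (n + 2 * k) (shift i j Q) (D.set ((n + 2 * k : ℕ) : ℤ)) hb (by omega)
    (hH7 b Q i j hS)
    ⟨hP11 D (n + 2 * k) N h4 hN hok, hH3 D _ N h4 h6 hN hok hokh, hH4 D _ N h4 hN hok hokh⟩ h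

end RCN
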