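import Pool.Agent.RCN.Targets

/-!
# RCN, target P0: symmetry of pinwheel nets (helper13)
-/

set_option autoImplicit false

namespace RCN

theorem P0_box {p q : ℤ} (h : inBox p q = true) : inBox q (-p) = true := by
  simp only [inBox, Bool.and_eq_true, decide_eq_true_eq] at h ⊢
  omega

theorem pP0 : tP0 := by
  refine ⟨fun D n x y => ?_, fun D n N h => ?_⟩
  · have e : n - 1 - (n - 1 - x) = x := by ring
    unfold Pin.Mem Pin.rot
    simp only [e]
    constructor
    · rintro (h | h | h | h | h)
      · left; omega
      · right; right; right; right; exact h
      · right; left; exact h
      · right; right; left; exact h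
      · right; right; right; left; exact h
    · rintro (h | h | h | h | h)
      · left; omega
      · right; right; left; exact h
      · right; right; right; left; exact h
      · right; right; right; right; exact h
      · right; left; exact h
  · refine ⟨h.b1, h.b2, h.b3, h.b0, ?_, h.a1, h.a2, h.a3, h.a0⟩
    intro p q hb hp
    have h1 := h.one q (-p) (P0_box hb) (by omega)
    simp only [neg_neg] at h1
    simp only [Pin.rot]
    omega

end RCN
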