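import Pool.Agent.RCN.Targets

/-!
# An arm of a pinwheel net lies in the region `Reg0`
-/

namespace RCN

theorem P1_core {g g' p q : ℤ} {m : ℕ} (h : core g g' m p q = true) :
    (-4 ≤ p + q ∧ p + q ≤ 4 ∧ -4 ≤ q - p ∧ q - p ≤ 4) ∨ (g ≤ q ∧ p ≤ g' - 1) := by
  unfold core at h
  by_cases hb : inBox p q = true
  · left
    simp only [inBox, Bool.and_eq_true, decide_eq_true_eq] at hb
    omega
  · right
    rw [if_neg hb] at h
    simp only [Bool.and_eq_true, decide_eq_true_eq] at h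
    exact h

theorem pP1 : tP1 := by
  intro n g g' m x y hn hg0 hg1 hg'0 hg'1 h
  obtain ⟨h1, h2, h3⟩ := h
  rcases P1_core h2 with h4 | h4
  · refine ⟨?_, ?_, ?_, h1, ?_⟩ <;> omega
  · refine ⟨?_, ?_, ?_, h1, ?_⟩ <;> omega

end RCN
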