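import Pool.Agent.RCN.Targets

/-!
# RCN, target tP10: pinwheel nets are connected
-/

namespace RCN

/-- steps inside the pinwheel net -/
def P10_R (D : Pin) (n : ℤ) (a b : Cell) : Prop := Adj a b ∧ D.Mem n b.1 b.2

/-- connected to the origin -/
def P10_C (D : Pin) (n : ℤ) (p : Cell) : Prop := Relation.ReflTransGen (P10_R D n) p (0, 0)

theorem P10_inBox (p q : ℤ) :
    inBox p q = true ↔ -4 ≤ p + q ∧ p + q ≤ 4 ∧ -4 ≤ q - p ∧ q - p ≤ 4 := by
  simp only [inBox, Bool.and_eq_true, decide_eq_true_eq, and_assoc]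

theorem P10_inBox' (p q : ℤ) :
    inBox p q = false ↔ ¬ (-4 ≤ p + q ∧ p + q ≤ 4 ∧ -4 ≤ q - p ∧ q - p ≤ 4) := by
  rw [← P10_inBox, Bool.not_eq_true]

theorem P10_core {g g' : ℤ} {m : ℕ} {p q : ℤ} (h : inBox p q = false) :
    core g g' m p q = true ↔ g ≤ q ∧ p ≤ g' - 1 := by
  unfold core
  rw [h]
  simp

theorem P10_mem_base {D : Pin} {n x y : ℤ} (h : 0 ≤ x ∧ x < n ∧ 0 ≤ y ∧ y < n) :
    D.Mem n x y := Or.inl h

theorem P10_adj_symm {a b : Cell} (h : Adj a b) : Adj b a := by
  unfold Adj at h ⊢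
  omega

/-- base cells are connected to the origin -/
theorem P10_base (D : Pin) (n : ℤ) : ∀ k : ℕ, ∀ x y : ℤ, 0 ≤ x → x < n → 0 ≤ y → y < n →
    x + y = k → P10_C D n (x, y) := by
  intro k
  induction k with
  | zero =>
    intro x y hx _ hy _ hk
    have h1 : x = 0 := by push_cast at hk; omega
    have h2 : y = 0 := by push_cast at hk; omega
    subst h1; subst h2
    exact Relation.ReflTransGen.refl
  | succ k ih =>
    intro x y hx hxn hy hyn hk
    push_cast at hk
    rcases eq_or_lt_of_le hx with h0 | h0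
    · refine Relation.ReflTransGen.head (b := (x, y - 1)) ⟨?_, ?_⟩
        (ih x (y - 1) hx hxn (by omega) (by omega) (by omega))
      · unfold Adj; right; right; right; exact ⟨rfl, rfl⟩
      · exact P10_mem_base ⟨hx, hxn, by simp only; omega, by simp only; omega⟩
    · refine Relation.ReflTransGen.head (b := (x - 1, y)) ⟨?_, ?_⟩
        (ih (x - 1) y (by omega) (by omega) hy hyn (by omega))
      · unfold Adj; right; left; exact ⟨rfl, rfl⟩
      · exact P10_mem_base ⟨by simp only; omega, by simp only; omega, hy, hyn⟩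

theorem P10_base' (D : Pin) (n : ℤ) {x y : ℤ} (hx : 0 ≤ x) (hxn : x < n) (hy : 0 ≤ y)
    (hyn : y < n) : P10_C D n (x, y) :=
  P10_base D n (x + y).toNat x y hx hxn hy hyn (by omega)

/-- cells of the first arm outside the window -/
theorem P10_out (hP1 : tP1) {D : Pin} {n N : ℤ} (h4 : 4 ≤ N) (hN : N ≤ n) (hD : D.OK n N) :
    ∀ k : ℕ, ∀ x y : ℤ, Arm n D.g0 D.g1 D.m0 x y →
      inBox (x - y - 3 * n) (x + y + 1) = false → x - y = k → P10_C D n (x, y) := by
  have hn4 : 4 ≤ n := h4.trans hN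
  have hb0 := hD.b0
  have hb1 := hD.b1
  intro k
  induction k with
  | zero =>
    intro x y hA _ hk
    have h1 := hP1 n D.g0 D.g1 D.m0 x y hn4 (by omega) (by omega) (by omega) (by omega) hA
    push_cast at hk
    omega
  | succ k ih =>
    intro x y hA hb hk
    have h1 := hP1 n D.g0 D.g1 D.m0 x y hn4 (by omega) (by omega) (by omega) (by omega) hA
    obtain ⟨hy, hc, hq⟩ := hA
    rw [P10_core hb] at hc
    rw [P10_inBox'] at hb
    push_cast at hk
    by_cases hx : y = -1 ∧ x < n
    · refine Relation.ReflTransGen.head (b := (x, y + 1)) ⟨?_, ?_⟩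
        (P10_base' D n h1.1 hx.2 (by omega) (by omega))
      · unfold Adj; right; right; left; exact ⟨rfl, rfl⟩
      · exact P10_mem_base ⟨h1.1, hx.2, by simp only; omega, by simp only; omega⟩
    · by_cases hq1 : x + y + 1 + 1 ≤ n + D.g1 - 1
      · have hb' : inBox (x - (y + 1) - 3 * n) (x + (y + 1) + 1) = false := by
          rw [P10_inBox']; omega
        have hA' : Arm n D.g0 D.g1 D.m0 x (y + 1) := by
          refine ⟨by omega, ?_, by omega⟩
          rw [P10_core hb']
          omega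
        refine Relation.ReflTransGen.head (b := (x, y + 1)) ⟨?_, Or.inr (Or.inl hA')⟩
          (ih x (y + 1) hA' hb' (by omega))
        unfold Adj; right; right; left; exact ⟨rfl, rfl⟩
      · have hb' : inBox (x - 1 - y - 3 * n) (x - 1 + y + 1) = false := by
          rw [P10_inBox']; omega
        have hA' : Arm n D.g0 D.g1 D.m0 (x - 1) y := by
          refine ⟨hy, ?_, by omega⟩
          rw [P10_core hb']
          omega
        refine Relation.ReflTransGen.head (b := (x - 1, y)) ⟨?_, Or.inr (Or.inl hA')⟩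
          (ih (x - 1) y hA' hb' (by omega))
        unfold Adj; right; left; exact ⟨rfl, rfl⟩

theorem P10_out' (hP1 : tP1) {D : Pin} {n N : ℤ} (h4 : 4 ≤ N) (hN : N ≤ n) (hD : D.OK n N)
    {x y : ℤ} (hA : Arm n D.g0 D.g1 D.m0 x y)
    (hb : inBox (x - y - 3 * n) (x + y + 1) = false) : P10_C D n (x, y) := by
  have hn4 : 4 ≤ n := h4.trans hN
  have hb0 := hD.b0
  have hb1 := hD.b1
  have h1 := hP1 n D.g0 D.g1 D.m0 x y hn4 (by omega) (by omega) (by omega) (by omega) hA
  exact P10_out hP1 h4 hN hD (x - y).toNat x y hA hb (by omega)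

/-- all cells of the first arm -/
theorem P10_arm (hP1 : tP1) {D : Pin} {n N : ℤ} (h4 : 4 ≤ N) (hN : N ≤ n) (hD : D.OK n N)
    {x y : ℤ} (hA : Arm n D.g0 D.g1 D.m0 x y) : P10_C D n (x, y) := by
  obtain ⟨r, hr⟩ := hD.a0
  have key : ∀ k : ℕ, ∀ x y : ℤ, Arm n D.g0 D.g1 D.m0 x y →
      r (x - y - 3 * n) (x + y + 1) = k → P10_C D n (x, y) := by
    intro k
    induction k using Nat.strong_induction_on with
    | _ k ih =>
      intro x y hA hk
      cases hb : inBox (x - y - 3 * n) (x + y + 1) with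
      | false => exact P10_out' hP1 h4 hN hD hA hb
      | true =>
        obtain ⟨hy, hc, hq⟩ := hA
        obtain ⟨hq2, d, hd, hcd, hqd, hcase⟩ := hr _ _ hb (by omega) hc
        have hbb := (P10_inBox _ _).1 hb
        have hgo : ∀ x' y' : ℤ, x' - y' - 3 * n = x - y - 3 * n + d.1 →
            x' + y' + 1 = x + y + 1 + d.2 → Adj (x, y) (x', y') → P10_C D n (x, y) := by
          intro x' y' e1 e2 hadj
          have hA' : Arm n D.g0 D.g1 D.m0 x' y' := by
            refine ⟨?_, ?_, ?_⟩
            · unfold Adj at hadj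
              simp only at hadj
              omega
            · rw [e1, e2]; exact hcd
            · rw [e2]; omega
          refine Relation.ReflTransGen.head (b := (x', y')) ⟨hadj, Or.inr (Or.inl hA')⟩ ?_
          rcases hcase with h | h
          · exact P10_out' hP1 h4 hN hD hA' (by rw [e1, e2]; exact h)
          · refine ih _ ?_ x' y' hA' rfl
            rw [e1, e2, ← hk]
            exact h
        simp only [List.mem_cons, List.not_mem_nil, or_false] at hd
        rcases hd with rfl | rfl | rfl | rfl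
        · exact hgo (x + 1) y (by simp only; ring) (by simp only; ring)
            (by unfold Adj; left; exact ⟨rfl, rfl⟩)
        · exact hgo (x - 1) y (by simp only; ring) (by simp only; ring)
            (by unfold Adj; right; left; exact ⟨rfl, rfl⟩)
        · exact hgo x (y + 1) (by simp only; ring) (by simp only; ring)
            (by unfold Adj; right; right; left; exact ⟨rfl, rfl⟩)
        · exact hgo x (y - 1) (by simp only; ring) (by simp only; ring)
            (by unfold Adj; right; right; right; exact ⟨rfl, rfl⟩)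
  exact key _ x y hA rfl

/-- turning the frame -/
theorem P10_rot (hP0 : tP0) {D : Pin} {n : ℤ} (hn : 1 ≤ n) {x y : ℤ}
    (h : P10_C D.rot n (y, n - 1 - x)) : P10_C D n (x, y) := by
  have h1 : Relation.ReflTransGen (P10_R D n)
      ((fun a : Cell => ((n - 1 - a.2, a.1) : Cell)) (y, n - 1 - x))
      ((fun a : Cell => ((n - 1 - a.2, a.1) : Cell)) (0, 0)) := by
    refine Relation.ReflTransGen.lift (r := P10_R D.rot n)
      (fun a : Cell => ((n - 1 - a.2, a.1) : Cell)) ?_ _ _ h
    rintro a b ⟨hab, hm⟩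
    refine ⟨?_, ?_⟩
    · unfold Adj at hab ⊢
      simp only
      omega
    · have h2 := hP0.1 D n (n - 1 - b.2) b.1
      rw [h2]
      have e : n - 1 - (n - 1 - b.2) = b.2 := by ring
      rw [e]
      exact hm
  have e1 : (fun a : Cell => ((n - 1 - a.2, a.1) : Cell)) (y, n - 1 - x) = (x, y) := by
    ext
    · simp
    · simp
  have e2 : (fun a : Cell => ((n - 1 - a.2, a.1) : Cell)) (0, 0) = (n - 1, 0) := by
    ext
    · simp
    · simp
  rw [e1, e2] at h1
  exact h1.trans (P10_base' D n (by omega) (by omega) le_rfl (by omega))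

theorem P10_all (hP0 : tP0) (hP1 : tP1) {D : Pin} {n N : ℤ} (h4 : 4 ≤ N) (hN : N ≤ n)
    (hD : D.OK n N) {x y : ℤ} (h : D.Mem n x y) : P10_C D n (x, y) := by
  have hn : 1 ≤ n := by omega
  have hD1 := hP0.2 D n N hD
  have hD2 := hP0.2 _ n N hD1
  have hD3 := hP0.2 _ n N hD2
  rcases h with h | h | h | h | h
  · exact P10_base' D n h.1 h.2.1 h.2.2.1 h.2.2.2
  · exact P10_arm hP1 h4 hN hD h
  · exact P10_rot hP0 hn (P10_arm hP1 h4 hN hD1 h)
  · refine P10_rot hP0 hn (P10_rot hP0 hn ?_)
    exact P10_arm hP1 h4 hN hD2 h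
  · refine P10_rot hP0 hn (P10_rot hP0 hn (P10_rot hP0 hn ?_))
    have e : n - 1 - (n - 1 - x) = x := by ring
    rw [e]
    exact P10_arm hP1 h4 hN hD3 h

/-- reversal of a path -/
theorem P10_symm {D : Pin} {n : ℤ} {p q : Cell} (h : Relation.ReflTransGen (P10_R D n) p q)
    (hp : D.Mem n p.1 p.2) :
    D.Mem n q.1 q.2 ∧ Relation.ReflTransGen (P10_R D n) q p := by
  induction h with
  | refl => exact ⟨hp, Relation.ReflTransGen.refl⟩
  | tail _ hbc ih =>
    exact ⟨hbc.2, Relation.ReflTransGen.head ⟨P10_adj_symm hbc.1, ih.1⟩ ih.2⟩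

theorem pP10 (hP0 : tP0) (hP1 : tP1) (hP2 : tP2) : tP10 := by
  intro D n N h4 hN hD
  have hn4 : 4 ≤ n := h4.trans hN
  have hmem : ∀ a : Cell, a ∈ D.set n ↔ D.Mem n a.1 a.2 := fun a =>
    hP2 D n N a.1 a.2 hn4 hD
  refine ⟨⟨(0, 0), (hmem _).2 (P10_mem_base ⟨le_rfl, by simp only; omega, le_rfl,
    by simp only; omega⟩)⟩, ?_⟩
  intro p hp q hq
  have h1 : P10_C D n p := P10_all hP0 hP1 h4 hN hD ((hmem p).1 hp)
  have h2 : P10_C D n q := P10_all hP0 hP1 h4 hN hD ((hmem q).1 hq)
  have h3 := h1.trans (P10_symm h2 ((hmem q).1 hq)).2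
  refine Relation.ReflTransGen.mono (r := P10_R D n) ?_ _ _ h3
  intro a b hab
  exact ⟨hab.1, (hmem b).2 hab.2⟩

end RCN
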