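import Pool.Agent.RCN.Targets

/-!
# RCN target P11: pinwheel nets are nets (helper5)
-/

namespace RCN

/-- Pinwheel nets are nets. -/
theorem pP11 (hP2 : tP2) (hP5 : tP5) (hP6 : tP6) (hP7 : tP7) (hP8 : tP8) (hP9 : tP9)
    (hP10 : tP10) : tP11 := by
  intro D n N hN hn hD
  have h4 : (4 : ℤ) ≤ n := hN.trans hn
  have hm : ∀ x y : ℤ, ((x, y) : Cell) ∈ D.set n ↔ D.Mem n x y :=
    fun x y => hP2 D n N x y h4 hD
  refine ⟨hP10 D n N hN hn hD, pinFold n, ?_, ?_, ?_, ?_⟩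
  · rintro ⟨x, y⟩ hp
    exact hP5 D n N x y h4 hD ((hm x y).1 hp)
  · intro x y h1 h2
    exact hP6 D n N x y h4 hD ((hm x y).1 h1) ((hm (x + 1) y).1 h2)
  · intro x y h1 h2
    exact hP7 D n N x y h4 hD ((hm x y).1 h1) ((hm x (y + 1)).1 h2)
  · intro o ho
    obtain ⟨x, y, hM, ho'⟩ := hP8 D n N o hN hn hD ho
    refine ⟨(x, y), ⟨(hm x y).2 hM, ho'⟩, ?_⟩
    rintro ⟨x', y'⟩ ⟨h1, h2⟩
    obtain ⟨e1, e2⟩ := hP9 D n N x' y' x y hN hn hD ((hm x' y').1 h1) hM (h2.trans ho'.symm)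
    rw [e1, e2]

end RCN
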