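import Pool.Agent.RCN.Targets

/-!
# Target tP2 : membership in the finite set of cells of a pinwheel net
-/

namespace RCN

private theorem P2_bounds (hP1 : tP1) (D : Pin) (n N x y : ℤ) (hn : 4 ≤ n) (hD : D.OK n N)
    (h : D.Mem n x y) : -2 * n ≤ x ∧ x ≤ 3 * n ∧ -2 * n ≤ y ∧ y ≤ 3 * n := by
  have h0 : 0 ≤ D.g0 ∧ D.g0 ≤ 1 := by rcases hD.b0 with h | h <;> rw [h] <;> decide
  have h1 : 0 ≤ D.g1 ∧ D.g1 ≤ 1 := by rcases hD.b1 with h | h <;> rw [h] <;> decide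
  have h2 : 0 ≤ D.g2 ∧ D.g2 ≤ 1 := by rcases hD.b2 with h | h <;> rw [h] <;> decide
  have h3 : 0 ≤ D.g3 ∧ D.g3 ≤ 1 := by rcases hD.b3 with h | h <;> rw [h] <;> decide
  unfold Pin.Mem at h
  rcases h with h | h | h | h | h
  · omega
  · have := hP1 n D.g0 D.g1 D.m0 x y hn h0.1 h0.2 h1.1 h1.2 h
    omega
  · have := hP1 n D.g1 D.g2 D.m1 y (n - 1 - x) hn h1.1 h1.2 h2.1 h2.2 h
    omega
  · have := hP1 n D.g2 D.g3 D.m2 (n - 1 - x) (n - 1 - y) hn h2.1 h2.2 h3.1 h3.2 h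
    omega
  · have := hP1 n D.g3 D.g0 D.m3 (n - 1 - y) x hn h3.1 h3.2 h0.1 h0.2 h
    omega

theorem pP2 (hP1 : tP1) : tP2 := by
  intro D n N x y hn hD
  have hb := P2_bounds hP1 D n N x y hn hD
  unfold Pin.set
  simp only [Finset.mem_filter, Finset.mem_product, Finset.mem_Icc]
  constructor
  · intro h
    exact h.2
  · intro h
    have := hb h
    exact ⟨⟨⟨this.1, this.2.1⟩, ⟨this.2.2.1, this.2.2.2⟩⟩, h⟩

end RCN
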