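import Pool.Agent.RCN.Targets

/-!
# Target P3: the folding `E0` on the region `Reg0` (helper93)
-/

set_option autoImplicit false

namespace RCN

theorem P3_mid {n t : ℤ} (k : ℤ) (h : t = 2 * k + 1) (h0 : 0 ≤ k) (h1 : k < n) : Mid n t :=
  ⟨⟨k, h⟩, by omega, by omega⟩

theorem P3_vec {a b c a' b' c' : ℤ} (h1 : a = a') (h2 : b = b') (h3 : c = c') :
    ((a, b, c) : Vec) = (a', b', c') := by
  subst h1 h2 h3; rfl

/-- value on the base square -/
theorem P3_base {n x y : ℤ} (hy : 0 ≤ y) :
    E0 n x y = ⟨(2 * x + 1, 2 * y + 1, 0), (1, 0, 0), (0, 1, 0)⟩ := by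
  simp only [E0, hy, if_true]

/-- value on the square below the base -/
theorem P3_low {n x y : ℤ} (hy : y < 0) (hy' : -n ≤ y) (hx : x < n) :
    E0 n x y = ⟨(2 * x + 1, 0, -2 * y - 1), (1, 0, 0), (0, 0, -1)⟩ := by
  have h : ¬ 0 ≤ y := by omega
  simp only [E0, h, if_false, hy', if_true, hx]

/-- value on the square to the right of it -/
theorem P3_right {n x y : ℤ} (hy : y < 0) (hy' : -n ≤ y) (hx : n ≤ x) :
    E0 n x y = ⟨(2 * n, 2 * (x - n) + 1, -2 * y - 1), (0, 1, 0), (0, 0, -1)⟩ := by
  have h : ¬ 0 ≤ y := by omega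
  have h' : ¬ x < n := by omega
  simp only [E0, h, if_false, hy', if_true, h']

/-- value on the square below that one -/
theorem P3_top {n x y : ℤ} (hy : y < 0) (hy' : y < -n) :
    E0 n x y = ⟨(4 * n + 1 + 2 * y, 2 * (x - n) + 1, 2 * n), (0, 1, 0), (1, 0, 0)⟩ := by
  have h : ¬ 0 ≤ y := by omega
  have h' : ¬ -n ≤ y := by omega
  simp only [E0, h, if_false, h']

theorem P3_on (n : ℤ) (_hn : 1 ≤ n) (x y : ℤ) (h : Reg0 n x y) : OnCube n (E0 n x y) := by
  rcases h with ⟨h1, h2, h3, h4⟩ | ⟨h1, h2, h3, h4, h5⟩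
  · rw [P3_base h3]
    exact ⟨by simp [dot], by simp [dot], by simp [dot], Or.inr (Or.inr
      ⟨P3_mid x rfl h1 h2, P3_mid y rfl h3 h4, Or.inl rfl, rfl, rfl⟩)⟩
  · by_cases hy : -n ≤ y
    · by_cases hx : x < n
      · rw [P3_low h4 hy hx]
        exact ⟨by simp [dot], by simp [dot], by simp [dot], Or.inr (Or.inl
          ⟨P3_mid x rfl h1 hx, Or.inl rfl,
            P3_mid (-y - 1) (by ring) (by omega) (by omega), rfl, rfl⟩)⟩
      · rw [P3_right h4 hy (by omega)]
        exact ⟨by simp [dot], by simp [dot], by simp [dot], Or.inl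
          ⟨Or.inr rfl, P3_mid (x - n) rfl (by omega) (by omega),
            P3_mid (-y - 1) (by ring) (by omega) (by omega), rfl, rfl⟩⟩
    · have hx := h5 (by omega)
      rw [P3_top h4 (by omega)]
      exact ⟨by simp [dot], by simp [dot], by simp [dot], Or.inr (Or.inr
        ⟨P3_mid (2 * n + y) (by ring) (by omega) (by omega),
          P3_mid (x - n) rfl (by omega) (by omega), Or.inr rfl, rfl, rfl⟩)⟩

theorem P3_gr (n : ℤ) (hn : 1 ≤ n) (x y : ℤ) (h : Reg0 n x y) (h' : Reg0 n (x + 1) y) :
    GlueR (E0 n x y) (E0 n (x + 1) y) := by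
  by_cases hy0 : 0 ≤ y
  · rw [P3_base hy0, P3_base hy0]
    exact ⟨P3_vec (by simp; ring) (by simp) (by simp), rfl⟩
  · have h4 : y < 0 := by omega
    by_cases hy : -n ≤ y
    · by_cases hx : x + 1 < n
      · rw [P3_low h4 hy (by omega), P3_low h4 hy hx]
        exact ⟨P3_vec (by simp; ring) (by simp) (by simp), rfl⟩
      · by_cases hx' : x < n
        · rw [P3_low h4 hy hx', P3_right h4 hy (by omega)]
          have e : n = x + 1 := by omega
          subst e
          exact ⟨P3_vec (by simp; ring) (by simp) (by simp), rfl⟩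
        · rw [P3_right h4 hy (by omega), P3_right h4 hy (by omega)]
          exact ⟨P3_vec (by simp) (by simp; ring) (by simp), rfl⟩
    · rw [P3_top h4 (by omega), P3_top h4 (by omega)]
      exact ⟨P3_vec (by simp) (by simp; ring) (by simp), rfl⟩

theorem P3_gu (n : ℤ) (hn : 1 ≤ n) (x y : ℤ) (h : Reg0 n x y) (h' : Reg0 n x (y + 1)) :
    GlueU (E0 n x y) (E0 n x (y + 1)) := by
  by_cases hy0 : 0 ≤ y
  · rw [P3_base hy0, P3_base (by omega)]
    exact ⟨P3_vec (by simp) (by simp; ring) (by simp), rfl⟩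
  · have h4 : y < 0 := by omega
    by_cases hy1 : y = -1
    · subst hy1
      have hx : x < n := by
        rcases h' with h' | h' <;> omega
      rw [P3_low h4 (by omega) hx, P3_base (by omega)]
      exact ⟨P3_vec (by simp) (by simp) (by simp), rfl⟩
    · have h4' : y + 1 < 0 := by omega
      by_cases hy : -n ≤ y
      · by_cases hx : x < n
        · rw [P3_low h4 hy hx, P3_low h4' (by omega) hx]
          exact ⟨P3_vec (by simp) (by simp) (by simp; ring), rfl⟩
        · rw [P3_right h4 hy (by omega), P3_right h4' (by omega) (by omega)]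
          exact ⟨P3_vec (by simp) (by simp) (by simp; ring), rfl⟩
      · have hx : n ≤ x := by
          rcases h with h | h
          · omega
          · exact h.2.2.2.2 (by omega)
        by_cases hy' : -n ≤ y + 1
        · have e : n = -y - 1 := by omega
          rw [P3_top h4 (by omega), P3_right h4' hy' hx]
          exact ⟨P3_vec (by simp; omega) (by simp) (by simp; omega), rfl⟩
        · rw [P3_top h4 (by omega), P3_top h4' (by omega)]
          exact ⟨P3_vec (by simp; ring) (by simp) (by simp), rfl⟩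

theorem pP3 : tP3 := fun n hn => ⟨P3_on n hn, P3_gr n hn, P3_gu n hn⟩

end RCN
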