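import Pool.Agent.RCN.Targets

/-!
# `rotS` is compatible with placements, glueing and the base square
-/

namespace RCN

/-- `2 * n - t` is a midpoint if `t` is one. -/
theorem P4_mid {n t : ℤ} (h : Mid n t) : Mid n (2 * n - t) := by
  obtain ⟨ho, h0, h1⟩ := h
  refine ⟨?_, by omega, by omega⟩
  rw [Int.odd_iff] at *
  omega

/-- `2 * n - t` is an end point if `t` is one. -/
theorem P4_end {n t : ℤ} (h : End n t) : End n (2 * n - t) := by
  unfold End at *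
  omega

/-- Turned placements stay on the cube. -/
theorem P4_on (n : ℤ) (s : Placement) (h : OnCube n s) : OnCube n (rotS n s) := by
  obtain ⟨⟨ox, oy, oz⟩, ⟨ux, uy, uz⟩, ⟨vx, vy, vz⟩⟩ := s
  simp only [OnCube, rotS, dot] at h ⊢
  obtain ⟨h1, h2, h3, h4⟩ := h
  refine ⟨by linarith, by linarith, by linarith, ?_⟩
  rcases h4 with ⟨a, b, c, d, e⟩ | ⟨a, b, c, d, e⟩ | ⟨a, b, c, d, e⟩
  · right; left
    exact ⟨P4_mid b, a, c, by omega, by omega⟩
  · left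
    exact ⟨P4_end b, a, c, by omega, by omega⟩
  · right; right
    exact ⟨P4_mid b, a, c, by omega, by omega⟩

/-- Horizontal glueing becomes vertical glueing. -/
theorem P4_ru (n : ℤ) (s t : Placement) (h : GlueR s t) : GlueU (rotS n s) (rotS n t) := by
  obtain ⟨⟨ox, oy, oz⟩, ⟨ux, uy, uz⟩, ⟨vx, vy, vz⟩⟩ := s
  obtain ⟨⟨ox', oy', oz'⟩, ⟨ux', uy', uz'⟩, ⟨vx', vy', vz'⟩⟩ := t
  simp only [GlueR, GlueU, rotS, Prod.mk_add_mk, Prod.mk_sub_mk, Prod.mk.injEq] at h ⊢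
  omega

/-- Vertical glueing becomes horizontal glueing, in the opposite order. -/
theorem P4_ur (n : ℤ) (s t : Placement) (h : GlueU s t) : GlueR (rotS n t) (rotS n s) := by
  obtain ⟨⟨ox, oy, oz⟩, ⟨ux, uy, uz⟩, ⟨vx, vy, vz⟩⟩ := s
  obtain ⟨⟨ox', oy', oz'⟩, ⟨ux', uy', uz'⟩, ⟨vx', vy', vz'⟩⟩ := t
  simp only [GlueR, GlueU, rotS, Prod.mk_add_mk, Prod.mk_sub_mk, Prod.mk.injEq] at h ⊢
  omega

/-- The base square is invariant. -/
theorem P4_base (n x y : ℤ) (h2 : x < n) (h3 : 0 ≤ y) :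
    rotS n (E0 n y (n - 1 - x)) = E0 n x y := by
  have h5 : (0 : ℤ) ≤ n - 1 - x := by omega
  have a1 : 2 * n - (2 * (n - 1 - x) + 1) = 2 * x + 1 := by ring
  simp only [rotS, E0, if_pos h3, if_pos h5, a1, neg_zero]

theorem pP4 : tP4 := fun n =>
  ⟨P4_on n, P4_ru n, P4_ur n, fun x y _ h2 h3 _ => P4_base n x y h2 h3⟩

end RCN
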