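import Pool.Agent.RCN.Targets

/-!
# Target `tP5`: the folding of a pinwheel net sends cells to unit squares of the surface
-/

namespace RCN

theorem P5_iter (hP4 : tP4) (n : ℤ) (k : ℕ) : ∀ s : Placement, OnCube n s →
    OnCube n ((rotS n)^[k] s) := by
  induction k with
  | zero => intro s h; simpa using h
  | succ k ih =>
    intro s h
    rw [Function.iterate_succ_apply]
    exact ih _ ((hP4 n).1 s h)

theorem P5_fr0 (n x y : ℤ) : fr n 0 (x, y) = (x, y) := rfl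

theorem P5_fr1 (n x y : ℤ) : fr n 1 (x, y) = (y, n - 1 - x) := rfl

theorem P5_fr2 (n x y : ℤ) : fr n 2 (x, y) = (n - 1 - x, n - 1 - y) := rfl

theorem P5_fr3 (n x y : ℤ) : fr n 3 (x, y) = (n - 1 - y, x) := by
  show ((n - 1 - y, n - 1 - (n - 1 - x)) : Cell) = (n - 1 - y, x)
  congr 1
  ring

theorem P5_on (hP3 : tP3) (hP4 : tP4) (n x y a b : ℤ) (k : ℕ) (hn : 1 ≤ n)
    (hs : sec n (x, y) = k) (hf : fr n k (x, y) = (a, b)) (hr : Reg0 n a b) :
    OnCube n (pinFold n (x, y)) := by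
  unfold pinFold
  rw [hs, hf]
  exact P5_iter hP4 n k _ ((hP3 n hn).1 a b hr)

theorem pP5 (hP1 : tP1) (hP3 : tP3) (hP4 : tP4) : tP5 := by
  intro D n N x y hn hD hM
  have hn1 : 1 ≤ n := by omega
  have g0 : 0 ≤ D.g0 ∧ D.g0 ≤ 1 := by rcases hD.b0 with h | h <;> omega
  have g1 : 0 ≤ D.g1 ∧ D.g1 ≤ 1 := by rcases hD.b1 with h | h <;> omega
  have g2 : 0 ≤ D.g2 ∧ D.g2 ≤ 1 := by rcases hD.b2 with h | h <;> omega
  have g3 : 0 ≤ D.g3 ∧ D.g3 ≤ 1 := by rcases hD.b3 with h | h <;> omega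
  rcases hM with h | h | h | h | h
  · refine P5_on hP3 hP4 n x y x y 0 hn1 ?_ (P5_fr0 n x y) (Or.inl h)
    unfold sec
    split_ifs <;> first | rfl | (exfalso; omega)
  · have h1 := hP1 n _ _ _ x y hn g0.1 g0.2 g1.1 g1.2 h
    refine P5_on hP3 hP4 n x y x y 0 hn1 ?_ (P5_fr0 n x y) (Or.inr h1)
    unfold sec
    split_ifs <;> first | rfl | (exfalso; omega)
  · have h1 := hP1 n _ _ _ y (n - 1 - x) hn g1.1 g1.2 g2.1 g2.2 h
    refine P5_on hP3 hP4 n x y y (n - 1 - x) 1 hn1 ?_ (P5_fr1 n x y) (Or.inr h1)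
    unfold sec
    split_ifs <;> first | rfl | (exfalso; omega)
  · have h1 := hP1 n _ _ _ (n - 1 - x) (n - 1 - y) hn g2.1 g2.2 g3.1 g3.2 h
    refine P5_on hP3 hP4 n x y (n - 1 - x) (n - 1 - y) 2 hn1 ?_ (P5_fr2 n x y) (Or.inr h1)
    unfold sec
    split_ifs <;> first | rfl | (exfalso; omega)
  · have h1 := hP1 n _ _ _ (n - 1 - y) x hn g3.1 g3.2 g0.1 g0.2 h
    refine P5_on hP3 hP4 n x y (n - 1 - y) x 3 hn1 ?_ (P5_fr3 n x y) (Or.inr h1)
    unfold sec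
    split_ifs <;> first | rfl | (exfalso; omega)

end RCN
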