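import Pool.Agent.RCN.Targets

/-!
# RCN, target P6: horizontal gluing of pinwheel nets (helper12)
-/

set_option autoImplicit false

namespace RCN

/-- the placement read in frame `k` -/
def P6_pl (n : ℤ) : ℕ → ℤ → ℤ → Placement
  | 0, x, y => E0 n x y
  | 1, x, y => rotS n (E0 n y (n - 1 - x))
  | 2, x, y => rotS n (rotS n (E0 n (n - 1 - x) (n - 1 - y)))
  | _, x, y => rotS n (rotS n (rotS n (E0 n (n - 1 - y) x)))

/-- the region of frame `k` -/
def P6_rg (n : ℤ) : ℕ → ℤ → ℤ → Prop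
  | 0, x, y => Reg0 n x y
  | 1, x, y => Reg0 n y (n - 1 - x)
  | 2, x, y => Reg0 n (n - 1 - x) (n - 1 - y)
  | _, x, y => Reg0 n (n - 1 - y) x

/-- gluing inside one frame -/
theorem P6_glue (hP3 : tP3) (hP4 : tP4) {n : ℤ} (hn : 1 ≤ n) (k : ℕ) (hk : k < 4) (x y : ℤ)
    (h : P6_rg n k x y) (h' : P6_rg n k (x + 1) y) :
    GlueR (P6_pl n k x y) (P6_pl n k (x + 1) y) := by
  obtain ⟨-, hR, hU⟩ := hP3 n hn
  obtain ⟨-, hru, hur, -⟩ := hP4 n
  interval_cases k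
  · exact hR x y h h'
  · have e : n - 1 - x = n - 1 - (x + 1) + 1 := by ring
    have h1 : Reg0 n y (n - 1 - (x + 1) + 1) := e ▸ h
    have h2 := hU y (n - 1 - (x + 1)) h' h1
    have h3 := hur _ _ h2
    rw [← e] at h3
    exact h3
  · have e : n - 1 - x = n - 1 - (x + 1) + 1 := by ring
    have h1 : Reg0 n (n - 1 - (x + 1) + 1) (n - 1 - y) := e ▸ h
    have h2 := hR (n - 1 - (x + 1)) (n - 1 - y) h' h1
    have h3 := hur _ _ (hru _ _ h2)
    rw [← e] at h3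
    exact h3
  · exact hur _ _ (hru _ _ (hur _ _ (hU (n - 1 - y) x h h')))

/-- base cells may be read in every frame -/
theorem P6_base (hP4 : tP4) {n x y : ℤ} (h : 0 ≤ x ∧ x < n ∧ 0 ≤ y ∧ y < n) (k : ℕ) :
    pinFold n (x, y) = P6_pl n k x y ∧ P6_rg n k x y := by
  obtain ⟨h1, h2, h3, h4⟩ := h
  obtain ⟨-, -, -, hb⟩ := hP4 n
  have hs : sec n (x, y) = 0 := by
    unfold sec
    dsimp only
    rw [if_neg (by omega), if_neg (by omega), if_neg (by omega), if_neg (by omega)]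
  have hp : pinFold n (x, y) = E0 n x y := by
    unfold pinFold
    rw [hs]
    rfl
  have e : ∀ t : ℤ, n - 1 - (n - 1 - t) = t := fun t => by ring
  have a1 : rotS n (E0 n y (n - 1 - x)) = E0 n x y := hb x y h1 h2 h3 h4
  have a2 : rotS n (E0 n (n - 1 - x) (n - 1 - y)) = E0 n y (n - 1 - x) :=
    hb y (n - 1 - x) h3 h4 (by omega) (by omega)
  have a3 : rotS n (E0 n (n - 1 - y) x) = E0 n (n - 1 - x) (n - 1 - y) := by
    have := hb (n - 1 - x) (n - 1 - y) (by omega) (by omega) (by omega) (by omega)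
    rwa [e] at this
  rw [hp]
  match k with
  | 0 => exact ⟨rfl, Or.inl ⟨h1, h2, h3, h4⟩⟩
  | 1 => exact ⟨a1.symm, Or.inl ⟨h3, h4, by omega, by omega⟩⟩
  | 2 =>
    refine ⟨?_, Or.inl ⟨by omega, by omega, by omega, by omega⟩⟩
    show _ = rotS n (rotS n (E0 n (n - 1 - x) (n - 1 - y)))
    rw [a2, a1]
  | k + 3 =>
    refine ⟨?_, Or.inl ⟨by omega, by omega, by omega, by omega⟩⟩
    show _ = rotS n (rotS n (rotS n (E0 n (n - 1 - y) x)))
    rw [a3, a2, a1]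

/-- the two facts about an arm cell: it may be read in its own frame, and its position -/
theorem P6_arm0 (hP1 : tP1) {n g g' x y : ℤ} {m : ℕ} (hn : 4 ≤ n) (h0 : g = 0 ∨ g = 1)
    (h1 : g' = 0 ∨ g' = 1) (h : Arm n g g' m x y) :
    (pinFold n (x, y) = P6_pl n 0 x y ∧ P6_rg n 0 x y) ∧ 0 ≤ x ∧ y < 0 := by
  obtain ⟨a, b, c, d, e⟩ := hP1 n g g' m x y hn (by omega) (by omega) (by omega) (by omega) h
  refine ⟨⟨?_, Or.inr ⟨a, b, c, d, e⟩⟩, a, d⟩
  have hs : sec n (x, y) = 0 := by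
    unfold sec
    dsimp only
    rw [if_pos (by omega)]
  unfold pinFold
  rw [hs]
  rfl

theorem P6_arm1 (hP1 : tP1) {n g g' x y : ℤ} {m : ℕ} (hn : 4 ≤ n) (h0 : g = 0 ∨ g = 1)
    (h1 : g' = 0 ∨ g' = 1) (h : Arm n g g' m y (n - 1 - x)) :
    (pinFold n (x, y) = P6_pl n 1 x y ∧ P6_rg n 1 x y) ∧ 0 ≤ y ∧ n ≤ x := by
  obtain ⟨a, b, c, d, e⟩ := hP1 n g g' m _ _ hn (by omega) (by omega) (by omega) (by omega) h
  refine ⟨⟨?_, Or.inr ⟨a, b, c, d, e⟩⟩, a, by omega⟩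
  have hs : sec n (x, y) = 1 := by
    unfold sec
    dsimp only
    rw [if_neg (by omega), if_pos (by omega)]
  unfold pinFold
  rw [hs]
  rfl

theorem P6_arm2 (hP1 : tP1) {n g g' x y : ℤ} {m : ℕ} (hn : 4 ≤ n) (h0 : g = 0 ∨ g = 1)
    (h1 : g' = 0 ∨ g' = 1) (h : Arm n g g' m (n - 1 - x) (n - 1 - y)) :
    (pinFold n (x, y) = P6_pl n 2 x y ∧ P6_rg n 2 x y) ∧ x < n ∧ n ≤ y := by
  obtain ⟨a, b, c, d, e⟩ := hP1 n g g' m _ _ hn (by omega) (by omega) (by omega) (by omega) h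
  refine ⟨⟨?_, Or.inr ⟨a, b, c, d, e⟩⟩, by omega, by omega⟩
  have hs : sec n (x, y) = 2 := by
    unfold sec
    dsimp only
    rw [if_neg (by omega), if_neg (by omega), if_pos (by omega)]
  unfold pinFold
  rw [hs]
  rfl

theorem P6_arm3 (hP1 : tP1) {n g g' x y : ℤ} {m : ℕ} (hn : 4 ≤ n) (h0 : g = 0 ∨ g = 1)
    (h1 : g' = 0 ∨ g' = 1) (h : Arm n g g' m (n - 1 - y) x) :
    (pinFold n (x, y) = P6_pl n 3 x y ∧ P6_rg n 3 x y) ∧ y < n ∧ x < 0 := by
  obtain ⟨a, b, c, d, e⟩ := hP1 n g g' m _ _ hn (by omega) (by omega) (by omega) (by omega) h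
  refine ⟨⟨?_, Or.inr ⟨a, b, c, d, e⟩⟩, by omega, by omega⟩
  have hs : sec n (x, y) = 3 := by
    unfold sec
    dsimp only
    rw [if_neg (by omega), if_neg (by omega), if_neg (by omega), if_pos (by omega)]
  unfold pinFold
  rw [hs]
  show rotS n (rotS n (rotS n (E0 n (n - 1 - y) (n - 1 - (n - 1 - x))))) =
    rotS n (rotS n (rotS n (E0 n (n - 1 - y) x)))
  rw [show n - 1 - (n - 1 - x) = x by ring]

/-- cells of neighbouring arms are not adjacent -/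
theorem P6_key {n g g' g'' t : ℤ} {m m' : ℕ} (hn : 4 ≤ n) (h1 : g' = 0 ∨ g' = 1) (ht : n ≤ t)
    (h : Arm n g g' m t (-1)) (h' : Arm n g' g'' m' 0 (n - 1 - t)) : False := by
  obtain ⟨-, -, h3⟩ := h
  have hg : g' = 1 := by omega
  have htn : t = n := by omega
  subst hg htn
  obtain ⟨-, h5, -⟩ := h'
  have hb : inBox (0 - (t - 1 - t) - 3 * t) (0 + (t - 1 - t) + 1) = false := by
    unfold inBox
    simp only [Bool.and_eq_false_iff, decide_eq_false_iff_not]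
    left; left; left
    omega
  unfold core at h5
  rw [hb] at h5
  simp only [Bool.false_eq_true, if_false, Bool.and_eq_true, decide_eq_true_eq] at h5
  omega

theorem pP6 (hP1 : tP1) (hP3 : tP3) (hP4 : tP4) : tP6 := by
  intro D n N x y hn hD h h'
  have key : ∀ k : ℕ, k < 4 → (pinFold n (x, y) = P6_pl n k x y ∧ P6_rg n k x y) →
      (pinFold n (x + 1, y) = P6_pl n k (x + 1) y ∧ P6_rg n k (x + 1) y) →
      GlueR (pinFold n (x, y)) (pinFold n (x + 1, y)) := by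
    rintro k hk ⟨a, b⟩ ⟨c, d⟩
    rw [a, c]
    exact P6_glue hP3 hP4 (by omega) k hk x y b d
  rcases h with h | h | h | h | h
  · rcases h' with h' | h' | h' | h' | h'
    · exact key 0 (by omega) (P6_base hP4 h 0) (P6_base hP4 h' 0)
    · exact key 0 (by omega) (P6_base hP4 h 0) (P6_arm0 hP1 hn hD.b0 hD.b1 h').1
    · exact key 1 (by omega) (P6_base hP4 h 1) (P6_arm1 hP1 hn hD.b1 hD.b2 h').1
    · exact key 2 (by omega) (P6_base hP4 h 2) (P6_arm2 hP1 hn hD.b2 hD.b3 h').1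
    · exact key 3 (by omega) (P6_base hP4 h 3) (P6_arm3 hP1 hn hD.b3 hD.b0 h').1
  · obtain ⟨a, b, c⟩ := P6_arm0 hP1 hn hD.b0 hD.b1 h
    rcases h' with h' | h' | h' | h' | h'
    · exact key 0 (by omega) a (P6_base hP4 h' 0)
    · exact key 0 (by omega) a (P6_arm0 hP1 hn hD.b0 hD.b1 h').1
    · obtain ⟨-, b', c'⟩ := P6_arm1 hP1 hn hD.b1 hD.b2 h'
      omega
    · obtain ⟨-, b', c'⟩ := P6_arm2 hP1 hn hD.b2 hD.b3 h'
      omega
    · obtain ⟨-, b', c'⟩ := P6_arm3 hP1 hn hD.b3 hD.b0 h'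
      omega
  · obtain ⟨a, b, c⟩ := P6_arm1 hP1 hn hD.b1 hD.b2 h
    rcases h' with h' | h' | h' | h' | h'
    · exact key 1 (by omega) a (P6_base hP4 h' 1)
    · obtain ⟨-, b', c'⟩ := P6_arm0 hP1 hn hD.b0 hD.b1 h'
      omega
    · exact key 1 (by omega) a (P6_arm1 hP1 hn hD.b1 hD.b2 h').1
    · obtain ⟨-, b', c'⟩ := P6_arm2 hP1 hn hD.b2 hD.b3 h'
      omega
    · obtain ⟨-, b', c'⟩ := P6_arm3 hP1 hn hD.b3 hD.b0 h'
      omega
  · obtain ⟨a, b, c⟩ := P6_arm2 hP1 hn hD.b2 hD.b3 h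
    rcases h' with h' | h' | h' | h' | h'
    · exact key 2 (by omega) a (P6_base hP4 h' 2)
    · obtain ⟨-, b', c'⟩ := P6_arm0 hP1 hn hD.b0 hD.b1 h'
      omega
    · obtain ⟨-, b', c'⟩ := P6_arm1 hP1 hn hD.b1 hD.b2 h'
      exfalso
      have e1 : n - 1 - (x + 1) = -1 := by omega
      have e2 : n - 1 - x = 0 := by omega
      rw [e1] at h'
      rw [e2] at h
      exact P6_key hn hD.b2 c h' h
    · exact key 2 (by omega) a (P6_arm2 hP1 hn hD.b2 hD.b3 h').1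
    · obtain ⟨-, b', c'⟩ := P6_arm3 hP1 hn hD.b3 hD.b0 h'
      omega
  · obtain ⟨a, b, c⟩ := P6_arm3 hP1 hn hD.b3 hD.b0 h
    rcases h' with h' | h' | h' | h' | h'
    · exact key 3 (by omega) a (P6_base hP4 h' 3)
    · obtain ⟨-, b', c'⟩ := P6_arm0 hP1 hn hD.b0 hD.b1 h'
      exfalso
      have e1 : x = -1 := by omega
      have e2 : x + 1 = 0 := by omega
      rw [e1] at h
      rw [e2] at h'
      have e3 : y = n - 1 - (n - 1 - y) := by omega
      rw [e3] at h'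
      exact P6_key hn hD.b0 (by omega) h h'
    · obtain ⟨-, b', c'⟩ := P6_arm1 hP1 hn hD.b1 hD.b2 h'
      omega
    · obtain ⟨-, b', c'⟩ := P6_arm2 hP1 hn hD.b2 hD.b3 h'
      omega
    · exact key 3 (by omega) a (P6_arm3 hP1 hn hD.b3 hD.b0 h').1

end RCN
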