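import Pool.Agent.RCN.Targets

/-!
# RCN, target P7: vertical gluing of the pinwheel folding
-/

namespace RCN

/-- bounds of an arm cell -/
def P7_B (n X Y : ℤ) : Prop := 0 ≤ X ∧ X < 2 * n ∧ -2 * n ≤ Y ∧ Y < 0 ∧ (Y < -n → n ≤ X)

theorem P7_reg {n X Y : ℤ} (h : P7_B n X Y) : Reg0 n X Y := Or.inr h

theorem P7_fold0 {n x y : ℤ} (h : 0 ≤ x) (h' : y < 0) : pinFold n (x, y) = E0 n x y := by
  have hs : sec n (x, y) = 0 := by simp [sec, h, h']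
  simp [pinFold, hs, fr]

theorem P7_fold1 {n x y : ℤ} (h : n ≤ x) (h' : 0 ≤ y) :
    pinFold n (x, y) = rotS n (E0 n y (n - 1 - x)) := by
  have hs : sec n (x, y) = 1 := by simp [sec, h, h', not_lt.2 h']
  simp [pinFold, hs, fr]

theorem P7_fold2 {n x y : ℤ} (hn : 4 ≤ n) (h : x < n) (h' : n ≤ y) :
    pinFold n (x, y) = rotS n (rotS n (E0 n (n - 1 - x) (n - 1 - y))) := by
  have h0 : ¬ y < 0 := by omega
  have h1 : ¬ n ≤ x := by omega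
  have hs : sec n (x, y) = 2 := by simp [sec, h, h', h0, h1]
  simp [pinFold, hs, fr]

theorem P7_fold3 {n x y : ℤ} (hn : 4 ≤ n) (h : x < 0) (h' : y < n) :
    pinFold n (x, y) = rotS n (rotS n (rotS n (E0 n (n - 1 - y) x))) := by
  have h0 : ¬ 0 ≤ x := by omega
  have h1 : ¬ n ≤ x := by omega
  have h2 : ¬ n ≤ y := by omega
  have hs : sec n (x, y) = 3 := by simp [sec, h, h', h0, h1, h2]
  have h3 : n - 1 - (n - 1 - x) = x := by ring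
  simp [pinFold, hs, fr, h3]

theorem P7_foldb {n x y : ℤ} (h : 0 ≤ x ∧ x < n ∧ 0 ≤ y ∧ y < n) :
    pinFold n (x, y) = E0 n x y := by
  obtain ⟨h1, h2, h3, h4⟩ := h
  have hs : sec n (x, y) = 0 := by
    simp [sec, not_lt.2 h3, not_le.2 h2, not_le.2 h4, not_lt.2 h1]
  simp [pinFold, hs, fr]

theorem P7_b1 (hP4 : tP4) {n x y : ℤ} (h : 0 ≤ x ∧ x < n ∧ 0 ≤ y ∧ y < n) :
    pinFold n (x, y) = rotS n (E0 n y (n - 1 - x)) := by
  rw [P7_foldb h]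
  exact ((hP4 n).2.2.2 x y h.1 h.2.1 h.2.2.1 h.2.2.2).symm

theorem P7_b2 (hP4 : tP4) {n x y : ℤ} (h : 0 ≤ x ∧ x < n ∧ 0 ≤ y ∧ y < n) :
    pinFold n (x, y) = rotS n (rotS n (E0 n (n - 1 - x) (n - 1 - y))) := by
  rw [P7_b1 hP4 h]
  congr 1
  exact ((hP4 n).2.2.2 y (n - 1 - x) (by omega) (by omega) (by omega) (by omega)).symm

theorem P7_b3 (hP4 : tP4) {n x y : ℤ} (h : 0 ≤ x ∧ x < n ∧ 0 ≤ y ∧ y < n) :
    pinFold n (x, y) = rotS n (rotS n (rotS n (E0 n (n - 1 - y) x))) := by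
  rw [P7_b2 hP4 h]
  congr 2
  have h1 := (hP4 n).2.2.2 (n - 1 - x) (n - 1 - y) (by omega) (by omega) (by omega) (by omega)
  rw [← h1]
  congr 2
  ring

theorem P7_g0 (hP3 : tP3) {n x y : ℤ} (hn : 1 ≤ n) (h : Reg0 n x y) (h' : Reg0 n x (y + 1)) :
    GlueU (E0 n x y) (E0 n x (y + 1)) := (hP3 n hn).2.2 x y h h'

theorem P7_g1 (hP3 : tP3) (hP4 : tP4) {n x y : ℤ} (hn : 1 ≤ n) (h : Reg0 n y (n - 1 - x))
    (h' : Reg0 n (y + 1) (n - 1 - x)) :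
    GlueU (rotS n (E0 n y (n - 1 - x))) (rotS n (E0 n (y + 1) (n - 1 - x))) :=
  (hP4 n).2.1 _ _ ((hP3 n hn).2.1 y (n - 1 - x) h h')

theorem P7_g2 (hP3 : tP3) (hP4 : tP4) {n x y : ℤ} (hn : 1 ≤ n)
    (h : Reg0 n (n - 1 - x) (n - 1 - y)) (h' : Reg0 n (n - 1 - x) (n - 1 - (y + 1))) :
    GlueU (rotS n (rotS n (E0 n (n - 1 - x) (n - 1 - y))))
      (rotS n (rotS n (E0 n (n - 1 - x) (n - 1 - (y + 1))))) := by
  have h1 : n - 1 - y = n - 1 - (y + 1) + 1 := by ring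
  rw [h1] at h ⊢
  exact (hP4 n).2.1 _ _ ((hP4 n).2.2.1 _ _ ((hP3 n hn).2.2 _ _ h' h))

theorem P7_g3 (hP3 : tP3) (hP4 : tP4) {n x y : ℤ} (hn : 1 ≤ n)
    (h : Reg0 n (n - 1 - y) x) (h' : Reg0 n (n - 1 - (y + 1)) x) :
    GlueU (rotS n (rotS n (rotS n (E0 n (n - 1 - y) x))))
      (rotS n (rotS n (rotS n (E0 n (n - 1 - (y + 1)) x)))) := by
  have h1 : n - 1 - y = n - 1 - (y + 1) + 1 := by ring
  rw [h1] at h ⊢
  exact (hP4 n).2.1 _ _ ((hP4 n).2.2.1 _ _ ((hP4 n).2.1 _ _ ((hP3 n hn).2.1 _ _ h' h)))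

/-- a cell with frame coordinates `(0, -1)` is in an arm only if `g ≤ 0` -/
theorem P7_corner {n g g' : ℤ} {m : ℕ} (hn : 4 ≤ n) (h : Arm n g g' m 0 (-1)) : g ≤ 0 := by
  obtain ⟨-, h1, -⟩ := h
  have hb : inBox (0 - -1 - 3 * n) (0 + -1 + 1) = false := by
    unfold inBox
    have : ¬ (-4 ≤ (0 - -1 - 3 * n) + (0 + -1 + 1)) := by omega
    simp only [this, decide_false, Bool.false_and]
  unfold core at h1
  rw [hb] at h1
  simp at h1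
  omega

theorem pP7 (hP1 : tP1) (hP3 : tP3) (hP4 : tP4) : tP7 := by
  intro D n N x y hn hOK h h'
  have hn1 : 1 ≤ n := by omega
  have hg0 : 0 ≤ D.g0 ∧ D.g0 ≤ 1 := by rcases hOK.b0 with h | h <;> omega
  have hg1 : 0 ≤ D.g1 ∧ D.g1 ≤ 1 := by rcases hOK.b1 with h | h <;> omega
  have hg2 : 0 ≤ D.g2 ∧ D.g2 ≤ 1 := by rcases hOK.b2 with h | h <;> omega
  have hg3 : 0 ≤ D.g3 ∧ D.g3 ≤ 1 := by rcases hOK.b3 with h | h <;> omega
  have key : ∀ u v : ℤ, D.Mem n u v →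
      (0 ≤ u ∧ u < n ∧ 0 ≤ v ∧ v < n) ∨ (Arm n D.g0 D.g1 D.m0 u v ∧ P7_B n u v) ∨
      (Arm n D.g1 D.g2 D.m1 v (n - 1 - u) ∧ P7_B n v (n - 1 - u)) ∨
      (Arm n D.g2 D.g3 D.m2 (n - 1 - u) (n - 1 - v) ∧ P7_B n (n - 1 - u) (n - 1 - v)) ∨
      (Arm n D.g3 D.g0 D.m3 (n - 1 - v) u ∧ P7_B n (n - 1 - v) u) := by
    intro u v huv
    rcases huv with h | h | h | h | h
    · exact Or.inl h
    · exact Or.inr (Or.inl ⟨h, hP1 _ _ _ _ _ _ hn hg0.1 hg0.2 hg1.1 hg1.2 h⟩)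
    · exact Or.inr (Or.inr (Or.inl ⟨h, hP1 _ _ _ _ _ _ hn hg1.1 hg1.2 hg2.1 hg2.2 h⟩))
    · exact Or.inr (Or.inr (Or.inr (Or.inl ⟨h, hP1 _ _ _ _ _ _ hn hg2.1 hg2.2 hg3.1 hg3.2 h⟩)))
    · exact Or.inr (Or.inr (Or.inr (Or.inr ⟨h, hP1 _ _ _ _ _ _ hn hg3.1 hg3.2 hg0.1 hg0.2 h⟩)))
  rcases key x y h with hb | ⟨ha, hB⟩ | ⟨ha, hB⟩ | ⟨ha, hB⟩ | ⟨ha, hB⟩
  · -- base cell
    rcases key x (y + 1) h' with hb' | ⟨ha', hB'⟩ | ⟨ha', hB'⟩ | ⟨ha', hB'⟩ | ⟨ha', hB'⟩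
    · rw [P7_foldb hb, P7_foldb hb']
      exact P7_g0 hP3 hn1 (Or.inl hb) (Or.inl hb')
    · have := hB'.2.2.2.1
      omega
    · have := hB'.2.2.2.1
      omega
    · obtain ⟨k1, k2, k3, k4, k5⟩ := id hB'
      rw [P7_b2 hP4 hb, P7_fold2 hn (by omega) (by omega)]
      exact P7_g2 hP3 hP4 hn1 (Or.inl ⟨by omega, by omega, by omega, by omega⟩) (P7_reg hB')
    · have := hB'.2.2.2.1
      omega
  · obtain ⟨j1, j2, j3, j4, j5⟩ := id hB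
    rcases key x (y + 1) h' with hb' | ⟨ha', hB'⟩ | ⟨ha', hB'⟩ | ⟨ha', hB'⟩ | ⟨ha', hB'⟩
    · rw [P7_fold0 j1 j4, P7_foldb hb']
      exact P7_g0 hP3 hn1 (P7_reg hB) (Or.inl hb')
    · obtain ⟨k1, k2, k3, k4, k5⟩ := id hB'
      rw [P7_fold0 j1 j4, P7_fold0 k1 k4]
      exact P7_g0 hP3 hn1 (P7_reg hB) (P7_reg hB')
    · exfalso
      obtain ⟨k1, k2, k3, k4, k5⟩ := id hB'
      have h1 := ha.2.2
      have hy : y = -1 := by omega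
      have hx : x = n := by omega
      subst hy
      subst hx
      have h2 : D.g1 = 1 := by omega
      have h3 : D.g1 ≤ 0 := P7_corner (m := D.m1) (g' := D.g2) hn (by
        have e1 : (-1 : ℤ) + 1 = 0 := by norm_num
        have e2 : x - 1 - x = -1 := by ring
        rw [e1, e2] at ha'
        exact ha')
      omega
    · obtain ⟨k1, k2, k3, k4, k5⟩ := id hB'
      omega
    · obtain ⟨k1, k2, k3, k4, k5⟩ := id hB'
      omega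
  · obtain ⟨j1, j2, j3, j4, j5⟩ := id hB
    rcases key x (y + 1) h' with hb' | ⟨ha', hB'⟩ | ⟨ha', hB'⟩ | ⟨ha', hB'⟩ | ⟨ha', hB'⟩
    · omega
    · obtain ⟨k1, k2, k3, k4, k5⟩ := id hB'
      omega
    · obtain ⟨k1, k2, k3, k4, k5⟩ := id hB'
      rw [P7_fold1 (by omega) (by omega), P7_fold1 (by omega) (by omega)]
      exact P7_g1 hP3 hP4 hn1 (P7_reg hB) (P7_reg hB')
    · obtain ⟨k1, k2, k3, k4, k5⟩ := id hB'
      omega
    · obtain ⟨k1, k2, k3, k4, k5⟩ := id hB'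
      omega
  · obtain ⟨j1, j2, j3, j4, j5⟩ := id hB
    rcases key x (y + 1) h' with hb' | ⟨ha', hB'⟩ | ⟨ha', hB'⟩ | ⟨ha', hB'⟩ | ⟨ha', hB'⟩
    · omega
    · obtain ⟨k1, k2, k3, k4, k5⟩ := id hB'
      omega
    · obtain ⟨k1, k2, k3, k4, k5⟩ := id hB'
      omega
    · obtain ⟨k1, k2, k3, k4, k5⟩ := id hB'
      rw [P7_fold2 hn (by omega) (by omega), P7_fold2 hn (by omega) (by omega)]
      exact P7_g2 hP3 hP4 hn1 (P7_reg hB) (P7_reg hB')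
    · obtain ⟨k1, k2, k3, k4, k5⟩ := id hB'
      omega
  · obtain ⟨j1, j2, j3, j4, j5⟩ := id hB
    rcases key x (y + 1) h' with hb' | ⟨ha', hB'⟩ | ⟨ha', hB'⟩ | ⟨ha', hB'⟩ | ⟨ha', hB'⟩
    · omega
    · obtain ⟨k1, k2, k3, k4, k5⟩ := id hB'
      omega
    · obtain ⟨k1, k2, k3, k4, k5⟩ := id hB'
      omega
    · exfalso
      obtain ⟨k1, k2, k3, k4, k5⟩ := id hB'
      have h1 := ha'.2.2
      have hy : y = n - 1 := by omega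
      have hx : x = -1 := by omega
      subst hy
      subst hx
      have h2 : D.g3 = 1 := by omega
      have h3 : D.g3 ≤ 0 := P7_corner (m := D.m3) (g' := D.g0) hn (by
        have e1 : n - 1 - (n - 1) = 0 := by ring
        rw [e1] at ha
        exact ha)
      omega
    · obtain ⟨k1, k2, k3, k4, k5⟩ := id hB'
      rw [P7_fold3 hn (by omega) (by omega), P7_fold3 hn (by omega) (by omega)]
      exact P7_g3 hP3 hP4 hn1 (P7_reg hB) (P7_reg hB')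

end RCN
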