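import Pool.Agent.RCN.PP8
import Pool.Agent.RCN.PP1

/-!
# RCN: no unit square of the surface is covered twice (helper45)
-/

set_option autoImplicit false

namespace RCN

/-- an arm cell, in frame coordinates -/
theorem P9_arm (n g g' : ℤ) (m : ℕ) (X Y : ℤ) (hn : 4 ≤ n) (hg : 0 ≤ g ∧ g ≤ 1)
    (hg' : 0 ≤ g' ∧ g' ≤ 1) (h : Arm n g g' m X Y) :
    0 ≤ X ∧ Y < 0 ∧ X < 2 * n ∧
    ((X < n ∧ -n ≤ Y ∧ g ≤ X + Y + 1 ∧ (E0 n X Y).o = (2 * X + 1, 0, -2 * Y - 1)) ∨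
      (n ≤ X ∧ -n ≤ Y ∧ X - n + Y + 1 ≤ g' - 1 ∧
        (E0 n X Y).o = (2 * n, 2 * (X - n) + 1, -2 * Y - 1)) ∨
      (n ≤ X ∧ Y < -n ∧ core g g' m (X - Y - 3 * n) (X + Y + 1) = true ∧
        (E0 n X Y).o = (4 * n + 1 + 2 * Y, 2 * (X - n) + 1, 2 * n))) := by
  obtain ⟨h1, h2, h3, h4, h5⟩ := pP1 n g g' m X Y hn hg.1 hg.2 hg'.1 hg'.2 h
  refine ⟨h1, h4, h2, ?_⟩
  by_cases hY : -n ≤ Y
  · have hc := P1_core h.2.1
    by_cases hX : X < n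
    · left
      refine ⟨hX, hY, by omega, ?_⟩
      unfold E0
      rw [if_neg (by omega), if_pos hY, if_pos hX]
    · right; left
      refine ⟨by omega, hY, by have := h.2.2; omega, ?_⟩
      unfold E0
      rw [if_neg (by omega), if_pos hY, if_neg hX]
  · right; right
    refine ⟨h5 (by omega), by omega, h.2.1, ?_⟩
    unfold E0
    rw [if_neg (by omega), if_neg hY]

/-- the centre lies on a side face -/
def P9_S (D : Pin) (n x y o1 o2 o3 : ℤ) : Prop :=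
  (0 ≤ x ∧ x < n ∧ -n ≤ y ∧ y < 0 ∧ D.g0 ≤ x + y + 1 ∧ o1 = 2 * x + 1 ∧ o2 = 0 ∧
    o3 = -2 * y - 1) ∨
  (n ≤ x ∧ x < 2 * n ∧ -n ≤ y ∧ y < 0 ∧ x - n + y + 1 ≤ D.g1 - 1 ∧ o1 = 2 * n ∧
    o2 = 2 * (x - n) + 1 ∧ o3 = -2 * y - 1) ∨
  (0 ≤ y ∧ y < n ∧ -n ≤ n - 1 - x ∧ n - 1 - x < 0 ∧ D.g1 ≤ y + (n - 1 - x) + 1 ∧ o1 = 2 * n ∧
    o2 = 2 * y + 1 ∧ o3 = -2 * (n - 1 - x) - 1) ∨
  (n ≤ y ∧ y < 2 * n ∧ -n ≤ n - 1 - x ∧ n - 1 - x < 0 ∧ y - n + (n - 1 - x) + 1 ≤ D.g2 - 1 ∧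
    o1 = 2 * n - (2 * (y - n) + 1) ∧ o2 = 2 * n ∧ o3 = -2 * (n - 1 - x) - 1) ∨
  (0 ≤ n - 1 - x ∧ n - 1 - x < n ∧ -n ≤ n - 1 - y ∧ n - 1 - y < 0 ∧
    D.g2 ≤ (n - 1 - x) + (n - 1 - y) + 1 ∧ o1 = 2 * n - (2 * (n - 1 - x) + 1) ∧ o2 = 2 * n ∧
    o3 = -2 * (n - 1 - y) - 1) ∨
  (n ≤ n - 1 - x ∧ n - 1 - x < 2 * n ∧ -n ≤ n - 1 - y ∧ n - 1 - y < 0 ∧
    (n - 1 - x) - n + (n - 1 - y) + 1 ≤ D.g3 - 1 ∧ o1 = 0 ∧
    o2 = 2 * n - (2 * ((n - 1 - x) - n) + 1) ∧ o3 = -2 * (n - 1 - y) - 1) ∨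
  (0 ≤ n - 1 - y ∧ n - 1 - y < n ∧ -n ≤ x ∧ x < 0 ∧ D.g3 ≤ (n - 1 - y) + x + 1 ∧ o1 = 0 ∧
    o2 = 2 * n - (2 * (n - 1 - y) + 1) ∧ o3 = -2 * x - 1) ∨
  (n ≤ n - 1 - y ∧ n - 1 - y < 2 * n ∧ -n ≤ x ∧ x < 0 ∧
    (n - 1 - y) - n + x + 1 ≤ D.g0 - 1 ∧ o1 = 2 * ((n - 1 - y) - n) + 1 ∧
    o2 = 0 ∧ o3 = -2 * x - 1)

/-- the centre lies on the top face -/
def P9_T (D : Pin) (n x y p q : ℤ) : Prop :=
  (core D.g0 D.g1 D.m0 p q = true ∧ 2 * x = p + q + 3 * n - 1 ∧ 2 * y = q - p - 3 * n - 1) ∨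
  (core D.g1 D.g2 D.m1 (-q) p = true ∧ 2 * y = -q + p + 3 * n - 1 ∧
    2 * (n - 1 - x) = p + q - 3 * n - 1) ∨
  (core D.g2 D.g3 D.m2 (-p) (-q) = true ∧ 2 * (n - 1 - x) = -p - q + 3 * n - 1 ∧
    2 * (n - 1 - y) = -q + p - 3 * n - 1) ∨
  (core D.g3 D.g0 D.m3 q (-p) = true ∧ 2 * (n - 1 - y) = q - p + 3 * n - 1 ∧
    2 * x = -p - q - 3 * n - 1)

theorem P9_b {g : ℤ} (h : g = 0 ∨ g = 1) : 0 ≤ g ∧ g ≤ 1 := by omega

/-- the face that contains the centre -/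
theorem P9_info (D : Pin) (n N x y : ℤ) (hn : 4 ≤ n) (hD : D.OK n N) (hM : D.Mem n x y) :
    (0 ≤ x ∧ x < n ∧ 0 ≤ y ∧ y < n ∧ (pinFold n (x, y)).o = (2 * x + 1, 2 * y + 1, 0)) ∨
    (∃ o1 o2 o3, (pinFold n (x, y)).o = (o1, o2, o3) ∧ P9_S D n x y o1 o2 o3) ∨
    (∃ p q, (pinFold n (x, y)).o = (n + (q - p), n + (p + q), 2 * n) ∧
      (p + q + n + 1) % 2 = 0 ∧ P9_T D n x y p q) := by
  have hn0 : 0 < n := by omega
  have b0 := P9_b hD.b0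
  have b1 := P9_b hD.b1
  have b2 := P9_b hD.b2
  have b3 := P9_b hD.b3
  rcases hM with h | h | h | h | h
  · left
    exact ⟨h.1, h.2.1, h.2.2.1, h.2.2.2, (P8_bottom D n x y h.1 h.2.1 h.2.2.1 h.2.2.2).2⟩
  · right
    obtain ⟨h1, h2, h3, h4⟩ := P9_arm n _ _ _ _ _ hn b0 b1 h
    have e := P8_o0 n x y h1 h2
    rcases h4 with ⟨a1, a2, a3, a4⟩ | ⟨a1, a2, a3, a4⟩ | ⟨a1, a2, a3, a4⟩
    · left
      refine ⟨_, _, _, e.trans a4, Or.inl ?_⟩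
      refine ⟨?_, ?_, ?_, ?_, ?_, rfl, rfl, rfl⟩ <;> omega
    · left
      refine ⟨_, _, _, e.trans a4, Or.inr (Or.inl ?_)⟩
      refine ⟨?_, ?_, ?_, ?_, ?_, rfl, rfl, rfl⟩ <;> omega
    · right
      refine ⟨x - y - 3 * n, x + y + 1, ?_, by omega, Or.inl ⟨a3, by omega, by omega⟩⟩
      rw [e, a4]
      refine Prod.ext ?_ (Prod.ext ?_ rfl)
      · show 4 * n + 1 + 2 * y = n + (x + y + 1 - (x - y - 3 * n))
        ring
      · show 2 * (x - n) + 1 = n + (x - y - 3 * n + (x + y + 1))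
        ring
  · right
    obtain ⟨h1, h2, h3, h4⟩ := P9_arm n _ _ _ _ _ hn b1 b2 h
    have e := P8_o1 n y (n - 1 - x) h1 h2
    rw [sub_sub_cancel] at e
    rcases h4 with ⟨a1, a2, a3, a4⟩ | ⟨a1, a2, a3, a4⟩ | ⟨a1, a2, a3, a4⟩
    · left
      rw [a4] at e
      refine ⟨_, _, _, e, Or.inr (Or.inr (Or.inl ?_))⟩
      refine ⟨?_, ?_, ?_, ?_, ?_, ?_, rfl, rfl⟩ <;> first | omega | (show 2 * n - 0 = 2 * n; omega)
    · left
      rw [a4] at e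
      refine ⟨_, _, _, e, Or.inr (Or.inr (Or.inr (Or.inl ?_)))⟩
      refine ⟨?_, ?_, ?_, ?_, ?_, rfl, rfl, rfl⟩ <;> omega
    · right
      rw [a4] at e
      refine ⟨y + (n - 1 - x) + 1, -(y - (n - 1 - x) - 3 * n), ?_, by omega,
        Or.inr (Or.inl ⟨?_, by omega, by omega⟩)⟩
      · rw [e]
        refine Prod.ext ?_ (Prod.ext ?_ rfl)
        · show 2 * n - (2 * (y - n) + 1) =
            n + (-(y - (n - 1 - x) - 3 * n) - (y + (n - 1 - x) + 1))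
          ring
        · show 4 * n + 1 + 2 * (n - 1 - x) =
            n + (y + (n - 1 - x) + 1 + -(y - (n - 1 - x) - 3 * n))
          ring
      · rw [neg_neg]
        exact a3
  · right
    obtain ⟨h1, h2, h3, h4⟩ := P9_arm n _ _ _ _ _ hn b2 b3 h
    have e := P8_o2 n (n - 1 - x) (n - 1 - y) hn0 h1 h2
    rw [sub_sub_cancel, sub_sub_cancel] at e
    rcases h4 with ⟨a1, a2, a3, a4⟩ | ⟨a1, a2, a3, a4⟩ | ⟨a1, a2, a3, a4⟩
    · left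
      rw [a4] at e
      refine ⟨_, _, _, e, Or.inr (Or.inr (Or.inr (Or.inr (Or.inl ?_))))⟩
      refine ⟨?_, ?_, ?_, ?_, ?_, rfl, ?_, rfl⟩ <;> first | omega | (show 2 * n - 0 = 2 * n; omega)
    · left
      rw [a4] at e
      refine ⟨_, _, _, e, Or.inr (Or.inr (Or.inr (Or.inr (Or.inr (Or.inl ?_)))))⟩
      refine ⟨?_, ?_, ?_, ?_, ?_, ?_, rfl, rfl⟩ <;>
        first | omega | (show 2 * n - 2 * n = 0; omega)
    · right
      rw [a4] at e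
      refine ⟨-((n - 1 - x) - (n - 1 - y) - 3 * n), -((n - 1 - x) + (n - 1 - y) + 1), ?_,
        by omega, Or.inr (Or.inr (Or.inl ⟨?_, by omega, by omega⟩))⟩
      · rw [e]
        refine Prod.ext ?_ (Prod.ext ?_ rfl)
        · show 2 * n - (4 * n + 1 + 2 * (n - 1 - y)) =
            n + (-((n - 1 - x) + (n - 1 - y) + 1) - -((n - 1 - x) - (n - 1 - y) - 3 * n))
          ring
        · show 2 * n - (2 * ((n - 1 - x) - n) + 1) =
            n + (-((n - 1 - x) - (n - 1 - y) - 3 * n) + -((n - 1 - x) + (n - 1 - y) + 1))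
          ring
      · rw [neg_neg, neg_neg]
        exact a3
  · right
    obtain ⟨h1, h2, h3, h4⟩ := P9_arm n _ _ _ _ _ hn b3 b0 h
    have e := P8_o3 n (n - 1 - y) x hn0 h1 h2
    rw [sub_sub_cancel] at e
    rcases h4 with ⟨a1, a2, a3, a4⟩ | ⟨a1, a2, a3, a4⟩ | ⟨a1, a2, a3, a4⟩
    · left
      rw [a4] at e
      refine ⟨_, _, _, e, Or.inr (Or.inr (Or.inr (Or.inr (Or.inr (Or.inr (Or.inl ?_))))))⟩
      refine ⟨?_, ?_, ?_, ?_, ?_, rfl, rfl, rfl⟩ <;> omega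
    · left
      rw [a4] at e
      refine ⟨_, _, _, e, Or.inr (Or.inr (Or.inr (Or.inr (Or.inr (Or.inr (Or.inr ?_))))))⟩
      refine ⟨?_, ?_, ?_, ?_, ?_, rfl, ?_, rfl⟩ <;>
        first | omega | (show 2 * n - 2 * n = 0; omega)
    · right
      rw [a4] at e
      refine ⟨-((n - 1 - y) + x + 1), (n - 1 - y) - x - 3 * n, ?_,
        by omega, Or.inr (Or.inr (Or.inr ⟨?_, by omega, by omega⟩))⟩
      · rw [e]
        refine Prod.ext ?_ (Prod.ext ?_ rfl)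
        · show 2 * ((n - 1 - y) - n) + 1 =
            n + ((n - 1 - y) - x - 3 * n - -((n - 1 - y) + x + 1))
          ring
        · show 2 * n - (4 * n + 1 + 2 * x) =
            n + (-((n - 1 - y) + x + 1) + ((n - 1 - y) - x - 3 * n))
          ring
      · rw [neg_neg]
        exact a3

theorem P9_core_out {g g' : ℤ} {m : ℕ} {p q : ℤ}
    (hb : p + q < -4 ∨ 4 < p + q ∨ q - p < -4 ∨ 4 < q - p) (h : core g g' m p q = true) :
    g ≤ q ∧ p ≤ g' - 1 := by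
  have hb' := P8_box_false p q hb
  unfold core at h
  rw [hb'] at h
  simpa using h

/-- a top square belongs to one arm only -/
theorem P9_excl (D : Pin) (n N p q : ℤ) (hD : D.OK n N) (hpar : (p + q + n + 1) % 2 = 0) :
    ¬ (core D.g0 D.g1 D.m0 p q = true ∧ core D.g1 D.g2 D.m1 (-q) p = true) ∧
    ¬ (core D.g0 D.g1 D.m0 p q = true ∧ core D.g2 D.g3 D.m2 (-p) (-q) = true) ∧
    ¬ (core D.g0 D.g1 D.m0 p q = true ∧ core D.g3 D.g0 D.m3 q (-p) = true) ∧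
    ¬ (core D.g1 D.g2 D.m1 (-q) p = true ∧ core D.g2 D.g3 D.m2 (-p) (-q) = true) ∧
    ¬ (core D.g1 D.g2 D.m1 (-q) p = true ∧ core D.g3 D.g0 D.m3 q (-p) = true) ∧
    ¬ (core D.g2 D.g3 D.m2 (-p) (-q) = true ∧ core D.g3 D.g0 D.m3 q (-p) = true) := by
  cases hb : inBox p q with
  | true =>
    have h1 := hD.one p q hb hpar
    revert h1
    generalize core D.g0 D.g1 D.m0 p q = c0
    generalize core D.g1 D.g2 D.m1 (-q) p = c1
    generalize core D.g2 D.g3 D.m2 (-p) (-q) = c2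
    generalize core D.g3 D.g0 D.m3 q (-p) = c3
    revert c0 c1 c2 c3
    decide
  | false =>
    have b0 := hD.b0
    have b1 := hD.b1
    have b2 := hD.b2
    have b3 := hD.b3
    have hb' := P8_box_false' p q hb
    have e0 : core D.g0 D.g1 D.m0 p q = true → D.g0 ≤ q ∧ p ≤ D.g1 - 1 :=
      P9_core_out hb'
    have e1 : core D.g1 D.g2 D.m1 (-q) p = true → D.g1 ≤ p ∧ -q ≤ D.g2 - 1 :=
      P9_core_out (by omega)
    have e2 : core D.g2 D.g3 D.m2 (-p) (-q) = true → D.g2 ≤ -q ∧ -p ≤ D.g3 - 1 :=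
      P9_core_out (by omega)
    have e3 : core D.g3 D.g0 D.m3 q (-p) = true → D.g3 ≤ -p ∧ q ≤ D.g0 - 1 :=
      P9_core_out (by omega)
    refine ⟨?_, ?_, ?_, ?_, ?_, ?_⟩
    · rintro ⟨h, h'⟩
      have := e0 h; have := e1 h'
      omega
    · rintro ⟨h, h'⟩
      have := e0 h; have := e2 h'
      omega
    · rintro ⟨h, h'⟩
      have := e0 h; have := e3 h'
      omega
    · rintro ⟨h, h'⟩
      have := e1 h; have := e2 h'
      omega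
    · rintro ⟨h, h'⟩
      have := e1 h; have := e3 h'
      omega
    · rintro ⟨h, h'⟩
      have := e2 h; have := e3 h'
      omega

theorem P9_top (D : Pin) (n N x y x' y' p q : ℤ) (hD : D.OK n N)
    (hpar : (p + q + n + 1) % 2 = 0) (h : P9_T D n x y p q) (h' : P9_T D n x' y' p q) :
    x = x' ∧ y = y' := by
  obtain ⟨e01, e02, e03, e12, e13, e23⟩ := P9_excl D n N p q hD hpar
  rcases h with ⟨h1, h2, h3⟩ | ⟨h1, h2, h3⟩ | ⟨h1, h2, h3⟩ | ⟨h1, h2, h3⟩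
  · rcases h' with ⟨k1, k2, k3⟩ | ⟨k1, k2, k3⟩ | ⟨k1, k2, k3⟩ | ⟨k1, k2, k3⟩
    · omega
    · exact absurd ⟨h1, k1⟩ e01
    · exact absurd ⟨h1, k1⟩ e02
    · exact absurd ⟨h1, k1⟩ e03
  · rcases h' with ⟨k1, k2, k3⟩ | ⟨k1, k2, k3⟩ | ⟨k1, k2, k3⟩ | ⟨k1, k2, k3⟩
    · exact absurd ⟨k1, h1⟩ e01
    · omega
    · exact absurd ⟨h1, k1⟩ e12
    · exact absurd ⟨h1, k1⟩ e13
  · rcases h' with ⟨k1, k2, k3⟩ | ⟨k1, k2, k3⟩ | ⟨k1, k2, k3⟩ | ⟨k1, k2, k3⟩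
    · exact absurd ⟨k1, h1⟩ e02
    · exact absurd ⟨k1, h1⟩ e12
    · omega
    · exact absurd ⟨h1, k1⟩ e23
  · rcases h' with ⟨k1, k2, k3⟩ | ⟨k1, k2, k3⟩ | ⟨k1, k2, k3⟩ | ⟨k1, k2, k3⟩
    · exact absurd ⟨k1, h1⟩ e03
    · exact absurd ⟨k1, h1⟩ e13
    · exact absurd ⟨k1, h1⟩ e23
    · omega

/-- the height of a side square -/
theorem P9_height (D : Pin) (n x y o1 o2 o3 : ℤ) (h : P9_S D n x y o1 o2 o3) :
    0 < o3 ∧ o3 < 2 * n := by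
  unfold P9_S at h
  rcases h with h | h | h | h | h | h | h | h <;> omega

theorem P9_side (D : Pin) (n N x y x' y' o1 o2 o3 : ℤ) (hn : 4 ≤ n) (hD : D.OK n N)
    (h : P9_S D n x y o1 o2 o3) (h' : P9_S D n x' y' o1 o2 o3) :
    x = x' ∧ y = y' := by
  have b0 := P9_b hD.b0
  have b1 := P9_b hD.b1
  have b2 := P9_b hD.b2
  have b3 := P9_b hD.b3
  unfold P9_S at h h'
  generalize D.g0 = g0 at *
  generalize D.g1 = g1 at *
  generalize D.g2 = g2 at *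
  generalize D.g3 = g3 at *
  clear hD
  rcases h with h | h | h | h | h | h | h | h <;>
    rcases h' with h' | h' | h' | h' | h' | h' | h' | h' <;> omega

theorem pP9 : tP9 := by
  intro D n N x y x' y' hN hNn hD hM hM' ho
  have hn : 4 ≤ n := le_trans hN hNn
  rcases P9_info D n N x y hn hD hM with h | ⟨o1, o2, o3, h, hS⟩ | ⟨p, q, h, hp, hT⟩
  · rcases P9_info D n N x' y' hn hD hM' with h' | ⟨o1', o2', o3', h', hS'⟩ | ⟨p', q', h', hp', hT'⟩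
    · rw [h.2.2.2.2, h'.2.2.2.2] at ho
      simp only [Prod.mk.injEq] at ho
      omega
    · rw [h.2.2.2.2, h'] at ho
      simp only [Prod.mk.injEq] at ho
      have := P9_height D n _ _ _ _ _ hS'
      omega
    · rw [h.2.2.2.2, h'] at ho
      simp only [Prod.mk.injEq] at ho
      omega
  · have h1 := P9_height D n _ _ _ _ _ hS
    rcases P9_info D n N x' y' hn hD hM' with h' | ⟨o1', o2', o3', h', hS'⟩ | ⟨p', q', h', hp', hT'⟩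
    · rw [h, h'.2.2.2.2] at ho
      simp only [Prod.mk.injEq] at ho
      omega
    · rw [h, h'] at ho
      simp only [Prod.mk.injEq] at ho
      obtain ⟨rfl, rfl, rfl⟩ := ho
      exact P9_side D n N x y x' y' _ _ _ hn hD hS hS'
    · rw [h, h'] at ho
      simp only [Prod.mk.injEq] at ho
      omega
  · rcases P9_info D n N x' y' hn hD hM' with h' | ⟨o1', o2', o3', h', hS'⟩ | ⟨p', q', h', hp', hT'⟩
    · rw [h, h'.2.2.2.2] at ho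
      simp only [Prod.mk.injEq] at ho
      omega
    · have h1 := P9_height D n _ _ _ _ _ hS'
      rw [h, h'] at ho
      simp only [Prod.mk.injEq] at ho
      omega
    · rw [h, h'] at ho
      simp only [Prod.mk.injEq] at ho
      obtain rfl : p = p' := by omega
      obtain rfl : q = q' := by omega
      exact P9_top D n N x y x' y' p q hD hp hT hT'

end RCN
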