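import Pool.Agent.RCN.Targets

/-!
# Type C: the inner net lies in the outer net (target tSC1)
-/

namespace RCN

theorem SC1_inBox {p q : ℤ} (h : inBox p q = true) : -4 ≤ p ∧ p ≤ 4 ∧ -4 ≤ q ∧ q ≤ 4 := by
  unfold inBox at h
  simp only [Bool.and_eq_true, decide_eq_true_eq] at h
  omega

theorem SC1_inBox_iff {p q : ℤ} : inBox p q = true ↔
    -4 ≤ p + q ∧ p + q ≤ 4 ∧ -4 ≤ q - p ∧ q - p ≤ 4 := by
  unfold inBox
  simp only [Bool.and_eq_true, decide_eq_true_eq]
  omega

theorem SC1_core_out {g g' : ℤ} {m : ℕ} {p q : ℤ} (h : ¬ inBox p q = true) :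
    core g g' m p q = true ↔ g ≤ q ∧ p ≤ g' - 1 := by
  unfold core
  rw [if_neg h]
  simp only [Bool.and_eq_true, decide_eq_true_eq]

/-- one arm -/
theorem SC1_arm {c X Y : ℤ} {m : ℕ} (hc : 6 ≤ c) (hL : LC c 1 1 1 1 m m 6 2)
    (h : Arm (c - 2) 1 1 m (X - 1) (Y - 1)) :
    Arm c 1 1 m X Y ∨ (0 ≤ X ∧ X < c ∧ 0 ≤ Y ∧ Y < c) := by
  obtain ⟨h1, h2, h3⟩ := h
  have e1 : X - 1 - (Y - 1) - 3 * (c - 2) = (X - Y - 3 * c) + 6 := by ring
  have e2 : X - 1 + (Y - 1) + 1 = (X + Y + 1) - 2 := by ring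
  rw [e1, e2] at h2
  rcases lt_or_ge Y 0 with hY | hY
  · left
    refine ⟨hY, ?_, by omega⟩
    by_cases hr : -24 ≤ X - Y - 3 * c ∧ X - Y - 3 * c ≤ 8 ∧ -8 ≤ X + Y + 1 ∧ X + Y + 1 ≤ 12
    · exact hL _ _ hr.1 hr.2.1 hr.2.2.1 hr.2.2.2 (by omega) h2
    · have hi : ¬ inBox ((X - Y - 3 * c) + 6) ((X + Y + 1) - 2) = true := by
        intro hb
        have := SC1_inBox hb
        omega
      have ho : ¬ inBox (X - Y - 3 * c) (X + Y + 1) = true := by
        intro hb
        have := SC1_inBox hb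
        omega
      rw [SC1_core_out hi] at h2
      rw [SC1_core_out ho]
      omega
  · right
    have hi : ¬ inBox ((X - Y - 3 * c) + 6) ((X + Y + 1) - 2) = true := by
      rw [SC1_inBox_iff]
      omega
    rw [SC1_core_out hi] at h2
    omega

theorem pSC1 : tSC1 := by
  intro D c x y hc hO h
  unfold Pin.Mem at h ⊢
  rw [hO.o0, hO.o1, hO.o2, hO.o3] at h ⊢
  have a0 := fun h' => SC1_arm (X := x) (Y := y) hc hO.c0 h'
  have a1 := fun h' => SC1_arm (X := y) (Y := c - 1 - x) hc hO.c1 h'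
  have a2 := fun h' => SC1_arm (X := c - 1 - x) (Y := c - 1 - y) hc hO.c2 h'
  have a3 := fun h' => SC1_arm (X := c - 1 - y) (Y := x) hc hO.c3 h'
  have e1 : c - 2 - 1 - (x - 1) = c - 1 - x - 1 := by ring
  have e2 : c - 2 - 1 - (y - 1) = c - 1 - y - 1 := by ring
  rw [e1, e2] at h
  rcases h with h | h | h | h | h
  · left
    omega
  · rcases a0 h with h' | h'
    · right; left; exact h'
    · left; omega
  · rcases a1 h with h' | h'
    · right; right; left; exact h'
    · left; omega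
  · rcases a2 h with h' | h'
    · right; right; right; left; exact h'
    · left; omega
  · rcases a3 h with h' | h'
    · right; right; right; right; exact h'
    · left; omega

end RCN
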