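import Pool.Agent.RCN.Targets

/-!
# Type C: the four regions lie in the layer
-/

namespace RCN

/-- turning the frame -/
theorem SC2_rot (D : Pin) (n x y : ℤ) : D.Mem n x y ↔ D.rot.Mem n y (n - 1 - x) := by
  have e1 : n - 1 - (n - 1 - x) = x := by ring
  simp only [Pin.Mem, Pin.rot, e1]
  constructor
  · rintro (h | h | h | h | h)
    · left; omega
    · right; right; right; right; exact h
    · right; left; exact h
    · right; right; left; exact h
    · right; right; right; left; exact h
  · rintro (h | h | h | h | h)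
    · left; omega
    · right; right; left; exact h
    · right; right; right; left; exact h
    · right; right; right; right; exact h
    · right; left; exact h

/-- outside the window with `q ≥ 1`, `p ≤ 0` the core is true -/
theorem SC2_core_true (m : ℕ) (p q : ℤ) (h : 4 < q - p) (hq : 1 ≤ q) (hp : p ≤ 0) :
    core 1 1 m p q = true := by
  have hb : inBox p q = false := by
    simp only [inBox, Bool.and_eq_false_iff, decide_eq_false_iff_not]
    right; omega
  simp only [core, hb]
  simp
  omega

/-- outside the window with `q ≤ 0` the core is false -/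
theorem SC2_core_false (m : ℕ) (p q : ℤ) (h : p + q < -4) (hq : q ≤ 0) :
    core 1 1 m p q = false := by
  have hb : inBox p q = false := by
    simp only [inBox, Bool.and_eq_false_iff, decide_eq_false_iff_not]
    left; left; left; omega
  simp only [core, hb]
  simp
  omega

theorem SC2_main (D : Pin) (c x y : ℤ) (hc : 6 ≤ c) (h0 : D.g0 = 1) (h1 : D.g1 = 1)
    (h2 : D.g2 = 1) (h3 : D.g3 = 1)
    (hp : (x, y) ∈ TReg c 1 1 1 1 D.m0 D.m0 6 2 (3 * c - 1) c) :
    D.Mem c x y ∧ ¬ D.Mem (c - 2) (x - 1) (y - 1) := by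
  obtain ⟨ho, hi, hA, hB⟩ := hp
  simp only at ho hi hA hB
  constructor
  · by_cases hy : y < 0
    · right; left
      refine ⟨hy, ?_, ?_⟩
      · rw [h0, h1]; exact ho
      · rw [h1]; omega
    · left; omega
  · rintro (h | h | h | h | h)
    · have := SC2_core_true D.m0 (x - y - 3 * c + 6) (x + y + 1 - 2) (by omega) (by omega)
        (by omega)
      rw [this] at hi
      exact absurd hi (by simp)
    · obtain ⟨_, hcore, _⟩ := h
      rw [h0, h1] at hcore
      have e1 : x - 1 - (y - 1) - 3 * (c - 2) = x - y - 3 * c + 6 := by ring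
      have e2 : x - 1 + (y - 1) + 1 = x + y + 1 - 2 := by ring
      rw [e1, e2, hi] at hcore
      exact absurd hcore (by simp)
    · obtain ⟨hy, hcore, hq⟩ := h
      rw [h1, h2] at hcore
      rw [SC2_core_false _ _ _ (by omega) (by omega)] at hcore
      exact absurd hcore (by simp)
    · obtain ⟨hy, _, _⟩ := h
      omega
    · obtain ⟨hy, _, hq⟩ := h
      rw [h0] at hq
      omega

theorem SC2_sub (c x : ℤ) : c - 2 - 1 - (x - 1) = c - 1 - x - 1 := by ring

theorem pSC2 : tSC2 := by
  intro D c k p hc hD hk hp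
  obtain ⟨x, y⟩ := p
  obtain ⟨o0, o1, o2, o3, -, -, -, -⟩ := hD
  simp only
  have hk' : k = 0 ∨ k = 1 ∨ k = 2 ∨ k = 3 := by omega
  rcases hk' with rfl | rfl | rfl | rfl
  · exact SC2_main D c x y hc o0 o1 o2 o3 hp
  · rw [SC2_rot D c x y, SC2_rot D (c - 2) (x - 1) (y - 1), SC2_sub]
    exact SC2_main D.rot c _ _ hc o1 o2 o3 o0 hp
  · rw [SC2_rot D c x y, SC2_rot D (c - 2) (x - 1) (y - 1), SC2_sub,
      SC2_rot D.rot c, SC2_rot D.rot (c - 2), SC2_sub]
    exact SC2_main D.rot.rot c _ _ hc o2 o3 o0 o1 hp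
  · rw [SC2_rot D c x y, SC2_rot D (c - 2) (x - 1) (y - 1), SC2_sub,
      SC2_rot D.rot c, SC2_rot D.rot (c - 2), SC2_sub,
      SC2_rot D.rot.rot c, SC2_rot D.rot.rot (c - 2), SC2_sub]
    exact SC2_main D.rot.rot.rot c _ _ hc o3 o0 o1 o2 hp

end RCN
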