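import Pool.Agent.RCN.Targets

/-!
# MP_404bc2_co: target tSC3, the four regions of type C are disjoint (helper49)
-/

set_option autoImplicit false

namespace RCN

theorem SC3_inBox {p q : ℤ} : inBox p q = true ↔
    (-4 ≤ p + q ∧ p + q ≤ 4 ∧ -4 ≤ q - p ∧ q - p ≤ 4) := by
  unfold inBox
  simp only [Bool.and_eq_true, decide_eq_true_eq]
  tauto

theorem SC3_bound (m : ℕ) (c : ℤ) (hc : 6 ≤ c) (p : Cell)
    (h : p ∈ TReg c 1 1 1 1 m m 6 2 (3 * c - 1) c) : 1 ≤ p.1 ∧ p.2 ≤ 0 := by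
  obtain ⟨x, y⟩ := p
  obtain ⟨h1, h2, h3, h4⟩ := h
  dsimp only at h1 h2 h3 h4 ⊢
  have k1 : (-4 ≤ (x - y - 3 * c) + (x + y + 1) ∧ (x + y + 1) - (x - y - 3 * c) ≤ 4) ∨
      (1 ≤ x + y + 1 ∧ x - y - 3 * c ≤ 0) := by
    by_cases hb : inBox (x - y - 3 * c) (x + y + 1) = true
    · rw [SC3_inBox] at hb
      exact Or.inl ⟨hb.1, hb.2.2.2⟩
    · right
      rw [core, if_neg hb] at h1
      simp only [Bool.and_eq_true, decide_eq_true_eq] at h1
      omega
  have k2 : ((x + y + 1 - 2) - (x - y - 3 * c + 6) ≤ 4) ∨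
      (x + y + 1 ≤ 2 ∨ -5 ≤ x - y - 3 * c) := by
    by_cases hb : inBox (x - y - 3 * c + 6) (x + y + 1 - 2) = true
    · rw [SC3_inBox] at hb
      exact Or.inl hb.2.2.2
    · right
      rw [core, if_neg hb] at h2
      simp only [Bool.and_eq_false_iff, decide_eq_false_iff_not] at h2
      omega
  omega

theorem SC3_reg (D : Pin) (c : ℤ) (hc : 6 ≤ c) (k : ℕ) (p : Cell) (h : p ∈ regC D c k) :
    1 ≤ p.1 ∧ p.2 ≤ 0 := by
  unfold regC at h
  split at h <;> exact SC3_bound _ c hc p h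

theorem pSC3 : tSC3 := by
  intro D c k l p hc _ hk hl h1 h2
  have b1 := SC3_reg D c hc k _ h1
  have b2 := SC3_reg D c hc l _ h2
  clear h1 h2
  obtain ⟨x, y⟩ := p
  interval_cases k <;> interval_cases l <;> simp only [fr] at b1 b2 <;> omega

end RCN
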