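import Pool.Agent.RCN.Targets

/-!
# MP_404bc2_co: target tSD, summary of a step of type D (helper17)
-/

set_option autoImplicit false

namespace RCN

/-- membership in the moved inner net -/
theorem SD_mem_shift (P : Finset Cell) (x y : ℤ) :
    ((x, y) : Cell) ∈ shift 1 1 P ↔ ((x - 1, y - 1) : Cell) ∈ P := by
  unfold shift
  rw [Finset.mem_image]
  constructor
  · rintro ⟨q, hq, h⟩
    obtain ⟨a, b⟩ := q
    simp only [Prod.mk.injEq] at h
    obtain ⟨h1, h2⟩ := h
    subst h1; subst h2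
    simpa using hq
  · intro h
    exact ⟨(x - 1, y - 1), h, by simp⟩

theorem pSD (hSD1 : tSD1) (hSD2 : tSD2) (hSD3 : tSD3) (hSD4 : tSD4) (hA4 : tA4) (hA5 : tA5)
    (hP2 : tP2) : tSD := by
  intro O I q0 d pf pL b N M N0 N1 N2 N3 N4 N5 N6 hb hq0 hq0' hq hd hd' hpf hpf' hpL hpL' hdp
    hO hI hOK h0 h1 h2 h3 h4 h5 h6
  have hI' : ∀ x y : ℤ, ((x, y) : Cell) ∈ shift 1 1 (I.set b) ↔
      I.Mem (b + 3 - 3) (x - 1) (y - 1) := by
    intro x y
    rw [SD_mem_shift, hP2 I b M _ _ (by omega) hI]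
    rw [show b + 3 - 3 = b by ring]
  have hO' : ∀ x y : ℤ, ((x, y) : Cell) ∈ O.set (b + 3) ↔ O.Mem (b + 3) x y := by
    intro x y
    exact hP2 O (b + 3) N _ _ (by omega) hO
  refine ⟨?_, ?_⟩
  · rintro ⟨x, y⟩ hp
    rw [hI'] at hp
    rw [hO']
    exact hSD1 O I (b + 3) x y (by omega) hOK hp
  · obtain ⟨hmono, hun, -⟩ := hA4
    obtain ⟨-, hfr⟩ := hA5
    obtain ⟨d1, d2, d3⟩ := hSD4 O I q0 d pf pL (b + 3) (by omega) hq0 hq0' hq hd hd' hpf hpf'
      hpL hpL' hdp hOK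
    have k0 := hfr _ _ (b + 3) 0 h0
    have k1 := hfr _ _ (b + 3) 1 h1
    have k2 := hfr _ _ (b + 3) 2 h2
    have k3 := hfr _ _ (b + 3) 3 h3
    have k6 := hfr _ _ (b + 3) 1 h6
    -- disjointness of two of the four arms
    have e1 : ∀ k l : ℕ, k < 4 → l < 4 → k ≠ l → ∀ p : Cell,
        p ∈ {p : Cell | fr (b + 3) k p ∈ regD O I q0 pL (b + 3) k} →
        p ∈ {p : Cell | fr (b + 3) l p ∈ regD O I q0 pL (b + 3) l} → False :=
      fun k l hk hl hkl p hp hp' => hkl (d1 k l p hk hl hp hp')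
    have u1 := hun _ _ _ _ k0 k1 (Set.disjoint_left.2 fun p hp hp' =>
      e1 0 1 (by omega) (by omega) (by omega) p hp hp')
    have u2 := hun _ _ _ _ u1 k2 (Set.disjoint_left.2 fun p hp hp' => by
      rcases hp with hp | hp
      · exact e1 0 2 (by omega) (by omega) (by omega) p hp hp'
      · exact e1 1 2 (by omega) (by omega) (by omega) p hp hp')
    have u3 := hun _ _ _ _ u2 k3 (Set.disjoint_left.2 fun p hp hp' => by
      rcases hp with (hp | hp) | hp
      · exact e1 0 3 (by omega) (by omega) (by omega) p hp hp'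
      · exact e1 1 3 (by omega) (by omega) (by omega) p hp hp'
      · exact e1 2 3 (by omega) (by omega) (by omega) p hp hp')
    have u4 := hun _ _ _ _ u3 h4 (Set.disjoint_left.2 fun p hp hp' => by
      rcases hp with ((hp | hp) | hp) | hp
      · exact (d2 0 p (by omega) hp).1 hp'
      · exact (d2 1 p (by omega) hp).1 hp'
      · exact (d2 2 p (by omega) hp).1 hp'
      · exact (d2 3 p (by omega) hp).1 hp')
    have u5 := hun _ _ _ _ u4 h5 (Set.disjoint_left.2 fun p hp hp' => by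
      rcases hp with (((hp | hp) | hp) | hp) | hp
      · exact (d2 0 p (by omega) hp).2.1 hp'
      · exact (d2 1 p (by omega) hp).2.1 hp'
      · exact (d2 2 p (by omega) hp).2.1 hp'
      · exact (d2 3 p (by omega) hp).2.1 hp'
      · exact (d3 p).1 ⟨hp, hp'⟩)
    have u6 := hun _ _ _ _ u5 k6 (Set.disjoint_left.2 fun p hp hp' => by
      rcases hp with ((((hp | hp) | hp) | hp) | hp) | hp
      · exact (d2 0 p (by omega) hp).2.2 hp'
      · exact (d2 1 p (by omega) hp).2.2 hp'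
      · exact (d2 2 p (by omega) hp).2.2 hp'
      · exact (d2 3 p (by omega) hp).2.2 hp'
      · exact (d3 p).2.1 ⟨hp, hp'⟩
      · exact (d3 p).2.2 ⟨hp, hp'⟩)
    refine hmono _ _ _ ?_ u6
    intro p hp
    have key : O.Mem (b + 3) p.1 p.2 ∧ ¬ I.Mem (b + 3 - 3) (p.1 - 1) (p.2 - 1) := by
      rcases hp with (((((hp | hp) | hp) | hp) | hp) | hp) | hp
      · exact hSD2 O I q0 pL (b + 3) 0 p (by omega) hq0 hq0' hpL hpL' hOK (by omega) hp
      · exact hSD2 O I q0 pL (b + 3) 1 p (by omega) hq0 hq0' hpL hpL' hOK (by omega) hp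
      · exact hSD2 O I q0 pL (b + 3) 2 p (by omega) hq0 hq0' hpL hpL' hOK (by omega) hp
      · exact hSD2 O I q0 pL (b + 3) 3 p (by omega) hq0 hq0' hpL hpL' hOK (by omega) hp
      · exact hSD3 O I q0 d pf pL (b + 3) p (by omega) hq0 hq0' hq hd hd' hpf hpf' hpL hpL' hdp
          hOK (Or.inl hp)
      · exact hSD3 O I q0 d pf pL (b + 3) p (by omega) hq0 hq0' hq hd hd' hpf hpf' hpL hpL' hdp
          hOK (Or.inr (Or.inl hp))
      · exact hSD3 O I q0 d pf pL (b + 3) p (by omega) hq0 hq0' hq hd hd' hpf hpf' hpL hpL' hdp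
          hOK (Or.inr (Or.inr hp))
    refine ⟨?_, ?_⟩
    · exact (hO' p.1 p.2).2 key.1
    · intro h
      exact key.2 ((hI' p.1 p.2).1 h)

end RCN
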