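import Pool.Agent.RCN.Targets

/-!
# Type D: the inner net lies in the outer net
-/

namespace RCN

/-- one arm of the inner net, in frame coordinates of the outer net -/
theorem SD1_arm (c gi gi' dp dq : ℤ) (mo mi : ℕ) (hc : 8 ≤ c) (hLC : LC c 1 1 gi gi' mo mi dp dq)
    (hg : 3 ≤ gi + dq) (hg' : gi' ≤ dp) (hdp : 8 ≤ dp) (hdp' : dp ≤ 10) (hdq : 2 ≤ dq)
    (hdq' : dq ≤ 4) (X Y : ℤ) (hY : Y ≤ 1)
    (hcore : core gi gi' mi (X - Y - 3 * c + dp) (X + Y + 1 - dq) = true) (hq : X + Y + 1 ≤ c) :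
    (0 ≤ X ∧ X < c ∧ 0 ≤ Y ∧ Y < c) ∨ Arm c 1 1 mo X Y := by
  by_cases hb : -24 ≤ X - Y - 3 * c ∧ X - Y - 3 * c ≤ 8 ∧ -8 ≤ X + Y + 1 ∧ X + Y + 1 ≤ 12
  · obtain ⟨h1, h2, h3, h4⟩ := hb
    have h5 := hLC (X - Y - 3 * c) (X + Y + 1) h1 h2 h3 h4 (by omega) hcore
    by_cases hy : Y < 0
    · right
      exact ⟨hy, h5, by omega⟩
    · left
      omega
  · have hnb : inBox (X - Y - 3 * c + dp) (X + Y + 1 - dq) = false := by
      simp only [inBox, Bool.and_eq_false_iff, decide_eq_false_iff_not]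
      omega
    have hnb' : inBox (X - Y - 3 * c) (X + Y + 1) = false := by
      simp only [inBox, Bool.and_eq_false_iff, decide_eq_false_iff_not]
      omega
    simp only [core, hnb, Bool.false_eq_true, if_false, Bool.and_eq_true, decide_eq_true_eq]
      at hcore
    obtain ⟨h1, h2⟩ := hcore
    by_cases hy : Y < 0
    · right
      refine ⟨hy, ?_, by omega⟩
      simp only [core, hnb', Bool.false_eq_true, if_false, Bool.and_eq_true, decide_eq_true_eq]
      omega
    · left
      omega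

theorem pSD1 : tSD1 := by
  intro O I c x y hc ok hmem
  rcases hmem with h | h | h | h | h
  · left; omega
  · obtain ⟨hy, hcore, hq⟩ := h
    rw [ok.i0, ok.i1] at hcore
    rw [ok.i1] at hq
    have e1 : x - 1 - (y - 1) - 3 * (c - 3) = x - y - 3 * c + 9 := by ring
    have e2 : x - 1 + (y - 1) + 1 = x + y + 1 - 2 := by ring
    rw [e1, e2] at hcore
    rcases SD1_arm c 1 0 9 2 O.m0 I.m0 hc ok.c0 (by norm_num) (by norm_num) (by norm_num)
      (by norm_num) (by norm_num) (by norm_num) x y (by omega) hcore (by omega) with h | h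
    · left; exact h
    · right; left
      rw [ok.o0, ok.o1]; exact h
  · obtain ⟨hy, hcore, hq⟩ := h
    rw [ok.i1, ok.i2] at hcore
    rw [ok.i2] at hq
    have e1 : y - 1 - (c - 3 - 1 - (x - 1)) - 3 * (c - 3) = y - (c - 1 - x) - 3 * c + 10 := by ring
    have e2 : y - 1 + (c - 3 - 1 - (x - 1)) + 1 = y + (c - 1 - x) + 1 - 3 := by ring
    rw [e1, e2] at hcore
    rcases SD1_arm c 0 1 10 3 O.m1 I.m1 hc ok.c1 (by norm_num) (by norm_num) (by norm_num)
      (by norm_num) (by norm_num) (by norm_num) y (c - 1 - x) (by omega) hcore (by omega)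
      with h | h
    · left; omega
    · right; right; left
      rw [ok.o1, ok.o2]; exact h
  · obtain ⟨hy, hcore, hq⟩ := h
    rw [ok.i2, ok.i3] at hcore
    rw [ok.i3] at hq
    have e1 : c - 3 - 1 - (x - 1) - (c - 3 - 1 - (y - 1)) - 3 * (c - 3) =
        (c - 1 - x) - (c - 1 - y) - 3 * c + 9 := by ring
    have e2 : c - 3 - 1 - (x - 1) + (c - 3 - 1 - (y - 1)) + 1 =
        (c - 1 - x) + (c - 1 - y) + 1 - 4 := by ring
    rw [e1, e2] at hcore
    rcases SD1_arm c 1 0 9 4 O.m2 I.m2 hc ok.c2 (by norm_num) (by norm_num) (by norm_num)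
      (by norm_num) (by norm_num) (by norm_num) (c - 1 - x) (c - 1 - y) (by omega) hcore
      (by omega) with h | h
    · left; omega
    · right; right; right; left
      rw [ok.o2, ok.o3]; exact h
  · obtain ⟨hy, hcore, hq⟩ := h
    rw [ok.i3, ok.i0] at hcore
    rw [ok.i0] at hq
    have e1 : c - 3 - 1 - (y - 1) - (x - 1) - 3 * (c - 3) = (c - 1 - y) - x - 3 * c + 8 := by ring
    have e2 : c - 3 - 1 - (y - 1) + (x - 1) + 1 = (c - 1 - y) + x + 1 - 3 := by ring
    rw [e1, e2] at hcore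
    rcases SD1_arm c 0 1 8 3 O.m3 I.m3 hc ok.c3 (by norm_num) (by norm_num) (by norm_num)
      (by norm_num) (by norm_num) (by norm_num) (c - 1 - y) x (by omega) hcore (by omega)
      with h | h
    · left; omega
    · right; right; right; right
      rw [ok.o3, ok.o0]; exact h

end RCN
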