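import Pool.Agent.RCN.Targets

/-! Job RCN-SD2: type D, the four arm regions lie in the layer. -/

namespace RCN

/-- bounds from a true core -/
theorem SD2_core_true {g g' : ℤ} {m : ℕ} {p q : ℤ} (h : core g g' m p q = true) :
    (-4 ≤ p + q ∧ p + q ≤ 4 ∧ -4 ≤ q - p ∧ q - p ≤ 4) ∨ (g ≤ q ∧ p ≤ g' - 1) := by
  unfold core at h
  split at h
  · rename_i hb
    left
    simp only [inBox, Bool.and_eq_true, decide_eq_true_eq] at hb
    omega
  · right
    simp only [Bool.and_eq_true, decide_eq_true_eq] at h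
    omega

/-- bounds from a false core -/
theorem SD2_core_false {g g' : ℤ} {m : ℕ} {p q : ℤ} (h : core g g' m p q = false) :
    (-4 ≤ p + q ∧ p + q ≤ 4 ∧ -4 ≤ q - p ∧ q - p ≤ 4) ∨ (q < g ∨ g' ≤ p) := by
  unfold core at h
  split at h
  · rename_i hb
    left
    simp only [inBox, Bool.and_eq_true, decide_eq_true_eq] at hb
    omega
  · right
    simp only [Bool.and_eq_false_iff, decide_eq_false_iff_not] at h
    omega

/-- bounds of an arm -/
theorem SD2_arm {n g g' : ℤ} {m : ℕ} {x y : ℤ} (h : Arm n g g' m x y) :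
    y < 0 ∧ x + y + 1 ≤ n + g' - 1 ∧
      ((-4 ≤ (x - y - 3 * n) + (x + y + 1) ∧ (x - y - 3 * n) + (x + y + 1) ≤ 4 ∧
        -4 ≤ (x + y + 1) - (x - y - 3 * n) ∧ (x + y + 1) - (x - y - 3 * n) ≤ 4) ∨
        (g ≤ x + y + 1 ∧ x - y - 3 * n ≤ g' - 1)) := by
  obtain ⟨h1, h2, h3⟩ := h
  exact ⟨h1, h3, SD2_core_true h2⟩

/-- the inner arm `k` is excluded by a false core -/
theorem SD2_noarm {c g g' : ℤ} {m : ℕ} {x y dp dq x' y' : ℤ}
    (h : core g g' m (x - y - 3 * c + dp) (x + y + 1 - dq) = false)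
    (e1 : x' - y' - 3 * (c - 3) = x - y - 3 * c + dp) (e2 : x' + y' + 1 = x + y + 1 - dq) :
    ¬ Arm (c - 3) g g' m x' y' := by
  rintro ⟨_, h2, _⟩
  rw [e1, e2, h] at h2
  exact Bool.false_ne_true h2

theorem SD2_k0 (O I : Pin) (q0 c x y : ℤ) (hc : 12 ≤ c) (hq0 : -13 ≤ q0) (hq1 : q0 ≤ -5)
    (H : OKD O I c)
    (h : ((x, y) : Cell) ∈ TReg c 1 1 1 0 O.m0 I.m0 9 2 (3 * c - 1) (c + q0 - 1)) :
    O.Mem c x y ∧ ¬ I.Mem (c - 3) (x - 1) (y - 1) := by
  obtain ⟨h1, h2, h3, h4⟩ := h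
  simp only at h1 h2 h3 h4
  have b1 := SD2_core_true h1
  have b2 := SD2_core_false h2
  have hy : y < 0 ∨ (x = 1 ∧ y = 0) := by omega
  constructor
  · rcases hy with hy | hy
    · right; left
      rw [H.o0, H.o1]
      exact ⟨hy, h1, by omega⟩
    · left; omega
  · unfold Pin.Mem
    rw [H.i0, H.i1, H.i2, H.i3]
    rintro (hb | hb | hb | hb | hb)
    · omega
    · exact SD2_noarm h2 (by ring) (by ring) hb
    · have := SD2_arm hb; omega
    · have := SD2_arm hb; omega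
    · have := SD2_arm hb; omega

theorem SD2_k1 (O I : Pin) (pL c x y : ℤ) (hc : 12 ≤ c) (hp0 : 3 ≤ pL) (hp1 : pL ≤ 12)
    (H : OKD O I c)
    (h : ((x, y) : Cell) ∈ TReg c 1 1 0 1 O.m1 I.m1 10 3 (3 * c - (pL + 1)) c) :
    O.Mem c (c - 1 - y) x ∧ ¬ I.Mem (c - 3) (c - 1 - y - 1) (x - 1) := by
  obtain ⟨h1, h2, h3, h4⟩ := h
  simp only at h1 h2 h3 h4
  have b1 := SD2_core_true h1
  have b2 := SD2_core_false h2
  have hy : y < 0 := by omega
  constructor
  · right; right; left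
    rw [H.o1, H.o2]
    have e : c - 1 - (c - 1 - y) = y := by ring
    rw [e]
    exact ⟨hy, h1, by omega⟩
  · unfold Pin.Mem
    rw [H.i0, H.i1, H.i2, H.i3]
    rintro (hb | hb | hb | hb | hb)
    · omega
    · have := SD2_arm hb; omega
    · exact SD2_noarm h2 (by ring) (by ring) hb
    · have := SD2_arm hb; omega
    · have := SD2_arm hb; omega

theorem SD2_k2 (O I : Pin) (c x y : ℤ) (hc : 12 ≤ c) (H : OKD O I c)
    (h : ((x, y) : Cell) ∈ TReg c 1 1 1 0 O.m2 I.m2 9 4 (3 * c - 1) c) :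
    O.Mem c (c - 1 - x) (c - 1 - y) ∧ ¬ I.Mem (c - 3) (c - 1 - x - 1) (c - 1 - y - 1) := by
  obtain ⟨h1, h2, h3, h4⟩ := h
  simp only at h1 h2 h3 h4
  have b1 := SD2_core_true h1
  have b2 := SD2_core_false h2
  constructor
  · by_cases hy : y < 0
    · right; right; right; left
      rw [H.o2, H.o3]
      have e : c - 1 - (c - 1 - x) = x := by ring
      have e' : c - 1 - (c - 1 - y) = y := by ring
      rw [e, e']
      exact ⟨hy, h1, by omega⟩
    · left; omega
  · unfold Pin.Mem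
    rw [H.i0, H.i1, H.i2, H.i3]
    rintro (hb | hb | hb | hb | hb)
    · omega
    · have := SD2_arm hb; omega
    · have := SD2_arm hb; omega
    · exact SD2_noarm h2 (by ring) (by ring) hb
    · have := SD2_arm hb; omega

theorem SD2_k3 (O I : Pin) (c x y : ℤ) (hc : 12 ≤ c) (H : OKD O I c)
    (h : ((x, y) : Cell) ∈ TReg c 1 1 0 1 O.m3 I.m3 8 3 (3 * c - 1) c) :
    O.Mem c y (c - 1 - x) ∧ ¬ I.Mem (c - 3) (y - 1) (c - 1 - x - 1) := by
  obtain ⟨h1, h2, h3, h4⟩ := h
  simp only at h1 h2 h3 h4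
  have b1 := SD2_core_true h1
  have b2 := SD2_core_false h2
  constructor
  · by_cases hy : y < 0
    · right; right; right; right
      rw [H.o3, H.o0]
      have e : c - 1 - (c - 1 - x) = x := by ring
      rw [e]
      exact ⟨hy, h1, by omega⟩
    · left; omega
  · unfold Pin.Mem
    rw [H.i0, H.i1, H.i2, H.i3]
    rintro (hb | hb | hb | hb | hb)
    · omega
    · have := SD2_arm hb; omega
    · have := SD2_arm hb; omega
    · have := SD2_arm hb; omega
    · exact SD2_noarm h2 (by ring) (by ring) hb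

theorem pSD2 : tSD2 := by
  intro O I q0 pL c k p hc hq0 hq1 hp0 hp1 H hk h
  obtain ⟨X, Y⟩ := p
  interval_cases k
  · exact SD2_k0 O I q0 c X Y hc hq0 hq1 H h
  · have := SD2_k1 O I pL c Y (c - 1 - X) hc hp0 hp1 H h
    have e : c - 1 - (c - 1 - X) = X := by ring
    rw [e] at this
    exact this
  · have := SD2_k2 O I c (c - 1 - X) (c - 1 - Y) hc H h
    have e : c - 1 - (c - 1 - X) = X := by ring
    have e' : c - 1 - (c - 1 - Y) = Y := by ring
    rw [e, e'] at this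
    exact this
  · have h' : ((c - 1 - Y, X) : Cell) ∈ TReg c 1 1 0 1 O.m3 I.m3 8 3 (3 * c - 1) c := by
      have e' : c - 1 - (c - 1 - X) = X := by ring
      have : fr c 3 (X, Y) = (c - 1 - Y, X) := by
        simp only [fr, e']
      rw [this] at h
      exact h
    have := SD2_k3 O I c (c - 1 - Y) X hc H h'
    have e : c - 1 - (c - 1 - Y) = Y := by ring
    rw [e] at this
    exact this

end RCN
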