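import Pool.Agent.RCN.Targets

/-!
# MP_404bc2_co: target tSD3, the corner region, the strip and the region near the corner of the
base square lie in the layer of type D (helper64)
-/

set_option autoImplicit false

namespace RCN

theorem SD3_inBox {p q : ℤ} : inBox p q = true ↔
    (-4 ≤ p + q ∧ p + q ≤ 4 ∧ -4 ≤ q - p ∧ q - p ≤ 4) := by
  unfold inBox
  simp only [Bool.and_eq_true, decide_eq_true_eq]
  tauto

/-- what a true value of `core` gives -/
theorem SD3_ct {g g' : ℤ} {m : ℕ} {p q : ℤ} (h : core g g' m p q = true) :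
    (-4 ≤ p + q ∧ p + q ≤ 4 ∧ -4 ≤ q - p ∧ q - p ≤ 4) ∨ (g ≤ q ∧ p ≤ g' - 1) := by
  by_cases hb : inBox p q = true
  · exact Or.inl (SD3_inBox.mp hb)
  · right
    rw [core, if_neg hb] at h
    simpa only [Bool.and_eq_true, decide_eq_true_eq] using h

/-- `core` is true outside the window -/
theorem SD3_tc {g g' : ℤ} {m : ℕ} {p q : ℤ} (hb : 4 < q - p ∨ p + q < -4) (h1 : g ≤ q)
    (h2 : p ≤ g' - 1) : core g g' m p q = true := by
  have hb' : ¬ inBox p q = true := by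
    rw [SD3_inBox]
    omega
  rw [core, if_neg hb']
  simp only [Bool.and_eq_true, decide_eq_true_eq]
  exact ⟨h1, h2⟩

/-- membership in the inner net, the consequences that are used -/
theorem SD3_in {I : Pin} {c x y : ℤ} (hI0 : I.g0 = 1) (hI1 : I.g1 = 0) (hI2 : I.g2 = 1)
    (h : I.Mem (c - 3) (x - 1) (y - 1)) :
    (1 ≤ x ∧ x < c - 2 ∧ 1 ≤ y ∧ y < c - 2) ∨
    (y < 1 ∧ x + y + 1 ≤ c - 2 ∧
      ((x + y + 1 - 2 + (x - y - 3 * c + 9) ≤ 4 ∧ x + y + 1 - 2 - (x - y - 3 * c + 9) ≤ 4) ∨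
        x - y - 3 * c ≤ -10)) ∨
    (c - 2 ≤ x ∧ (-4 ≤ (x + y + 1 - 4 * c + 10) + (y - x + c - 3) ∨ 0 ≤ y - x + c - 3)) ∨
    c - 2 ≤ y ∨ x < 1 := by
  unfold Pin.Mem at h
  rcases h with h | h | h | h | h
  · left
    omega
  · right; left
    rw [hI0, hI1] at h
    obtain ⟨h1, h2, h3⟩ := h
    have h4 := SD3_ct h2
    omega
  · right; right; left
    rw [hI1, hI2] at h
    obtain ⟨h1, h2, h3⟩ := h
    have h4 := SD3_ct h2
    omega
  · right; right; right; left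
    have h1 := h.1
    omega
  · right; right; right; right
    have h1 := h.1
    omega

/-- membership in the outer net by arm 0 -/
theorem SD3_o0 {O : Pin} {c x y : ℤ} (h0 : O.g0 = 1) (h1 : O.g1 = 1) (hy : y < 0)
    (hq : x + y + 1 ≤ c) (hq1 : 1 ≤ x + y + 1) (hp : x - y - 3 * c ≤ 0)
    (hb : 4 < (x + y + 1) - (x - y - 3 * c)) : O.Mem c x y := by
  unfold Pin.Mem
  right; left
  rw [h0, h1]
  refine ⟨hy, SD3_tc (Or.inl hb) hq1 (by omega), by omega⟩

/-- membership in the outer net by arm 1 -/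
theorem SD3_o1 {O : Pin} {c x y : ℤ} (h1 : O.g1 = 1) (h2 : O.g2 = 1) (hy : c ≤ x)
    (hq : y - x + c ≤ c) (hq1 : 1 ≤ y - x + c) (hp : x + y + 1 - 4 * c ≤ 0)
    (hb : (x + y + 1 - 4 * c) + (y - x + c) < -4) : O.Mem c x y := by
  unfold Pin.Mem
  right; right; left
  rw [h1, h2]
  have e1 : y - (c - 1 - x) - 3 * c = x + y + 1 - 4 * c := by ring
  have e2 : y + (c - 1 - x) + 1 = y - x + c := by ring
  refine ⟨by omega, ?_, by omega⟩
  rw [e1, e2]
  exact SD3_tc (Or.inr hb) hq1 (by omega)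

theorem pSD3 : tSD3 := by
  intro O I q0 d pf pL c p hc hq0 hq1 hcq hd hd' hpf hpf' hpL hpL' hdp hOK h
  obtain ⟨x, y⟩ := p
  have o0 := hOK.o0
  have o1 := hOK.o1
  have o2 := hOK.o2
  have i0 := hOK.i0
  have i1 := hOK.i1
  have i2 := hOK.i2
  clear hOK
  dsimp only
  rcases h with h | h | h
  · have h' : -d ≤ x - y - 3 * c ∧ x - y - 3 * c ≤ 0 ∧ q0 ≤ x + y + 1 - c ∧
        x + y + 1 - c ≤ 0 ∧ ¬(x - y - 3 * c ≤ -10 ∧ x + y + 1 - c ≤ -2) := h
    obtain ⟨h1, h2, h3, h4, h5⟩ := h'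
    refine ⟨SD3_o0 o0 o1 (by omega) (by omega) (by omega) (by omega) (by omega), ?_⟩
    intro hm
    have k := SD3_in i0 i1 i2 hm
    omega
  · have h' : c + pf + 1 ≤ x - y ∧ x - y ≤ 3 * c - d - 1 ∧ c - 2 ≤ x + y ∧
        x + y ≤ c - 1 := h
    obtain ⟨h1, h2, h3, h4⟩ := h'
    refine ⟨SD3_o0 o0 o1 (by omega) (by omega) (by omega) (by omega) (by omega), ?_⟩
    intro hm
    have k := SD3_in i0 i1 i2 hm
    omega
  · have h' : (y < 0 ∧ -1 ≤ y - (c - 1 - x) ∧ y - (c - 1 - x) ≤ 0 ∧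
          -1 - pf ≤ y + (c - 1 - x)) ∨
        (y = 0 ∧ 0 ≤ c - 1 - x ∧ c - 1 - x ≤ 1) ∨
        (1 ≤ y ∧ 0 ≤ y + (c - 1 - x) ∧ y + (c - 1 - x) ≤ 1 ∧ y - (c - 1 - x) ≤ pL) := h
    refine ⟨?_, ?_⟩
    · rcases h' with h' | h' | h'
      · obtain ⟨h1, h2, h3, h4⟩ := h'
        exact SD3_o0 o0 o1 (by omega) (by omega) (by omega) (by omega) (by omega)
      · unfold Pin.Mem
        left
        omega
      · obtain ⟨h1, h2, h3, h4⟩ := h'
        by_cases hx : c ≤ x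
        · exact SD3_o1 o1 o2 hx (by omega) (by omega) (by omega) (by omega)
        · unfold Pin.Mem
          left
          omega
    · intro hm
      have k := SD3_in i0 i1 i2 hm
      omega

end RCN
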