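import Pool.Agent.RCN.Targets

/-!
# MP_404bc2_co: target tSD4, the seven regions of a step of type D are disjoint (helper44)
-/

set_option autoImplicit false

namespace RCN

lemma SD4_box {p q : ℤ} (h : inBox p q = true) :
    -4 ≤ p + q ∧ p + q ≤ 4 ∧ -4 ≤ q - p ∧ q - p ≤ 4 := by
  unfold inBox at h
  simp only [Bool.and_eq_true, decide_eq_true_eq] at h
  omega

lemma SD4_true {g g' : ℤ} {m : ℕ} {p q : ℤ} (h : core g g' m p q = true) :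
    (-4 ≤ p + q ∧ p + q ≤ 4 ∧ -4 ≤ q - p ∧ q - p ≤ 4) ∨ (g ≤ q ∧ p ≤ g' - 1) := by
  by_cases hb : inBox p q = true
  · exact Or.inl (SD4_box hb)
  · right
    unfold core at h
    rw [if_neg hb] at h
    simp only [Bool.and_eq_true, decide_eq_true_eq] at h
    exact h

lemma SD4_false {g g' : ℤ} {m : ℕ} {p q : ℤ} (h : core g g' m p q = false) :
    (-4 ≤ p + q ∧ p + q ≤ 4 ∧ -4 ≤ q - p ∧ q - p ≤ 4) ∨ q < g ∨ g' ≤ p := by
  by_cases hb : inBox p q = true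
  · exact Or.inl (SD4_box hb)
  · right
    unfold core at h
    rw [if_neg hb] at h
    simp only [Bool.and_eq_false_iff, decide_eq_false_iff_not] at h
    omega

/-- position of the cells of the arm regions in frame coordinates -/
lemma SD4_pos (O I : Pin) (q0 pL c : ℤ) (hc : 12 ≤ c) (hq : -13 ≤ q0) (hq' : q0 ≤ -5)
    (hp : 3 ≤ pL) (k : ℕ) (p : Cell) (hk : k < 4) (h : p ∈ regD O I q0 pL c k) :
    1 ≤ p.1 ∧ p.2 ≤ 1 ∧ (p.2 ≤ -1 ∨ p.1 + p.2 ≤ 3) ∧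
      (k ≠ 0 ∨ p.1 + p.2 + 1 ≤ c + q0 - 1) ∧ (k ≠ 1 ∨ pL + 1 ≤ p.1 - p.2) := by
  obtain ⟨x, y⟩ := p
  interval_cases k
  all_goals
    obtain ⟨h1, h2, h3, h4⟩ := h
    replace h1 := SD4_true h1
    replace h2 := SD4_false h2
    simp only at h1 h2 h3 h4 ⊢
    omega

lemma SD4_first (O I : Pin) (q0 pL c : ℤ) (hc : 12 ≤ c) (hq : -13 ≤ q0) (hq' : q0 ≤ -5)
    (hp : 3 ≤ pL) (k l : ℕ) (p : Cell) (hk : k < 4) (hl : l < 4)
    (h1 : fr c k p ∈ regD O I q0 pL c k) (h2 : fr c l p ∈ regD O I q0 pL c l) : k = l := by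
  replace h1 := SD4_pos O I q0 pL c hc hq hq' hp k _ hk h1
  replace h2 := SD4_pos O I q0 pL c hc hq hq' hp l _ hl h2
  obtain ⟨x, y⟩ := p
  interval_cases k <;> interval_cases l <;> simp only [fr] at h1 h2 <;> omega

lemma SD4_T (O I : Pin) (q0 d pL c : ℤ) (hc : 12 ≤ c) (hq : -13 ≤ q0) (hq' : q0 ≤ -5)
    (hd : d ≤ 17) (hp : 3 ≤ pL) (k : ℕ) (p : Cell) (hk : k < 4)
    (h : fr c k p ∈ regD O I q0 pL c k) : p ∉ regT q0 d c := by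
  replace h := SD4_pos O I q0 pL c hc hq hq' hp k _ hk h
  obtain ⟨x, y⟩ := p
  rintro ⟨h1, h2, h3, h4, -⟩
  simp only at h1 h2 h3 h4
  interval_cases k <;> simp only [fr] at h <;> omega

lemma SD4_F (O I : Pin) (q0 d pf pL c : ℤ) (hc : 12 ≤ c) (hq : -13 ≤ q0) (hq' : q0 ≤ -5)
    (hpf : 6 ≤ pf) (hp : 3 ≤ pL) (k : ℕ) (p : Cell) (hk : k < 4)
    (h : fr c k p ∈ regD O I q0 pL c k) : p ∉ regF d pf c := by
  replace h := SD4_pos O I q0 pL c hc hq hq' hp k _ hk h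
  obtain ⟨x, y⟩ := p
  rintro ⟨h1, h2, h3, h4⟩
  simp only at h1 h2 h3 h4
  interval_cases k <;> simp only [fr] at h <;> omega

/-- cells of the corner region in coordinates -/
lemma SD4_mem {pf pL : ℤ} {u v : ℤ} (h : ((u, v) : Cell) ∈ regV pf pL) :
    (u < 0 ∧ -1 ≤ u - v ∧ u - v ≤ 0 ∧ -1 - pf ≤ u + v) ∨ (u = 0 ∧ 0 ≤ v ∧ v ≤ 1) ∨
      (1 ≤ u ∧ 0 ≤ u + v ∧ u + v ≤ 1 ∧ u - v ≤ pL) := h

lemma SD4_V (O I : Pin) (q0 pf pL c : ℤ) (hc : 12 ≤ c) (hq : -13 ≤ q0) (hq' : q0 ≤ -5)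
    (hp : 3 ≤ pL) (k : ℕ) (p : Cell) (hk : k < 4)
    (h : fr c k p ∈ regD O I q0 pL c k) : fr c 1 p ∉ regV pf pL := by
  replace h := SD4_pos O I q0 pL c hc hq hq' hp k _ hk h
  obtain ⟨x, y⟩ := p
  intro h1
  replace h1 := SD4_mem h1
  interval_cases k <;> simp only [fr] at h <;> omega

theorem pSD4 : tSD4 := by
  intro O I q0 d pf pL c hc hq hq' hcq hd hd' hpf _ hp hp' hdp _
  refine ⟨fun k l p hk hl h1 h2 => SD4_first O I q0 pL c hc hq hq' hp k l p hk hl h1 h2,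
    fun k p hk h => ⟨SD4_T O I q0 d pL c hc hq hq' hd' hp k p hk h,
      SD4_F O I q0 d pf pL c hc hq hq' hpf hp k p hk h,
      SD4_V O I q0 pf pL c hc hq hq' hp k p hk h⟩, ?_⟩
  intro p
  obtain ⟨x, y⟩ := p
  refine ⟨?_, ?_, ?_⟩
  · rintro ⟨⟨h1, h2, h3, h4, -⟩, ⟨h5, h6, h7, h8⟩⟩
    simp only at h1 h2 h3 h4 h5 h6 h7 h8
    omega
  · rintro ⟨⟨h1, h2, h3, h4, -⟩, h5⟩
    replace h5 := SD4_mem h5
    simp only at h1 h2 h3 h4
    omega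
  · rintro ⟨⟨h1, h2, h3, h4⟩, h5⟩
    replace h5 := SD4_mem h5
    simp only at h1 h2 h3 h4
    omega

end RCN
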