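import Pool.Agent.RCN.Targets

/-!
# RCN, target SM: the nest of a step of type M
-/

namespace RCN

/-- four disjoint packings inside one set -/
theorem SM_four (hA4 : tA4) (S : ℕ → Set Cell) (R : Set Cell) (N0 N1 N2 N3 : ℕ)
    (hsub : ∀ k, k < 4 → S k ⊆ R)
    (hdis : ∀ k l p, k < 4 → l < 4 → p ∈ S k → p ∈ S l → k = l)
    (h0 : Pack (S 0) N0) (h1 : Pack (S 1) N1) (h2 : Pack (S 2) N2) (h3 : Pack (S 3) N3) :
    Pack R (N0 + N1 + N2 + N3) := by
  obtain ⟨hmono, hun, -⟩ := hA4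
  have d01 : Disjoint (S 0) (S 1) := by
    rw [Set.disjoint_left]
    intro p hp hp'
    exact absurd (hdis 0 1 p (by norm_num) (by norm_num) hp hp') (by norm_num)
  have h01 := hun _ _ _ _ h0 h1 d01
  have d2 : Disjoint (S 0 ∪ S 1) (S 2) := by
    rw [Set.disjoint_left]
    rintro p (hp | hp) hp'
    · exact absurd (hdis 0 2 p (by norm_num) (by norm_num) hp hp') (by norm_num)
    · exact absurd (hdis 1 2 p (by norm_num) (by norm_num) hp hp') (by norm_num)
  have h012 := hun _ _ _ _ h01 h2 d2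
  have d3 : Disjoint (S 0 ∪ S 1 ∪ S 2) (S 3) := by
    rw [Set.disjoint_left]
    rintro p ((hp | hp) | hp) hp'
    · exact absurd (hdis 0 3 p (by norm_num) (by norm_num) hp hp') (by norm_num)
    · exact absurd (hdis 1 3 p (by norm_num) (by norm_num) hp hp') (by norm_num)
    · exact absurd (hdis 2 3 p (by norm_num) (by norm_num) hp hp') (by norm_num)
  refine hmono _ _ _ ?_ (hun _ _ _ _ h012 h3 d3)
  rintro p (((hp | hp) | hp) | hp)
  · exact hsub 0 (by norm_num) hp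
  · exact hsub 1 (by norm_num) hp
  · exact hsub 2 (by norm_num) hp
  · exact hsub 3 (by norm_num) hp

theorem pSM (hSM1 : tSM1) (hSM2 : tSM2) (hSM3 : tSM3) (hA4 : tA4) (hA5 : tA5) (hP2 : tP2) :
    tSM := by
  intro O I b N M N0 N1 N2 N3 hb hO hI hM h0 h1 h2 h3
  have hbb : b + 1 - 1 = b := by ring
  constructor
  · rintro ⟨x, y⟩ hp
    have h4 := (hP2 I b M x y hb hI).1 hp
    rw [hP2 O (b + 1) N x y (by omega) hO]
    refine hSM1 O I (b + 1) x y (by omega) hM ?_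
    rw [hbb]
    exact h4
  · refine SM_four hA4 (fun k => {p | fr (b + 1) k p ∈ regM O I (b + 1) k}) _ N0 N1 N2 N3
      ?_ ?_ (hA5.2 _ _ (b + 1) 0 h0) (hA5.2 _ _ (b + 1) 1 h1) (hA5.2 _ _ (b + 1) 2 h2)
      (hA5.2 _ _ (b + 1) 3 h3)
    · rintro k hk ⟨x, y⟩ hp
      have h4 := hSM2 O I (b + 1) k (x, y) (by omega) hM hk hp
      rw [hbb] at h4
      exact ⟨(hP2 O (b + 1) N x y (by omega) hO).2 h4.1,
        fun h5 => h4.2 ((hP2 I b M x y hb hI).1 h5)⟩
    · intro k l p hk hl hp hp'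
      exact hSM3 O I (b + 1) k l p (by omega) hM hk hl hp hp'

end RCN
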