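import Pool.Agent.RCN.Targets

namespace RCN

lemma SM1_box_true {p q : ℤ} (h : inBox p q = true) :
    -4 ≤ p ∧ p ≤ 4 ∧ -4 ≤ q ∧ q ≤ 4 := by
  simp only [inBox, Bool.and_eq_true, decide_eq_true_eq] at h
  omega

lemma SM1_core_out {g g' p q : ℤ} {m : ℕ} (h : inBox p q = false) :
    core g g' m p q = true ↔ g ≤ q ∧ p ≤ g' - 1 := by
  simp [core, h]

lemma SM1_core {n go go' gi gi' : ℤ} {mo mi : ℕ} {dp dq : ℤ}
    (h : LC n go go' gi gi' mo mi dp dq) (a1 : 0 ≤ dp) (a2 : dp ≤ 12) (a3 : 0 ≤ dq)
    (a4 : dq ≤ 8) (h1 : go ≤ gi + dq) (h2 : gi' ≤ go' + dp) (p q : ℤ)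
    (hpar : (p + q + n + 1) % 2 = 0) (hc : core gi gi' mi (p + dp) (q - dq) = true) :
    core go go' mo p q = true := by
  by_cases hr : -24 ≤ p ∧ p ≤ 8 ∧ -8 ≤ q ∧ q ≤ 12
  · exact h p q hr.1 hr.2.1 hr.2.2.1 hr.2.2.2 hpar hc
  · have b1 : inBox p q = false := by
      rcases Bool.eq_false_or_eq_true (inBox p q) with hb | hb
      · exfalso
        have := SM1_box_true hb
        omega
      · exact hb
    have b2 : inBox (p + dp) (q - dq) = false := by
      rcases Bool.eq_false_or_eq_true (inBox (p + dp) (q - dq)) with hb | hb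
      · exfalso
        have := SM1_box_true hb
        omega
      · exact hb
    rw [SM1_core_out b1]
    rw [SM1_core_out b2] at hc
    omega

/-- membership in an inner arm gives the outer core -/
theorem pSM1 : tSM1 := by
  intro O I c x y hc hok hmem
  obtain ⟨o0, o1, o2, o3, i0, i1, i2, i3, c0, c1, c2, c3⟩ := hok
  unfold Pin.Mem Arm at hmem
  unfold Pin.Mem Arm
  rw [o0, o1, o2, o3]
  rw [i0, i1, i2, i3] at hmem
  rcases hmem with h | ⟨h1, h2, h3⟩ | ⟨h1, h2, h3⟩ | ⟨h1, h2, h3⟩ | ⟨h1, h2, h3⟩
  · left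
    omega
  · right; left
    refine ⟨h1, ?_, by omega⟩
    refine SM1_core c0 (by norm_num) (by norm_num) (by norm_num) (by norm_num) (by norm_num)
      (by norm_num) _ _ (by omega) ?_
    rw [← h2]
    congr 1 <;> ring
  · by_cases hx : x = c - 1
    · left
      have hb : inBox (y - (c - 1 - 1 - x) - 3 * (c - 1)) (y + (c - 1 - 1 - x) + 1) = false := by
        rcases Bool.eq_false_or_eq_true
          (inBox (y - (c - 1 - 1 - x) - 3 * (c - 1)) (y + (c - 1 - 1 - x) + 1)) with hb | hb
        · exfalso
          have := SM1_box_true hb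
          omega
        · exact hb
      rw [SM1_core_out hb] at h2
      omega
    · right; right; left
      refine ⟨by omega, ?_, by omega⟩
      refine SM1_core c1 (by norm_num) (by norm_num) (by norm_num) (by norm_num) (by norm_num)
        (by norm_num) _ _ (by omega) ?_
      rw [← h2]
      congr 1 <;> ring
  · by_cases hy : y = c - 1
    · left
      have hb : inBox ((c - 1 - 1 - x) - (c - 1 - 1 - y) - 3 * (c - 1))
          ((c - 1 - 1 - x) + (c - 1 - 1 - y) + 1) = false := by
        rcases Bool.eq_false_or_eq_true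
          (inBox ((c - 1 - 1 - x) - (c - 1 - 1 - y) - 3 * (c - 1))
            ((c - 1 - 1 - x) + (c - 1 - 1 - y) + 1)) with hb | hb
        · exfalso
          have := SM1_box_true hb
          omega
        · exact hb
      rw [SM1_core_out hb] at h2
      omega
    · right; right; right; left
      refine ⟨by omega, ?_, by omega⟩
      refine SM1_core c2 (by norm_num) (by norm_num) (by norm_num) (by norm_num) (by norm_num)
        (by norm_num) _ _ (by omega) ?_
      rw [← h2]
      congr 1 <;> ring
  · right; right; right; right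
    refine ⟨h1, ?_, by omega⟩
    refine SM1_core c3 (by norm_num) (by norm_num) (by norm_num) (by norm_num) (by norm_num)
      (by norm_num) _ _ (by omega) ?_
    rw [← h2]
    congr 1 <;> ring

end RCN
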