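import Pool.Agent.RCN.Targets

/-!
# tSM3: the four regions of a step of type M are disjoint
-/

namespace RCN

lemma SM3_box {p q : ℤ} (h : inBox p q = true) :
    -4 ≤ p + q ∧ p + q ≤ 4 ∧ -4 ≤ q - p ∧ q - p ≤ 4 := by
  unfold inBox at h
  simp only [Bool.and_eq_true, decide_eq_true_eq] at h
  omega

lemma SM3_true {g g' : ℤ} {m : ℕ} {p q : ℤ} (h : core g g' m p q = true) :
    (-4 ≤ p + q ∧ p + q ≤ 4 ∧ -4 ≤ q - p ∧ q - p ≤ 4) ∨ (g ≤ q ∧ p ≤ g' - 1) := by
  by_cases hb : inBox p q = true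
  · exact Or.inl (SM3_box hb)
  · right
    unfold core at h
    rw [if_neg hb] at h
    simp only [Bool.and_eq_true, decide_eq_true_eq] at h
    exact h

lemma SM3_false {g g' : ℤ} {m : ℕ} {p q : ℤ} (h : core g g' m p q = false) :
    (-4 ≤ p + q ∧ p + q ≤ 4 ∧ -4 ≤ q - p ∧ q - p ≤ 4) ∨ q < g ∨ g' ≤ p := by
  by_cases hb : inBox p q = true
  · exact Or.inl (SM3_box hb)
  · right
    unfold core at h
    rw [if_neg hb] at h
    simp only [Bool.and_eq_false_iff, decide_eq_false_iff_not] at h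
    omega

/-- position of the cells of the regions in frame coordinates -/
lemma SM3_pos (O I : Pin) (c : ℤ) (hc : 5 ≤ c) (k : ℕ) (p : Cell) (hk : k < 4)
    (h : p ∈ regM O I c k) :
    0 ≤ p.1 ∧ (p.2 < 0 ∨ (p.1 + p.2 ≤ 1 ∧ 0 ≤ p.2 ∧ p.2 ≤ 1)) := by
  obtain ⟨x, y⟩ := p
  interval_cases k
  all_goals
    obtain ⟨h1, h2, h3, h4⟩ := h
    replace h1 := SM3_true h1
    replace h2 := SM3_false h2
    simp only at h1 h2 h3 h4 ⊢
    omega

theorem pSM3 : tSM3 := by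
  intro O I c k l p hc _ hk hl h1 h2
  replace h1 := SM3_pos O I c hc k _ hk h1
  replace h2 := SM3_pos O I c hc l _ hl h2
  obtain ⟨x, y⟩ := p
  interval_cases k <;> interval_cases l <;> simp only [fr] at h1 h2 <;> omega

end RCN
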