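import Pool.Agent.RCN.Targets

/-!
# The regions `TReg` for two sizes of the same parity are translates of each other
-/

namespace RCN

theorem T1_set (c go go' gi gi' : ℤ) (mo mi : ℕ) (dp dq A B : ℤ) :
    {p : Cell | ((p.1 - 3, p.2 - (-3)) : Cell) ∈ TReg c go go' gi gi' mo mi dp dq A B} =
      TReg (c + 2) go go' gi gi' mo mi dp dq A B := by
  ext ⟨x, y⟩
  simp only [TReg, Set.mem_ofPred_eq]
  have e1 : x - 3 - (y - -3) - 3 * c = x - y - 3 * (c + 2) := by ring
  have e2 : x - 3 + (y - -3) + 1 = x + y + 1 := by ring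
  rw [e1, e2]

/-- Target T1. -/
theorem pT1 (hA5 : tA5) : tT1 := by
  intro c go go' gi gi' mo mi dp dq A B N h
  have h1 := hA5.1 _ N 3 (-3) h
  rwa [T1_set] at h1

end RCN
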