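import Pool.Agent.RCN.Targets

/-! Enlarging `A` by 6 (target `tT2`) -/

namespace RCN

/-- a cell with first coordinate at most -6 is outside the window -/
theorem T2_inBox (p q : ℤ) (h : p ≤ -5) : inBox p q = false := by
  unfold inBox
  by_contra hc
  rw [Bool.not_eq_false] at hc
  simp only [Bool.and_eq_true, decide_eq_true_eq] at hc
  omega

theorem T2_core (g g' : ℤ) (m : ℕ) (p q : ℤ) (h : p ≤ -5) :
    core g g' m p q = (decide (g ≤ q) && decide (p ≤ g' - 1)) := by
  unfold core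
  rw [T2_inBox p q h]
  simp

/-- the strip of the first `m` blocks -/
def T2_strip (P0 q0 : ℤ) (m : ℕ) : Set Cell :=
  {p | P0 ≤ p.1 - p.2 ∧ p.1 - p.2 ≤ P0 + 5 ∧ q0 ≤ p.1 + p.2 ∧ p.1 + p.2 ≤ q0 + 2 * (m : ℤ) - 1}

theorem T2_pack (hU3 : tU3) (hA4 : tA4) (P0 q0 : ℤ) (m : ℕ) : Pack (T2_strip P0 q0 m) m := by
  induction m with
  | zero => exact hA4.2.2 _
  | succ m ih =>
    have hb := (hU3 P0 (q0 + 2 * (m : ℤ))).1
    refine hA4.1 _ _ _ ?_ (hA4.2.1 _ _ _ _ ih hb ?_)
    · intro x hx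
      rcases hx with hx | hx
      · unfold T2_strip at hx ⊢
        rw [Set.mem_setOf_eq] at hx ⊢
        push_cast
        omega
      · unfold T2_strip
        rw [Set.mem_setOf_eq] at hx ⊢
        push_cast
        omega
    · rw [Set.disjoint_left]
      intro x hx hx'
      unfold T2_strip at hx
      rw [Set.mem_setOf_eq] at hx hx'
      omega

theorem pT2 (hU3 : tU3) (hA4 : tA4) : tT2 := by
  intro c go go' gi gi' mo mi dp dq A B N l hgo0 hgo hgo' hgi' hA hAd hl hB hp
  have hs := T2_pack hU3 hA4 (3 * c - A - 6) (go - 1) l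
  refine hA4.1 _ _ _ ?_ (hA4.2.1 _ _ _ _ hp hs ?_)
  · intro x hx
    rcases hx with hx | hx
    · unfold TReg at hx ⊢
      rw [Set.mem_setOf_eq] at hx ⊢
      exact ⟨hx.1, hx.2.1, by omega, hx.2.2.2⟩
    · unfold T2_strip at hx
      rw [Set.mem_setOf_eq] at hx
      obtain ⟨h1, h2, h3, h4⟩ := hx
      unfold TReg
      rw [Set.mem_setOf_eq]
      refine ⟨?_, ?_, ?_, ?_⟩
      · rw [T2_core _ _ _ _ _ (by omega), Bool.and_eq_true, decide_eq_true_eq,
          decide_eq_true_eq]
        omega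
      · rw [T2_core _ _ _ _ _ (by omega), Bool.and_eq_false_iff]
        left
        rw [decide_eq_false_iff_not]
        omega
      · omega
      · omega
  · rw [Set.disjoint_left]
    intro x hx hx'
    unfold TReg at hx
    unfold T2_strip at hx'
    rw [Set.mem_setOf_eq] at hx hx'
    obtain ⟨_, _, h3, _⟩ := hx
    omega

end RCN
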