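import Pool.Agent.RCN.Targets

/-!
# RCN: target T4
-/

namespace RCN

theorem T4_core (g g' : ℤ) (m : ℕ) (p q : ℤ) (hq : 5 ≤ q) :
    core g g' m p q = (decide (g ≤ q) && decide (p ≤ g' - 1)) := by
  have h : inBox p q = false := by
    by_contra h
    have h' : inBox p q = true := by simpa using h
    simp only [inBox, Bool.and_eq_true, decide_eq_true_eq] at h'
    omega
  simp [core, h]

theorem pT4 (hU3 : tU3) (hA4 : tA4) : tT4 := by
  intro c go go' gi gi' mo mi dp dq A B N hgo hgi hB hBq hA hsum hP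
  obtain ⟨hmono, hunion, -⟩ := hA4
  have hblock := (hU3 (go' - 6 + 3 * c) B).1
  refine hmono _ _ _ ?_ (hunion _ _ _ _ hP hblock ?_)
  · rintro ⟨x, y⟩ (h | h)
    · simp only [TReg, Set.mem_ofPred_eq] at h ⊢
      exact ⟨h.1, h.2.1, h.2.2.1, by omega⟩
    · simp only [Set.mem_ofPred_eq] at h
      obtain ⟨h1, h2, h3, h4⟩ := h
      simp only [TReg, Set.mem_ofPred_eq]
      refine ⟨?_, ?_, by omega, by omega⟩
      · rw [T4_core _ _ _ _ _ (by omega)]
        simp only [Bool.and_eq_true, decide_eq_true_eq]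
        omega
      · rw [T4_core _ _ _ _ _ (by omega)]
        simp only [Bool.and_eq_false_iff, decide_eq_false_iff_not]
        right
        omega
  · rw [Set.disjoint_left]
    rintro ⟨x, y⟩ h h'
    simp only [TReg, Set.mem_ofPred_eq] at h h'
    omega

end RCN
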