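import Pool.Agent.RCN.PA1

/-!
# RCN, target U1: soundness of `netCheck`
-/

set_option autoImplicit false

namespace RCN

/-- one step inside `P` -/
def U1_R (P : Finset Cell) (a b : Cell) : Prop := Adj a b ∧ b ∈ P

theorem U1_adj_symm {a b : Cell} (h : Adj a b) : Adj b a := by
  unfold Adj at h ⊢
  omega

/-- the cells accepted by `connList` are connected -/
theorem U1_conn (P : Finset Cell) : ∀ (l seen : List Cell), connList seen l = true →
    (∀ a ∈ l, a ∈ P) → (∀ a ∈ seen, a ∈ P) →
    (∀ a ∈ seen, ∀ b ∈ seen, Relation.ReflTransGen (U1_R P) a b) →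
    ∀ a, (a ∈ seen ∨ a ∈ l) → ∀ b, (b ∈ seen ∨ b ∈ l) →
      Relation.ReflTransGen (U1_R P) a b := by
  intro l
  induction l with
  | nil =>
    intro seen _ _ _ hc a ha b hb
    have ha' : a ∈ seen := by simpa using ha
    have hb' : b ∈ seen := by simpa using hb
    exact hc a ha' b hb'
  | cons p l ih =>
    intro seen h hl hs hc
    have h' : (seen.isEmpty || seen.any (fun q => decide (Adj q p))) = true ∧
        connList (p :: seen) l = true := by
      simpa [connList, Bool.and_eq_true] using h
    obtain ⟨h1, h2⟩ := h'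
    have hp : p ∈ P := hl p (by simp)
    have hto : ∀ a ∈ seen, Relation.ReflTransGen (U1_R P) a p ∧
        Relation.ReflTransGen (U1_R P) p a := by
      intro a ha
      rw [Bool.or_eq_true] at h1
      rcases h1 with h1 | h1
      · rw [List.isEmpty_iff] at h1
        subst h1
        simp at ha
      · rw [List.any_eq_true] at h1
        obtain ⟨q, hq, hqp⟩ := h1
        have hqp' : Adj q p := of_decide_eq_true hqp
        exact ⟨(hc a ha q hq).tail ⟨hqp', hp⟩,
          Relation.ReflTransGen.head ⟨U1_adj_symm hqp', hs q hq⟩ (hc q hq a ha)⟩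
    have key := ih (p :: seen) h2 (fun a ha => hl a (by simp [ha])) (by
        intro a ha
        rcases List.mem_cons.mp ha with ha1 | ha1
        · rw [ha1]
          exact hp
        · exact hs a ha1) (by
        intro a ha b hb
        rcases List.mem_cons.mp ha with ha1 | ha1
        · rcases List.mem_cons.mp hb with hb1 | hb1
          · rw [ha1, hb1]
          · rw [ha1]
            exact (hto b hb1).2
        · rcases List.mem_cons.mp hb with hb1 | hb1
          · rw [hb1]
            exact (hto a ha1).1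
          · exact hc a ha1 b hb1)
    have hmem : ∀ a, (a ∈ seen ∨ a ∈ p :: l) → (a ∈ p :: seen ∨ a ∈ l) := by
      intro a ha
      simp only [List.mem_cons] at ha ⊢
      tauto
    intro a ha b hb
    exact key a (hmem a ha) b (hmem b hb)

/-- two entries of the list with the same value of `g` are equal -/
theorem U1_inj {β : Type} (L : List (Cell × Placement)) (g : Cell × Placement → β)
    (h : (L.map g).Nodup) {a b : Cell × Placement} (ha : a ∈ L) (hb : b ∈ L)
    (hab : g a = g b) : a = b :=
  List.inj_on_of_nodup_map h ha hb hab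

/-- a finite set of surface centres with `6 n ^ 2` elements contains all centres -/
theorem U1_all (n : ℕ) (C : Finset Vec) (hC : ∀ o ∈ C, Surf n o) (hc : C.card = 6 * n ^ 2)
    (o : Vec) (ho : Surf n o) : o ∈ C := by
  have h1 : C ⊆ A1_S n := fun x hx => (A1_mem_S n x).mpr (hC x hx)
  have h2 : C = A1_S n := Finset.eq_of_subset_of_card_le h1 (by rw [A1_card_S, hc])
  rw [h2]
  exact (A1_mem_S n o).mpr ho

theorem U1_main : tU1 := by
  classical
  intro n L h
  simp only [netCheck, Bool.and_eq_true, Bool.not_eq_true', decide_eq_true_eq, List.all_eq_true,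
    Bool.or_eq_true, decide_eq_false_iff_not] at h
  obtain ⟨⟨⟨⟨⟨⟨h1, h2⟩, h3⟩, h4⟩, h5⟩, h6⟩, h7⟩ := h
  set P : Finset Cell := (L.map Prod.fst).toFinset with hPdef
  have hP : ∀ p, p ∈ P ↔ ∃ s, (p, s) ∈ L := by
    intro p
    rw [hPdef, List.mem_toFinset, List.mem_map]
    constructor
    · rintro ⟨⟨q, s⟩, ha, rfl⟩
      exact ⟨s, ha⟩
    · rintro ⟨s, hs⟩
      exact ⟨(p, s), hs, rfl⟩
  -- the folding
  let f : Cell → Placement := fun p =>
    if hp : ∃ s, (p, s) ∈ L then hp.choose else ⟨(0, 0, 0), (0, 0, 0), (0, 0, 0)⟩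
  have hf : ∀ (p : Cell) (s : Placement), (p, s) ∈ L → f p = s := by
    intro p s hs
    have hp : ∃ s, (p, s) ∈ L := ⟨s, hs⟩
    have e : f p = hp.choose := dif_pos hp
    rw [e]
    have := U1_inj L Prod.fst h3 hp.choose_spec hs rfl
    exact congrArg Prod.snd this
  have hall : ∀ o : Vec, Surf n o → ∃ a ∈ L, a.2.o = o := by
    intro o ho
    have hcard : (L.map (fun a => a.2.o)).toFinset.card = 6 * n ^ 2 := by
      rw [List.toFinset_card_of_nodup h4, List.length_map, h2]
    have hC : ∀ x ∈ (L.map (fun a => a.2.o)).toFinset, Surf n x := by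
      intro x hx
      rw [List.mem_toFinset, List.mem_map] at hx
      obtain ⟨a, ha, rfl⟩ := hx
      exact A1_surf (h6 a ha)
    have := U1_all n _ hC hcard o ho
    rw [List.mem_toFinset, List.mem_map] at this
    exact this
  refine ⟨⟨?_, ?_⟩, f, ?_⟩
  · cases L with
    | nil => simp at h1
    | cons a l =>
      exact ⟨a.1, (hP a.1).mpr ⟨a.2, by simp⟩⟩
  · have hmem : ∀ p, p ∈ P ↔ p ∈ L.map Prod.fst := by
      intro p
      rw [hPdef, List.mem_toFinset]
    have key := U1_conn P (L.map Prod.fst) [] h5 (fun a ha => (hmem a).mpr ha) (by simp)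
      (by simp)
    intro p hp q hq
    exact key p (Or.inr ((hmem p).mp hp)) q (Or.inr ((hmem q).mp hq))
  · refine ⟨?_, ?_, ?_, ?_⟩
    · intro p hp
      obtain ⟨s, hs⟩ := (hP p).mp hp
      rw [hf p s hs]
      exact h6 _ hs
    · intro x y hx hy
      obtain ⟨s, hs⟩ := (hP _).mp hx
      obtain ⟨t, ht⟩ := (hP _).mp hy
      rw [hf _ s hs, hf _ t ht]
      rcases (h7 _ hs _ ht).1 with h | h
      · exact absurd rfl h
      · exact h
    · intro x y hx hy
      obtain ⟨s, hs⟩ := (hP _).mp hx
      obtain ⟨t, ht⟩ := (hP _).mp hy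
      rw [hf _ s hs, hf _ t ht]
      rcases (h7 _ hs _ ht).2 with h | h
      · exact absurd rfl h
      · exact h
    · intro o ho
      obtain ⟨a, ha, hao⟩ := hall o ho
      refine ⟨a.1, ⟨(hP a.1).mpr ⟨a.2, ha⟩, ?_⟩, ?_⟩
      · rw [hf a.1 a.2 ha]
        exact hao
      · rintro q ⟨hq, hqo⟩
        obtain ⟨s, hs⟩ := (hP q).mp hq
        rw [hf q s hs] at hqo
        have := U1_inj L (fun a => a.2.o) h4 hs ha (by simp only [hqo, hao])
        exact congrArg Prod.fst this

theorem pU1 (_hA1 : tA1) : tU1 := U1_main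

end RCN
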