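import Pool.Agent.RCN.Targets

/-!
# RCN, target U2: the 64 shapes of the table are nets of the unit cube

`U2_lay` rolls the unit cube along the cells of a shape and records the placements; the result
is checked by `netCheck` (one kernel computation for all shapes).
-/

set_option autoImplicit false

namespace RCN

/-- rolling the unit cube to the right -/
def U2_R (s : Placement) : Placement := ⟨(1, 1, 1) + s.u, (1, 1, 1) - s.o, s.v⟩

/-- rolling the unit cube to the left -/
def U2_L (s : Placement) : Placement := ⟨(1, 1, 1) - s.u, s.o - (1, 1, 1), s.v⟩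

/-- rolling the unit cube up -/
def U2_U (s : Placement) : Placement := ⟨(1, 1, 1) + s.v, s.u, (1, 1, 1) - s.o⟩

/-- rolling the unit cube down -/
def U2_D (s : Placement) : Placement := ⟨(1, 1, 1) - s.v, s.u, s.o - (1, 1, 1)⟩

/-- the placement of the cell `p`, if it touches a placed cell -/
def U2_step (acc : List (Cell × Placement)) (p : Cell) : Option Placement :=
  acc.findSome? (fun a =>
    if p = (a.1.1 + 1, a.1.2) then some (U2_R a.2)
    else if p = (a.1.1 - 1, a.1.2) then some (U2_L a.2)
    else if p = (a.1.1, a.1.2 + 1) then some (U2_U a.2)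
    else if p = (a.1.1, a.1.2 - 1) then some (U2_D a.2)
    else none)

/-- add the cell `p` if it is new and touches a placed cell -/
def U2_add (acc : List (Cell × Placement)) (p : Cell) : List (Cell × Placement) :=
  if acc.any (fun a => decide (a.1 = p)) then acc
  else match U2_step acc p with
    | some s => acc ++ [(p, s)]
    | none => acc

/-- the placements of all cells of a shape -/
def U2_lay (s : List Cell) : List (Cell × Placement) :=
  (s ++ s ++ s ++ s ++ s).foldl U2_add
    [(s.headD (0, 0), ⟨(1, 1, 0), (1, 0, 0), (0, 1, 0)⟩)]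

/-- the check of one shape -/
def U2_chk (s : List Cell) : Bool :=
  netCheck 1 (U2_lay s) && s.all (fun p => (U2_lay s).any (fun a => decide (a.1 = p))) &&
    (U2_lay s).all (fun a => s.any (fun p => decide (p = a.1)))

theorem U2_all : shapeTab.all U2_chk = true := by decide +kernel

theorem pU2 (hU1 : tU1) : tU2 := by
  intro s hs
  have h := List.all_eq_true.mp U2_all s hs
  simp only [U2_chk, Bool.and_eq_true, List.all_eq_true, List.any_eq_true,
    decide_eq_true_eq] at h
  obtain ⟨⟨h1, h2⟩, h3⟩ := h
  have h4 := hU1 1 _ h1
  have h5 : ((U2_lay s).map Prod.fst).toFinset = s.toFinset := by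
    ext p
    rw [List.mem_toFinset, List.mem_toFinset, List.mem_map]
    constructor
    · rintro ⟨a, ha, rfl⟩
      obtain ⟨q, hq, hqa⟩ := h3 a ha
      rwa [← hqa]
    · intro hp
      obtain ⟨a, ha, hap⟩ := h2 p hp
      exact ⟨a, ha, hap⟩
  rwa [h5] at h4

end RCN
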