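import Pool.Agent.RCN.Targets

/-!
# RCN, target U3: diagonal blocks of six cells are nets of the unit cube
-/

set_option autoImplicit false

namespace RCN

/-- one tile: a moved shape of the table -/
theorem U3_one (hU2 : tU2) (hA2 : tA2) (S : Set Cell) (s : List Cell) (hs : s ∈ shapeTab)
    (i j : ℤ) (h : ∀ p ∈ s, ((p.1 + i, p.2 + j) : Cell) ∈ S) : Pack S 1 := by
  refine ⟨{shift i j s.toFinset}, Finset.card_singleton _, ?_, ?_, ?_⟩
  · intro t ht
    rw [Finset.mem_singleton.1 ht]
    exact hA2 1 _ i j (hU2 s hs)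
  · intro t ht p hp
    rw [Finset.mem_singleton.1 ht] at hp
    rw [Finset.mem_coe, shift, Finset.mem_image] at hp
    obtain ⟨a, ha, rfl⟩ := hp
    exact h a (List.mem_toFinset.1 ha)
  · intro t ht t' ht' hne
    rw [Finset.mem_singleton.1 ht, Finset.mem_singleton.1 ht'] at hne
    exact absurd rfl hne

theorem pU3 (hU2 : tU2) (hA2 : tA2) : tU3 := by
  intro P0 q0
  constructor
  · rcases Int.even_or_odd' (P0 + q0) with ⟨k, hk | hk⟩
    · refine U3_one hU2 hA2 _ [(0, 2), (1, 1), (1, 2), (2, 0), (2, 1), (3, 0)] (by decide) k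
        (q0 - k - 2) ?_
      intro p hp
      simp only [List.mem_cons, List.not_mem_nil, or_false] at hp
      rcases hp with rfl | rfl | rfl | rfl | rfl | rfl <;>
        simp only [Set.mem_ofPred_eq] <;> omega
    · refine U3_one hU2 hA2 _ [(0, 2), (0, 3), (1, 1), (1, 2), (2, 0), (2, 1)] (by decide) (k + 1)
        (q0 - k - 3) ?_
      intro p hp
      simp only [List.mem_cons, List.not_mem_nil, or_false] at hp
      rcases hp with rfl | rfl | rfl | rfl | rfl | rfl <;>
        simp only [Set.mem_ofPred_eq] <;> omega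
  · rcases Int.even_or_odd' (P0 + q0) with ⟨k, hk | hk⟩
    · refine U3_one hU2 hA2 _ [(0, 0), (1, 0), (1, 1), (2, 1), (2, 2), (3, 2)] (by decide) k
        (q0 - k) ?_
      intro p hp
      simp only [List.mem_cons, List.not_mem_nil, or_false] at hp
      rcases hp with rfl | rfl | rfl | rfl | rfl | rfl <;>
        simp only [Set.mem_ofPred_eq] <;> omega
    · refine U3_one hU2 hA2 _ [(0, 0), (0, 1), (1, 1), (1, 2), (2, 2), (2, 3)] (by decide) (k + 1)
        (q0 - k - 1) ?_
      intro p hp
      simp only [List.mem_cons, List.not_mem_nil, or_false] at hp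
      rcases hp with rfl | rfl | rfl | rfl | rfl | rfl <;>
        simp only [Set.mem_ofPred_eq] <;> omega

end RCN
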