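import Pool.Agent.RCN.Targets

/-!
# RCN, U4: soundness of the certificates (helper29)
-/

namespace RCN

theorem U4_nodupAux : ∀ (l : List ℕ) (acc : ℕ), nodupAux l acc = true →
    l.Nodup ∧ ∀ i ∈ l, acc.testBit i = false := by
  intro l
  induction l with
  | nil => intro acc _; exact ⟨List.nodup_nil, fun i hi => absurd hi (by simp)⟩
  | cons a l ih =>
    intro acc h
    unfold nodupAux at h
    rw [Bool.and_eq_true] at h
    obtain ⟨h1, h2⟩ := h
    obtain ⟨g1, g2⟩ := ih _ h2
    have hb : ∀ i ∈ l, acc.testBit i = false ∧ i ≠ a := by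
      intro i hi
      have h3 := g2 i hi
      rw [Nat.testBit_or, Bool.or_eq_false_iff] at h3
      refine ⟨h3.1, ?_⟩
      rintro rfl
      have h4 := h3.2
      rw [Nat.testBit_shiftLeft] at h4
      simp at h4
    refine ⟨List.nodup_cons.2 ⟨fun ha => (hb a ha).2 rfl, g1⟩, ?_⟩
    intro i hi
    rcases List.mem_cons.1 hi with rfl | hi
    · simpa using h1
    · exact (hb i hi).1

theorem U4_len : shapeTab.length = 64 := by decide

theorem U4_mem {k : ℕ} (hk : k < 64) : shapeTab.getD k [] ∈ shapeTab := by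
  have h : k < shapeTab.length := by rw [U4_len]; exact hk
  rw [List.getD_eq_getElem _ _ h]
  exact List.getElem_mem h

theorem U4_shift (t : ℤ × ℤ × ℕ) :
    (tileCells t).toFinset = shift t.1 t.2.1 (shapeTab.getD t.2.2 []).toFinset := by
  unfold tileCells shift
  ext p
  simp only [List.mem_toFinset, List.mem_map, Finset.mem_image]

theorem pU4 (hU2 : tU2) (hA2 : tA2) : tU4 := by
  intro S L h
  unfold certOK at h
  rw [Bool.and_eq_true] at h
  obtain ⟨h1, h2⟩ := h
  have hL : ∀ t ∈ L, t.2.2 < 64 ∧ ∀ p ∈ tileCells t, S p = true := by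
    intro t ht
    have h3 := List.all_eq_true.1 h1 t ht
    rw [Bool.and_eq_true] at h3
    refine ⟨of_decide_eq_true h3.1, fun p hp => ?_⟩
    have h4 := List.all_eq_true.1 h3.2 p hp
    rw [Bool.and_eq_true] at h4
    exact h4.1
  have hnd : (L.flatMap tileCells).Nodup := List.Nodup.of_map _ (U4_nodupAux _ _ h2).1
  rw [List.nodup_flatMap] at hnd
  obtain ⟨-, hp⟩ := hnd
  have hnet : ∀ t ∈ L, IsCubeNet 1 (tileCells t).toFinset := by
    intro t ht
    rw [U4_shift]
    exact hA2 1 _ _ _ (hU2 _ (U4_mem (hL t ht).1))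
  have hne : ∀ t ∈ L, ((tileCells t).toFinset).Nonempty := fun t ht => (hnet t ht).1.1
  have hdis : ∀ a ∈ L, ∀ b ∈ L, a ≠ b → Disjoint (tileCells a).toFinset (tileCells b).toFinset := by
    intro a ha b hb hab
    have hs : Std.Symm (Function.onFun List.Disjoint tileCells) := ⟨fun x y hxy => hxy.symm⟩
    have h5 := hp.forall ha hb hab
    rw [Finset.disjoint_left]
    intro p hpa hpb
    exact h5 (List.mem_toFinset.1 hpa) (List.mem_toFinset.1 hpb)
  refine ⟨(L.map fun t => (tileCells t).toFinset).toFinset, ?_, ?_, ?_, ?_⟩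
  · rw [List.toFinset_card_of_nodup, List.length_map]
    unfold List.Nodup
    rw [List.pairwise_map]
    refine hp.imp_of_mem ?_
    intro a b ha hb hab heq
    obtain ⟨p, hpa⟩ := hne a ha
    have hpb : p ∈ (tileCells b).toFinset := heq ▸ hpa
    exact hab (List.mem_toFinset.1 hpa) (List.mem_toFinset.1 hpb)
  · intro t ht
    rw [List.mem_toFinset, List.mem_map] at ht
    obtain ⟨a, ha, rfl⟩ := ht
    exact hnet a ha
  · intro t ht p hpt
    rw [List.mem_toFinset, List.mem_map] at ht
    obtain ⟨a, ha, rfl⟩ := ht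
    exact (hL a ha).2 p (List.mem_toFinset.1 (Finset.mem_coe.1 hpt))
  · intro s hs t ht hst
    rw [List.mem_toFinset, List.mem_map] at hs ht
    obtain ⟨a, ha, rfl⟩ := hs
    obtain ⟨b, hb, rfl⟩ := ht
    refine hdis a ha b hb ?_
    rintro rfl
    exact hst rfl

end RCN
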