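import Pool.Agent.RCN.Targets

/-!
Soundness of `pinCheck`.
-/

namespace RCN

theorem U5_mem {p : ℤ} (h1 : -4 ≤ p) (h2 : p ≤ 4) : p ∈ nine := by
  unfold nine
  have : p = -4 ∨ p = -3 ∨ p = -2 ∨ p = -1 ∨ p = 0 ∨ p = 1 ∨ p = 2 ∨ p = 3 ∨ p = 4 := by omega
  rcases this with h | h | h | h | h | h | h | h | h <;> subst h <;> decide

theorem U5_box {p q : ℤ} (h : inBox p q = true) : p ∈ nine ∧ q ∈ nine := by
  unfold inBox at h
  simp only [Bool.and_eq_true, decide_eq_true_eq] at h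
  obtain ⟨⟨⟨h1, h2⟩, h3⟩, h4⟩ := h
  exact ⟨U5_mem (by omega) (by omega), U5_mem (by omega) (by omega)⟩

theorem U5_reach {N g g' : ℤ} {m t : ℕ} {p q : ℤ} (h : reachB N g g' m t p q = true) :
    Reach N g g' m (rankTab t) p q := by
  unfold reachB at h
  obtain ⟨d, hd, h1⟩ := List.any_eq_true.1 h
  simp only [Bool.and_eq_true, Bool.or_eq_true, decide_eq_true_eq, Bool.not_eq_true'] at h1
  exact ⟨d, hd, h1.1.1, h1.1.2, h1.2⟩

theorem U5_arm {n n' N g g' : ℤ} {m t : ℕ} (h : armCheck n N g g' m t = true)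
    (hn : (n' - n) % 2 = 0) : ArmOK n' N g g' m := by
  refine ⟨rankTab t, fun p q hb hpar hc => ?_⟩
  obtain ⟨hp, hq⟩ := U5_box hb
  unfold armCheck at h
  have h1 := List.all_eq_true.1 (List.all_eq_true.1 h p hp) q hq
  have h3 : (p + q + n + 1) % 2 = 0 := by omega
  rw [hb, hc] at h1
  simp only [h3, decide_true, Bool.and_self, Bool.not_true, Bool.false_or, Bool.and_eq_true,
    decide_eq_true_eq] at h1
  exact ⟨h1.1, U5_reach h1.2⟩

theorem pU5 : tU5 := by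
  intro D n n' N t0 t1 t2 t3 h hn
  unfold pinCheck at h
  rw [Bool.and_eq_true, Bool.and_eq_true, Bool.and_eq_true, Bool.and_eq_true, Bool.and_eq_true,
    Bool.and_eq_true, Bool.and_eq_true, Bool.and_eq_true] at h
  obtain ⟨⟨⟨⟨⟨⟨⟨⟨g0, g1⟩, g2⟩, g3⟩, hone⟩, a0⟩, a1⟩, a2⟩, a3⟩ := h
  simp only [Bool.or_eq_true, decide_eq_true_eq] at g0 g1 g2 g3
  refine ⟨g0, g1, g2, g3, ?_, U5_arm a0 hn, U5_arm a1 hn, U5_arm a2 hn, U5_arm a3 hn⟩
  intro p q hb hpar
  obtain ⟨hp, hq⟩ := U5_box hb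
  have h1 := List.all_eq_true.1 (List.all_eq_true.1 hone p hp) q hq
  have h3 : (p + q + n + 1) % 2 = 0 := by omega
  rw [hb] at h1
  simp only [h3, decide_true, Bool.and_self, Bool.not_true, Bool.false_or,
    decide_eq_true_eq] at h1
  exact h1

end RCN
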