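import Pool.Agent.RCN.Targets

/-!
Soundness of `lcCheck`.
-/

namespace RCN

theorem U6_mem {a : ℤ} {k : ℕ} {p : ℤ} (h1 : a ≤ p) (h2 : p < a + k) : p ∈ intRange a k := by
  unfold intRange
  rw [List.mem_map]
  refine ⟨((p - a).toNat : ℤ), ?_, by omega⟩
  simp only [List.pure_def, List.bind_eq_flatMap, List.mem_flatMap, List.mem_range,
    List.mem_singleton]
  exact ⟨(p - a).toNat, by omega, rfl⟩

theorem pU6 : tU6 := by
  intro n n' go go' gi gi' mo mi dp dq h hn p q hp1 hp2 hq1 hq2 hpar hin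
  unfold lcCheck at h
  have h1 := List.all_eq_true.1 h p (U6_mem hp1 (by norm_num; omega))
  have h2 := List.all_eq_true.1 h1 q (U6_mem hq1 (by norm_num; omega))
  rw [hin] at h2
  have h3 : (p + q + n + 1) % 2 = 0 := by omega
  simpa [h3] using h2

end RCN
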