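import Pool.Agent.RCN.PA1
import Pool.Agent.RCN.PA2
import Pool.Agent.RCN.PA3
import Pool.Agent.RCN.PA4
import Pool.Agent.RCN.PA5
import Pool.Agent.RCN.PA6
import Pool.Agent.RCN.PA7
import Pool.Agent.RCN.PFC
import Pool.Agent.RCN.PFD
import Pool.Agent.RCN.PFM
import Pool.Agent.RCN.PFX
import Pool.Agent.RCN.PH1
import Pool.Agent.RCN.PH10
import Pool.Agent.RCN.PH11
import Pool.Agent.RCN.PH12
import Pool.Agent.RCN.PH2
import Pool.Agent.RCN.PH3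
import Pool.Agent.RCN.PH4
import Pool.Agent.RCN.PH5
import Pool.Agent.RCN.PH6
import Pool.Agent.RCN.PH7
import Pool.Agent.RCN.PH8
import Pool.Agent.RCN.PH9
import Pool.Agent.RCN.PP0
import Pool.Agent.RCN.PP1
import Pool.Agent.RCN.PP10
import Pool.Agent.RCN.PP11
import Pool.Agent.RCN.PP2
import Pool.Agent.RCN.PP3
import Pool.Agent.RCN.PP4
import Pool.Agent.RCN.PP5
import Pool.Agent.RCN.PP6
import Pool.Agent.RCN.PP7
import Pool.Agent.RCN.PP8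
import Pool.Agent.RCN.PP9
import Pool.Agent.RCN.PSC
import Pool.Agent.RCN.PSC1
import Pool.Agent.RCN.PSC2
import Pool.Agent.RCN.PSC3
import Pool.Agent.RCN.PSD
import Pool.Agent.RCN.PSD1
import Pool.Agent.RCN.PSD2
import Pool.Agent.RCN.PSD3
import Pool.Agent.RCN.PSD4
import Pool.Agent.RCN.PSM
import Pool.Agent.RCN.PSM1
import Pool.Agent.RCN.PSM2
import Pool.Agent.RCN.PSM3
import Pool.Agent.RCN.PT1
import Pool.Agent.RCN.PT2
import Pool.Agent.RCN.PT3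
import Pool.Agent.RCN.PT4
import Pool.Agent.RCN.PU1
import Pool.Agent.RCN.PU2
import Pool.Agent.RCN.PU3
import Pool.Agent.RCN.PU4
import Pool.Agent.RCN.PU5
import Pool.Agent.RCN.PU6

/-! # All targets, unconditionally -/

namespace RCN

theorem kA1 : tA1 := pA1
theorem kA2 : tA2 := pA2
theorem kA3 : tA3 := pA3
theorem kA4 : tA4 := pA4
theorem kA5 : tA5 := pA5 kA2 kA3
theorem kA6 : tA6 := pA6 kA1
theorem kA7 : tA7 := pA7 kA4 kA5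
theorem kT1 : tT1 := pT1 kA5
theorem kU1 : tU1 := pU1 kA1
theorem kU2 : tU2 := pU2 kU1
theorem kU3 : tU3 := pU3 kU2 kA2
theorem kT2 : tT2 := pT2 kU3 kA4
theorem kT4 : tT4 := pT4 kU3 kA4
theorem kSC1 : tSC1 := pSC1
theorem kSC2 : tSC2 := pSC2
theorem kSC3 : tSC3 := pSC3
theorem kP1 : tP1 := pP1
theorem kP2 : tP2 := pP2 kP1
theorem kSC : tSC := pSC kSC1 kSC2 kSC3 kA4 kA5 kP2
theorem kFC : tFC := pFC kT1 kT2 kT4 kSC
theorem kT3 : tT3 := pT3 kU3 kA4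
theorem kSD1 : tSD1 := pSD1
theorem kSD2 : tSD2 := pSD2
theorem kSD3 : tSD3 := pSD3
theorem kSD4 : tSD4 := pSD4
theorem kSD : tSD := pSD kSD1 kSD2 kSD3 kSD4 kA4 kA5 kP2
theorem kFD : tFD := pFD kT1 kT2 kT3 kA4 kA5 kU3 kSD
theorem kSM1 : tSM1 := pSM1
theorem kSM2 : tSM2 := pSM2
theorem kSM3 : tSM3 := pSM3
theorem kSM : tSM := pSM kSM1 kSM2 kSM3 kA4 kA5 kP2
theorem kFM : tFM := pFM kT1 kT2 kT3 kSM
theorem kP3 : tP3 := pP3
theorem kP4 : tP4 := pP4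
theorem kP5 : tP5 := pP5 kP1 kP3 kP4
theorem kP6 : tP6 := pP6 kP1 kP3 kP4
theorem kP7 : tP7 := pP7 kP1 kP3 kP4
theorem kP8 : tP8 := pP8
theorem kP9 : tP9 := pP9
theorem kP0 : tP0 := pP0
theorem kP10 : tP10 := pP10 kP0 kP1 kP2
theorem kP11 : tP11 := pP11 kP2 kP5 kP6 kP7 kP8 kP9 kP10
theorem kFX : tFX := pFX kA2 kA6 kA7 kP11
theorem kH1 : tH1 := pH1
theorem kU4 : tU4 := pU4 kU2 kA2
theorem kH10 : tH10 := pH10 kU4 kA4 kP2
theorem kH11 : tH11 := pH11 kU4 kA4 kP2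
theorem kH12 : tH12 := pH12 kU4 kA4
theorem kH2 : tH2 := pH2 kA1
theorem kH3 : tH3 := pH3 kP0 kP1 kP2
theorem kH4 : tH4 := pH4 kP0 kP1 kP2
theorem kH5 : tH5 := pH5
theorem kH6 : tH6 := pH6 kU1
theorem kH7 : tH7 := pH7 kA2
theorem kH8 : tH8 := pH8 kA1 kH1 kH2
theorem kH9 : tH9 := pH9 kA7 kP11 kH3 kH4 kH7 kH8
theorem kU5 : tU5 := pU5
theorem kU6 : tU6 := pU6

end RCN
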