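import Mathlib

/-!
# Grid nets of cubes and rep-cubes: basic definitions

All cubes have integer side and all creases lie along grid lines.  Points of space are
stored with doubled coordinates, so that the centre of a unit square has integer coordinates.
-/

namespace RCN

/-- A cell (unit square) of the plane grid, named by its lower left corner. -/
abbrev Cell := ℤ × ℤ

/-- An integer vector of space. -/
abbrev Vec := ℤ × ℤ × ℤ

/-- Two cells share an edge. -/
def Adj (p q : Cell) : Prop :=
  (q.1 = p.1 + 1 ∧ q.2 = p.2) ∨ (q.1 = p.1 - 1 ∧ q.2 = p.2) ∨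
    (q.1 = p.1 ∧ q.2 = p.2 + 1) ∨ (q.1 = p.1 ∧ q.2 = p.2 - 1)

instance (p q : Cell) : Decidable (Adj p q) := by unfold Adj; infer_instance

/-- A polyomino: a nonempty finite set of cells, connected through shared edges. -/
def IsPolyomino (P : Finset Cell) : Prop :=
  P.Nonempty ∧ ∀ p ∈ P, ∀ q ∈ P, Relation.ReflTransGen (fun a b => Adj a b ∧ b ∈ P) p q

/-- Scalar product. -/
def dot (a b : Vec) : ℤ := a.1 * b.1 + a.2.1 * b.2.1 + a.2.2 * b.2.2

/-- Position in space of a folded cell: the centre of the folded unit square is `o / 2`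
and the plane directions right and up are sent to the unit vectors `u` and `v`. -/
structure Placement where
  o : Vec
  u : Vec
  v : Vec
  deriving DecidableEq

/-- `t / 2` is the midpoint of one of the `n` unit intervals of `[0, n]`. -/
def Mid (n t : ℤ) : Prop := Odd t ∧ 0 < t ∧ t < 2 * n

instance (n t : ℤ) : Decidable (Mid n t) := by unfold Mid; infer_instance

/-- `t / 2` is an end point of `[0, n]`. -/
def End (n t : ℤ) : Prop := t = 0 ∨ t = 2 * n

instance (n t : ℤ) : Decidable (End n t) := by unfold End; infer_instance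

/-- `o / 2` is the centre of one of the `6 n ^ 2` unit squares of the surface of
the cube `[0, n] ^ 3`. -/
def Surf (n : ℤ) (o : Vec) : Prop :=
  (End n o.1 ∧ Mid n o.2.1 ∧ Mid n o.2.2) ∨ (Mid n o.1 ∧ End n o.2.1 ∧ Mid n o.2.2) ∨
    (Mid n o.1 ∧ Mid n o.2.1 ∧ End n o.2.2)

instance (n : ℤ) (o : Vec) : Decidable (Surf n o) := by unfold Surf; infer_instance

/-- The folded unit square with data `s` is one of the unit squares of the surface of the
cube `[0, n] ^ 3`: its centre is such a centre, `u` and `v` are orthogonal unit vectors and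
both are parallel to the face that contains the centre. -/
def OnCube (n : ℤ) (s : Placement) : Prop :=
  dot s.u s.u = 1 ∧ dot s.v s.v = 1 ∧ dot s.u s.v = 0 ∧
    ((End n s.o.1 ∧ Mid n s.o.2.1 ∧ Mid n s.o.2.2 ∧ s.u.1 = 0 ∧ s.v.1 = 0) ∨
      (Mid n s.o.1 ∧ End n s.o.2.1 ∧ Mid n s.o.2.2 ∧ s.u.2.1 = 0 ∧ s.v.2.1 = 0) ∨
      (Mid n s.o.1 ∧ Mid n s.o.2.1 ∧ End n s.o.2.2 ∧ s.u.2.2 = 0 ∧ s.v.2.2 = 0))

instance (n : ℤ) (s : Placement) : Decidable (OnCube n s) := by unfold OnCube; infer_instance

/-- The placements `s` (of a cell) and `t` (of the cell to its right) agree on the common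
edge: same midpoint `(o + u) / 2 = (o' - u') / 2` and same direction of the edge. -/
def GlueR (s t : Placement) : Prop := s.o + s.u = t.o - t.u ∧ s.v = t.v

/-- The same for the cell above. -/
def GlueU (s t : Placement) : Prop := s.o + s.v = t.o - t.v ∧ s.u = t.u

instance (s t : Placement) : Decidable (GlueR s t) := by unfold GlueR; infer_instance
instance (s t : Placement) : Decidable (GlueU s t) := by unfold GlueU; infer_instance

/-- `f` folds the polyomino `P` onto the surface of the cube `[0, n] ^ 3`, cell by cell: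
every cell goes to a unit square of the surface, any two cells of `P` that share an edge stay
glued along it, and every unit square of the surface is covered by exactly one cell. -/
structure IsFolding (n : ℤ) (P : Finset Cell) (f : Cell → Placement) : Prop where
  on : ∀ p ∈ P, OnCube n (f p)
  right : ∀ x y : ℤ, (x, y) ∈ P → (x + 1, y) ∈ P → GlueR (f (x, y)) (f (x + 1, y))
  up : ∀ x y : ℤ, (x, y) ∈ P → (x, y + 1) ∈ P → GlueU (f (x, y)) (f (x, y + 1))
  once : ∀ o : Vec, Surf n o → ∃! p, p ∈ P ∧ (f p).o = o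

/-- `P` is a polyomino which is a net of the `n × n × n` cube (creases along grid lines). -/
def IsCubeNet (n : ℕ) (P : Finset Cell) : Prop :=
  IsPolyomino P ∧ ∃ f : Cell → Placement, IsFolding n P f

/-- There is a polyomino `P` which is a net of the `c`-cube and is divided into a polyomino `Q`
which is a net of the `b`-cube and `c ^ 2 - b ^ 2` polyominoes, each a net of the unit cube. -/
def Good (b c : ℕ) : Prop :=
  ∃ (P Q : Finset Cell) (T : Finset (Finset Cell)),
    IsCubeNet c P ∧ IsCubeNet b Q ∧ (∀ t ∈ T, IsCubeNet 1 t) ∧ T.card = c ^ 2 - b ^ 2 ∧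
      (∀ t ∈ T, Disjoint Q t) ∧ (∀ s ∈ T, ∀ t ∈ T, s ≠ t → Disjoint s t) ∧
      P = Q ∪ T.biUnion id

/-- `N` pairwise disjoint nets of the unit cube inside the set `S`. -/
def Pack (S : Set Cell) (N : ℕ) : Prop :=
  ∃ T : Finset (Finset Cell), T.card = N ∧ (∀ t ∈ T, IsCubeNet 1 t) ∧
    (∀ t ∈ T, (t : Set Cell) ⊆ S) ∧ (∀ s ∈ T, ∀ t ∈ T, s ≠ t → Disjoint s t)

end RCN
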