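import Pool.Agent.RCN.DPins

/-! # Certificate of type C, size 4 -/

namespace RCN

def lC4_0 : List (ℤ × ℤ × ℕ) := [
  (1, -3, 48), (4, -6, 48), (7, -7, 6), (8, -8, 6), (9, -9, 6)]

theorem eC4_0 : certOK (TRegB 6 1 1 1 1 zE4.m0 zE4.m0 6 2
    (3 * 6 - 1) 6) lC4_0 = true := by
  decide +kernel

theorem fC4_0 : lcCheck 6 1 1 1 1 zE4.m0 zE4.m0 6 2 = true := by
  decide +kernel

def lC4_1 : List (ℤ × ℤ × ℕ) := [
  (1, -3, 48), (4, -6, 48), (7, -9, 57), (7, -7, 40), (8, -6, 34)]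

theorem eC4_1 : certOK (TRegB 6 1 1 1 1 zE4.m1 zE4.m1 6 2
    (3 * 6 - 1) 6) lC4_1 = true := by
  decide +kernel

theorem fC4_1 : lcCheck 6 1 1 1 1 zE4.m1 zE4.m1 6 2 = true := by
  decide +kernel

def lC4_2 : List (ℤ × ℤ × ℕ) := [
  (1, -3, 48), (4, -6, 48), (7, -7, 6), (8, -8, 6), (9, -9, 6)]

theorem eC4_2 : certOK (TRegB 6 1 1 1 1 zE4.m2 zE4.m2 6 2
    (3 * 6 - 1) 6) lC4_2 = true := by
  decide +kernel

theorem fC4_2 : lcCheck 6 1 1 1 1 zE4.m2 zE4.m2 6 2 = true := by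
  decide +kernel

def lC4_3 : List (ℤ × ℤ × ℕ) := [
  (1, -3, 48), (4, -6, 48), (7, -9, 48), (8, -8, 48), (9, -7, 48)]

theorem eC4_3 : certOK (TRegB 6 1 1 1 1 zE4.m3 zE4.m3 6 2
    (3 * 6 - 1) 6) lC4_3 = true := by
  decide +kernel

theorem fC4_3 : lcCheck 6 1 1 1 1 zE4.m3 zE4.m3 6 2 = true := by
  decide +kernel

end RCN
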