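import Pool.Agent.RCN.DPins

/-! # Certificate of type C, size 9 -/

namespace RCN

def lC9_0 : List (ℤ × ℤ × ℕ) := [
  (1, -3, 48), (4, -6, 48), (7, -9, 48), (10, -12, 48), (13, -14, 36), (14, -16, 53),
  (15, -13, 39), (17, -15, 31), (18, -13, 5), (18, -11, 34)]

theorem eC9_0 : certOK (TRegB 11 1 1 1 1 zW9.m0 zW9.m0 6 2
    (3 * 11 - 1) 11) lC9_0 = true := by
  decide +kernel

theorem fC9_0 : lcCheck 11 1 1 1 1 zW9.m0 zW9.m0 6 2 = true := by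
  decide +kernel

def lC9_1 : List (ℤ × ℤ × ℕ) := [
  (1, -3, 48), (4, -6, 48), (7, -9, 48), (10, -12, 48), (15, -19, 56), (15, -17, 37),
  (16, -15, 35), (16, -13, 40), (17, -12, 40), (18, -11, 34)]

theorem eC9_1 : certOK (TRegB 11 1 1 1 1 zW9.m1 zW9.m1 6 2
    (3 * 11 - 1) 11) lC9_1 = true := by
  decide +kernel

theorem fC9_1 : lcCheck 11 1 1 1 1 zW9.m1 zW9.m1 6 2 = true := by
  decide +kernel

def lC9_2 : List (ℤ × ℤ × ℕ) := [
  (1, -3, 48), (4, -6, 48), (7, -9, 48), (10, -12, 48), (13, -15, 57), (13, -13, 35),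
  (16, -15, 53), (16, -13, 56), (18, -13, 48), (19, -12, 48)]

theorem eC9_2 : certOK (TRegB 11 1 1 1 1 zW9.m2 zW9.m2 6 2
    (3 * 11 - 1) 11) lC9_2 = true := by
  decide +kernel

theorem fC9_2 : lcCheck 11 1 1 1 1 zW9.m2 zW9.m2 6 2 = true := by
  decide +kernel

def lC9_3 : List (ℤ × ℤ × ℕ) := [
  (1, -3, 48), (4, -6, 48), (7, -9, 48), (10, -12, 48), (13, -15, 58), (13, -13, 21),
  (16, -14, 52), (17, -15, 17), (18, -13, 5), (18, -11, 34)]

theorem eC9_3 : certOK (TRegB 11 1 1 1 1 zW9.m3 zW9.m3 6 2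
    (3 * 11 - 1) 11) lC9_3 = true := by
  decide +kernel

theorem fC9_3 : lcCheck 11 1 1 1 1 zW9.m3 zW9.m3 6 2 = true := by
  decide +kernel

end RCN
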