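import Pool.Agent.RCN.DPins

/-! # Certificate of type D, size 11 -/

namespace RCN

def lD11_0 : List (ℤ × ℤ × ℕ) := [
  (1, -3, 48), (4, -6, 48), (7, -9, 48), (10, -12, 48), (13, -15, 48), (16, -17, 20),
  (18, -20, 57), (18, -18, 40), (18, -16, 34), (20, -16, 48), (21, -21, 6), (21, -18, 42)]

theorem eD11_0 : certOK (TRegB 14 1 1 1 0 zE4.m0 zDI11.m0 9 2
    (3 * 14 - 1) (14 + -5 - 1)) lD11_0 = true := by
  decide +kernel

theorem fD11_0 : lcCheck 14 1 1 1 0 zE4.m0 zDI11.m0 9 2 = true := by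
  decide +kernel

def lD11_1 : List (ℤ × ℤ × ℕ) := [
  (5, -7, 56), (8, -10, 56), (11, -13, 56), (14, -16, 56), (17, -17, 19), (18, -19, 42),
  (19, -21, 57), (19, -15, 14), (21, -19, 51), (21, -16, 37), (21, -14, 42), (21, -12, 16),
  (23, -19, 6), (24, -16, 35), (24, -14, 56)]

theorem eD11_1 : certOK (TRegB 14 1 1 0 1 zE4.m1 zDI11.m1 10 3
    (3 * 14 - (9 + 1)) 14) lD11_1 = true := by
  decide +kernel

theorem fD11_1 : lcCheck 14 1 1 0 1 zE4.m1 zDI11.m1 10 3 = true := by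
  decide +kernel

def lD11_2 : List (ℤ × ℤ × ℕ) := [
  (1, -3, 56), (1, -1, 34), (4, -6, 57), (4, -4, 56), (7, -9, 57), (7, -7, 34), (10, -12, 57),
  (10, -10, 34), (13, -15, 48), (14, -14, 48), (16, -18, 56), (16, -16, 33), (18, -16, 53),
  (18, -14, 40), (19, -21, 57), (19, -19, 57), (20, -16, 19), (21, -17, 19), (21, -13, 6),
  (22, -19, 17), (22, -14, 29), (24, -16, 57), (24, -14, 34)]

theorem eD11_2 : certOK (TRegB 14 1 1 1 0 zE4.m2 zDI11.m2 9 4
    (3 * 14 - 1) 14) lD11_2 = true := by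
  decide +kernel

theorem fD11_2 : lcCheck 14 1 1 1 0 zE4.m2 zDI11.m2 9 4 = true := by
  decide +kernel

def lD11_3 : List (ℤ × ℤ × ℕ) := [
  (1, -3, 48), (4, -6, 48), (7, -9, 48), (10, -12, 48), (13, -15, 48), (17, -17, 0),
  (18, -20, 57), (18, -18, 41), (20, -15, 17), (21, -21, 6), (21, -18, 11), (23, -18, 52),
  (23, -15, 5), (23, -13, 34), (25, -17, 6)]

theorem eD11_3 : certOK (TRegB 14 1 1 0 1 zE4.m3 zDI11.m3 8 3
    (3 * 14 - 1) 14) lD11_3 = true := by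
  decide +kernel

theorem fD11_3 : lcCheck 14 1 1 0 1 zE4.m3 zDI11.m3 8 3 = true := by
  decide +kernel

def lD11_4 : List (ℤ × ℤ × ℕ) := [
  (21, -13, 6), (22, -14, 6), (23, -15, 6), (24, -17, 31), (24, -15, 16)]

theorem eD11_4 : certOK (regTB (-5) 9 14) lD11_4 = true := by
  decide +kernel

def lD11_6 : List (ℤ × ℤ × ℕ) := [
  (-4, -3, 17), (-1, -1, 34), (2, -4, 56)]

theorem eD11_6 : certOK (regVB 6 9) lD11_6 = true := by
  decide +kernel

end RCN
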