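import Pool.Agent.RCN.DPins

/-! # Certificate of type D, size 13 -/

namespace RCN

def lD13_0 : List (ℤ × ℤ × ℕ) := [
  (1, -3, 48), (4, -6, 48), (7, -9, 48), (10, -12, 48), (13, -15, 48), (16, -18, 48),
  (20, -22, 56), (22, -21, 20), (22, -19, 49), (23, -24, 27), (24, -20, 48), (25, -23, 6)]

theorem eD13_0 : certOK (TRegB 16 1 1 1 0 zE4.m0 zDI13.m0 9 2
    (3 * 16 - 1) (16 + -7 - 1)) lD13_0 = true := by
  decide +kernel

theorem fD13_0 : lcCheck 16 1 1 1 0 zE4.m0 zDI13.m0 9 2 = true := by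
  decide +kernel

def lD13_1 : List (ℤ × ℤ × ℕ) := [
  (4, -6, 56), (7, -9, 56), (10, -12, 56), (13, -15, 56), (16, -18, 56), (19, -21, 57),
  (19, -19, 48), (22, -24, 48), (22, -20, 38), (22, -18, 14), (23, -23, 48), (24, -16, 6),
  (25, -22, 31), (25, -20, 17), (25, -18, 17), (25, -16, 16), (27, -15, 48), (28, -19, 17),
  (28, -17, 16)]

theorem eD13_1 : certOK (TRegB 16 1 1 0 1 zE4.m1 zDI13.m1 10 3
    (3 * 16 - (7 + 1)) 16) lD13_1 = true := by
  decide +kernel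

theorem fD13_1 : lcCheck 16 1 1 0 1 zE4.m1 zDI13.m1 10 3 = true := by
  decide +kernel

def lD13_2 : List (ℤ × ℤ × ℕ) := [
  (1, -3, 57), (1, -1, 34), (4, -6, 48), (5, -5, 48), (7, -9, 48), (8, -8, 48), (10, -12, 48),
  (11, -11, 48), (13, -15, 57), (13, -13, 34), (16, -18, 48), (17, -17, 48), (19, -19, 2),
  (20, -22, 48), (21, -21, 55), (22, -17, 39), (23, -24, 31), (23, -22, 17), (23, -20, 20),
  (24, -18, 15), (25, -14, 16), (26, -21, 17), (26, -19, 30), (26, -17, 13), (28, -18, 48),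
  (29, -17, 48)]

theorem eD13_2 : certOK (TRegB 16 1 1 1 0 zE4.m2 zDI13.m2 9 4
    (3 * 16 - 1) 16) lD13_2 = true := by
  decide +kernel

theorem fD13_2 : lcCheck 16 1 1 1 0 zE4.m2 zDI13.m2 9 4 = true := by
  decide +kernel

def lD13_3 : List (ℤ × ℤ × ℕ) := [
  (1, -3, 48), (4, -6, 48), (7, -9, 48), (10, -12, 48), (13, -15, 48), (16, -18, 48),
  (19, -20, 25), (21, -23, 57), (21, -21, 40), (21, -20, 58), (23, -19, 40), (24, -24, 6),
  (24, -17, 17), (25, -21, 41), (26, -18, 6), (27, -18, 17), (27, -15, 34), (29, -19, 6)]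

theorem eD13_3 : certOK (TRegB 16 1 1 0 1 zE4.m3 zDI13.m3 8 3
    (3 * 16 - 1) 16) lD13_3 = true := by
  decide +kernel

theorem fD13_3 : lcCheck 16 1 1 0 1 zE4.m3 zDI13.m3 8 3 = true := by
  decide +kernel

def lD13_4 : List (ℤ × ℤ × ℕ) := [
  (24, -17, 31), (24, -15, 16), (26, -20, 48), (26, -14, 48), (27, -17, 6), (28, -18, 6),
  (29, -19, 6)]

theorem eD13_4 : certOK (regTB (-7) 11 16) lD13_4 = true := by
  decide +kernel

def lD13_6 : List (ℤ × ℤ × ℕ) := [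
  (-5, -4, 17), (-2, -1, 16), (1, -3, 56)]

theorem eD13_6 : certOK (regVB 8 7) lD13_6 = true := by
  decide +kernel

end RCN
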