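import Pool.Agent.RCN.DPins

/-! # Certificate of type D, size 14 -/

namespace RCN

def lD14_0 : List (ℤ × ℤ × ℕ) := [
  (1, -3, 48), (4, -6, 48), (7, -9, 48), (10, -12, 48), (13, -15, 48), (16, -18, 48),
  (19, -21, 48), (21, -22, 61), (23, -25, 53), (23, -22, 5), (24, -23, 32), (24, -20, 31),
  (24, -18, 16), (26, -24, 31), (26, -21, 34), (28, -21, 48)]

theorem eD14_0 : certOK (TRegB 17 1 1 1 0 zW9.m0 zDI14.m0 9 2
    (3 * 17 - 1) (17 + -5 - 1)) lD14_0 = true := by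
  decide +kernel

theorem fD14_0 : lcCheck 17 1 1 1 0 zW9.m0 zDI14.m0 9 2 = true := by
  decide +kernel

def lD14_1 : List (ℤ × ℤ × ℕ) := [
  (5, -7, 56), (8, -10, 56), (11, -13, 56), (14, -16, 56), (17, -19, 57), (20, -21, 30),
  (22, -24, 56), (22, -22, 37), (24, -28, 56), (24, -26, 37), (24, -21, 46), (25, -24, 33),
  (25, -18, 6), (26, -19, 6), (27, -22, 6), (27, -20, 6), (28, -23, 6), (28, -17, 57),
  (28, -15, 34), (30, -19, 6), (31, -20, 6)]

theorem eD14_1 : certOK (TRegB 17 1 1 0 1 zW9.m1 zDI14.m1 10 3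
    (3 * 17 - (9 + 1)) 17) lD14_1 = true := by
  decide +kernel

theorem fD14_1 : lcCheck 17 1 1 0 1 zW9.m1 zDI14.m1 10 3 = true := by
  decide +kernel

def lD14_2 : List (ℤ × ℤ × ℕ) := [
  (1, -3, 48), (2, -2, 48), (4, -6, 48), (5, -5, 48), (7, -9, 48), (8, -8, 48), (10, -12, 48),
  (11, -11, 48), (13, -15, 48), (14, -14, 48), (16, -18, 57), (16, -16, 34), (19, -21, 57),
  (19, -19, 35), (22, -24, 48), (23, -21, 7), (24, -24, 57), (24, -22, 41), (24, -19, 6),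
  (26, -19, 5), (27, -23, 31), (27, -21, 53), (27, -17, 31), (27, -15, 16), (29, -20, 35),
  (29, -18, 34), (31, -18, 48)]

theorem eD14_2 : certOK (TRegB 17 1 1 1 0 zW9.m2 zDI14.m2 9 4
    (3 * 17 - 1) 17) lD14_2 = true := by
  decide +kernel

theorem fD14_2 : lcCheck 17 1 1 1 0 zW9.m2 zDI14.m2 9 4 = true := by
  decide +kernel

def lD14_3 : List (ℤ × ℤ × ℕ) := [
  (1, -3, 48), (4, -6, 48), (7, -9, 48), (10, -12, 48), (13, -15, 48), (16, -18, 48),
  (19, -21, 48), (22, -24, 58), (22, -22, 22), (25, -24, 49), (25, -20, 6), (26, -22, 52),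
  (27, -23, 17), (28, -21, 2), (28, -18, 8), (28, -16, 16), (30, -19, 6), (31, -20, 6)]

theorem eD14_3 : certOK (TRegB 17 1 1 0 1 zW9.m3 zDI14.m3 8 3
    (3 * 17 - 1) 17) lD14_3 = true := by
  decide +kernel

theorem fD14_3 : lcCheck 17 1 1 0 1 zW9.m3 zDI14.m3 8 3 = true := by
  decide +kernel

def lD14_4 : List (ℤ × ℤ × ℕ) := [
  (27, -16, 6), (28, -19, 57), (28, -17, 40), (29, -16, 34), (31, -20, 6)]

theorem eD14_4 : certOK (regTB (-5) 9 17) lD14_4 = true := by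
  decide +kernel

def lD14_6 : List (ℤ × ℤ × ℕ) := [
  (-4, -3, 17), (-1, -1, 34), (2, -4, 56)]

theorem eD14_6 : certOK (regVB 6 9) lD14_6 = true := by
  decide +kernel

end RCN
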