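import Pool.Agent.RCN.DPins

/-! # Certificate of type D, size 16 -/

namespace RCN

def lD16_0 : List (ℤ × ℤ × ℕ) := [
  (1, -3, 48), (4, -6, 48), (7, -9, 48), (10, -12, 48), (13, -15, 48), (16, -18, 48),
  (19, -21, 48), (22, -24, 48), (25, -25, 8), (26, -28, 53), (26, -26, 38), (26, -23, 6),
  (28, -23, 34), (29, -27, 31), (29, -25, 20)]

theorem eD16_0 : certOK (TRegB 19 1 1 1 0 zW9.m0 zDI16.m0 9 2
    (3 * 19 - 1) (19 + -9 - 1)) lD16_0 = true := by
  decide +kernel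

theorem fD16_0 : lcCheck 19 1 1 1 0 zW9.m0 zDI16.m0 9 2 = true := by
  decide +kernel

def lD16_1 : List (ℤ × ℤ × ℕ) := [
  (5, -7, 56), (8, -10, 56), (11, -13, 56), (14, -16, 56), (17, -19, 56), (20, -22, 56),
  (23, -24, 29), (25, -27, 57), (25, -25, 22), (26, -23, 19), (27, -31, 56), (27, -29, 34),
  (27, -22, 6), (28, -27, 54), (29, -24, 9), (29, -22, 33), (30, -27, 3), (30, -19, 29),
  (31, -20, 18), (32, -24, 17), (32, -22, 28), (32, -18, 12), (34, -21, 35), (34, -19, 56)]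

theorem eD16_1 : certOK (TRegB 19 1 1 0 1 zW9.m1 zDI16.m1 10 3
    (3 * 19 - (9 + 1)) 19) lD16_1 = true := by
  decide +kernel

theorem fD16_1 : lcCheck 19 1 1 0 1 zW9.m1 zDI16.m1 10 3 = true := by
  decide +kernel

def lD16_2 : List (ℤ × ℤ × ℕ) := [
  (1, -3, 48), (2, -2, 48), (4, -6, 56), (4, -4, 34), (7, -9, 56), (7, -7, 56), (10, -12, 57),
  (10, -10, 56), (13, -15, 48), (14, -14, 48), (16, -18, 48), (17, -17, 48), (19, -21, 57),
  (19, -19, 34), (22, -24, 57), (22, -22, 35), (25, -27, 48), (25, -24, 54), (27, -27, 57),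
  (27, -25, 38), (27, -23, 12), (29, -23, 27), (29, -20, 5), (30, -26, 31), (31, -24, 6),
  (31, -22, 6), (31, -19, 42), (31, -17, 16), (33, -23, 17), (34, -21, 5), (34, -19, 56)]

theorem eD16_2 : certOK (TRegB 19 1 1 1 0 zW9.m2 zDI16.m2 9 4
    (3 * 19 - 1) 19) lD16_2 = true := by
  decide +kernel

theorem fD16_2 : lcCheck 19 1 1 1 0 zW9.m2 zDI16.m2 9 4 = true := by
  decide +kernel

def lD16_3 : List (ℤ × ℤ × ℕ) := [
  (1, -3, 48), (4, -6, 48), (7, -9, 48), (10, -12, 48), (13, -15, 48), (16, -18, 48),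
  (19, -21, 48), (22, -24, 48), (26, -27, 41), (26, -25, 6), (27, -25, 17), (29, -27, 17),
  (29, -23, 21), (30, -25, 9), (30, -22, 37), (30, -20, 17), (33, -23, 52), (33, -20, 5),
  (33, -18, 34), (35, -22, 6)]

theorem eD16_3 : certOK (TRegB 19 1 1 0 1 zW9.m3 zDI16.m3 8 3
    (3 * 19 - 1) 19) lD16_3 = true := by
  decide +kernel

theorem fD16_3 : lcCheck 19 1 1 0 1 zW9.m3 zDI16.m3 8 3 = true := by
  decide +kernel

def lD16_4 : List (ℤ × ℤ × ℕ) := [
  (29, -22, 56), (29, -19, 17), (31, -20, 6), (31, -16, 46), (32, -24, 31), (32, -22, 20),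
  (33, -21, 23), (33, -18, 56), (34, -20, 23)]

theorem eD16_4 : certOK (regTB (-9) 13 19) lD16_4 = true := by
  decide +kernel

def lD16_6 : List (ℤ × ℤ × ℕ) := [
  (-4, -3, 17), (-1, -1, 34), (2, -4, 56)]

theorem eD16_6 : certOK (regVB 6 9) lD16_6 = true := by
  decide +kernel

end RCN
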