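import Pool.Agent.RCN.DPins

/-! # Certificate of type D, size 18 -/

namespace RCN

def lD18_0 : List (ℤ × ℤ × ℕ) := [
  (1, -3, 48), (4, -6, 48), (7, -9, 48), (10, -12, 48), (13, -15, 48), (16, -18, 48),
  (19, -21, 48), (22, -24, 48), (25, -27, 48), (27, -28, 61), (29, -31, 44), (29, -26, 41),
  (30, -30, 44), (30, -24, 17), (31, -29, 52), (32, -30, 11), (33, -27, 44), (34, -28, 17),
  (34, -26, 46)]

theorem eD18_0 : certOK (TRegB 21 1 1 1 0 zW9.m0 zDI18.m0 9 2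
    (3 * 21 - 1) (21 + -8 - 1)) lD18_0 = true := by
  decide +kernel

theorem fD18_0 : lcCheck 21 1 1 1 0 zW9.m0 zDI18.m0 9 2 = true := by
  decide +kernel

def lD18_1 : List (ℤ × ℤ × ℕ) := [
  (6, -8, 48), (9, -11, 48), (12, -14, 48), (15, -17, 48), (18, -20, 48), (21, -23, 48),
  (24, -26, 48), (27, -28, 29), (29, -31, 44), (30, -34, 56), (30, -30, 44), (30, -27, 54),
  (30, -24, 16), (31, -32, 24), (32, -30, 44), (33, -29, 50), (33, -26, 1), (33, -22, 6),
  (34, -26, 25), (35, -27, 17), (35, -24, 45), (36, -23, 45), (36, -21, 48), (37, -20, 48),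
  (38, -24, 17), (38, -22, 16)]

theorem eD18_1 : certOK (TRegB 21 1 1 0 1 zW9.m1 zDI18.m1 10 3
    (3 * 21 - (10 + 1)) 21) lD18_1 = true := by
  decide +kernel

theorem fD18_1 : lcCheck 21 1 1 0 1 zW9.m1 zDI18.m1 10 3 = true := by
  decide +kernel

def lD18_2 : List (ℤ × ℤ × ℕ) := [
  (1, -3, 48), (2, -2, 48), (4, -6, 57), (4, -4, 34), (7, -9, 57), (7, -7, 34), (10, -12, 56),
  (10, -10, 34), (13, -15, 56), (13, -13, 56), (16, -18, 57), (16, -16, 56), (19, -21, 57),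
  (19, -19, 34), (22, -24, 48), (23, -23, 48), (25, -27, 56), (25, -25, 34), (28, -30, 57),
  (28, -28, 56), (30, -26, 13), (31, -30, 61), (32, -26, 18), (32, -25, 8), (32, -23, 29),
  (33, -29, 17), (33, -27, 18), (34, -22, 17), (35, -20, 6), (36, -26, 52), (36, -23, 5),
  (37, -21, 49), (38, -25, 6), (39, -22, 48)]

theorem eD18_2 : certOK (TRegB 21 1 1 1 0 zW9.m2 zDI18.m2 9 4
    (3 * 21 - 1) 21) lD18_2 = true := by
  decide +kernel

theorem fD18_2 : lcCheck 21 1 1 1 0 zW9.m2 zDI18.m2 9 4 = true := by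
  decide +kernel

def lD18_3 : List (ℤ × ℤ × ℕ) := [
  (1, -3, 48), (4, -6, 48), (7, -9, 48), (10, -12, 48), (13, -15, 48), (16, -18, 48),
  (19, -21, 48), (22, -24, 48), (25, -27, 48), (27, -28, 61), (29, -30, 40), (29, -29, 23),
  (31, -27, 8), (31, -25, 17), (32, -28, 31), (33, -29, 17), (34, -26, 55), (34, -22, 17),
  (36, -26, 44), (37, -25, 52), (37, -22, 5), (37, -20, 34), (39, -24, 6)]

theorem eD18_3 : certOK (TRegB 21 1 1 0 1 zW9.m3 zDI18.m3 8 3
    (3 * 21 - 1) 21) lD18_3 = true := by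
  decide +kernel

theorem fD18_3 : lcCheck 21 1 1 0 1 zW9.m3 zDI18.m3 8 3 = true := by
  decide +kernel

def lD18_4 : List (ℤ × ℤ × ℕ) := [
  (33, -22, 29), (35, -25, 55), (35, -22, 6), (35, -19, 61), (37, -25, 52), (37, -22, 5),
  (37, -20, 56), (39, -24, 6)]

theorem eD18_4 : certOK (regTB (-8) 12 21) lD18_4 = true := by
  decide +kernel

def lD18_6 : List (ℤ × ℤ × ℕ) := [
  (-6, -6, 6), (-3, -3, 6), (0, -2, 48), (3, -5, 48)]

theorem eD18_6 : certOK (regVB 11 10) lD18_6 = true := by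
  decide +kernel

end RCN
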