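import Pool.Agent.RCN.DPins

/-! # Certificate of type D, size 9 -/

namespace RCN

def lD9_0 : List (ℤ × ℤ × ℕ) := [
  (1, -3, 48), (4, -6, 48), (7, -9, 48), (10, -12, 48), (15, -16, 31), (15, -13, 34),
  (17, -17, 6), (18, -18, 6)]

theorem eD9_0 : certOK (TRegB 12 1 1 1 0 zE4.m0 zDI9.m0 9 2
    (3 * 12 - 1) (12 + -5 - 1)) lD9_0 = true := by
  decide +kernel

theorem fD9_0 : lcCheck 12 1 1 1 0 zE4.m0 zDI9.m0 9 2 = true := by
  decide +kernel

def lD9_1 : List (ℤ × ℤ × ℕ) := [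
  (4, -6, 56), (7, -9, 56), (10, -12, 56), (13, -14, 24), (14, -12, 56), (15, -15, 19),
  (15, -14, 20), (16, -16, 19), (17, -18, 31), (17, -12, 31), (17, -10, 16), (19, -14, 31),
  (19, -12, 16), (21, -15, 6)]

theorem eD9_1 : certOK (TRegB 12 1 1 0 1 zE4.m1 zDI9.m1 10 3
    (3 * 12 - (7 + 1)) 12) lD9_1 = true := by
  decide +kernel

theorem fD9_1 : lcCheck 12 1 1 0 1 zE4.m1 zDI9.m1 10 3 = true := by
  decide +kernel

def lD9_2 : List (ℤ × ℤ × ℕ) := [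
  (1, -3, 57), (1, -1, 34), (4, -6, 56), (4, -4, 34), (7, -9, 57), (7, -7, 56), (10, -12, 48),
  (11, -11, 48), (13, -15, 57), (13, -13, 40), (14, -12, 37), (16, -18, 57), (16, -16, 35),
  (17, -14, 59), (17, -11, 34), (19, -16, 13), (19, -13, 9), (19, -11, 48), (21, -15, 6)]

theorem eD9_2 : certOK (TRegB 12 1 1 1 0 zE4.m2 zDI9.m2 9 4
    (3 * 12 - 1) 12) lD9_2 = true := by
  decide +kernel

theorem fD9_2 : lcCheck 12 1 1 1 0 zE4.m2 zDI9.m2 9 4 = true := by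
  decide +kernel

def lD9_3 : List (ℤ × ℤ × ℕ) := [
  (1, -3, 48), (4, -6, 48), (7, -9, 48), (10, -12, 48), (13, -14, 31), (15, -15, 6),
  (16, -18, 48), (17, -17, 48), (18, -16, 57), (18, -14, 40), (18, -12, 6), (19, -13, 40),
  (20, -12, 34)]

theorem eD9_3 : certOK (TRegB 12 1 1 0 1 zE4.m3 zDI9.m3 8 3
    (3 * 12 - 1) 12) lD9_3 = true := by
  decide +kernel

theorem fD9_3 : lcCheck 12 1 1 0 1 zE4.m3 zDI9.m3 8 3 = true := by
  decide +kernel

def lD9_4 : List (ℤ × ℤ × ℕ) := [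
  (17, -13, 48), (18, -12, 57), (18, -10, 34), (20, -15, 31), (20, -13, 16)]

theorem eD9_4 : certOK (regTB (-5) 9 12) lD9_4 = true := by
  decide +kernel

def lD9_6 : List (ℤ × ℤ × ℕ) := [
  (-5, -4, 17), (-2, -1, 16), (1, -3, 56)]

theorem eD9_6 : certOK (regVB 8 7) lD9_6 = true := by
  decide +kernel

end RCN
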