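import Pool.Agent.RCN.DPins

/-! # Certificate of type M, size 10 -/

namespace RCN

def lM10_0 : List (ℤ × ℤ × ℕ) := [
  (16, -17, 55), (18, -14, 6)]

theorem eM10_0 : certOK (TRegB 11 1 0 1 1 zMO10.m0 zMI10.m0 3 0
    (3 * 11 - 1) (11 - 1)) lM10_0 = true := by
  decide +kernel

theorem fM10_0 : lcCheck 11 1 0 1 1 zMO10.m0 zMI10.m0 3 0 = true := by
  decide +kernel

def lM10_1 : List (ℤ × ℤ × ℕ) := [
  (0, -3, 48), (3, -6, 48), (6, -9, 48), (9, -12, 48), (12, -15, 48), (16, -16, 51),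
  (18, -14, 31), (18, -12, 16)]

theorem eM10_1 : certOK (TRegB 11 0 1 1 1 zMO10.m1 zMI10.m1 4 1
    (3 * 11) 11) lM10_1 = true := by
  decide +kernel

theorem fM10_1 : lcCheck 11 0 1 1 1 zMO10.m1 zMI10.m1 4 1 = true := by
  decide +kernel

def lM10_2 : List (ℤ × ℤ × ℕ) := [
  (1, -3, 48), (4, -6, 48), (7, -9, 48), (10, -12, 48), (13, -15, 46), (15, -15, 17),
  (18, -14, 17), (18, -12, 16)]

theorem eM10_2 : certOK (TRegB 11 1 1 1 0 zMO10.m2 zMI10.m2 3 2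
    (3 * 11 - 1) 11) lM10_2 = true := by
  decide +kernel

theorem fM10_2 : lcCheck 11 1 1 1 0 zMO10.m2 zMI10.m2 3 2 = true := by
  decide +kernel

def lM10_3 : List (ℤ × ℤ × ℕ) := [
  (14, -18, 48), (16, -17, 29), (19, -14, 6)]

theorem eM10_3 : certOK (TRegB 11 1 1 0 1 zMO10.m3 zMI10.m3 2 1
    (3 * 11 - 1) 11) lM10_3 = true := by
  decide +kernel

theorem fM10_3 : lcCheck 11 1 1 0 1 zMO10.m3 zMI10.m3 2 1 = true := by
  decide +kernel

end RCN
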