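import Pool.Agent.RCN.DPins

/-! # Certificate of type M, size 4 -/

namespace RCN

def lM4_0 : List (ℤ × ℤ × ℕ) := [
  (7, -8, 55)]

theorem eM4_0 : certOK (TRegB 5 1 0 1 1 zMO4.m0 zMI4.m0 3 0
    (3 * 5 - 1) (5 - 1)) lM4_0 = true := by
  decide +kernel

theorem fM4_0 : lcCheck 5 1 0 1 1 zMO4.m0 zMI4.m0 3 0 = true := by
  decide +kernel

def lM4_1 : List (ℤ × ℤ × ℕ) := [
  (0, -3, 48), (3, -6, 48), (7, -7, 51)]

theorem eM4_1 : certOK (TRegB 5 0 1 1 1 zMO4.m1 zMI4.m1 4 1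
    (3 * 5) 5) lM4_1 = true := by
  decide +kernel

theorem fM4_1 : lcCheck 5 0 1 1 1 zMO4.m1 zMI4.m1 4 1 = true := by
  decide +kernel

def lM4_2 : List (ℤ × ℤ × ℕ) := [
  (1, -3, 48), (4, -6, 45), (6, -6, 30)]

theorem eM4_2 : certOK (TRegB 5 1 1 1 0 zMO4.m2 zMI4.m2 3 2
    (3 * 5 - 1) 5) lM4_2 = true := by
  decide +kernel

theorem fM4_2 : lcCheck 5 1 1 1 0 zMO4.m2 zMI4.m2 3 2 = true := by
  decide +kernel

def lM4_3 : List (ℤ × ℤ × ℕ) := [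
  (5, -9, 48), (7, -8, 29)]

theorem eM4_3 : certOK (TRegB 5 1 1 0 1 zMO4.m3 zMI4.m3 2 1
    (3 * 5 - 1) 5) lM4_3 = true := by
  decide +kernel

theorem fM4_3 : lcCheck 5 1 1 0 1 zMO4.m3 zMI4.m3 2 1 = true := by
  decide +kernel

end RCN
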