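import Pool.Agent.RCN.DPins

/-! # Certificate of type M, size 5 -/

namespace RCN

def lM5_0 : List (ℤ × ℤ × ℕ) := [
  (7, -8, 41)]

theorem eM5_0 : certOK (TRegB 6 1 0 1 1 zMO5.m0 zMI5.m0 3 0
    (3 * 6 - 1) (6 - 1)) lM5_0 = true := by
  decide +kernel

theorem fM5_0 : lcCheck 6 1 0 1 1 zMO5.m0 zMI5.m0 3 0 = true := by
  decide +kernel

def lM5_1 : List (ℤ × ℤ × ℕ) := [
  (0, -3, 48), (3, -6, 48), (7, -10, 47), (8, -7, 16), (9, -10, 4)]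

theorem eM5_1 : certOK (TRegB 6 0 1 1 1 zMO5.m1 zMI5.m1 4 1
    (3 * 6) 6) lM5_1 = true := by
  decide +kernel

theorem fM5_1 : lcCheck 6 0 1 1 1 zMO5.m1 zMI5.m1 4 1 = true := by
  decide +kernel

def lM5_2 : List (ℤ × ℤ × ℕ) := [
  (1, -3, 48), (4, -6, 48), (7, -8, 22), (8, -7, 42)]

theorem eM5_2 : certOK (TRegB 6 1 1 1 0 zMO5.m2 zMI5.m2 3 2
    (3 * 6 - 1) 6) lM5_2 = true := by
  decide +kernel

theorem fM5_2 : lcCheck 6 1 1 1 0 zMO5.m2 zMI5.m2 3 2 = true := by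
  decide +kernel

def lM5_3 : List (ℤ × ℤ × ℕ) := [
  (9, -9, 29)]

theorem eM5_3 : certOK (TRegB 6 1 1 0 1 zMO5.m3 zMI5.m3 2 1
    (3 * 6 - 1) 6) lM5_3 = true := by
  decide +kernel

theorem fM5_3 : lcCheck 6 1 1 0 1 zMO5.m3 zMI5.m3 2 1 = true := by
  decide +kernel

end RCN
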