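import Pool.Agent.RCN.DPins

/-! # Certificate of type M, size 6 -/

namespace RCN

def lM6_0 : List (ℤ × ℤ × ℕ) := [
  (10, -10, 6)]

theorem eM6_0 : certOK (TRegB 7 1 0 1 1 zMO6.m0 zMI6.m0 3 0
    (3 * 7 - 1) (7 - 1)) lM6_0 = true := by
  decide +kernel

theorem fM6_0 : lcCheck 7 1 0 1 1 zMO6.m0 zMI6.m0 3 0 = true := by
  decide +kernel

def lM6_1 : List (ℤ × ℤ × ℕ) := [
  (0, -3, 48), (3, -6, 48), (6, -9, 48), (9, -12, 46), (10, -9, 6), (11, -10, 6)]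

theorem eM6_1 : certOK (TRegB 7 0 1 1 1 zMO6.m1 zMI6.m1 4 1
    (3 * 7) 7) lM6_1 = true := by
  decide +kernel

theorem fM6_1 : lcCheck 7 0 1 1 1 zMO6.m1 zMI6.m1 4 1 = true := by
  decide +kernel

def lM6_2 : List (ℤ × ℤ × ℕ) := [
  (1, -3, 48), (4, -6, 48), (7, -9, 48), (10, -9, 15), (11, -10, 15)]

theorem eM6_2 : certOK (TRegB 7 1 1 1 0 zMO6.m2 zMI6.m2 3 2
    (3 * 7 - 1) 7) lM6_2 = true := by
  decide +kernel

theorem fM6_2 : lcCheck 7 1 1 1 0 zMO6.m2 zMI6.m2 3 2 = true := by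
  decide +kernel

def lM6_3 : List (ℤ × ℤ × ℕ) := [
  (11, -10, 6)]

theorem eM6_3 : certOK (TRegB 7 1 1 0 1 zMO6.m3 zMI6.m3 2 1
    (3 * 7 - 1) 7) lM6_3 = true := by
  decide +kernel

theorem fM6_3 : lcCheck 7 1 1 0 1 zMO6.m3 zMI6.m3 2 1 = true := by
  decide +kernel

end RCN
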