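import Pool.Agent.RCN.DPins

/-! # Certificate of type M, size 7 -/

namespace RCN

def lM7_0 : List (ℤ × ℤ × ℕ) := [
  (10, -13, 61), (12, -11, 29)]

theorem eM7_0 : certOK (TRegB 8 1 0 1 1 zMO7.m0 zMI7.m0 3 0
    (3 * 8 - 1) (8 - 1)) lM7_0 = true := by
  decide +kernel

theorem fM7_0 : lcCheck 8 1 0 1 1 zMO7.m0 zMI7.m0 3 0 = true := by
  decide +kernel

def lM7_1 : List (ℤ × ℤ × ℕ) := [
  (0, -3, 48), (3, -6, 48), (6, -9, 48), (9, -11, 37), (12, -10, 6), (13, -11, 6)]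

theorem eM7_1 : certOK (TRegB 8 0 1 1 1 zMO7.m1 zMI7.m1 4 1
    (3 * 8) 8) lM7_1 = true := by
  decide +kernel

theorem fM7_1 : lcCheck 8 0 1 1 1 zMO7.m1 zMI7.m1 4 1 = true := by
  decide +kernel

def lM7_2 : List (ℤ × ℤ × ℕ) := [
  (1, -3, 48), (4, -6, 48), (7, -9, 48), (10, -13, 61), (12, -10, 6), (13, -11, 6)]

theorem eM7_2 : certOK (TRegB 8 1 1 1 0 zMO7.m2 zMI7.m2 3 2
    (3 * 8 - 1) 8) lM7_2 = true := by
  decide +kernel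

theorem fM7_2 : lcCheck 8 1 1 1 0 zMO7.m2 zMI7.m2 3 2 = true := by
  decide +kernel

def lM7_3 : List (ℤ × ℤ × ℕ) := [
  (13, -11, 6)]

theorem eM7_3 : certOK (TRegB 8 1 1 0 1 zMO7.m3 zMI7.m3 2 1
    (3 * 8 - 1) 8) lM7_3 = true := by
  decide +kernel

theorem fM7_3 : lcCheck 8 1 1 0 1 zMO7.m3 zMI7.m3 2 1 = true := by
  decide +kernel

end RCN
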