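import Pool.Agent.RCN.DPins

/-! # Certificate of type M, size 8 -/

namespace RCN

def lM8_0 : List (ℤ × ℤ × ℕ) := [
  (14, -12, 6)]

theorem eM8_0 : certOK (TRegB 9 1 0 1 1 zMO8.m0 zMI8.m0 3 0
    (3 * 9 - 1) (9 - 1)) lM8_0 = true := by
  decide +kernel

theorem fM8_0 : lcCheck 9 1 0 1 1 zMO8.m0 zMI8.m0 3 0 = true := by
  decide +kernel

def lM8_1 : List (ℤ × ℤ × ℕ) := [
  (0, -3, 48), (3, -6, 48), (6, -9, 48), (9, -11, 23), (10, -13, 57), (14, -12, 8), (14, -10, 16)]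

theorem eM8_1 : certOK (TRegB 9 0 1 1 1 zMO8.m1 zMI8.m1 4 1
    (3 * 9) 9) lM8_1 = true := by
  decide +kernel

theorem fM8_1 : lcCheck 9 0 1 1 1 zMO8.m1 zMI8.m1 4 1 = true := by
  decide +kernel

def lM8_2 : List (ℤ × ℤ × ℕ) := [
  (1, -3, 48), (4, -6, 48), (7, -9, 48), (10, -11, 21), (11, -13, 20), (14, -12, 31),
  (14, -10, 16)]

theorem eM8_2 : certOK (TRegB 9 1 1 1 0 zMO8.m2 zMI8.m2 3 2
    (3 * 9 - 1) 9) lM8_2 = true := by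
  decide +kernel

theorem fM8_2 : lcCheck 9 1 1 1 0 zMO8.m2 zMI8.m2 3 2 = true := by
  decide +kernel

def lM8_3 : List (ℤ × ℤ × ℕ) := [
  (13, -15, 3), (15, -12, 6)]

theorem eM8_3 : certOK (TRegB 9 1 1 0 1 zMO8.m3 zMI8.m3 2 1
    (3 * 9 - 1) 9) lM8_3 = true := by
  decide +kernel

theorem fM8_3 : lcCheck 9 1 1 0 1 zMO8.m3 zMI8.m3 2 1 = true := by
  decide +kernel

end RCN
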