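import Pool.Agent.RCN.DPins

/-! # Certificate of type M, size 9 -/

namespace RCN

def lM9_0 : List (ℤ × ℤ × ℕ) := [
  (13, -16, 62), (16, -13, 6)]

theorem eM9_0 : certOK (TRegB 10 1 0 1 1 zMO9.m0 zMI9.m0 3 0
    (3 * 10 - 1) (10 - 1)) lM9_0 = true := by
  decide +kernel

theorem fM9_0 : lcCheck 10 1 0 1 1 zMO9.m0 zMI9.m0 3 0 = true := by
  decide +kernel

def lM9_1 : List (ℤ × ℤ × ℕ) := [
  (0, -3, 48), (3, -6, 48), (6, -9, 48), (9, -12, 48), (13, -15, 8), (16, -13, 31), (16, -11, 16)]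

theorem eM9_1 : certOK (TRegB 10 0 1 1 1 zMO9.m1 zMI9.m1 4 1
    (3 * 10) 10) lM9_1 = true := by
  decide +kernel

theorem fM9_1 : lcCheck 10 0 1 1 1 zMO9.m1 zMI9.m1 4 1 = true := by
  decide +kernel

def lM9_2 : List (ℤ × ℤ × ℕ) := [
  (1, -3, 48), (4, -6, 48), (7, -9, 48), (10, -12, 48), (13, -16, 52), (13, -13, 0),
  (16, -13, 17), (16, -11, 16)]

theorem eM9_2 : certOK (TRegB 10 1 1 1 0 zMO9.m2 zMI9.m2 3 2
    (3 * 10 - 1) 10) lM9_2 = true := by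
  decide +kernel

theorem fM9_2 : lcCheck 10 1 1 1 0 zMO9.m2 zMI9.m2 3 2 = true := by
  decide +kernel

def lM9_3 : List (ℤ × ℤ × ℕ) := [
  (13, -15, 9), (17, -13, 6)]

theorem eM9_3 : certOK (TRegB 10 1 1 0 1 zMO9.m3 zMI9.m3 2 1
    (3 * 10 - 1) 10) lM9_3 = true := by
  decide +kernel

theorem fM9_3 : lcCheck 10 1 1 0 1 zMO9.m3 zMI9.m3 2 1 = true := by
  decide +kernel

end RCN
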