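import Pool.Agent.RCN.DPins

/-! # Explicit nest 10_13 -/

namespace RCN

def t10_13 : List (ℤ × ℤ × ℕ) := [
  (-18, -9, 17), (-18, -8, 3), (-17, -10, 17), (-16, -13, 56), (-16, -7, 56), (-15, -12, 55),
  (-15, -3, 17), (-13, -12, 44), (-13, 23, 48), (-12, -11, 46), (-12, 0, 17), (-12, 24, 48),
  (-11, 25, 57), (-11, 28, 18), (-10, 22, 6), (-9, 3, 17), (-9, 21, 6), (-9, 26, 40),
  (-9, 27, 42), (-7, 24, 32), (-6, 6, 17), (-6, 27, 46), (-4, 23, 35), (-4, 25, 56), (-3, 9, 17),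
  (-1, 20, 48), (0, 21, 48), (1, -3, 48), (2, 17, 57), (2, 19, 34), (4, -6, 48), (5, 14, 48),
  (6, 15, 48), (7, -9, 48), (8, 11, 57), (8, 13, 34), (10, -12, 48), (11, -1, 29), (13, -15, 48),
  (13, -4, 48), (14, 2, 6), (16, -16, 4), (16, -7, 48), (17, -17, 4), (17, 5, 6), (18, -19, 7),
  (18, -17, 14), (18, -14, 56), (19, -13, 55), (19, -10, 48), (20, -15, 19), (20, 8, 6),
  (21, -17, 17), (21, -13, 49), (21, 19, 56), (22, 22, 17), (23, -14, 48), (23, 11, 6),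
  (23, 20, 29), (24, 15, 31), (24, 18, 12), (25, 23, 56), (26, 14, 6), (26, 18, 4), (26, 21, 0),
  (27, 18, 15), (29, 17, 1), (30, 18, 15), (32, 18, 6)]

theorem i10_13 : inclB zW9 zI_DF_10 10 13 1 1 = true := by
  decide +kernel

theorem j10_13 : certOK (fun p => pinB zW9 13 0 0 p && !pinB zI_DF_10 10 1 1 p) t10_13 = true := by
  decide +kernel

end RCN
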