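import Pool.Agent.RCN.DPins

/-! # Explicit nest 12_15 -/

namespace RCN

def t12_15 : List (ℤ × ℤ × ℕ) := [
  (-21, -10, 1), (-20, -11, 1), (-19, -13, 23), (-19, -11, 24), (-19, -6, 9), (-18, -15, 56),
  (-18, -10, 61), (-18, -4, 17), (-16, -13, 46), (-16, -11, 56), (-15, -14, 17), (-15, -1, 17),
  (-15, 28, 30), (-15, 30, 17), (-13, 25, 48), (-12, 2, 17), (-12, 28, 19), (-12, 30, 6),
  (-12, 33, 18), (-11, 26, 31), (-11, 29, 6), (-9, 5, 17), (-9, 30, 14), (-9, 32, 40),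
  (-8, 33, 34), (-6, 8, 17), (-5, 28, 35), (-5, 30, 34), (-3, 11, 17), (-2, 25, 48),
  (-1, 26, 48), (1, -3, 48), (1, 22, 48), (2, 23, 48), (4, -6, 48), (4, 19, 56), (4, 21, 34),
  (7, -9, 48), (7, 16, 57), (7, 18, 56), (10, -12, 48), (10, 13, 48), (11, 14, 48),
  (13, -15, 48), (13, -2, 55), (15, 1, 6), (16, -18, 48), (16, -5, 48), (18, 4, 6), (19, -19, 0),
  (19, -8, 48), (20, -22, 46), (20, -17, 14), (21, -21, 56), (21, 7, 6), (22, -20, 63),
  (22, -15, 6), (22, -11, 48), (23, -15, 16), (24, -20, 44), (24, 10, 6), (25, -19, 52),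
  (25, -16, 9), (25, -14, 48), (25, 24, 29), (27, -18, 6), (27, 13, 6), (27, 21, 48),
  (27, 24, 24), (28, 25, 59), (29, 16, 31), (29, 20, 63), (29, 26, 61), (30, 18, 9),
  (30, 23, 24), (31, 20, 54), (31, 25, 56), (32, 23, 23), (33, 20, 25), (35, 21, 29), (37, 21, 6)]

theorem i12_15 : inclB zW9 zI_DF_12 12 15 1 1 = true := by
  decide +kernel

theorem j12_15 : certOK (fun p => pinB zW9 15 0 0 p && !pinB zI_DF_12 12 1 1 p) t12_15 = true := by
  decide +kernel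

end RCN
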