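import Pool.Agent.RCN.DPins

/-! # Explicit nest 2_3 -/

namespace RCN

def n2_3 : List (Cell × Placement) := [
  ((-3, -2), ⟨(0, 1, 1), (0, 0, -1), (0, 1, 0)⟩), ((-3, -1), ⟨(0, 3, 1), (0, 0, -1), (0, 1, 0)⟩),
  ((-2, -1), ⟨(1, 3, 0), (1, 0, 0), (0, 1, 0)⟩), ((-2, 0), ⟨(1, 4, 1), (1, 0, 0), (0, 0, 1)⟩),
  ((-1, 0), ⟨(3, 4, 1), (1, 0, 0), (0, 0, 1)⟩), ((0, 0), ⟨(4, 3, 1), (0, -1, 0), (0, 0, 1)⟩),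
  ((-1, 1), ⟨(3, 4, 3), (1, 0, 0), (0, 0, 1)⟩), ((1, 0), ⟨(4, 1, 1), (0, -1, 0), (0, 0, 1)⟩),
  ((0, 1), ⟨(4, 3, 3), (0, -1, 0), (0, 0, 1)⟩), ((0, -1), ⟨(3, 3, 0), (0, -1, 0), (1, 0, 0)⟩),
  ((2, 0), ⟨(3, 0, 1), (-1, 0, 0), (0, 0, 1)⟩), ((1, 1), ⟨(4, 1, 3), (0, -1, 0), (0, 0, 1)⟩),
  ((1, -1), ⟨(3, 1, 0), (0, -1, 0), (1, 0, 0)⟩), ((0, 2), ⟨(3, 3, 4), (0, -1, 0), (-1, 0, 0)⟩),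
  ((3, 0), ⟨(1, 0, 1), (-1, 0, 0), (0, 0, 1)⟩), ((2, 1), ⟨(3, 0, 3), (-1, 0, 0), (0, 0, 1)⟩),
  ((1, -2), ⟨(1, 1, 0), (0, -1, 0), (1, 0, 0)⟩), ((0, 3), ⟨(1, 3, 4), (0, -1, 0), (-1, 0, 0)⟩),
  ((3, 1), ⟨(1, 0, 3), (-1, 0, 0), (0, 0, 1)⟩), ((2, 2), ⟨(3, 1, 4), (-1, 0, 0), (0, 1, 0)⟩),
  ((-1, 3), ⟨(1, 4, 3), (0, 0, 1), (-1, 0, 0)⟩), ((3, 2), ⟨(1, 1, 4), (-1, 0, 0), (0, 1, 0)⟩),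
  ((-1, 4), ⟨(0, 3, 3), (0, 0, 1), (0, -1, 0)⟩), ((-1, 5), ⟨(0, 1, 3), (0, 0, 1), (0, -1, 0)⟩)]

def o2_3 : List Cell := [
  (-3, -3), (-3, 0), (-3, 1), (-3, 2), (-3, 3), (-3, 4), (-3, 5), (-2, -3), (-2, 5), (-1, -3),
  (0, -3), (0, 5), (1, -3), (1, 5), (2, -3), (2, 5), (3, -3), (3, 5), (4, -3), (4, 5), (5, -3),
  (5, -2), (5, -1), (5, 0), (5, 1), (5, 2), (5, 3), (5, 4), (5, 5), (-2, 1), (-2, 2), (-2, 3),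
  (-2, 4), (-2, -2), (-1, -2), (0, -2), (0, 4), (1, 4), (2, -2), (2, 4), (3, -2), (3, 4),
  (4, -2), (4, 4), (4, -1), (4, 0), (4, 1), (4, 2), (4, 3), (-1, 2), (-1, -1), (1, 3), (2, -1),
  (2, 3), (3, -1), (3, 3), (1, 2)]

theorem s2_3 : strongB 2 (-3) 9 n2_3 o2_3 = true := by
  decide +kernel

def n2_3o : List (Cell × Placement) := [
  ((-3, -2), ⟨(0, 1, 3), (0, 1, 0), (0, 0, 1)⟩), ((-3, -1), ⟨(0, 1, 5), (0, 1, 0), (0, 0, 1)⟩),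
  ((-2, -1), ⟨(0, 3, 5), (0, 1, 0), (0, 0, 1)⟩), ((-2, 0), ⟨(1, 3, 6), (0, 1, 0), (1, 0, 0)⟩),
  ((-1, 0), ⟨(1, 5, 6), (0, 1, 0), (1, 0, 0)⟩), ((0, 0), ⟨(1, 6, 5), (0, 0, -1), (1, 0, 0)⟩),
  ((-1, 1), ⟨(3, 5, 6), (0, 1, 0), (1, 0, 0)⟩), ((1, 0), ⟨(1, 6, 3), (0, 0, -1), (1, 0, 0)⟩),
  ((0, 1), ⟨(3, 6, 5), (0, 0, -1), (1, 0, 0)⟩), ((0, -1), ⟨(0, 5, 5), (0, 0, -1), (0, 1, 0)⟩),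
  ((2, 0), ⟨(1, 6, 1), (0, 0, -1), (1, 0, 0)⟩), ((1, 1), ⟨(3, 6, 3), (0, 0, -1), (1, 0, 0)⟩),
  ((1, -1), ⟨(0, 5, 3), (0, 0, -1), (0, 1, 0)⟩), ((0, 2), ⟨(5, 6, 5), (0, 0, -1), (1, 0, 0)⟩),
  ((3, 0), ⟨(1, 5, 0), (0, -1, 0), (1, 0, 0)⟩), ((2, 1), ⟨(3, 6, 1), (0, 0, -1), (1, 0, 0)⟩),
  ((2, -1), ⟨(0, 5, 1), (0, 0, -1), (0, 1, 0)⟩), ((1, 2), ⟨(5, 6, 3), (0, 0, -1), (1, 0, 0)⟩),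
  ((1, -2), ⟨(0, 3, 3), (0, 0, -1), (0, 1, 0)⟩), ((0, 3), ⟨(6, 5, 5), (0, 0, -1), (0, -1, 0)⟩),
  ((3, 1), ⟨(3, 5, 0), (0, -1, 0), (1, 0, 0)⟩), ((2, 2), ⟨(5, 6, 1), (0, 0, -1), (1, 0, 0)⟩),
  ((2, -2), ⟨(0, 3, 1), (0, 0, -1), (0, 1, 0)⟩), ((1, 3), ⟨(6, 5, 3), (0, 0, -1), (0, -1, 0)⟩),
  ((0, 4), ⟨(6, 3, 5), (0, 0, -1), (0, -1, 0)⟩), ((-1, 3), ⟨(5, 5, 6), (1, 0, 0), (0, -1, 0)⟩),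
  ((3, 2), ⟨(5, 5, 0), (0, -1, 0), (1, 0, 0)⟩), ((2, 3), ⟨(6, 5, 1), (0, 0, -1), (0, -1, 0)⟩),
  ((3, -2), ⟨(1, 3, 0), (1, 0, 0), (0, 1, 0)⟩), ((2, -3), ⟨(0, 1, 1), (0, 0, -1), (0, 1, 0)⟩),
  ((1, 4), ⟨(6, 3, 3), (0, 0, -1), (0, -1, 0)⟩), ((0, 5), ⟨(6, 1, 5), (0, 0, -1), (0, -1, 0)⟩),
  ((-1, 4), ⟨(5, 3, 6), (1, 0, 0), (0, -1, 0)⟩), ((4, 2), ⟨(5, 3, 0), (0, -1, 0), (1, 0, 0)⟩),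
  ((4, -2), ⟨(3, 3, 0), (1, 0, 0), (0, 1, 0)⟩), ((3, -3), ⟨(1, 1, 0), (1, 0, 0), (0, 1, 0)⟩),
  ((-1, 5), ⟨(5, 1, 6), (1, 0, 0), (0, -1, 0)⟩), ((-2, 4), ⟨(3, 3, 6), (1, 0, 0), (0, -1, 0)⟩),
  ((4, 3), ⟨(6, 3, 1), (0, -1, 0), (0, 0, 1)⟩), ((4, -3), ⟨(3, 1, 0), (1, 0, 0), (0, 1, 0)⟩),
  ((3, -4), ⟨(1, 0, 1), (1, 0, 0), (0, 0, -1)⟩), ((-1, 6), ⟨(5, 0, 5), (1, 0, 0), (0, 0, -1)⟩),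
  ((-2, 5), ⟨(3, 1, 6), (1, 0, 0), (0, -1, 0)⟩), ((5, 3), ⟨(6, 1, 1), (0, -1, 0), (0, 0, 1)⟩),
  ((5, -3), ⟨(5, 1, 0), (1, 0, 0), (0, 1, 0)⟩), ((3, -5), ⟨(1, 0, 3), (1, 0, 0), (0, 0, -1)⟩),
  ((-1, 7), ⟨(5, 0, 3), (1, 0, 0), (0, 0, -1)⟩), ((-2, 6), ⟨(3, 0, 5), (1, 0, 0), (0, 0, -1)⟩),
  ((-3, 5), ⟨(1, 1, 6), (1, 0, 0), (0, -1, 0)⟩), ((6, 3), ⟨(5, 0, 1), (-1, 0, 0), (0, 0, 1)⟩),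
  ((5, 4), ⟨(6, 1, 3), (0, -1, 0), (0, 0, 1)⟩), ((4, -5), ⟨(3, 0, 3), (1, 0, 0), (0, 0, -1)⟩),
  ((3, -6), ⟨(1, 0, 5), (1, 0, 0), (0, 0, -1)⟩), ((7, 3), ⟨(3, 0, 1), (-1, 0, 0), (0, 0, 1)⟩)]

def o2_3o : List Cell := [
  (-6, -6), (-6, -5), (-6, -4), (-6, -3), (-6, -2), (-6, -1), (-6, 0), (-6, 1), (-6, 2), (-6, 3),
  (-6, 4), (-6, 5), (-6, 6), (-6, 7), (-5, -6), (-5, 7), (-4, -6), (-4, 7), (-3, -6), (-3, 7),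
  (-2, -6), (-2, 7), (-1, -6), (0, -6), (0, 7), (1, -6), (1, 7), (2, -6), (2, 7), (3, 7),
  (4, -6), (4, 7), (5, -6), (5, 7), (6, -6), (6, 7), (7, -6), (7, -5), (7, -4), (7, -3), (7, -2),
  (7, -1), (7, 0), (7, 1), (7, 2), (7, 4), (7, 5), (7, 6), (7, 7), (-5, -5), (-5, -4), (-5, -3),
  (-5, -2), (-5, -1), (-5, 0), (-5, 1), (-5, 2), (-5, 3), (-5, 4), (-5, 5), (-5, 6), (-4, -5),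
  (-4, 6), (-3, -5), (-3, 6), (-2, -5), (-1, -5), (0, -5), (0, 6), (1, -5), (1, 6), (2, -5),
  (2, 6), (3, 6), (4, 6), (5, -5), (5, 6), (6, -5), (6, 6), (6, -4), (6, -3), (6, -2), (6, -1),
  (6, 0), (6, 1), (6, 2), (6, 4), (6, 5), (-4, -4), (-4, -3), (-4, -2), (-4, -1), (-4, 0),
  (-4, 1), (-4, 2), (-4, 3), (-4, 4), (-4, 5), (-3, -4), (-2, -4), (-1, -4), (0, -4), (1, -4),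
  (1, 5), (2, -4), (2, 5), (3, 5), (4, 5), (5, -4), (5, 5), (5, -2), (5, -1), (5, 0), (5, 1),
  (5, 2), (-3, -3), (-3, 0), (-3, 1), (-3, 2), (-3, 3), (-3, 4), (-2, -3), (-1, -3), (0, -3),
  (1, -3), (2, 4), (3, 4), (4, 4), (4, -4), (4, -1), (4, 0), (4, 1), (-2, 1), (-2, 2), (-2, 3),
  (-2, -2), (-1, -2), (0, -2), (3, 3), (3, -1), (-1, 2), (-1, -1)]

theorem s2_3o : strongB 3 (-6) 14 n2_3o o2_3o = true := by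
  decide +kernel

def t2_3 : List (ℤ × ℤ × ℕ) := [
  (-3, 4, 29), (0, 2, 46), (2, -6, 60), (2, -3, 21), (4, 2, 5)]

theorem i2_3 : (n2_3.map Prod.fst).all (fun p => (n2_3o.map Prod.fst).contains p) = true := by
  decide +kernel

theorem j2_3 : certOK (fun p => (n2_3o.map Prod.fst).contains p && !(n2_3.map Prod.fst).contains p)
    t2_3 = true := by
  decide +kernel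

end RCN
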