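import Pool.Agent.RCN.DPins

/-! # Explicit nest 2_4 -/

namespace RCN

def n2_4 : List (Cell × Placement) := [
  ((-2, -1), ⟨(0, 1, 1), (0, 0, -1), (0, 1, 0)⟩), ((-1, -1), ⟨(1, 1, 0), (1, 0, 0), (0, 1, 0)⟩),
  ((-1, 0), ⟨(1, 3, 0), (1, 0, 0), (0, 1, 0)⟩), ((0, 0), ⟨(3, 3, 0), (1, 0, 0), (0, 1, 0)⟩),
  ((0, 1), ⟨(3, 4, 1), (1, 0, 0), (0, 0, 1)⟩), ((1, 1), ⟨(4, 3, 1), (0, -1, 0), (0, 0, 1)⟩),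
  ((2, 1), ⟨(4, 1, 1), (0, -1, 0), (0, 0, 1)⟩), ((1, 2), ⟨(4, 3, 3), (0, -1, 0), (0, 0, 1)⟩),
  ((2, 2), ⟨(4, 1, 3), (0, -1, 0), (0, 0, 1)⟩), ((2, 0), ⟨(3, 1, 0), (0, -1, 0), (1, 0, 0)⟩),
  ((1, 3), ⟨(3, 3, 4), (0, -1, 0), (-1, 0, 0)⟩), ((3, 2), ⟨(3, 0, 3), (-1, 0, 0), (0, 0, 1)⟩),
  ((3, 0), ⟨(3, 0, 1), (0, 0, 1), (1, 0, 0)⟩), ((0, 3), ⟨(3, 4, 3), (0, 0, 1), (-1, 0, 0)⟩),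
  ((3, 3), ⟨(3, 1, 4), (-1, 0, 0), (0, 1, 0)⟩), ((3, -1), ⟨(1, 0, 1), (0, 0, 1), (1, 0, 0)⟩),
  ((0, 4), ⟨(1, 4, 3), (0, 0, 1), (-1, 0, 0)⟩), ((4, 3), ⟨(1, 1, 4), (-1, 0, 0), (0, 1, 0)⟩),
  ((4, -1), ⟨(1, 0, 3), (0, 0, 1), (1, 0, 0)⟩), ((-1, 4), ⟨(1, 4, 1), (0, 0, 1), (-1, 0, 0)⟩),
  ((4, 4), ⟨(1, 3, 4), (-1, 0, 0), (0, 1, 0)⟩), ((4, -2), ⟨(0, 1, 3), (0, 0, 1), (0, -1, 0)⟩),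
  ((-1, 5), ⟨(0, 3, 1), (0, 0, 1), (0, -1, 0)⟩), ((5, 4), ⟨(0, 3, 3), (0, 0, -1), (0, 1, 0)⟩)]

def o2_4 : List Cell := [
  (-2, -2), (-2, 0), (-2, 1), (-2, 2), (-2, 3), (-2, 4), (-2, 5), (-1, -2), (0, -2), (0, 5),
  (1, -2), (1, 5), (2, -2), (2, 5), (3, -2), (3, 5), (4, 5), (5, -2), (5, -1), (5, 0), (5, 1),
  (5, 2), (5, 3), (5, 5), (-1, 1), (-1, 2), (-1, 3), (0, -1), (1, -1), (1, 4), (2, -1), (2, 4),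
  (3, 4), (4, 0), (4, 1), (4, 2), (0, 2), (1, 0), (2, 3), (3, 1)]

theorem s2_4 : strongB 2 (-2) 8 n2_4 o2_4 = true := by
  decide +kernel

def t2_4 : List (ℤ × ℤ × ℕ) := [
  (-6, -4, 29), (-4, -4, 3), (-4, 5, 48), (-3, 0, 17), (-3, 6, 48), (0, 3, 48), (1, -3, 48),
  (3, 1, 17), (4, -6, 57), (4, -4, 34), (5, 4, 29), (7, 4, 3)]

theorem i2_4 : (n2_4.map Prod.fst).all (pinB zE4 4 0 0) = true := by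
  decide +kernel

theorem j2_4 : certOK (fun p => pinB zE4 4 0 0 p && !(n2_4.map Prod.fst).contains p) t2_4 = true := by
  decide +kernel

end RCN
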