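import Pool.Agent.RCN.DPins

/-! # Explicit nest 2_5 -/

namespace RCN

def n2_5 : List (Cell × Placement) := [
  ((-1, 1), ⟨(0, 1, 1), (0, -1, 0), (0, 0, -1)⟩), ((0, 1), ⟨(1, 0, 1), (1, 0, 0), (0, 0, -1)⟩),
  ((0, 2), ⟨(1, 1, 0), (1, 0, 0), (0, 1, 0)⟩), ((1, 2), ⟨(3, 1, 0), (1, 0, 0), (0, 1, 0)⟩),
  ((2, 2), ⟨(4, 1, 1), (0, 0, 1), (0, 1, 0)⟩), ((1, 3), ⟨(3, 3, 0), (1, 0, 0), (0, 1, 0)⟩),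
  ((3, 2), ⟨(4, 1, 3), (0, 0, 1), (0, 1, 0)⟩), ((2, 3), ⟨(4, 3, 1), (0, 0, 1), (0, 1, 0)⟩),
  ((2, 1), ⟨(3, 0, 1), (0, 0, 1), (1, 0, 0)⟩), ((1, 4), ⟨(3, 4, 1), (1, 0, 0), (0, 0, 1)⟩),
  ((4, 2), ⟨(3, 1, 4), (-1, 0, 0), (0, 1, 0)⟩), ((3, 3), ⟨(4, 3, 3), (0, 0, 1), (0, 1, 0)⟩),
  ((3, 1), ⟨(3, 0, 3), (0, 0, 1), (1, 0, 0)⟩), ((5, 2), ⟨(1, 1, 4), (-1, 0, 0), (0, 1, 0)⟩),
  ((4, 3), ⟨(3, 3, 4), (-1, 0, 0), (0, 1, 0)⟩), ((3, 4), ⟨(3, 4, 3), (0, 0, 1), (-1, 0, 0)⟩),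
  ((6, 2), ⟨(0, 1, 3), (0, 0, -1), (0, 1, 0)⟩), ((5, 3), ⟨(1, 3, 4), (-1, 0, 0), (0, 1, 0)⟩),
  ((5, 1), ⟨(1, 0, 3), (-1, 0, 0), (0, 0, 1)⟩), ((6, 3), ⟨(0, 3, 3), (0, 0, -1), (0, 1, 0)⟩),
  ((7, 3), ⟨(0, 3, 1), (0, 0, -1), (0, 1, 0)⟩), ((6, 4), ⟨(1, 4, 3), (0, 0, -1), (1, 0, 0)⟩),
  ((7, 4), ⟨(1, 4, 1), (0, 0, -1), (1, 0, 0)⟩), ((8, 4), ⟨(1, 3, 0), (0, -1, 0), (1, 0, 0)⟩)]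

def o2_5 : List Cell := [
  (-1, -1), (-1, 0), (-1, 2), (-1, 3), (-1, 4), (-1, 5), (-1, 6), (-1, 7), (-1, 8), (0, -1),
  (0, 8), (1, -1), (1, 8), (2, -1), (2, 8), (3, -1), (3, 8), (4, -1), (4, 8), (5, -1), (5, 8),
  (6, -1), (6, 8), (7, -1), (7, 8), (8, -1), (8, 0), (8, 1), (8, 2), (8, 3), (8, 5), (8, 6),
  (8, 7), (8, 8), (0, 0), (0, 3), (0, 4), (0, 5), (0, 6), (0, 7), (1, 0), (1, 7), (2, 0), (2, 7),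
  (3, 0), (3, 7), (4, 0), (4, 7), (5, 0), (5, 7), (6, 0), (6, 7), (7, 0), (7, 7), (7, 1), (7, 2),
  (7, 5), (7, 6), (1, 5), (1, 6), (1, 1), (2, 6), (3, 6), (4, 1), (4, 6), (5, 6), (6, 1), (6, 6),
  (6, 5), (2, 5), (3, 5), (4, 5), (5, 5), (2, 4), (4, 4), (5, 4)]

theorem s2_5 : strongB 2 (-1) 10 n2_5 o2_5 = true := by
  decide +kernel

def t2_5 : List (ℤ × ℤ × ℕ) := [
  (-8, -3, 31), (-5, -5, 6), (-5, -3, 3), (-5, 7, 55), (-3, -2, 46), (-3, 7, 45), (-2, 1, 6),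
  (-2, 5, 32), (-2, 7, 63), (-1, -1, 37), (0, 4, 38), (2, -3, 28), (2, -1, 37), (4, -6, 45),
  (4, 4, 17), (5, -8, 8), (5, -5, 49), (7, -6, 48), (7, 5, 19), (7, 6, 28), (9, 7, 21)]

theorem i2_5 : (n2_5.map Prod.fst).all (pinB zO_R2_2_5 5 0 0) = true := by
  decide +kernel

theorem j2_5 : certOK (fun p => pinB zO_R2_2_5 5 0 0 p && !(n2_5.map Prod.fst).contains p) t2_5 = true := by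
  decide +kernel

end RCN
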