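import Pool.Agent.RCN.DPins

/-! # Explicit nest 2_7 -/

namespace RCN

def n2_7 : List (Cell × Placement) := [
  ((0, 5), ⟨(0, 1, 1), (0, 1, 0), (0, 0, 1)⟩), ((1, 5), ⟨(0, 3, 1), (0, 1, 0), (0, 0, 1)⟩),
  ((0, 6), ⟨(0, 1, 3), (0, 1, 0), (0, 0, 1)⟩), ((2, 5), ⟨(1, 4, 1), (1, 0, 0), (0, 0, 1)⟩),
  ((1, 6), ⟨(0, 3, 3), (0, 1, 0), (0, 0, 1)⟩), ((3, 5), ⟨(3, 4, 1), (1, 0, 0), (0, 0, 1)⟩),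
  ((2, 6), ⟨(1, 4, 3), (1, 0, 0), (0, 0, 1)⟩), ((2, 4), ⟨(1, 3, 0), (1, 0, 0), (0, 1, 0)⟩),
  ((3, 6), ⟨(3, 4, 3), (1, 0, 0), (0, 0, 1)⟩), ((3, 4), ⟨(3, 3, 0), (1, 0, 0), (0, 1, 0)⟩),
  ((2, 3), ⟨(1, 1, 0), (1, 0, 0), (0, 1, 0)⟩), ((4, 4), ⟨(4, 3, 1), (0, 0, 1), (0, 1, 0)⟩),
  ((3, 3), ⟨(3, 1, 0), (1, 0, 0), (0, 1, 0)⟩), ((5, 4), ⟨(4, 3, 3), (0, 0, 1), (0, 1, 0)⟩),
  ((4, 3), ⟨(4, 1, 1), (0, 0, 1), (0, 1, 0)⟩), ((5, 3), ⟨(4, 1, 3), (0, 0, 1), (0, 1, 0)⟩),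
  ((4, 2), ⟨(3, 0, 1), (0, 0, 1), (1, 0, 0)⟩), ((5, 2), ⟨(3, 0, 3), (0, 0, 1), (1, 0, 0)⟩),
  ((4, 1), ⟨(1, 0, 1), (0, 0, 1), (1, 0, 0)⟩), ((6, 2), ⟨(3, 1, 4), (0, 1, 0), (1, 0, 0)⟩),
  ((5, 1), ⟨(1, 0, 3), (0, 0, 1), (1, 0, 0)⟩), ((7, 2), ⟨(3, 3, 4), (0, 1, 0), (1, 0, 0)⟩),
  ((6, 1), ⟨(1, 1, 4), (0, 1, 0), (1, 0, 0)⟩), ((7, 1), ⟨(1, 3, 4), (0, 1, 0), (1, 0, 0)⟩)]

def o2_7 : List Cell := [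
  (0, 0), (0, 1), (0, 2), (0, 3), (0, 4), (0, 7), (1, 0), (1, 7), (2, 0), (2, 7), (3, 0), (3, 7),
  (4, 0), (4, 7), (5, 0), (5, 7), (6, 0), (6, 7), (7, 0), (7, 3), (7, 4), (7, 5), (7, 6), (7, 7),
  (1, 1), (1, 2), (1, 3), (1, 4), (2, 1), (3, 1), (4, 6), (5, 6), (6, 6), (6, 3), (6, 4), (6, 5),
  (2, 2), (3, 2), (4, 5), (5, 5)]

theorem s2_7 : strongB 2 (0) 8 n2_7 o2_7 = true := by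
  decide +kernel

def t2_7 : List (ℤ × ℤ × ℕ) := [
  (-9, -7, 61), (-9, -4, 41), (-9, -2, 19), (-7, -7, 3), (-7, 11, 57), (-7, 13, 37), (-6, 0, 16),
  (-5, -4, 17), (-5, -3, 4), (-5, 14, 45), (-4, 10, 3), (-3, -1, 19), (-3, 2, 6), (-3, 7, 48),
  (-3, 12, 63), (-2, 0, 7), (-2, 2, 17), (-2, 10, 7), (-1, 7, 45), (0, 7, 63), (1, -3, 56),
  (1, 0, 47), (2, 7, 46), (3, -3, 58), (3, -1, 22), (4, -6, 55), (4, 4, 21), (4, 5, 58),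
  (6, -5, 28), (6, -3, 56), (6, 2, 41), (7, -8, 31), (7, -6, 18), (7, 4, 62), (8, -10, 6),
  (8, 8, 17), (9, -12, 57), (9, 4, 31), (9, 6, 14), (10, -10, 26), (11, -8, 48), (11, 8, 6),
  (11, 11, 17), (12, 7, 32), (13, 9, 12)]

theorem i2_7 : (n2_7.map Prod.fst).all (pinB zO_J2_7 7 0 0) = true := by
  decide +kernel

theorem j2_7 : certOK (fun p => pinB zO_J2_7 7 0 0 p && !(n2_7.map Prod.fst).contains p) t2_7 = true := by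
  decide +kernel

end RCN
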