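import Pool.Agent.RCN.DPins

/-! # Explicit nest 2_9 -/

namespace RCN

def n2_9 : List (Cell × Placement) := [
  ((0, 4), ⟨(0, 1, 1), (0, 1, 0), (0, 0, 1)⟩), ((1, 4), ⟨(0, 3, 1), (0, 1, 0), (0, 0, 1)⟩),
  ((0, 5), ⟨(0, 1, 3), (0, 1, 0), (0, 0, 1)⟩), ((2, 4), ⟨(1, 4, 1), (1, 0, 0), (0, 0, 1)⟩),
  ((1, 5), ⟨(0, 3, 3), (0, 1, 0), (0, 0, 1)⟩), ((3, 4), ⟨(3, 4, 1), (1, 0, 0), (0, 0, 1)⟩),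
  ((2, 5), ⟨(1, 4, 3), (1, 0, 0), (0, 0, 1)⟩), ((2, 3), ⟨(1, 3, 0), (1, 0, 0), (0, 1, 0)⟩),
  ((3, 5), ⟨(3, 4, 3), (1, 0, 0), (0, 0, 1)⟩), ((3, 3), ⟨(3, 3, 0), (1, 0, 0), (0, 1, 0)⟩),
  ((2, 2), ⟨(1, 1, 0), (1, 0, 0), (0, 1, 0)⟩), ((3, 2), ⟨(3, 1, 0), (1, 0, 0), (0, 1, 0)⟩),
  ((2, 1), ⟨(1, 0, 1), (1, 0, 0), (0, 0, -1)⟩), ((3, 1), ⟨(3, 0, 1), (1, 0, 0), (0, 0, -1)⟩),
  ((2, 0), ⟨(1, 0, 3), (1, 0, 0), (0, 0, -1)⟩), ((4, 1), ⟨(4, 1, 1), (0, 1, 0), (0, 0, -1)⟩),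
  ((3, 0), ⟨(3, 0, 3), (1, 0, 0), (0, 0, -1)⟩), ((5, 1), ⟨(4, 3, 1), (0, 1, 0), (0, 0, -1)⟩),
  ((4, 0), ⟨(4, 1, 3), (0, 1, 0), (0, 0, -1)⟩), ((5, 0), ⟨(4, 3, 3), (0, 1, 0), (0, 0, -1)⟩),
  ((4, -1), ⟨(3, 1, 4), (0, 1, 0), (1, 0, 0)⟩), ((5, -1), ⟨(3, 3, 4), (0, 1, 0), (1, 0, 0)⟩),
  ((4, -2), ⟨(1, 1, 4), (0, 1, 0), (1, 0, 0)⟩), ((5, -2), ⟨(1, 3, 4), (0, 1, 0), (1, 0, 0)⟩)]

def o2_9 : List Cell := [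
  (-2, -2), (-2, -1), (-2, 0), (-2, 1), (-2, 2), (-2, 3), (-2, 4), (-2, 5), (-1, -2), (-1, 5),
  (0, -2), (1, -2), (2, -2), (3, -2), (4, 5), (5, 2), (5, 3), (5, 4), (5, 5), (-1, -1), (-1, 0),
  (-1, 1), (-1, 2), (-1, 3), (-1, 4), (0, -1), (1, -1), (2, -1), (3, -1), (4, 4), (4, 2), (4, 3),
  (0, 0), (0, 1), (0, 2), (0, 3), (1, 0), (1, 1), (1, 2), (1, 3)]

theorem s2_9 : strongB 2 (-2) 8 n2_9 o2_9 = true := by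
  decide +kernel

def t2_9 : List (ℤ × ℤ × ℕ) := [
  (-12, -9, 56), (-12, -6, 4), (-11, -7, 24), (-10, -3, 29), (-9, -8, 17), (-9, -6, 16),
  (-9, -5, 3), (-9, 16, 42), (-9, 18, 18), (-8, 14, 56), (-7, -4, 44), (-7, 0, 29), (-6, -3, 52),
  (-6, 16, 51), (-5, -5, 6), (-5, 1, 17), (-5, 11, 55), (-5, 14, 34), (-4, -2, 3), (-4, 3, 6),
  (-4, 15, 56), (-4, 17, 48), (-3, 10, 60), (-2, -2, 4), (-2, 1, 8), (-2, 3, 27), (-1, 6, 35),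
  (-1, 8, 21), (-1, 10, 44), (-1, 14, 46), (0, -1, 24), (0, 11, 52), (1, 9, 24), (2, -4, 55),
  (2, 5, 34), (2, 10, 61), (3, 8, 13), (4, 1, 21), (4, 3, 31), (4, 7, 13), (5, -7, 48),
  (5, -4, 24), (5, 6, 10), (6, -3, 60), (6, 3, 18), (7, -7, 50), (7, 0, 52), (7, 5, 44),
  (8, -10, 55), (8, -5, 58), (8, -3, 56), (8, 7, 29), (9, -7, 53), (9, 1, 6), (9, 4, 52),
  (10, -11, 59), (10, 8, 19), (11, -9, 53), (11, 5, 6), (11, 9, 8), (11, 11, 17), (12, -13, 5),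
  (12, -11, 34), (12, -7, 46), (12, 4, 6), (14, -11, 57), (14, -9, 56), (14, 7, 31), (14, 9, 32),
  (14, 11, 29), (14, 14, 17), (16, 11, 2), (17, 13, 53), (17, 15, 56), (18, 10, 4), (20, 12, 15),
  (22, 12, 6)]

theorem i2_9 : (n2_9.map Prod.fst).all (pinB zW9 9 0 0) = true := by
  decide +kernel

theorem j2_9 : certOK (fun p => pinB zW9 9 0 0 p && !(n2_9.map Prod.fst).contains p) t2_9 = true := by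
  decide +kernel

end RCN
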