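import Pool.Agent.RCN.DPins

/-! # Explicit nest 3_4 -/

namespace RCN

def n3_4 : List (Cell × Placement) := [
  ((-4, -2), ⟨(0, 1, 3), (0, -1, 0), (0, 0, -1)⟩),
  ((-3, -2), ⟨(1, 0, 3), (1, 0, 0), (0, 0, -1)⟩),
  ((-4, -1), ⟨(0, 1, 1), (0, -1, 0), (0, 0, -1)⟩),
  ((-2, -2), ⟨(3, 0, 3), (1, 0, 0), (0, 0, -1)⟩), ((-3, -1), ⟨(1, 0, 1), (1, 0, 0), (0, 0, -1)⟩),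
  ((-1, -2), ⟨(5, 0, 3), (1, 0, 0), (0, 0, -1)⟩), ((-2, -1), ⟨(3, 0, 1), (1, 0, 0), (0, 0, -1)⟩),
  ((-3, 0), ⟨(1, 1, 0), (1, 0, 0), (0, 1, 0)⟩), ((-1, -1), ⟨(5, 0, 1), (1, 0, 0), (0, 0, -1)⟩),
  ((-2, 0), ⟨(3, 1, 0), (1, 0, 0), (0, 1, 0)⟩), ((-3, 1), ⟨(1, 3, 0), (1, 0, 0), (0, 1, 0)⟩),
  ((-1, 0), ⟨(5, 1, 0), (1, 0, 0), (0, 1, 0)⟩), ((-2, 1), ⟨(3, 3, 0), (1, 0, 0), (0, 1, 0)⟩),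
  ((-3, 2), ⟨(1, 5, 0), (1, 0, 0), (0, 1, 0)⟩), ((0, 0), ⟨(6, 1, 1), (0, 0, 1), (0, 1, 0)⟩),
  ((-1, 1), ⟨(5, 3, 0), (1, 0, 0), (0, 1, 0)⟩), ((-2, 2), ⟨(3, 5, 0), (1, 0, 0), (0, 1, 0)⟩),
  ((1, 0), ⟨(6, 1, 3), (0, 0, 1), (0, 1, 0)⟩), ((0, 1), ⟨(6, 3, 1), (0, 0, 1), (0, 1, 0)⟩),
  ((-1, 2), ⟨(5, 5, 0), (1, 0, 0), (0, 1, 0)⟩), ((2, 0), ⟨(6, 1, 5), (0, 0, 1), (0, 1, 0)⟩),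
  ((1, 1), ⟨(6, 3, 3), (0, 0, 1), (0, 1, 0)⟩), ((0, 2), ⟨(6, 5, 1), (0, 0, 1), (0, 1, 0)⟩),
  ((3, 0), ⟨(5, 1, 6), (-1, 0, 0), (0, 1, 0)⟩), ((2, 1), ⟨(6, 3, 5), (0, 0, 1), (0, 1, 0)⟩),
  ((2, -1), ⟨(5, 0, 5), (0, 0, 1), (1, 0, 0)⟩), ((1, 2), ⟨(6, 5, 3), (0, 0, 1), (0, 1, 0)⟩),
  ((0, 3), ⟨(5, 6, 1), (0, 0, 1), (-1, 0, 0)⟩), ((4, 0), ⟨(3, 1, 6), (-1, 0, 0), (0, 1, 0)⟩),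
  ((3, 1), ⟨(5, 3, 6), (-1, 0, 0), (0, 1, 0)⟩), ((2, 2), ⟨(6, 5, 5), (0, 0, 1), (0, 1, 0)⟩),
  ((2, -2), ⟨(3, 0, 5), (0, 0, 1), (1, 0, 0)⟩), ((1, 3), ⟨(5, 6, 3), (0, 0, 1), (-1, 0, 0)⟩),
  ((0, 4), ⟨(3, 6, 1), (0, 0, 1), (-1, 0, 0)⟩), ((4, 1), ⟨(3, 3, 6), (-1, 0, 0), (0, 1, 0)⟩),
  ((3, 2), ⟨(5, 5, 6), (-1, 0, 0), (0, 1, 0)⟩), ((2, 3), ⟨(5, 6, 5), (0, 0, 1), (-1, 0, 0)⟩),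
  ((2, -3), ⟨(1, 0, 5), (0, 0, 1), (1, 0, 0)⟩), ((1, 4), ⟨(3, 6, 3), (0, 0, 1), (-1, 0, 0)⟩),
  ((0, 5), ⟨(1, 6, 1), (0, 0, 1), (-1, 0, 0)⟩), ((5, 1), ⟨(1, 3, 6), (-1, 0, 0), (0, 1, 0)⟩),
  ((4, 2), ⟨(3, 5, 6), (-1, 0, 0), (0, 1, 0)⟩), ((3, -3), ⟨(1, 1, 6), (0, 1, 0), (1, 0, 0)⟩),
  ((5, 2), ⟨(1, 5, 6), (-1, 0, 0), (0, 1, 0)⟩), ((4, 3), ⟨(3, 6, 5), (-1, 0, 0), (0, 0, -1)⟩),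
  ((3, -4), ⟨(0, 1, 5), (0, 1, 0), (0, 0, 1)⟩), ((5, 3), ⟨(1, 6, 5), (-1, 0, 0), (0, 0, -1)⟩),
  ((4, -4), ⟨(0, 3, 5), (0, 1, 0), (0, 0, 1)⟩), ((6, 3), ⟨(0, 5, 5), (0, -1, 0), (0, 0, -1)⟩),
  ((5, 4), ⟨(1, 6, 3), (-1, 0, 0), (0, 0, -1)⟩), ((6, 4), ⟨(0, 5, 3), (0, -1, 0), (0, 0, -1)⟩),
  ((7, 4), ⟨(0, 3, 3), (0, -1, 0), (0, 0, -1)⟩), ((6, 5), ⟨(0, 5, 1), (0, -1, 0), (0, 0, -1)⟩),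
  ((7, 5), ⟨(0, 3, 1), (0, -1, 0), (0, 0, -1)⟩)]

def o3_4 : List Cell := [
  (-4, -4), (-4, -3), (-4, 0), (-4, 1), (-4, 2), (-4, 3), (-4, 4), (-4, 5), (-4, 6), (-4, 7),
  (-3, -4), (-3, 7), (-2, -4), (-2, 7), (-1, -4), (-1, 7), (0, -4), (0, 7), (1, -4), (1, 7),
  (2, -4), (2, 7), (3, 7), (4, 7), (5, -4), (5, 7), (6, -4), (6, 7), (7, -4), (7, -3), (7, -2),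
  (7, -1), (7, 0), (7, 1), (7, 2), (7, 3), (7, 6), (7, 7), (-3, -3), (-3, 3), (-3, 4), (-3, 5),
  (-3, 6), (-2, -3), (-2, 6), (-1, -3), (-1, 6), (0, -3), (0, 6), (1, -3), (1, 6), (2, 6),
  (3, 6), (4, 6), (5, -3), (5, 6), (6, -3), (6, 6), (6, -2), (6, -1), (6, 0), (6, 1), (6, 2),
  (-2, 3), (-2, 4), (-2, 5), (-1, 5), (0, -2), (1, -2), (1, 5), (2, 5), (3, 5), (4, 5), (5, -2),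
  (4, -3), (5, 5), (5, -1), (5, 0), (-1, 3), (-1, 4), (0, -1), (1, -1), (2, 4), (3, 4), (4, 4),
  (4, -2), (4, -1), (3, 3), (3, -2), (3, -1)]

theorem s3_4 : strongB 3 (-4) 12 n3_4 o3_4 = true := by
  decide +kernel

def n3_4o : List (Cell × Placement) := [
  ((-6, -4), ⟨(0, 1, 3), (0, 0, -1), (0, 1, 0)⟩), ((-5, -4), ⟨(0, 1, 1), (0, 0, -1), (0, 1, 0)⟩),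
  ((-5, -3), ⟨(0, 3, 1), (0, 0, -1), (0, 1, 0)⟩), ((-4, -3), ⟨(1, 3, 0), (1, 0, 0), (0, 1, 0)⟩),
  ((-5, -2), ⟨(0, 5, 1), (0, 0, -1), (0, 1, 0)⟩), ((-4, -2), ⟨(1, 5, 0), (1, 0, 0), (0, 1, 0)⟩),
  ((-5, -1), ⟨(0, 7, 1), (0, 0, -1), (0, 1, 0)⟩), ((-3, -2), ⟨(3, 5, 0), (1, 0, 0), (0, 1, 0)⟩),
  ((-4, -1), ⟨(1, 7, 0), (1, 0, 0), (0, 1, 0)⟩), ((-2, -2), ⟨(5, 5, 0), (1, 0, 0), (0, 1, 0)⟩),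
  ((-3, -1), ⟨(3, 7, 0), (1, 0, 0), (0, 1, 0)⟩), ((-1, -2), ⟨(7, 5, 0), (1, 0, 0), (0, 1, 0)⟩),
  ((-2, -1), ⟨(5, 7, 0), (1, 0, 0), (0, 1, 0)⟩), ((-3, 0), ⟨(3, 8, 1), (1, 0, 0), (0, 0, 1)⟩),
  ((-1, -1), ⟨(7, 7, 0), (1, 0, 0), (0, 1, 0)⟩), ((-2, 0), ⟨(5, 8, 1), (1, 0, 0), (0, 0, 1)⟩),
  ((-3, 1), ⟨(3, 8, 3), (1, 0, 0), (0, 0, 1)⟩), ((-1, 0), ⟨(7, 8, 1), (1, 0, 0), (0, 0, 1)⟩),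
  ((-2, 1), ⟨(5, 8, 3), (1, 0, 0), (0, 0, 1)⟩), ((-3, 2), ⟨(3, 8, 5), (1, 0, 0), (0, 0, 1)⟩),
  ((0, 0), ⟨(8, 7, 1), (0, -1, 0), (0, 0, 1)⟩), ((-1, 1), ⟨(7, 8, 3), (1, 0, 0), (0, 0, 1)⟩),
  ((-2, 2), ⟨(5, 8, 5), (1, 0, 0), (0, 0, 1)⟩), ((1, 0), ⟨(8, 5, 1), (0, -1, 0), (0, 0, 1)⟩),
  ((0, 1), ⟨(8, 7, 3), (0, -1, 0), (0, 0, 1)⟩), ((-1, 2), ⟨(7, 8, 5), (1, 0, 0), (0, 0, 1)⟩),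
  ((2, 0), ⟨(8, 3, 1), (0, -1, 0), (0, 0, 1)⟩), ((1, 1), ⟨(8, 5, 3), (0, -1, 0), (0, 0, 1)⟩),
  ((0, 2), ⟨(8, 7, 5), (0, -1, 0), (0, 0, 1)⟩), ((3, 0), ⟨(8, 1, 1), (0, -1, 0), (0, 0, 1)⟩),
  ((2, 1), ⟨(8, 3, 3), (0, -1, 0), (0, 0, 1)⟩), ((2, -1), ⟨(7, 3, 0), (0, -1, 0), (1, 0, 0)⟩),
  ((1, 2), ⟨(8, 5, 5), (0, -1, 0), (0, 0, 1)⟩), ((0, 3), ⟨(8, 7, 7), (0, -1, 0), (0, 0, 1)⟩),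
  ((4, 0), ⟨(7, 0, 1), (-1, 0, 0), (0, 0, 1)⟩), ((3, 1), ⟨(8, 1, 3), (0, -1, 0), (0, 0, 1)⟩),
  ((3, -1), ⟨(7, 1, 0), (0, -1, 0), (1, 0, 0)⟩), ((2, 2), ⟨(8, 3, 5), (0, -1, 0), (0, 0, 1)⟩),
  ((2, -2), ⟨(5, 3, 0), (0, -1, 0), (1, 0, 0)⟩), ((1, 3), ⟨(8, 5, 7), (0, -1, 0), (0, 0, 1)⟩),
  ((0, 4), ⟨(7, 7, 8), (0, -1, 0), (-1, 0, 0)⟩), ((4, 1), ⟨(7, 0, 3), (-1, 0, 0), (0, 0, 1)⟩),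
  ((3, 2), ⟨(8, 1, 5), (0, -1, 0), (0, 0, 1)⟩), ((3, -2), ⟨(5, 1, 0), (0, -1, 0), (1, 0, 0)⟩),
  ((2, 3), ⟨(8, 3, 7), (0, -1, 0), (0, 0, 1)⟩), ((2, -3), ⟨(3, 3, 0), (0, -1, 0), (1, 0, 0)⟩),
  ((1, 4), ⟨(7, 5, 8), (0, -1, 0), (-1, 0, 0)⟩), ((0, 5), ⟨(5, 7, 8), (0, -1, 0), (-1, 0, 0)⟩),
  ((-1, 4), ⟨(7, 8, 7), (0, 0, 1), (-1, 0, 0)⟩), ((5, 1), ⟨(5, 0, 3), (-1, 0, 0), (0, 0, 1)⟩),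
  ((4, 2), ⟨(7, 0, 5), (-1, 0, 0), (0, 0, 1)⟩), ((3, 3), ⟨(8, 1, 7), (0, -1, 0), (0, 0, 1)⟩),
  ((4, -2), ⟨(5, 0, 1), (0, 0, 1), (1, 0, 0)⟩), ((3, -3), ⟨(3, 1, 0), (0, -1, 0), (1, 0, 0)⟩),
  ((2, 4), ⟨(7, 3, 8), (0, -1, 0), (-1, 0, 0)⟩), ((1, 5), ⟨(5, 5, 8), (0, -1, 0), (-1, 0, 0)⟩),
  ((0, 6), ⟨(3, 7, 8), (0, -1, 0), (-1, 0, 0)⟩), ((-1, 5), ⟨(5, 8, 7), (0, 0, 1), (-1, 0, 0)⟩),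
  ((5, 2), ⟨(5, 0, 5), (-1, 0, 0), (0, 0, 1)⟩), ((4, 3), ⟨(7, 0, 7), (-1, 0, 0), (0, 0, 1)⟩),
  ((3, 4), ⟨(7, 1, 8), (0, -1, 0), (-1, 0, 0)⟩), ((4, -3), ⟨(3, 0, 1), (0, 0, 1), (1, 0, 0)⟩),
  ((3, -4), ⟨(1, 1, 0), (0, -1, 0), (1, 0, 0)⟩), ((2, 5), ⟨(5, 3, 8), (0, -1, 0), (-1, 0, 0)⟩),
  ((1, 6), ⟨(3, 5, 8), (0, -1, 0), (-1, 0, 0)⟩), ((-1, 6), ⟨(3, 8, 7), (0, 0, 1), (-1, 0, 0)⟩),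
  ((5, 3), ⟨(5, 0, 7), (-1, 0, 0), (0, 0, 1)⟩), ((5, -3), ⟨(3, 0, 3), (0, 0, 1), (1, 0, 0)⟩),
  ((4, -4), ⟨(1, 0, 1), (0, 0, 1), (1, 0, 0)⟩), ((-1, 7), ⟨(1, 8, 7), (0, 0, 1), (-1, 0, 0)⟩),
  ((6, 3), ⟨(3, 0, 7), (-1, 0, 0), (0, 0, 1)⟩), ((5, 4), ⟨(5, 1, 8), (-1, 0, 0), (0, 1, 0)⟩),
  ((6, -3), ⟨(3, 0, 5), (0, 0, 1), (1, 0, 0)⟩), ((5, -4), ⟨(1, 0, 3), (0, 0, 1), (1, 0, 0)⟩),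
  ((-1, 8), ⟨(0, 7, 7), (0, 0, 1), (0, -1, 0)⟩), ((-2, 7), ⟨(1, 8, 5), (0, 0, 1), (-1, 0, 0)⟩),
  ((6, 4), ⟨(3, 1, 8), (-1, 0, 0), (0, 1, 0)⟩), ((6, -4), ⟨(1, 0, 5), (0, 0, 1), (1, 0, 0)⟩),
  ((-2, 8), ⟨(0, 7, 5), (0, 0, 1), (0, -1, 0)⟩), ((-3, 7), ⟨(1, 8, 3), (0, 0, 1), (-1, 0, 0)⟩),
  ((7, 4), ⟨(1, 1, 8), (-1, 0, 0), (0, 1, 0)⟩), ((6, 5), ⟨(3, 3, 8), (-1, 0, 0), (0, 1, 0)⟩),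
  ((7, -4), ⟨(1, 0, 7), (0, 0, 1), (1, 0, 0)⟩), ((6, -5), ⟨(0, 1, 5), (0, 0, 1), (0, -1, 0)⟩),
  ((-3, 8), ⟨(0, 7, 3), (0, 0, 1), (0, -1, 0)⟩), ((-4, 7), ⟨(1, 8, 1), (0, 0, 1), (-1, 0, 0)⟩),
  ((8, 4), ⟨(0, 1, 7), (0, 0, -1), (0, 1, 0)⟩), ((7, 5), ⟨(1, 3, 8), (-1, 0, 0), (0, 1, 0)⟩),
  ((6, -6), ⟨(0, 3, 5), (0, 0, 1), (0, -1, 0)⟩), ((-3, 9), ⟨(0, 5, 3), (0, 0, 1), (0, -1, 0)⟩),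
  ((8, 5), ⟨(0, 3, 7), (0, 0, -1), (0, 1, 0)⟩), ((7, 6), ⟨(1, 5, 8), (-1, 0, 0), (0, 1, 0)⟩),
  ((5, -6), ⟨(0, 3, 3), (0, 0, 1), (0, -1, 0)⟩), ((8, 6), ⟨(0, 5, 7), (0, 0, -1), (0, 1, 0)⟩),
  ((7, 7), ⟨(1, 7, 8), (-1, 0, 0), (0, 1, 0)⟩), ((9, 6), ⟨(0, 5, 5), (0, 0, -1), (0, 1, 0)⟩)]

def o3_4o : List Cell := [
  (-6, -6), (-6, -5), (-6, -3), (-6, -2), (-6, -1), (-6, 0), (-6, 1), (-6, 2), (-6, 3), (-6, 4),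
  (-6, 5), (-6, 6), (-6, 7), (-6, 8), (-6, 9), (-5, -6), (-5, 9), (-4, -6), (-4, 9), (-3, -6),
  (-2, -6), (-2, 9), (-1, -6), (-1, 9), (0, -6), (0, 9), (1, -6), (1, 9), (2, -6), (2, 9),
  (3, -6), (3, 9), (4, -6), (4, 9), (5, 9), (6, 9), (7, -6), (7, 9), (8, -6), (8, 9), (9, -6),
  (9, -5), (9, -4), (9, -3), (9, -2), (9, -1), (9, 0), (9, 1), (9, 2), (9, 3), (9, 4), (9, 5),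
  (9, 7), (9, 8), (9, 9), (-5, -5), (-5, 0), (-5, 1), (-5, 2), (-5, 3), (-5, 4), (-5, 5),
  (-5, 6), (-5, 7), (-5, 8), (-4, -5), (-4, 8), (-3, -5), (-2, -5), (-1, -5), (0, -5), (0, 8),
  (1, -5), (1, 8), (2, -5), (2, 8), (3, -5), (3, 8), (4, -5), (4, 8), (5, 8), (6, 8), (7, -5),
  (7, 8), (8, -5), (8, 8), (8, -4), (8, -3), (8, -2), (8, -1), (8, 0), (8, 1), (8, 2), (8, 3),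
  (8, 7), (-4, 0), (-4, 1), (-4, 2), (-4, 3), (-4, 4), (-4, 5), (-4, 6), (-4, -4), (-3, -4),
  (-2, -4), (-1, -4), (0, -4), (0, 7), (1, -4), (1, 7), (2, -4), (2, 7), (3, 7), (5, -5), (4, 7),
  (5, 7), (6, 7), (7, -3), (7, -2), (7, -1), (7, 0), (7, 1), (7, 2), (7, 3), (-3, 3), (-3, 4),
  (-3, 5), (-3, 6), (-3, -3), (-2, -3), (-1, -3), (0, -3), (1, -3), (2, 6), (3, 6), (4, 6),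
  (5, 6), (6, 6), (6, -2), (6, -1), (6, 0), (6, 1), (6, 2), (-2, 3), (-2, 4), (-2, 5), (-2, 6),
  (0, -2), (1, -2), (3, 5), (4, 5), (5, 5), (5, -2), (5, -1), (5, 0), (-1, 3), (0, -1), (1, -1),
  (4, 4), (4, -1)]

theorem s3_4o : strongB 4 (-6) 16 n3_4o o3_4o = true := by
  decide +kernel

def t3_4 : List (ℤ × ℤ × ℕ) := [
  (-6, -4, 11), (-4, 7, 14), (-2, 4, 61), (1, 3, 48), (3, -4, 48), (5, -6, 12), (7, 4, 47)]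

theorem i3_4 : (n3_4.map Prod.fst).all (fun p => (n3_4o.map Prod.fst).contains p) = true := by
  decide +kernel

theorem j3_4 : certOK (fun p => (n3_4o.map Prod.fst).contains p && !(n3_4.map Prod.fst).contains p)
    t3_4 = true := by
  decide +kernel

end RCN
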