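import Pool.Agent.RCN.DPins

/-! # Explicit nest 3_5 -/

namespace RCN

def n3_5 : List (Cell × Placement) := [
  ((-2, -2), ⟨(0, 1, 1), (0, 1, 0), (0, 0, 1)⟩), ((-2, -1), ⟨(0, 1, 3), (0, 1, 0), (0, 0, 1)⟩),
  ((-1, -1), ⟨(0, 3, 3), (0, 1, 0), (0, 0, 1)⟩), ((-2, 0), ⟨(0, 1, 5), (0, 1, 0), (0, 0, 1)⟩),
  ((-1, 0), ⟨(0, 3, 5), (0, 1, 0), (0, 0, 1)⟩), ((0, 0), ⟨(0, 5, 5), (0, 1, 0), (0, 0, 1)⟩),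
  ((-1, 1), ⟨(1, 3, 6), (0, 1, 0), (1, 0, 0)⟩), ((0, 1), ⟨(1, 5, 6), (0, 1, 0), (1, 0, 0)⟩),
  ((1, 1), ⟨(1, 6, 5), (0, 0, -1), (1, 0, 0)⟩), ((0, 2), ⟨(3, 5, 6), (0, 1, 0), (1, 0, 0)⟩),
  ((2, 1), ⟨(1, 6, 3), (0, 0, -1), (1, 0, 0)⟩), ((1, 2), ⟨(3, 6, 5), (0, 0, -1), (1, 0, 0)⟩),
  ((3, 1), ⟨(1, 6, 1), (0, 0, -1), (1, 0, 0)⟩), ((2, 2), ⟨(3, 6, 3), (0, 0, -1), (1, 0, 0)⟩),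
  ((2, 0), ⟨(0, 5, 3), (0, 0, -1), (0, 1, 0)⟩), ((1, 3), ⟨(5, 6, 5), (0, 0, -1), (1, 0, 0)⟩),
  ((3, 2), ⟨(3, 6, 1), (0, 0, -1), (1, 0, 0)⟩), ((3, 0), ⟨(0, 5, 1), (0, 0, -1), (0, 1, 0)⟩),
  ((2, 3), ⟨(5, 6, 3), (0, 0, -1), (1, 0, 0)⟩), ((1, 4), ⟨(6, 5, 5), (0, 0, -1), (0, -1, 0)⟩),
  ((4, 2), ⟨(3, 5, 0), (0, -1, 0), (1, 0, 0)⟩), ((3, 3), ⟨(5, 6, 1), (0, 0, -1), (1, 0, 0)⟩),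
  ((4, 0), ⟨(1, 5, 0), (1, 0, 0), (0, 1, 0)⟩), ((3, -1), ⟨(0, 3, 1), (0, 0, -1), (0, 1, 0)⟩),
  ((2, 4), ⟨(6, 5, 3), (0, 0, -1), (0, -1, 0)⟩), ((1, 5), ⟨(6, 3, 5), (0, 0, -1), (0, -1, 0)⟩),
  ((0, 4), ⟨(5, 5, 6), (1, 0, 0), (0, -1, 0)⟩), ((4, 3), ⟨(5, 5, 0), (0, -1, 0), (1, 0, 0)⟩),
  ((4, -1), ⟨(1, 3, 0), (1, 0, 0), (0, 1, 0)⟩), ((0, 5), ⟨(5, 3, 6), (1, 0, 0), (0, -1, 0)⟩),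
  ((5, 3), ⟨(5, 3, 0), (0, -1, 0), (1, 0, 0)⟩), ((4, 4), ⟨(6, 5, 1), (0, -1, 0), (0, 0, 1)⟩),
  ((5, -1), ⟨(3, 3, 0), (1, 0, 0), (0, 1, 0)⟩), ((4, -2), ⟨(1, 1, 0), (1, 0, 0), (0, 1, 0)⟩),
  ((0, 6), ⟨(5, 1, 6), (1, 0, 0), (0, -1, 0)⟩), ((-1, 5), ⟨(3, 3, 6), (1, 0, 0), (0, -1, 0)⟩),
  ((5, 4), ⟨(6, 3, 1), (0, -1, 0), (0, 0, 1)⟩), ((5, -2), ⟨(3, 1, 0), (1, 0, 0), (0, 1, 0)⟩),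
  ((4, -3), ⟨(1, 0, 1), (1, 0, 0), (0, 0, -1)⟩), ((-1, 6), ⟨(3, 1, 6), (1, 0, 0), (0, -1, 0)⟩),
  ((6, 4), ⟨(6, 1, 1), (0, -1, 0), (0, 0, 1)⟩), ((5, 5), ⟨(6, 3, 3), (0, -1, 0), (0, 0, 1)⟩),
  ((6, -2), ⟨(5, 1, 0), (1, 0, 0), (0, 1, 0)⟩), ((5, -3), ⟨(3, 0, 1), (1, 0, 0), (0, 0, -1)⟩),
  ((4, -4), ⟨(1, 0, 3), (1, 0, 0), (0, 0, -1)⟩), ((-2, 6), ⟨(1, 1, 6), (1, 0, 0), (0, -1, 0)⟩),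
  ((7, 4), ⟨(5, 0, 1), (-1, 0, 0), (0, 0, 1)⟩), ((6, 5), ⟨(6, 1, 3), (0, -1, 0), (0, 0, 1)⟩),
  ((5, -4), ⟨(3, 0, 3), (1, 0, 0), (0, 0, -1)⟩), ((7, 5), ⟨(5, 0, 3), (-1, 0, 0), (0, 0, 1)⟩),
  ((6, 6), ⟨(6, 1, 5), (0, -1, 0), (0, 0, 1)⟩), ((7, 6), ⟨(5, 0, 5), (-1, 0, 0), (0, 0, 1)⟩),
  ((8, 6), ⟨(3, 0, 5), (-1, 0, 0), (0, 0, 1)⟩), ((9, 6), ⟨(1, 0, 5), (-1, 0, 0), (0, 0, 1)⟩)]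

def o3_5 : List Cell := [
  (-4, -4), (-4, -3), (-4, -2), (-4, -1), (-4, 0), (-4, 1), (-4, 2), (-4, 3), (-4, 4), (-4, 5),
  (-4, 6), (-4, 7), (-4, 8), (-4, 9), (-3, -4), (-3, 9), (-2, -4), (-2, 9), (-1, -4), (-1, 9),
  (0, -4), (0, 9), (1, -4), (1, 9), (2, -4), (2, 9), (3, -4), (3, 9), (4, 9), (5, 9), (6, -4),
  (6, 9), (7, -4), (7, 9), (8, -4), (8, 9), (9, -4), (9, -3), (9, -2), (9, -1), (9, 0), (9, 1),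
  (9, 2), (9, 3), (9, 4), (9, 5), (9, 7), (9, 8), (9, 9), (-3, -3), (-3, -2), (-3, -1), (-3, 0),
  (-3, 1), (-3, 2), (-3, 3), (-3, 4), (-3, 5), (-3, 6), (-3, 7), (-3, 8), (-2, -3), (-2, 8),
  (-1, -3), (-1, 8), (0, -3), (0, 8), (1, -3), (1, 8), (2, -3), (2, 8), (3, -3), (3, 8), (4, 8),
  (5, 8), (6, -3), (6, 8), (7, -3), (7, 8), (8, -3), (8, 8), (8, -2), (8, -1), (8, 0), (8, 1),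
  (8, 2), (8, 3), (8, 4), (8, 5), (8, 7), (-2, 1), (-2, 2), (-2, 3), (-2, 4), (-2, 5), (-2, 7),
  (-1, -2), (-1, 7), (0, -2), (0, 7), (1, -2), (1, 7), (2, -2), (2, 7), (3, -2), (3, 7), (4, 7),
  (5, 7), (6, 7), (7, -2), (7, 7), (7, -1), (7, 0), (7, 1), (7, 2), (7, 3), (-1, 2), (-1, 3),
  (-1, 4), (0, -1), (1, -1), (1, 6), (2, -1), (2, 6), (3, 6), (4, 6), (5, 6), (6, -1), (6, 0),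
  (6, 1), (6, 2), (6, 3), (0, 3), (1, 0), (2, 5), (3, 5), (4, 5), (5, 0), (5, 1), (5, 2), (3, 4),
  (4, 1)]

theorem s3_5 : strongB 3 (-4) 14 n3_5 o3_5 = true := by
  decide +kernel

def t3_5 : List (ℤ × ℤ × ℕ) := [
  (-6, -5, 31), (-6, -3, 18), (-6, -2, 8), (-5, 7, 55), (-3, 1, 17), (-3, 7, 45), (-2, 7, 63),
  (1, -3, 48), (1, 4, 48), (4, 1, 17), (5, -9, 59), (5, -6, 34), (6, -5, 56), (7, 7, 16),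
  (8, 4, 8), (9, 6, 42)]

theorem i3_5 : (n3_5.map Prod.fst).all (pinB zO_SB_3_5 5 0 0) = true := by
  decide +kernel

theorem j3_5 : certOK (fun p => pinB zO_SB_3_5 5 0 0 p && !(n3_5.map Prod.fst).contains p) t3_5 = true := by
  decide +kernel

end RCN
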