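import Pool.Agent.RCN.DPins

/-! # Explicit nest 3_6 -/

namespace RCN

def n3_6 : List (Cell × Placement) := [
  ((-4, -2), ⟨(0, 1, 3), (0, 0, -1), (0, 1, 0)⟩), ((-3, -2), ⟨(0, 1, 1), (0, 0, -1), (0, 1, 0)⟩),
  ((-4, -1), ⟨(0, 3, 3), (0, 0, -1), (0, 1, 0)⟩), ((-2, -2), ⟨(1, 1, 0), (1, 0, 0), (0, 1, 0)⟩),
  ((-3, -1), ⟨(0, 3, 1), (0, 0, -1), (0, 1, 0)⟩), ((-2, -1), ⟨(1, 3, 0), (1, 0, 0), (0, 1, 0)⟩),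
  ((-3, 0), ⟨(0, 5, 1), (0, 0, -1), (0, 1, 0)⟩), ((-1, -1), ⟨(3, 3, 0), (1, 0, 0), (0, 1, 0)⟩),
  ((-2, 0), ⟨(1, 5, 0), (1, 0, 0), (0, 1, 0)⟩), ((-1, 0), ⟨(3, 5, 0), (1, 0, 0), (0, 1, 0)⟩),
  ((-2, 1), ⟨(1, 6, 1), (1, 0, 0), (0, 0, 1)⟩), ((0, 0), ⟨(5, 5, 0), (1, 0, 0), (0, 1, 0)⟩),
  ((-1, 1), ⟨(3, 6, 1), (1, 0, 0), (0, 0, 1)⟩), ((0, 1), ⟨(5, 6, 1), (1, 0, 0), (0, 0, 1)⟩),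
  ((-1, 2), ⟨(3, 6, 3), (1, 0, 0), (0, 0, 1)⟩), ((1, 1), ⟨(6, 5, 1), (0, -1, 0), (0, 0, 1)⟩),
  ((0, 2), ⟨(5, 6, 3), (1, 0, 0), (0, 0, 1)⟩), ((2, 1), ⟨(6, 3, 1), (0, -1, 0), (0, 0, 1)⟩),
  ((1, 2), ⟨(6, 5, 3), (0, -1, 0), (0, 0, 1)⟩), ((0, 3), ⟨(5, 6, 5), (1, 0, 0), (0, 0, 1)⟩),
  ((3, 1), ⟨(6, 1, 1), (0, -1, 0), (0, 0, 1)⟩), ((2, 2), ⟨(6, 3, 3), (0, -1, 0), (0, 0, 1)⟩),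
  ((2, 0), ⟨(5, 3, 0), (0, -1, 0), (1, 0, 0)⟩), ((1, 3), ⟨(6, 5, 5), (0, -1, 0), (0, 0, 1)⟩),
  ((4, 1), ⟨(5, 0, 1), (-1, 0, 0), (0, 0, 1)⟩), ((3, 2), ⟨(6, 1, 3), (0, -1, 0), (0, 0, 1)⟩),
  ((3, 0), ⟨(5, 1, 0), (0, -1, 0), (1, 0, 0)⟩), ((2, 3), ⟨(6, 3, 5), (0, -1, 0), (0, 0, 1)⟩),
  ((1, 4), ⟨(5, 5, 6), (0, -1, 0), (-1, 0, 0)⟩), ((4, 2), ⟨(5, 0, 3), (-1, 0, 0), (0, 0, 1)⟩),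
  ((3, 3), ⟨(6, 1, 5), (0, -1, 0), (0, 0, 1)⟩), ((3, -1), ⟨(3, 1, 0), (0, -1, 0), (1, 0, 0)⟩),
  ((2, 4), ⟨(5, 3, 6), (0, -1, 0), (-1, 0, 0)⟩), ((1, 5), ⟨(3, 5, 6), (0, -1, 0), (-1, 0, 0)⟩),
  ((5, 2), ⟨(3, 0, 3), (-1, 0, 0), (0, 0, 1)⟩), ((4, 3), ⟨(5, 0, 5), (-1, 0, 0), (0, 0, 1)⟩),
  ((4, -1), ⟨(3, 0, 1), (0, 0, 1), (1, 0, 0)⟩), ((0, 5), ⟨(3, 6, 5), (0, 0, 1), (-1, 0, 0)⟩),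
  ((5, 3), ⟨(3, 0, 5), (-1, 0, 0), (0, 0, 1)⟩), ((4, 4), ⟨(5, 1, 6), (-1, 0, 0), (0, 1, 0)⟩),
  ((4, -2), ⟨(1, 0, 1), (0, 0, 1), (1, 0, 0)⟩), ((0, 6), ⟨(1, 6, 5), (0, 0, 1), (-1, 0, 0)⟩),
  ((6, 3), ⟨(1, 0, 5), (-1, 0, 0), (0, 0, 1)⟩), ((5, 4), ⟨(3, 1, 6), (-1, 0, 0), (0, 1, 0)⟩),
  ((5, -2), ⟨(1, 0, 3), (0, 0, 1), (1, 0, 0)⟩), ((0, 7), ⟨(0, 5, 5), (0, 0, 1), (0, -1, 0)⟩),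
  ((-1, 6), ⟨(1, 6, 3), (0, 0, 1), (-1, 0, 0)⟩), ((6, 4), ⟨(1, 1, 6), (-1, 0, 0), (0, 1, 0)⟩),
  ((5, 5), ⟨(3, 3, 6), (-1, 0, 0), (0, 1, 0)⟩), ((-1, 7), ⟨(0, 5, 3), (0, 0, 1), (0, -1, 0)⟩),
  ((7, 4), ⟨(0, 1, 5), (0, 0, -1), (0, 1, 0)⟩), ((6, 5), ⟨(1, 3, 6), (-1, 0, 0), (0, 1, 0)⟩),
  ((7, 5), ⟨(0, 3, 5), (0, 0, -1), (0, 1, 0)⟩), ((6, 6), ⟨(1, 5, 6), (-1, 0, 0), (0, 1, 0)⟩)]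

def o3_6 : List Cell := [
  (-4, -4), (-4, -3), (-4, 0), (-4, 1), (-4, 2), (-4, 3), (-4, 4), (-4, 5), (-4, 6), (-4, 7),
  (-3, -4), (-3, 7), (-2, -4), (-2, 7), (-1, -4), (0, -4), (1, -4), (1, 7), (2, -4), (2, 7),
  (3, -4), (3, 7), (4, -4), (4, 7), (5, -4), (5, 7), (6, -4), (6, 7), (7, -4), (7, -3), (7, -2),
  (7, -1), (7, 0), (7, 1), (7, 2), (7, 3), (7, 6), (7, 7), (-3, -3), (-3, 1), (-3, 2), (-3, 3),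
  (-3, 4), (-3, 5), (-3, 6), (-2, -3), (-2, 6), (-1, -3), (0, -3), (1, -3), (1, 6), (2, -3),
  (2, 6), (3, -3), (3, 6), (4, -3), (4, 6), (5, -3), (5, 6), (6, -3), (6, -2), (6, -1), (6, 0),
  (6, 1), (6, 2), (-2, 2), (-2, 3), (-2, 4), (-2, 5), (-1, -2), (0, -2), (1, -2), (2, -2),
  (2, 5), (3, -2), (3, 5), (4, 5), (5, -1), (5, 0), (5, 1), (-1, 3), (-1, 4), (-1, 5), (0, -1),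
  (1, -1), (2, -1), (3, 4), (4, 0), (0, 4), (1, 0)]

theorem s3_6 : strongB 3 (-4) 12 n3_6 o3_6 = true := by
  decide +kernel

def t3_6 : List (ℤ × ℤ × ℕ) := [
  (-8, -5, 13), (-7, -6, 17), (-6, -4, 5), (-6, -1, 17), (-6, 9, 57), (-6, 12, 11), (-4, 11, 3),
  (-3, 2, 17), (-3, 7, 20), (-3, 10, 34), (-2, 8, 23), (1, -3, 48), (1, 4, 48), (2, 5, 48),
  (4, -6, 56), (4, -4, 40), (4, 0, 17), (5, -3, 56), (7, -10, 61), (7, -7, 56), (7, 3, 17),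
  (7, 5, 20), (8, 7, 9), (9, -7, 48), (9, 6, 41), (9, 9, 17), (12, 7, 46)]

theorem i3_6 : (n3_6.map Prod.fst).all (pinB zO_SB_3_6 6 0 0) = true := by
  decide +kernel

theorem j3_6 : certOK (fun p => pinB zO_SB_3_6 6 0 0 p && !(n3_6.map Prod.fst).contains p) t3_6 = true := by
  decide +kernel

end RCN
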