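import Pool.Agent.RCN.DPins

/-! # Explicit nest 3_7 -/

namespace RCN

def n3_7 : List (Cell × Placement) := [
  ((-3, 0), ⟨(0, 3, 3), (0, -1, 0), (0, 0, -1)⟩), ((-2, 0), ⟨(0, 1, 3), (0, -1, 0), (0, 0, -1)⟩),
  ((-3, 1), ⟨(0, 3, 1), (0, -1, 0), (0, 0, -1)⟩), ((-1, 0), ⟨(1, 0, 3), (1, 0, 0), (0, 0, -1)⟩),
  ((-2, 1), ⟨(0, 1, 1), (0, -1, 0), (0, 0, -1)⟩), ((0, 0), ⟨(3, 0, 3), (1, 0, 0), (0, 0, -1)⟩),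
  ((-1, 1), ⟨(1, 0, 1), (1, 0, 0), (0, 0, -1)⟩), ((-1, -1), ⟨(1, 0, 5), (1, 0, 0), (0, 0, -1)⟩),
  ((0, 1), ⟨(3, 0, 1), (1, 0, 0), (0, 0, -1)⟩), ((1, 1), ⟨(5, 0, 1), (1, 0, 0), (0, 0, -1)⟩),
  ((0, 2), ⟨(3, 1, 0), (1, 0, 0), (0, 1, 0)⟩), ((1, 2), ⟨(5, 1, 0), (1, 0, 0), (0, 1, 0)⟩),
  ((2, 2), ⟨(6, 1, 1), (0, 0, 1), (0, 1, 0)⟩), ((1, 3), ⟨(5, 3, 0), (1, 0, 0), (0, 1, 0)⟩),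
  ((3, 2), ⟨(6, 1, 3), (0, 0, 1), (0, 1, 0)⟩), ((2, 3), ⟨(6, 3, 1), (0, 0, 1), (0, 1, 0)⟩),
  ((4, 2), ⟨(6, 1, 5), (0, 0, 1), (0, 1, 0)⟩), ((3, 3), ⟨(6, 3, 3), (0, 0, 1), (0, 1, 0)⟩),
  ((3, 1), ⟨(5, 0, 3), (0, 0, 1), (1, 0, 0)⟩), ((2, 4), ⟨(6, 5, 1), (0, 0, 1), (0, 1, 0)⟩),
  ((4, 3), ⟨(6, 3, 5), (0, 0, 1), (0, 1, 0)⟩), ((4, 1), ⟨(5, 0, 5), (0, 0, 1), (1, 0, 0)⟩),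
  ((3, 4), ⟨(6, 5, 3), (0, 0, 1), (0, 1, 0)⟩), ((2, 5), ⟨(5, 6, 1), (0, 0, 1), (-1, 0, 0)⟩),
  ((5, 3), ⟨(5, 3, 6), (-1, 0, 0), (0, 1, 0)⟩), ((4, 4), ⟨(6, 5, 5), (0, 0, 1), (0, 1, 0)⟩),
  ((5, 1), ⟨(5, 1, 6), (0, 1, 0), (1, 0, 0)⟩), ((4, 0), ⟨(3, 0, 5), (0, 0, 1), (1, 0, 0)⟩),
  ((3, 5), ⟨(5, 6, 3), (0, 0, 1), (-1, 0, 0)⟩), ((2, 6), ⟨(3, 6, 1), (0, 0, 1), (-1, 0, 0)⟩),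
  ((1, 5), ⟨(5, 5, 0), (0, 1, 0), (-1, 0, 0)⟩), ((5, 4), ⟨(5, 5, 6), (-1, 0, 0), (0, 1, 0)⟩),
  ((5, 0), ⟨(3, 1, 6), (0, 1, 0), (1, 0, 0)⟩), ((1, 6), ⟨(3, 5, 0), (0, 1, 0), (-1, 0, 0)⟩),
  ((6, 4), ⟨(3, 5, 6), (-1, 0, 0), (0, 1, 0)⟩), ((5, 5), ⟨(5, 6, 5), (-1, 0, 0), (0, 0, -1)⟩),
  ((6, 0), ⟨(3, 3, 6), (0, 1, 0), (1, 0, 0)⟩), ((5, -1), ⟨(1, 1, 6), (0, 1, 0), (1, 0, 0)⟩),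
  ((1, 7), ⟨(1, 5, 0), (0, 1, 0), (-1, 0, 0)⟩), ((0, 6), ⟨(3, 3, 0), (0, 1, 0), (-1, 0, 0)⟩),
  ((6, 5), ⟨(3, 6, 5), (-1, 0, 0), (0, 0, -1)⟩), ((6, -1), ⟨(1, 3, 6), (0, 1, 0), (1, 0, 0)⟩),
  ((5, -2), ⟨(0, 1, 5), (0, 1, 0), (0, 0, 1)⟩), ((1, 8), ⟨(0, 5, 1), (0, 1, 0), (0, 0, 1)⟩),
  ((0, 7), ⟨(1, 3, 0), (0, 1, 0), (-1, 0, 0)⟩), ((7, 5), ⟨(1, 6, 5), (-1, 0, 0), (0, 0, -1)⟩),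
  ((6, 6), ⟨(3, 6, 3), (-1, 0, 0), (0, 0, -1)⟩), ((7, -1), ⟨(1, 5, 6), (0, 1, 0), (1, 0, 0)⟩),
  ((6, -2), ⟨(0, 3, 5), (0, 1, 0), (0, 0, 1)⟩), ((-1, 7), ⟨(1, 1, 0), (0, 1, 0), (-1, 0, 0)⟩),
  ((7, 6), ⟨(1, 6, 3), (-1, 0, 0), (0, 0, -1)⟩), ((7, -2), ⟨(0, 5, 5), (0, 1, 0), (0, 0, 1)⟩),
  ((8, 6), ⟨(0, 5, 3), (0, -1, 0), (0, 0, -1)⟩), ((7, 7), ⟨(1, 6, 1), (-1, 0, 0), (0, 0, -1)⟩)]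

def o3_7 : List Cell := [
  (-3, -3), (-3, -2), (-3, -1), (-3, 2), (-3, 3), (-3, 4), (-3, 5), (-3, 6), (-3, 7), (-3, 8),
  (-2, -3), (-2, 8), (-1, -3), (-1, 8), (0, -3), (0, 8), (1, -3), (2, -3), (2, 8), (3, -3),
  (3, 8), (4, -3), (4, 8), (5, -3), (5, 8), (6, -3), (6, 8), (7, -3), (7, 8), (8, -3), (8, -2),
  (8, -1), (8, 0), (8, 1), (8, 2), (8, 3), (8, 4), (8, 5), (8, 7), (8, 8), (-2, -2), (-2, -1),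
  (-2, 2), (-2, 3), (-2, 4), (-2, 5), (-2, 6), (-2, 7), (-1, -2), (0, -2), (1, -2), (2, -2),
  (2, 7), (3, -2), (3, 7), (4, -2), (4, 7), (5, 7), (6, 7), (7, 0), (7, 1), (7, 2), (7, 3),
  (7, 4), (-1, 2), (-1, 3), (-1, 4), (-1, 5), (-1, 6), (0, -1), (1, -1), (2, -1), (3, -1),
  (3, 6), (4, -1), (4, 6), (5, 6), (6, 1), (6, 2), (6, 3), (0, 3), (0, 4), (0, 5), (1, 0),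
  (2, 0), (3, 0), (4, 5), (5, 2), (1, 4), (2, 1)]

theorem s3_7 : strongB 3 (-3) 12 n3_7 o3_7 = true := by
  decide +kernel

def t3_7 : List (ℤ × ℤ × ℕ) := [
  (-11, -5, 54), (-9, -7, 45), (-8, -6, 45), (-8, -4, 55), (-7, 11, 48), (-6, -5, 13),
  (-6, -2, 7), (-6, 0, 17), (-6, 14, 18), (-5, 12, 34), (-4, -4, 6), (-4, 8, 56), (-4, 10, 21),
  (-3, 2, 29), (-3, 12, 55), (-1, 2, 3), (-1, 8, 28), (-1, 10, 34), (1, -3, 57), (1, -1, 34),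
  (2, 5, 48), (3, 6, 48), (4, -6, 48), (5, -4, 32), (5, 1, 29), (7, -9, 44), (7, -5, 30),
  (7, 1, 6), (8, -8, 52), (8, 4, 3), (8, 7, 6), (9, -11, 49), (10, -9, 53), (10, -7, 34),
  (10, 4, 3), (10, 7, 8), (11, 9, 7), (11, 11, 17), (12, 7, 16), (14, 9, 45)]

theorem i3_7 : (n3_7.map Prod.fst).all (pinB zO_SB_3_7 7 0 0) = true := by
  decide +kernel

theorem j3_7 : certOK (fun p => pinB zO_SB_3_7 7 0 0 p && !(n3_7.map Prod.fst).contains p) t3_7 = true := by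
  decide +kernel

end RCN
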