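import Pool.Agent.RCN.DPins

/-! # Explicit nest 3_8 -/

namespace RCN

def n3_8 : List (Cell × Placement) := [
  ((-2, -1), ⟨(0, 1, 1), (0, 0, -1), (0, 1, 0)⟩), ((-1, -1), ⟨(1, 1, 0), (1, 0, 0), (0, 1, 0)⟩),
  ((-2, 0), ⟨(0, 3, 1), (0, 0, -1), (0, 1, 0)⟩), ((-1, 0), ⟨(1, 3, 0), (1, 0, 0), (0, 1, 0)⟩),
  ((0, 0), ⟨(3, 3, 0), (1, 0, 0), (0, 1, 0)⟩), ((-1, 1), ⟨(1, 5, 0), (1, 0, 0), (0, 1, 0)⟩),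
  ((0, 1), ⟨(3, 5, 0), (1, 0, 0), (0, 1, 0)⟩), ((-1, 2), ⟨(1, 6, 1), (1, 0, 0), (0, 0, 1)⟩),
  ((1, 1), ⟨(5, 5, 0), (1, 0, 0), (0, 1, 0)⟩), ((0, 2), ⟨(3, 6, 1), (1, 0, 0), (0, 0, 1)⟩),
  ((1, 2), ⟨(5, 6, 1), (1, 0, 0), (0, 0, 1)⟩), ((0, 3), ⟨(3, 6, 3), (1, 0, 0), (0, 0, 1)⟩),
  ((2, 2), ⟨(6, 5, 1), (0, -1, 0), (0, 0, 1)⟩), ((1, 3), ⟨(5, 6, 3), (1, 0, 0), (0, 0, 1)⟩),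
  ((3, 2), ⟨(6, 3, 1), (0, -1, 0), (0, 0, 1)⟩), ((2, 3), ⟨(6, 5, 3), (0, -1, 0), (0, 0, 1)⟩),
  ((1, 4), ⟨(5, 6, 5), (1, 0, 0), (0, 0, 1)⟩), ((4, 2), ⟨(6, 1, 1), (0, -1, 0), (0, 0, 1)⟩),
  ((3, 3), ⟨(6, 3, 3), (0, -1, 0), (0, 0, 1)⟩), ((3, 1), ⟨(5, 3, 0), (0, -1, 0), (1, 0, 0)⟩),
  ((2, 4), ⟨(6, 5, 5), (0, -1, 0), (0, 0, 1)⟩), ((5, 2), ⟨(5, 0, 1), (-1, 0, 0), (0, 0, 1)⟩),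
  ((4, 3), ⟨(6, 1, 3), (0, -1, 0), (0, 0, 1)⟩), ((4, 1), ⟨(5, 1, 0), (0, -1, 0), (1, 0, 0)⟩),
  ((3, 4), ⟨(6, 3, 5), (0, -1, 0), (0, 0, 1)⟩), ((2, 5), ⟨(5, 5, 6), (0, -1, 0), (-1, 0, 0)⟩),
  ((5, 3), ⟨(5, 0, 3), (-1, 0, 0), (0, 0, 1)⟩), ((4, 4), ⟨(6, 1, 5), (0, -1, 0), (0, 0, 1)⟩),
  ((4, 0), ⟨(3, 1, 0), (0, -1, 0), (1, 0, 0)⟩), ((3, 5), ⟨(5, 3, 6), (0, -1, 0), (-1, 0, 0)⟩),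
  ((2, 6), ⟨(3, 5, 6), (0, -1, 0), (-1, 0, 0)⟩), ((6, 3), ⟨(3, 0, 3), (-1, 0, 0), (0, 0, 1)⟩),
  ((5, 4), ⟨(5, 0, 5), (-1, 0, 0), (0, 0, 1)⟩), ((5, 0), ⟨(3, 0, 1), (0, 0, 1), (1, 0, 0)⟩),
  ((1, 6), ⟨(3, 6, 5), (0, 0, 1), (-1, 0, 0)⟩), ((6, 4), ⟨(3, 0, 5), (-1, 0, 0), (0, 0, 1)⟩),
  ((5, 5), ⟨(5, 1, 6), (-1, 0, 0), (0, 1, 0)⟩), ((5, -1), ⟨(1, 0, 1), (0, 0, 1), (1, 0, 0)⟩),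
  ((1, 7), ⟨(1, 6, 5), (0, 0, 1), (-1, 0, 0)⟩), ((7, 4), ⟨(1, 0, 5), (-1, 0, 0), (0, 0, 1)⟩),
  ((6, 5), ⟨(3, 1, 6), (-1, 0, 0), (0, 1, 0)⟩), ((6, -1), ⟨(1, 0, 3), (0, 0, 1), (1, 0, 0)⟩),
  ((1, 8), ⟨(0, 5, 5), (0, 0, 1), (0, -1, 0)⟩), ((0, 7), ⟨(1, 6, 3), (0, 0, 1), (-1, 0, 0)⟩),
  ((7, 5), ⟨(1, 1, 6), (-1, 0, 0), (0, 1, 0)⟩), ((6, 6), ⟨(3, 3, 6), (-1, 0, 0), (0, 1, 0)⟩),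
  ((0, 8), ⟨(0, 5, 3), (0, 0, 1), (0, -1, 0)⟩), ((8, 5), ⟨(0, 1, 5), (0, 0, -1), (0, 1, 0)⟩),
  ((7, 6), ⟨(1, 3, 6), (-1, 0, 0), (0, 1, 0)⟩), ((0, 9), ⟨(0, 3, 3), (0, 0, 1), (0, -1, 0)⟩),
  ((-1, 8), ⟨(0, 5, 1), (0, 0, 1), (0, -1, 0)⟩), ((8, 6), ⟨(0, 3, 5), (0, 0, -1), (0, 1, 0)⟩),
  ((7, 7), ⟨(1, 5, 6), (-1, 0, 0), (0, 1, 0)⟩), ((0, 10), ⟨(0, 1, 3), (0, 0, 1), (0, -1, 0)⟩)]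

def o3_8 : List Cell := [
  (-2, -2), (-2, 1), (-2, 2), (-2, 3), (-2, 4), (-2, 5), (-2, 6), (-2, 7), (-2, 8), (-2, 9),
  (-2, 10), (-1, -2), (-1, 10), (0, -2), (1, -2), (1, 10), (2, -2), (2, 10), (3, -2), (3, 10),
  (4, -2), (4, 10), (5, -2), (5, 10), (6, -2), (6, 10), (7, -2), (7, 10), (8, -2), (8, 10),
  (9, -2), (9, 10), (10, -2), (10, -1), (10, 0), (10, 1), (10, 2), (10, 3), (10, 4), (10, 5),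
  (10, 6), (10, 7), (10, 8), (10, 9), (10, 10), (-1, 3), (-1, 4), (-1, 5), (-1, 6), (-1, 7),
  (-1, 9), (0, -1), (1, -1), (1, 9), (2, -1), (2, 9), (3, -1), (3, 9), (4, -1), (4, 9), (5, 9),
  (6, 9), (7, -1), (7, 9), (8, -1), (8, 9), (9, -1), (9, 9), (9, 0), (9, 1), (9, 2), (9, 3),
  (9, 4), (9, 5), (9, 6), (9, 7), (9, 8), (0, 4), (0, 5), (0, 6), (1, 0), (2, 0), (2, 8), (3, 0),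
  (3, 8), (4, 8), (5, 8), (6, 8), (7, 0), (7, 8), (8, 0), (8, 8), (8, 1), (8, 2), (8, 3), (8, 4),
  (8, 7), (1, 5), (2, 1), (2, 7), (3, 7), (4, 7), (5, 7), (6, 7), (7, 1), (6, 0), (7, 2), (7, 3),
  (3, 6), (4, 6), (5, 6), (6, 1), (6, 2), (4, 5), (5, 1)]

theorem s3_8 : strongB 3 (-2) 13 n3_8 o3_8 = true := by
  decide +kernel

def t3_8 : List (ℤ × ℤ × ℕ) := [
  (-12, -7, 56), (-11, -5, 29), (-9, -8, 17), (-9, -6, 1), (-8, -6, 7), (-8, -1, 17),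
  (-8, 14, 23), (-7, -4, 8), (-7, -2, 16), (-7, 12, 56), (-7, 15, 42), (-7, 17, 16),
  (-5, -4, 17), (-5, 0, 51), (-4, 9, 56), (-4, 11, 48), (-4, 14, 59), (-3, -1, 1), (-3, 3, 6),
  (-2, 10, 60), (-2, 13, 48), (-1, 3, 3), (0, 10, 51), (1, -3, 57), (1, -1, 34), (1, 7, 49),
  (2, 9, 56), (3, 5, 31), (3, 7, 20), (4, -6, 56), (4, -4, 35), (5, 0, 29), (6, -2, 11),
  (7, -9, 57), (7, -7, 56), (7, -5, 34), (8, -4, 56), (8, 1, 6), (8, 3, 4), (8, 7, 19),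
  (8, 8, 16), (10, -12, 48), (10, -9, 59), (10, 4, 27), (11, -7, 56), (11, 10, 6), (12, -11, 31),
  (12, -9, 20), (12, 5, 3), (12, 8, 21), (13, 9, 37), (13, 11, 11), (15, 11, 46), (15, 13, 56),
  (16, 10, 17)]

theorem i3_8 : (n3_8.map Prod.fst).all (pinB zE4 8 0 0) = true := by
  decide +kernel

theorem j3_8 : certOK (fun p => pinB zE4 8 0 0 p && !(n3_8.map Prod.fst).contains p) t3_8 = true := by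
  decide +kernel

end RCN
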