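import Pool.Agent.RCN.DPins

/-! # Explicit nest 3_9 -/

namespace RCN

def n3_9 : List (Cell × Placement) := [
  ((-3, 0), ⟨(0, 1, 3), (0, 0, -1), (0, 1, 0)⟩), ((-2, 0), ⟨(0, 1, 1), (0, 0, -1), (0, 1, 0)⟩),
  ((-2, 1), ⟨(0, 3, 1), (0, 0, -1), (0, 1, 0)⟩), ((-1, 1), ⟨(1, 3, 0), (1, 0, 0), (0, 1, 0)⟩),
  ((-2, 2), ⟨(0, 5, 1), (0, 0, -1), (0, 1, 0)⟩), ((-1, 2), ⟨(1, 5, 0), (1, 0, 0), (0, 1, 0)⟩),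
  ((0, 2), ⟨(3, 5, 0), (1, 0, 0), (0, 1, 0)⟩), ((-1, 3), ⟨(1, 6, 1), (1, 0, 0), (0, 0, 1)⟩),
  ((0, 3), ⟨(3, 6, 1), (1, 0, 0), (0, 0, 1)⟩), ((1, 3), ⟨(5, 6, 1), (1, 0, 0), (0, 0, 1)⟩),
  ((0, 4), ⟨(3, 6, 3), (1, 0, 0), (0, 0, 1)⟩), ((2, 3), ⟨(6, 5, 1), (0, -1, 0), (0, 0, 1)⟩),
  ((1, 4), ⟨(5, 6, 3), (1, 0, 0), (0, 0, 1)⟩), ((3, 3), ⟨(6, 3, 1), (0, -1, 0), (0, 0, 1)⟩),
  ((2, 4), ⟨(6, 5, 3), (0, -1, 0), (0, 0, 1)⟩), ((2, 2), ⟨(5, 5, 0), (0, -1, 0), (1, 0, 0)⟩),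
  ((1, 5), ⟨(5, 6, 5), (1, 0, 0), (0, 0, 1)⟩), ((4, 3), ⟨(6, 1, 1), (0, -1, 0), (0, 0, 1)⟩),
  ((3, 4), ⟨(6, 3, 3), (0, -1, 0), (0, 0, 1)⟩), ((3, 2), ⟨(5, 3, 0), (0, -1, 0), (1, 0, 0)⟩),
  ((2, 5), ⟨(6, 5, 5), (0, -1, 0), (0, 0, 1)⟩), ((5, 3), ⟨(5, 0, 1), (-1, 0, 0), (0, 0, 1)⟩),
  ((4, 4), ⟨(6, 1, 3), (0, -1, 0), (0, 0, 1)⟩), ((4, 2), ⟨(5, 1, 0), (0, -1, 0), (1, 0, 0)⟩),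
  ((3, 5), ⟨(6, 3, 5), (0, -1, 0), (0, 0, 1)⟩), ((3, 1), ⟨(3, 3, 0), (0, -1, 0), (1, 0, 0)⟩),
  ((2, 6), ⟨(5, 5, 6), (0, -1, 0), (-1, 0, 0)⟩), ((5, 4), ⟨(5, 0, 3), (-1, 0, 0), (0, 0, 1)⟩),
  ((4, 5), ⟨(6, 1, 5), (0, -1, 0), (0, 0, 1)⟩), ((4, 1), ⟨(3, 1, 0), (0, -1, 0), (1, 0, 0)⟩),
  ((3, 6), ⟨(5, 3, 6), (0, -1, 0), (-1, 0, 0)⟩), ((2, 7), ⟨(3, 5, 6), (0, -1, 0), (-1, 0, 0)⟩),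
  ((6, 4), ⟨(3, 0, 3), (-1, 0, 0), (0, 0, 1)⟩), ((5, 5), ⟨(5, 0, 5), (-1, 0, 0), (0, 0, 1)⟩),
  ((4, 6), ⟨(5, 1, 6), (0, -1, 0), (-1, 0, 0)⟩), ((5, 1), ⟨(3, 0, 1), (0, 0, 1), (1, 0, 0)⟩),
  ((4, 0), ⟨(1, 1, 0), (0, -1, 0), (1, 0, 0)⟩), ((3, 7), ⟨(3, 3, 6), (0, -1, 0), (-1, 0, 0)⟩),
  ((2, 8), ⟨(1, 5, 6), (0, -1, 0), (-1, 0, 0)⟩), ((1, 7), ⟨(3, 6, 5), (0, 0, 1), (-1, 0, 0)⟩),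
  ((6, 5), ⟨(3, 0, 5), (-1, 0, 0), (0, 0, 1)⟩), ((5, 0), ⟨(1, 0, 1), (0, 0, 1), (1, 0, 0)⟩),
  ((1, 8), ⟨(1, 6, 5), (0, 0, 1), (-1, 0, 0)⟩), ((7, 5), ⟨(1, 0, 5), (-1, 0, 0), (0, 0, 1)⟩),
  ((6, 6), ⟨(3, 1, 6), (-1, 0, 0), (0, 1, 0)⟩), ((6, 0), ⟨(1, 0, 3), (0, 0, 1), (1, 0, 0)⟩),
  ((1, 9), ⟨(0, 5, 5), (0, 0, 1), (0, -1, 0)⟩), ((0, 8), ⟨(1, 6, 3), (0, 0, 1), (-1, 0, 0)⟩),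
  ((7, 6), ⟨(1, 1, 6), (-1, 0, 0), (0, 1, 0)⟩), ((0, 9), ⟨(0, 5, 3), (0, 0, 1), (0, -1, 0)⟩),
  ((8, 6), ⟨(0, 1, 5), (0, 0, -1), (0, 1, 0)⟩), ((7, 7), ⟨(1, 3, 6), (-1, 0, 0), (0, 1, 0)⟩),
  ((0, 10), ⟨(0, 3, 3), (0, 0, 1), (0, -1, 0)⟩), ((8, 7), ⟨(0, 3, 5), (0, 0, -1), (0, 1, 0)⟩)]

def o3_9 : List Cell := [
  (-3, -3), (-3, -2), (-3, -1), (-3, 1), (-3, 2), (-3, 3), (-3, 4), (-3, 5), (-3, 6), (-3, 7),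
  (-3, 8), (-3, 9), (-3, 10), (-2, -3), (-2, 10), (-1, -3), (-1, 10), (0, -3), (1, -3), (1, 10),
  (2, -3), (2, 10), (3, -3), (3, 10), (4, -3), (4, 10), (5, -3), (5, 10), (6, -3), (6, 10),
  (7, -3), (7, 10), (8, -3), (8, 10), (9, -3), (9, 10), (10, -3), (10, -2), (10, -1), (10, 0),
  (10, 1), (10, 2), (10, 3), (10, 4), (10, 5), (10, 6), (10, 7), (10, 8), (10, 9), (10, 10),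
  (-2, -2), (-2, -1), (-2, 3), (-2, 4), (-2, 5), (-2, 6), (-2, 7), (-2, 8), (-2, 9), (-1, -2),
  (-1, 9), (0, -2), (1, -2), (2, -2), (2, 9), (3, -2), (3, 9), (4, -2), (4, 9), (5, -2), (5, 9),
  (6, -2), (6, 9), (7, -2), (7, 9), (8, -2), (8, 9), (9, -2), (9, 9), (9, -1), (9, 0), (9, 1),
  (9, 2), (9, 3), (9, 4), (9, 5), (9, 6), (9, 7), (9, 8), (-1, -1), (-1, 4), (-1, 5), (-1, 6),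
  (-1, 7), (-1, 8), (0, -1), (1, -1), (2, -1), (3, -1), (3, 8), (4, -1), (4, 8), (5, -1), (5, 8),
  (6, -1), (6, 8), (7, -1), (7, 8), (8, -1), (8, 8), (8, 0), (8, 1), (8, 2), (8, 3), (8, 4),
  (8, 5), (-1, 0), (0, 5), (0, 6), (0, 7), (0, 0), (1, 0), (2, 0), (3, 0), (4, 7), (5, 7),
  (6, 7), (7, 0), (7, 1), (7, 2), (7, 3), (7, 4), (1, 6), (0, 1), (1, 1), (2, 1), (5, 6), (6, 1),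
  (6, 2), (6, 3), (1, 2), (5, 2)]

theorem s3_9 : strongB 3 (-3) 14 n3_9 o3_9 = true := by
  decide +kernel

def t3_9 : List (ℤ × ℤ × ℕ) := [
  (-12, -9, 48), (-12, -6, 27), (-10, -9, 52), (-10, -6, 0), (-10, -2, 17), (-9, -4, 6),
  (-9, 16, 30), (-9, 18, 18), (-8, -8, 6), (-8, -4, 18), (-7, -2, 60), (-7, 13, 48),
  (-6, -5, 31), (-6, 1, 29), (-6, 16, 17), (-6, 18, 16), (-5, -2, 49), (-5, 12, 61), (-4, 1, 26),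
  (-4, 15, 29), (-3, -2, 31), (-3, 4, 29), (-3, 9, 48), (-3, 11, 55), (-2, 13, 46), (-1, 4, 3),
  (-1, 14, 48), (0, 0, 34), (0, 9, 48), (0, 11, 56), (1, -3, 48), (2, 11, 48), (3, -3, 53),
  (3, 6, 57), (3, 8, 21), (4, -6, 56), (4, 9, 34), (5, -4, 42), (5, -2, 43), (5, 0, 57),
  (6, -6, 57), (6, 3, 17), (7, -8, 42), (7, 1, 41), (7, 8, 19), (8, -10, 57), (8, 3, 17),
  (9, -6, 45), (9, -4, 48), (9, 6, 19), (9, 7, 18), (10, 10, 16), (11, -13, 53), (11, -11, 38),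
  (11, -9, 20), (11, -7, 49), (11, 3, 3), (12, 8, 54), (13, -8, 48), (13, 6, 11), (13, 11, 39),
  (13, 13, 17), (14, -12, 31), (14, -10, 30), (15, 8, 1), (16, 8, 6), (16, 11, 60), (16, 14, 55),
  (18, 11, 50), (18, 14, 48), (20, 12, 29), (22, 12, 6)]

theorem i3_9 : (n3_9.map Prod.fst).all (pinB zW9 9 0 0) = true := by
  decide +kernel

theorem j3_9 : certOK (fun p => pinB zW9 9 0 0 p && !(n3_9.map Prod.fst).contains p) t3_9 = true := by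
  decide +kernel

end RCN
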