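import Pool.Agent.RCN.DPins

/-! # Explicit nest 4_7 -/

namespace RCN

def t4_7 : List (ℤ × ℤ × ℕ) := [
  (-10, -7, 56), (-9, -5, 61), (-7, -6, 17), (-7, -5, 3), (-7, -2, 9), (-7, 11, 57),
  (-7, 13, 40), (-6, 0, 17), (-6, 14, 48), (-4, 10, 5), (-3, 3, 17), (-3, 12, 50), (-1, 8, 56),
  (-1, 10, 56), (1, -3, 48), (2, 5, 57), (2, 7, 56), (4, -6, 48), (5, -2, 55), (7, -9, 55),
  (7, 1, 6), (8, -7, 45), (8, -5, 48), (9, 6, 60), (10, -9, 5), (10, -7, 34), (10, 4, 6),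
  (10, 9, 29), (11, 7, 35), (12, 10, 13), (13, 9, 12), (15, 8, 17), (15, 9, 3)]

theorem i4_7 : inclB zO_47 zI_47 4 7 1 1 = true := by
  decide +kernel

theorem j4_7 : certOK (fun p => pinB zO_47 7 0 0 p && !pinB zI_47 4 1 1 p) t4_7 = true := by
  decide +kernel

end RCN
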