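import Pool.Agent.RCN.DPins

/-! # Explicit nest 4_9 -/

namespace RCN

def t4_9 : List (ℤ × ℤ × ℕ) := [
  (-12, -9, 48), (-12, -6, 27), (-10, -9, 44), (-10, -6, 51), (-10, -2, 17), (-9, 16, 30),
  (-9, 18, 18), (-8, -8, 6), (-8, -6, 4), (-8, -3, 6), (-7, 1, 17), (-7, 13, 56), (-7, 15, 37),
  (-6, -5, 31), (-6, -3, 26), (-6, 17, 40), (-5, -1, 55), (-5, 18, 34), (-4, 1, 61),
  (-4, 11, 28), (-4, 13, 37), (-4, 15, 32), (-3, 5, 17), (-2, 4, 17), (-1, 12, 46), (0, 9, 37),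
  (0, 13, 48), (1, -3, 57), (1, -1, 34), (2, 11, 34), (3, 7, 31), (3, 9, 20), (4, -4, 5),
  (5, -7, 48), (5, 6, 6), (6, 0, 29), (7, -7, 54), (8, -10, 55), (8, -3, 44), (9, -7, 26),
  (9, 1, 6), (9, 3, 6), (10, -11, 59), (10, -5, 48), (10, 6, 22), (10, 9, 35), (11, -9, 53),
  (11, -7, 38), (11, 8, 19), (12, -13, 5), (12, -11, 40), (12, 4, 6), (12, 10, 21),
  (13, -10, 40), (13, 12, 6), (14, -9, 56), (14, 7, 31), (14, 10, 56), (15, 13, 11),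
  (16, 10, 55), (17, 13, 45), (17, 15, 56), (18, 11, 30), (19, 13, 41), (22, 12, 6)]

theorem i4_9 : inclB zW9 zI_S_4_9 4 9 2 2 = true := by
  decide +kernel

theorem j4_9 : certOK (fun p => pinB zW9 9 0 0 p && !pinB zI_S_4_9 4 2 2 p) t4_9 = true := by
  decide +kernel

end RCN
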