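import Pool.Agent.RCN.DPins

/-! # Explicit nest 5_7 -/

namespace RCN

def t5_7 : List (ℤ × ℤ × ℕ) := [
  (-9, -6, 60), (-9, -3, 39), (-8, -7, 17), (-7, -4, 15), (-7, 11, 48), (-6, 0, 17),
  (-6, 13, 25), (-5, 15, 49), (-3, 3, 17), (-3, 11, 47), (-3, 14, 44), (0, 9, 48), (1, -3, 48),
  (3, 6, 48), (4, -6, 48), (6, 1, 17), (8, -11, 3), (9, 4, 17), (10, -9, 28), (10, -7, 34),
  (11, 8, 16), (11, 10, 29), (12, 7, 18), (13, 10, 24)]

theorem i5_7 : inclB zO_SB_5_7 zI_SB_5_7 5 7 1 1 = true := by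
  decide +kernel

theorem j5_7 : certOK (fun p => pinB zO_SB_5_7 7 0 0 p && !pinB zI_SB_5_7 5 1 1 p) t5_7 = true := by
  decide +kernel

end RCN
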