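import Pool.Agent.RCN.DPins

/-! # Explicit nest 5_8 -/

namespace RCN

def t5_8 : List (ℤ × ℤ × ℕ) := [
  (-12, -5, 17), (-11, -8, 56), (-10, -6, 29), (-9, -2, 17), (-8, -7, 17), (-8, -6, 6),
  (-8, 13, 48), (-7, 14, 57), (-7, 16, 40), (-6, 1, 17), (-6, 17, 34), (-5, 11, 31),
  (-5, 13, 16), (-3, 4, 17), (-2, 13, 48), (0, 9, 48), (1, -3, 48), (1, 10, 48), (3, 6, 57),
  (3, 8, 34), (4, -6, 48), (6, 0, 17), (7, -9, 55), (7, -3, 56), (9, -7, 13), (9, 3, 17),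
  (10, -12, 48), (10, -9, 24), (11, -7, 56), (11, 9, 51), (12, -11, 31), (12, -9, 20),
  (12, 6, 17), (12, 7, 3), (13, 10, 54), (13, 13, 17), (15, 9, 17), (15, 10, 3), (16, 12, 56)]

theorem i5_8 : inclB zE4 zI_DF_5 5 8 1 1 = true := by
  decide +kernel

theorem j5_8 : certOK (fun p => pinB zE4 8 0 0 p && !pinB zI_DF_5 5 1 1 p) t5_8 = true := by
  decide +kernel

end RCN
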