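import Pool.Agent.RCN.DPins

/-! # Explicit nest 5_9 -/

namespace RCN

def t5_9 : List (ℤ × ℤ × ℕ) := [
  (-12, -9, 48), (-12, -7, 55), (-11, -4, 29), (-10, -7, 50), (-9, -9, 6), (-9, -4, 24),
  (-9, 15, 48), (-8, -6, 38), (-8, -3, 59), (-8, 16, 56), (-8, 18, 37), (-7, -1, 53),
  (-6, -4, 49), (-6, 2, 17), (-6, 12, 48), (-5, 1, 17), (-5, 13, 58), (-5, 16, 36), (-5, 18, 34),
  (-4, 14, 58), (-3, 5, 17), (-2, 4, 17), (-1, 14, 48), (1, -3, 56), (1, -1, 34), (1, 10, 56),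
  (1, 12, 34), (4, -6, 57), (4, -4, 56), (4, 7, 57), (4, 9, 56), (7, -9, 48), (7, 1, 29),
  (8, -8, 55), (9, 1, 3), (10, -10, 8), (10, -8, 53), (10, -6, 38), (10, 4, 29), (11, -13, 53),
  (11, -11, 38), (12, 4, 3), (12, 9, 60), (13, -8, 56), (13, 13, 17), (14, -12, 31),
  (14, -10, 20), (14, 7, 17), (14, 10, 38), (14, 12, 16), (16, 14, 50), (17, 10, 17),
  (17, 12, 14), (18, 14, 46), (20, 12, 54), (22, 12, 6)]

theorem i5_9 : inclB zW9 zI_S_5_9 5 9 2 2 = true := by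
  decide +kernel

theorem j5_9 : certOK (fun p => pinB zW9 9 0 0 p && !pinB zI_S_5_9 5 2 2 p) t5_9 = true := by
  decide +kernel

end RCN
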