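import Pool.Agent.RCN.DPins

/-! # Explicit nest 6_9 -/

namespace RCN

def t6_9 : List (ℤ × ℤ × ℕ) := [
  (-12, -9, 48), (-12, -6, 25), (-10, -9, 46), (-10, -7, 63), (-10, -3, 9), (-9, -1, 17),
  (-9, 16, 30), (-9, 18, 18), (-8, -7, 46), (-7, 13, 48), (-6, 2, 17), (-6, 15, 28),
  (-6, 17, 34), (-4, 17, 48), (-3, 5, 17), (-2, 13, 35), (-2, 15, 34), (1, -3, 48), (1, 10, 56),
  (1, 12, 34), (4, -6, 48), (4, 7, 57), (4, 9, 56), (7, -9, 48), (7, -2, 56), (8, 1, 17),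
  (10, -10, 8), (10, -8, 16), (10, -5, 56), (11, -13, 53), (11, -11, 38), (11, 4, 17),
  (13, -8, 56), (13, 13, 17), (14, -12, 31), (14, -10, 20), (14, 7, 17), (14, 12, 16),
  (15, 9, 2), (16, 14, 50), (17, 10, 31), (17, 12, 14), (18, 14, 46), (20, 12, 54), (22, 12, 6)]

theorem i6_9 : inclB zW9 zI_DF_6 6 9 1 1 = true := by
  decide +kernel

theorem j6_9 : certOK (fun p => pinB zW9 9 0 0 p && !pinB zI_DF_6 6 1 1 p) t6_9 = true := by
  decide +kernel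

end RCN
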