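import Pool.Agent.RCN.DPins

/-! # Explicit nest 7_10 -/

namespace RCN

def t7_10 : List (ℤ × ℤ × ℕ) := [
  (-15, -6, 16), (-14, -9, 55), (-12, -10, 61), (-12, -7, 33), (-12, -4, 6), (-10, -10, 3),
  (-10, -7, 56), (-10, 18, 30), (-10, 20, 16), (-9, 0, 17), (-8, 17, 7), (-7, 15, 20),
  (-7, 19, 40), (-7, 20, 58), (-7, 22, 34), (-6, 3, 17), (-6, 17, 19), (-3, 6, 17), (-3, 18, 48),
  (-1, 14, 57), (-1, 16, 34), (1, -3, 48), (2, 11, 56), (2, 13, 34), (4, -6, 48), (5, 8, 57),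
  (5, 10, 56), (7, -9, 48), (8, -2, 56), (9, 1, 17), (10, -12, 57), (10, -10, 41), (11, -5, 56),
  (12, 4, 17), (13, -15, 57), (13, -13, 35), (13, -10, 10), (14, -8, 56), (15, -11, 19),
  (15, -10, 20), (15, 7, 17), (15, 15, 17), (16, -13, 17), (16, 13, 29), (17, 11, 27),
  (18, 10, 11), (18, 15, 59), (19, 16, 61), (20, 12, 1), (21, 12, 3), (21, 15, 56)]

theorem i7_10 : inclB zE4 zI_DF_7 7 10 1 1 = true := by
  decide +kernel

theorem j7_10 : certOK (fun p => pinB zE4 10 0 0 p && !pinB zI_DF_7 7 1 1 p) t7_10 = true := by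
  decide +kernel

end RCN
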