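import Pool.Agent.RCN.DPins

/-! # Explicit nest 7_11 -/

namespace RCN

def t7_11 : List (ℤ × ℤ × ℕ) := [
  (-15, -10, 48), (-15, -7, 26), (-13, -10, 44), (-13, -6, 45), (-12, -11, 17), (-12, -9, 53),
  (-12, -3, 6), (-11, -7, 44), (-11, 19, 56), (-11, 21, 35), (-10, -6, 51), (-10, -3, 6),
  (-9, -8, 25), (-9, 0, 6), (-9, 22, 21), (-8, -6, 59), (-8, 16, 55), (-8, 19, 21), (-8, 23, 34),
  (-7, 0, 3), (-7, 20, 39), (-6, 3, 29), (-6, 17, 31), (-5, 22, 48), (-4, 3, 3), (-3, 6, 29),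
  (-2, 19, 48), (-1, 6, 3), (0, 15, 48), (1, -3, 56), (1, -1, 34), (1, 16, 48), (3, 12, 57),
  (3, 14, 34), (4, -6, 56), (4, -4, 56), (6, 9, 57), (6, 11, 34), (7, -9, 56), (7, -7, 56),
  (9, 1, 29), (10, -11, 28), (10, -9, 34), (11, 1, 3), (12, -14, 56), (12, -11, 19), (12, 4, 29),
  (14, -14, 55), (14, -9, 15), (14, 4, 3), (15, -16, 9), (15, 7, 29), (16, -14, 47),
  (16, -11, 46), (16, 14, 56), (17, -10, 48), (17, 7, 6), (17, 10, 31), (17, 16, 29),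
  (18, -14, 31), (18, -12, 30), (18, 12, 7), (19, 15, 1), (20, 10, 6), (20, 13, 58),
  (20, 15, 41), (20, 17, 59), (21, 19, 56), (22, 17, 23), (23, 14, 26), (25, 15, 15), (27, 15, 6)]

theorem i7_11 : inclB zW9 zI_S_7_11 7 11 2 2 = true := by
  decide +kernel

theorem j7_11 : certOK (fun p => pinB zW9 11 0 0 p && !pinB zI_S_7_11 7 2 2 p) t7_11 = true := by
  decide +kernel

end RCN
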