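import Pool.Agent.RCN.DPins

/-! # Explicit nest 7_9 -/

namespace RCN

def t7_9 : List (ℤ × ℤ × ℕ) := [
  (-16, -7, 17), (-12, -8, 61), (-12, -4, 17), (-10, -9, 17), (-10, -8, 3), (-10, -5, 6),
  (-9, -1, 17), (-9, 15, 57), (-9, 17, 34), (-7, 18, 31), (-6, 2, 17), (-4, 17, 50), (-3, 5, 17),
  (-1, 14, 48), (1, -3, 48), (2, 11, 48), (4, -6, 48), (5, 8, 48), (7, -9, 48), (8, 1, 17),
  (10, -13, 59), (11, -12, 61), (11, 4, 17), (13, -12, 5), (13, -10, 40), (14, -9, 34),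
  (14, 7, 17), (15, 15, 17), (16, 12, 52), (18, 11, 46), (18, 13, 63), (21, 13, 8)]

theorem i7_9 : inclB zO_SB_7_9 zI_SB_7_9 7 9 1 1 = true := by
  decide +kernel

theorem j7_9 : certOK (fun p => pinB zO_SB_7_9 9 0 0 p && !pinB zI_SB_7_9 7 1 1 p) t7_9 = true := by
  decide +kernel

end RCN
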