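import Pool.Agent.RCN.DPins

/-! # Explicit nest 8_11 -/

namespace RCN

def t8_11 : List (ℤ × ℤ × ℕ) := [
  (-15, -8, 1), (-14, -9, 1), (-13, -10, 1), (-13, -4, 6), (-12, -11, 1), (-11, -11, 3),
  (-11, -8, 56), (-11, -3, 13), (-11, 20, 30), (-11, 22, 17), (-9, 1, 17), (-9, 17, 57),
  (-9, 19, 37), (-8, 22, 3), (-7, 20, 50), (-6, 4, 17), (-5, 20, 45), (-5, 22, 48), (-3, 7, 17),
  (-3, 18, 34), (-3, 20, 34), (0, 15, 56), (0, 17, 56), (1, -3, 48), (3, 12, 57), (3, 14, 56),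
  (4, -6, 48), (6, 9, 57), (6, 11, 34), (7, -9, 48), (9, 0, 17), (10, -11, 23), (10, -3, 56),
  (11, -13, 57), (12, 3, 17), (13, -6, 56), (14, -16, 54), (14, -13, 14), (15, -10, 4),
  (15, 6, 17), (16, -15, 15), (16, -11, 4), (17, -12, 33), (17, 15, 56), (18, -15, 6),
  (18, 9, 17), (18, 17, 29), (19, -12, 48), (19, 11, 9), (20, 14, 47), (20, 17, 24),
  (21, 19, 56), (22, 14, 4), (22, 17, 23), (23, 13, 4), (25, 15, 15), (27, 15, 6)]

theorem i8_11 : inclB zW9 zI_DF_8 8 11 1 1 = true := by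
  decide +kernel

theorem j8_11 : certOK (fun p => pinB zW9 11 0 0 p && !pinB zI_DF_8 8 1 1 p) t8_11 = true := by
  decide +kernel

end RCN
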