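import Pool.Agent.RCN.Basic

/-!
# Pinwheel nets and the regions used for packing

`core`, `Arm`, `Pin.Mem`, `Pin.set` : the pinwheel nets `D.set n`.
`fr` : the four frames.  `TReg` : the part of the layer between two pinwheel nets that lies in
one arm.
-/

namespace RCN

/-- the window around the top centre, in corner coordinates `(p, q)` -/
def inBox (p q : ℤ) : Bool :=
  decide (-4 ≤ p + q) && decide (p + q ≤ 4) && decide (-4 ≤ q - p) && decide (q - p ≤ 4)

/-- index of a window cell -/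
def widx (p q : ℤ) : ℕ := ((p + q + 4) / 2).toNat + 5 * ((q - p + 4) / 2).toNat

/-- tip of an arm, in corner coordinates -/
def core (g g' : ℤ) (m : ℕ) (p q : ℤ) : Bool :=
  if inBox p q then m.testBit (widx p q) else decide (g ≤ q) && decide (p ≤ g' - 1)

/-- the arm below the base square `[0, n) ^ 2` (frame coordinates) -/
def Arm (n g g' : ℤ) (m : ℕ) (x y : ℤ) : Prop :=
  y < 0 ∧ core g g' m (x - y - 3 * n) (x + y + 1) = true ∧ x + y + 1 ≤ n + g' - 1

instance (n g g' : ℤ) (m : ℕ) (x y : ℤ) : Decidable (Arm n g g' m x y) := by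
  unfold Arm; infer_instance

/-- data of a pinwheel net: types of the four cuts and windows of the four arms -/
structure Pin where
  g0 : ℤ
  g1 : ℤ
  g2 : ℤ
  g3 : ℤ
  m0 : ℕ
  m1 : ℕ
  m2 : ℕ
  m3 : ℕ

/-- the cell `(x, y)` belongs to the pinwheel net with data `D` of the `n`-cube -/
def Pin.Mem (D : Pin) (n x y : ℤ) : Prop :=
  (0 ≤ x ∧ x < n ∧ 0 ≤ y ∧ y < n) ∨ Arm n D.g0 D.g1 D.m0 x y ∨
    Arm n D.g1 D.g2 D.m1 y (n - 1 - x) ∨ Arm n D.g2 D.g3 D.m2 (n - 1 - x) (n - 1 - y) ∨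
    Arm n D.g3 D.g0 D.m3 (n - 1 - y) x

instance (D : Pin) (n x y : ℤ) : Decidable (D.Mem n x y) := by
  unfold Pin.Mem; infer_instance

/-- the pinwheel net as a finite set of cells -/
noncomputable def Pin.set (D : Pin) (n : ℤ) : Finset Cell :=
  ((Finset.Icc (-2 * n) (3 * n)) ×ˢ (Finset.Icc (-2 * n) (3 * n))).filter
    (fun p => D.Mem n p.1 p.2)

/-- a window cell of an arm has a neighbour in the arm which is outside the window or has
smaller rank -/
def Reach (N g g' : ℤ) (m : ℕ) (r : ℤ → ℤ → ℕ) (p q : ℤ) : Prop :=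
  ∃ d ∈ [((1 : ℤ), (1 : ℤ)), (-1, -1), (-1, 1), (1, -1)],
    core g g' m (p + d.1) (q + d.2) = true ∧ q + d.2 ≤ N + g' - 1 ∧
      (inBox (p + d.1) (q + d.2) = false ∨ r (p + d.1) (q + d.2) < r p q)

/-- every window cell of the arm satisfies `Reach` -/
def ArmOK (n N g g' : ℤ) (m : ℕ) : Prop :=
  ∃ r : ℤ → ℤ → ℕ, ∀ p q : ℤ, inBox p q = true → (p + q + n + 1) % 2 = 0 →
    core g g' m p q = true → q ≤ N + g' - 1 ∧ Reach N g g' m r p q

/-- validity of the data of a pinwheel net: the types are `0` or `1`, every window cell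
belongs to exactly one arm, and the windows are connected to the arms.
Only the parity of `n` matters; `N` is a lower bound for `n`. -/
structure Pin.OK (D : Pin) (n N : ℤ) : Prop where
  b0 : D.g0 = 0 ∨ D.g0 = 1
  b1 : D.g1 = 0 ∨ D.g1 = 1
  b2 : D.g2 = 0 ∨ D.g2 = 1
  b3 : D.g3 = 0 ∨ D.g3 = 1
  one : ∀ p q : ℤ, inBox p q = true → (p + q + n + 1) % 2 = 0 →
    (core D.g0 D.g1 D.m0 p q).toNat + (core D.g1 D.g2 D.m1 (-q) p).toNat +
      (core D.g2 D.g3 D.m2 (-p) (-q)).toNat + (core D.g3 D.g0 D.m3 q (-p)).toNat = 1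
  a0 : ArmOK n N D.g0 D.g1 D.m0
  a1 : ArmOK n N D.g1 D.g2 D.m1
  a2 : ArmOK n N D.g2 D.g3 D.m2
  a3 : ArmOK n N D.g3 D.g0 D.m3

/-- frame coordinates: rotation of the plane about the centre of the base square
`[0, c) ^ 2`, by `-90 k` degrees -/
def fr (c : ℤ) : ℕ → Cell → Cell
  | 0, p => p
  | k + 1, p => fr c k (p.2, c - 1 - p.1)

/-- part of the layer in one arm (frame coordinates): inside the outer tip, outside the inner
tip, bounded by `A` and `B` -/
def TReg (c go go' gi gi' : ℤ) (mo mi : ℕ) (dp dq A B : ℤ) : Set Cell :=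
  {p | core go go' mo (p.1 - p.2 - 3 * c) (p.1 + p.2 + 1) = true ∧
    core gi gi' mi (p.1 - p.2 - 3 * c + dp) (p.1 + p.2 + 1 - dq) = false ∧
    -A ≤ p.1 - p.2 - 3 * c ∧ p.1 + p.2 + 1 ≤ B}

/-- translation of a finite set of cells -/
def shift (i j : ℤ) (P : Finset Cell) : Finset Cell := P.image (fun p => (p.1 + i, p.2 + j))

/-- `Q` lies in `P` and the difference contains `N` disjoint nets of the unit cube -/
def Nest (Q P : Finset Cell) (N : ℕ) : Prop := Q ⊆ P ∧ Pack {p | p ∈ P ∧ p ∉ Q} N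

/-- local compatibility of an inner and an outer tip -/
def LC (n go go' gi gi' : ℤ) (mo mi : ℕ) (dp dq : ℤ) : Prop :=
  ∀ p q : ℤ, -24 ≤ p → p ≤ 8 → -8 ≤ q → q ≤ 12 → (p + q + n + 1) % 2 = 0 →
    core gi gi' mi (p + dp) (q - dq) = true → core go go' mo p q = true

end RCN
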