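import Pool.Agent.RCN.Gen
import Pool.Agent.RCN.DC4
import Pool.Agent.RCN.DC9
import Pool.Agent.RCN.DM4
import Pool.Agent.RCN.DM5
import Pool.Agent.RCN.DM6
import Pool.Agent.RCN.DM7
import Pool.Agent.RCN.DM8
import Pool.Agent.RCN.DM9
import Pool.Agent.RCN.DM10
import Pool.Agent.RCN.DD9
import Pool.Agent.RCN.DD11
import Pool.Agent.RCN.DD13
import Pool.Agent.RCN.DD14
import Pool.Agent.RCN.DD16
import Pool.Agent.RCN.DD18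

/-! # The infinite families -/

namespace RCN

theorem gE4 : zE4.Good 4 4 :=
  Pin.good cE4 hE4 (by norm_num) (by norm_num) (by norm_num) (by norm_num)

theorem gW9 : zW9.Good 9 4 :=
  Pin.good cW9 hW9 (by norm_num) (by norm_num) (by norm_num) (by norm_num)

theorem gMI4 : zMI4.Good 4 4 :=
  Pin.good cMI4 hMI4 (by norm_num) (by norm_num) (by norm_num) (by norm_num)

theorem gMO4 : zMO4.Good 5 4 :=
  Pin.good cMO4 hMO4 (by norm_num) (by norm_num) (by norm_num) (by norm_num)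

theorem gMI5 : zMI5.Good 5 4 :=
  Pin.good cMI5 hMI5 (by norm_num) (by norm_num) (by norm_num) (by norm_num)

theorem gMO5 : zMO5.Good 6 4 :=
  Pin.good cMO5 hMO5 (by norm_num) (by norm_num) (by norm_num) (by norm_num)

theorem gMI6 : zMI6.Good 6 4 :=
  Pin.good cMI6 hMI6 (by norm_num) (by norm_num) (by norm_num) (by norm_num)

theorem gMO6 : zMO6.Good 7 4 :=
  Pin.good cMO6 hMO6 (by norm_num) (by norm_num) (by norm_num) (by norm_num)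

theorem gMI7 : zMI7.Good 7 4 :=
  Pin.good cMI7 hMI7 (by norm_num) (by norm_num) (by norm_num) (by norm_num)

theorem gMO7 : zMO7.Good 8 4 :=
  Pin.good cMO7 hMO7 (by norm_num) (by norm_num) (by norm_num) (by norm_num)

theorem gMI8 : zMI8.Good 8 4 :=
  Pin.good cMI8 hMI8 (by norm_num) (by norm_num) (by norm_num) (by norm_num)

theorem gMO8 : zMO8.Good 9 4 :=
  Pin.good cMO8 hMO8 (by norm_num) (by norm_num) (by norm_num) (by norm_num)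

theorem gMI9 : zMI9.Good 9 4 :=
  Pin.good cMI9 hMI9 (by norm_num) (by norm_num) (by norm_num) (by norm_num)

theorem gMO9 : zMO9.Good 10 4 :=
  Pin.good cMO9 hMO9 (by norm_num) (by norm_num) (by norm_num) (by norm_num)

theorem gMI10 : zMI10.Good 10 4 :=
  Pin.good cMI10 hMI10 (by norm_num) (by norm_num) (by norm_num) (by norm_num)

theorem gMO10 : zMO10.Good 11 4 :=
  Pin.good cMO10 hMO10 (by norm_num) (by norm_num) (by norm_num) (by norm_num)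

theorem gDI9 : zDI9.Good 9 5 :=
  Pin.good cDI9 hDI9 (by norm_num) (by norm_num) (by norm_num) (by norm_num)

theorem gDI11 : zDI11.Good 11 4 :=
  Pin.good cDI11 hDI11 (by norm_num) (by norm_num) (by norm_num) (by norm_num)

theorem gDI13 : zDI13.Good 13 4 :=
  Pin.good cDI13 hDI13 (by norm_num) (by norm_num) (by norm_num) (by norm_num)

theorem gDI14 : zDI14.Good 14 5 :=
  Pin.good cDI14 hDI14 (by norm_num) (by norm_num) (by norm_num) (by norm_num)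

theorem gDI16 : zDI16.Good 16 4 :=
  Pin.good cDI16 hDI16 (by norm_num) (by norm_num) (by norm_num) (by norm_num)

theorem gDI18 : zDI18.Good 18 4 :=
  Pin.good cDI18 hDI18 (by norm_num) (by norm_num) (by norm_num) (by norm_num)

theorem chE : Chain zE4 4 4 := genC gE4 (by norm_num) rfl rfl rfl rfl fC4_0 fC4_1 fC4_2 fC4_3
  eC4_0 eC4_1 eC4_2 eC4_3 rfl

theorem chO : Chain zW9 9 4 := genC gW9 (by norm_num) rfl rfl rfl rfl fC9_0 fC9_1 fC9_2 fC9_3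
  eC9_0 eC9_1 eC9_2 eC9_3 rfl

theorem cM4 : CertM zMO4 zMI4 4 4 4 lM4_0 lM4_1 lM4_2 lM4_3 :=
  mkM (by norm_num) gMO4 gMI4 ⟨rfl, rfl, rfl, rfl, rfl, rfl, rfl, rfl⟩ fM4_0 fM4_1 fM4_2 fM4_3
    eM4_0 eM4_1 eM4_2 eM4_3 rfl

theorem cM5 : CertM zMO5 zMI5 5 4 4 lM5_0 lM5_1 lM5_2 lM5_3 :=
  mkM (by norm_num) gMO5 gMI5 ⟨rfl, rfl, rfl, rfl, rfl, rfl, rfl, rfl⟩ fM5_0 fM5_1 fM5_2 fM5_3
    eM5_0 eM5_1 eM5_2 eM5_3 rfl

theorem cM6 : CertM zMO6 zMI6 6 4 4 lM6_0 lM6_1 lM6_2 lM6_3 :=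
  mkM (by norm_num) gMO6 gMI6 ⟨rfl, rfl, rfl, rfl, rfl, rfl, rfl, rfl⟩ fM6_0 fM6_1 fM6_2 fM6_3
    eM6_0 eM6_1 eM6_2 eM6_3 rfl

theorem cM7 : CertM zMO7 zMI7 7 4 4 lM7_0 lM7_1 lM7_2 lM7_3 :=
  mkM (by norm_num) gMO7 gMI7 ⟨rfl, rfl, rfl, rfl, rfl, rfl, rfl, rfl⟩ fM7_0 fM7_1 fM7_2 fM7_3
    eM7_0 eM7_1 eM7_2 eM7_3 rfl

theorem cM8 : CertM zMO8 zMI8 8 4 4 lM8_0 lM8_1 lM8_2 lM8_3 :=
  mkM (by norm_num) gMO8 gMI8 ⟨rfl, rfl, rfl, rfl, rfl, rfl, rfl, rfl⟩ fM8_0 fM8_1 fM8_2 fM8_3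
    eM8_0 eM8_1 eM8_2 eM8_3 rfl

theorem cM9 : CertM zMO9 zMI9 9 4 4 lM9_0 lM9_1 lM9_2 lM9_3 :=
  mkM (by norm_num) gMO9 gMI9 ⟨rfl, rfl, rfl, rfl, rfl, rfl, rfl, rfl⟩ fM9_0 fM9_1 fM9_2 fM9_3
    eM9_0 eM9_1 eM9_2 eM9_3 rfl

theorem cM10 : CertM zMO10 zMI10 10 4 4 lM10_0 lM10_1 lM10_2 lM10_3 :=
  mkM (by norm_num) gMO10 gMI10 ⟨rfl, rfl, rfl, rfl, rfl, rfl, rfl, rfl⟩ fM10_0 fM10_1 fM10_2 fM10_3
    eM10_0 eM10_1 eM10_2 eM10_3 rfl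

theorem cD9 : CertD zE4 zDI9 9 1 (-5) 9 8 7 4 5
    lD9_0 lD9_1 lD9_2 lD9_3 lD9_4 lD9_6 :=
  mkD (by norm_num) (gE4.up (by norm_num) (by norm_num)) gDI9
    ⟨rfl, rfl, rfl, rfl, rfl, rfl, rfl, rfl⟩ (by norm_num) (by norm_num)
    fD9_0 fD9_1 fD9_2 fD9_3
    eD9_0 eD9_1 eD9_2 eD9_3 eD9_4 eD9_6 rfl

theorem cD11 : CertD zE4 zDI11 11 2 (-5) 9 6 9 4 4
    lD11_0 lD11_1 lD11_2 lD11_3 lD11_4 lD11_6 :=
  mkD (by norm_num) (gE4.up (by norm_num) (by norm_num)) gDI11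
    ⟨rfl, rfl, rfl, rfl, rfl, rfl, rfl, rfl⟩ (by norm_num) (by norm_num)
    fD11_0 fD11_1 fD11_2 fD11_3
    eD11_0 eD11_1 eD11_2 eD11_3 eD11_4 eD11_6 rfl

theorem cD13 : CertD zE4 zDI13 13 2 (-7) 11 8 7 4 4
    lD13_0 lD13_1 lD13_2 lD13_3 lD13_4 lD13_6 :=
  mkD (by norm_num) (gE4.up (by norm_num) (by norm_num)) gDI13
    ⟨rfl, rfl, rfl, rfl, rfl, rfl, rfl, rfl⟩ (by norm_num) (by norm_num)
    fD13_0 fD13_1 fD13_2 fD13_3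
    eD13_0 eD13_1 eD13_2 eD13_3 eD13_4 eD13_6 rfl

theorem cD14 : CertD zW9 zDI14 14 3 (-5) 9 6 9 4 5
    lD14_0 lD14_1 lD14_2 lD14_3 lD14_4 lD14_6 :=
  mkD (by norm_num) (gW9.up (by norm_num) (by norm_num)) gDI14
    ⟨rfl, rfl, rfl, rfl, rfl, rfl, rfl, rfl⟩ (by norm_num) (by norm_num)
    fD14_0 fD14_1 fD14_2 fD14_3
    eD14_0 eD14_1 eD14_2 eD14_3 eD14_4 eD14_6 rfl

theorem cD16 : CertD zW9 zDI16 16 3 (-9) 13 6 9 4 4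
    lD16_0 lD16_1 lD16_2 lD16_3 lD16_4 lD16_6 :=
  mkD (by norm_num) (gW9.up (by norm_num) (by norm_num)) gDI16
    ⟨rfl, rfl, rfl, rfl, rfl, rfl, rfl, rfl⟩ (by norm_num) (by norm_num)
    fD16_0 fD16_1 fD16_2 fD16_3
    eD16_0 eD16_1 eD16_2 eD16_3 eD16_4 eD16_6 rfl

theorem cD18 : CertD zW9 zDI18 18 3 (-8) 12 11 10 4 4
    lD18_0 lD18_1 lD18_2 lD18_3 lD18_4 lD18_6 :=
  mkD (by norm_num) (gW9.up (by norm_num) (by norm_num)) gDI18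
    ⟨rfl, rfl, rfl, rfl, rfl, rfl, rfl, rfl⟩ (by norm_num) (by norm_num)
    fD18_0 fD18_1 fD18_2 fD18_3
    eD18_0 eD18_1 eD18_2 eD18_3 eD18_4 eD18_6 rfl

end RCN
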