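import Pool.Agent.RCN.Gen
import Pool.Agent.RCN.DX2_4
import Pool.Agent.RCN.DX2_9
import Pool.Agent.RCN.DX3_8
import Pool.Agent.RCN.DX3_9
import Pool.Agent.RCN.DX2_5
import Pool.Agent.RCN.DX2_7
import Pool.Agent.RCN.DX3_5
import Pool.Agent.RCN.DX3_6
import Pool.Agent.RCN.DX3_7
import Pool.Agent.RCN.DX5_8
import Pool.Agent.RCN.DX6_9
import Pool.Agent.RCN.DX7_10
import Pool.Agent.RCN.DX8_11
import Pool.Agent.RCN.DX10_13
import Pool.Agent.RCN.DX12_15
import Pool.Agent.RCN.DX5_9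
import Pool.Agent.RCN.DX7_11
import Pool.Agent.RCN.DX4_9
import Pool.Agent.RCN.DX5_7
import Pool.Agent.RCN.DX7_9
import Pool.Agent.RCN.DX4_7
import Pool.Agent.RCN.DX2_3
import Pool.Agent.RCN.DX3_4
import Pool.Agent.RCN.Fams

/-! # The explicit pairs -/

namespace RCN

theorem gI_DF_5 : zI_DF_5.Good 5 4 :=
  Pin.good cI_DF_5 hI_DF_5 (by norm_num) (by norm_num) (by norm_num) (by norm_num)

theorem gI_DF_6 : zI_DF_6.Good 6 4 :=
  Pin.good cI_DF_6 hI_DF_6 (by norm_num) (by norm_num) (by norm_num) (by norm_num)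

theorem gI_DF_7 : zI_DF_7.Good 7 4 :=
  Pin.good cI_DF_7 hI_DF_7 (by norm_num) (by norm_num) (by norm_num) (by norm_num)

theorem gI_DF_8 : zI_DF_8.Good 8 5 :=
  Pin.good cI_DF_8 hI_DF_8 (by norm_num) (by norm_num) (by norm_num) (by norm_num)

theorem gI_DF_10 : zI_DF_10.Good 10 4 :=
  Pin.good cI_DF_10 hI_DF_10 (by norm_num) (by norm_num) (by norm_num) (by norm_num)

theorem gI_DF_12 : zI_DF_12.Good 12 4 :=
  Pin.good cI_DF_12 hI_DF_12 (by norm_num) (by norm_num) (by norm_num) (by norm_num)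

theorem gI_S_5_9 : zI_S_5_9.Good 5 4 :=
  Pin.good cI_S_5_9 hI_S_5_9 (by norm_num) (by norm_num) (by norm_num) (by norm_num)

theorem gI_S_7_11 : zI_S_7_11.Good 7 4 :=
  Pin.good cI_S_7_11 hI_S_7_11 (by norm_num) (by norm_num) (by norm_num) (by norm_num)

theorem gI_S_4_9 : zI_S_4_9.Good 4 4 :=
  Pin.good cI_S_4_9 hI_S_4_9 (by norm_num) (by norm_num) (by norm_num) (by norm_num)

theorem gO_SB_3_5 : zO_SB_3_5.Good 5 4 :=
  Pin.good cO_SB_3_5 hO_SB_3_5 (by norm_num) (by norm_num) (by norm_num) (by norm_num)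

theorem gO_SB_3_6 : zO_SB_3_6.Good 6 4 :=
  Pin.good cO_SB_3_6 hO_SB_3_6 (by norm_num) (by norm_num) (by norm_num) (by norm_num)

theorem gO_SB_3_7 : zO_SB_3_7.Good 7 4 :=
  Pin.good cO_SB_3_7 hO_SB_3_7 (by norm_num) (by norm_num) (by norm_num) (by norm_num)

theorem gO_SB_5_7 : zO_SB_5_7.Good 7 4 :=
  Pin.good cO_SB_5_7 hO_SB_5_7 (by norm_num) (by norm_num) (by norm_num) (by norm_num)

theorem gI_SB_5_7 : zI_SB_5_7.Good 5 4 :=
  Pin.good cI_SB_5_7 hI_SB_5_7 (by norm_num) (by norm_num) (by norm_num) (by norm_num)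

theorem gO_SB_7_9 : zO_SB_7_9.Good 9 4 :=
  Pin.good cO_SB_7_9 hO_SB_7_9 (by norm_num) (by norm_num) (by norm_num) (by norm_num)

theorem gI_SB_7_9 : zI_SB_7_9.Good 7 4 :=
  Pin.good cI_SB_7_9 hI_SB_7_9 (by norm_num) (by norm_num) (by norm_num) (by norm_num)

theorem gO_47 : zO_47.Good 7 4 :=
  Pin.good cO_47 hO_47 (by norm_num) (by norm_num) (by norm_num) (by norm_num)

theorem gI_47 : zI_47.Good 4 4 :=
  Pin.good cI_47 hI_47 (by norm_num) (by norm_num) (by norm_num) (by norm_num)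

theorem gO_J2_7 : zO_J2_7.Good 7 4 :=
  Pin.good cO_J2_7 hO_J2_7 (by norm_num) (by norm_num) (by norm_num) (by norm_num)

theorem gO_R2_2_5 : zO_R2_2_5.Good 5 4 :=
  Pin.good cO_R2_2_5 hO_R2_2_5 (by norm_num) (by norm_num) (by norm_num) (by norm_num)

theorem r2_4 (k : ℕ) : RepT 2 (4 + 2 * k) :=
  chE.rep (by norm_num) (by norm_num) (by norm_num) (by norm_num) (kH6 2 _ _ _ _ s2_4)
    (listNest (b := 2) (c := 4) gE4 (by norm_num) (by norm_num) i2_4 j2_4 rfl) k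

theorem r2_9 (k : ℕ) : RepT 2 (9 + 2 * k) :=
  chO.rep (by norm_num) (by norm_num) (by norm_num) (by norm_num) (kH6 2 _ _ _ _ s2_9)
    (listNest (b := 2) (c := 9) gW9 (by norm_num) (by norm_num) i2_9 j2_9 rfl) k

theorem r3_8 (k : ℕ) : RepT 3 (8 + 2 * k) :=
  chE.rep (by norm_num) (by norm_num) (by norm_num) (by norm_num) (kH6 3 _ _ _ _ s3_8)
    (listNest (b := 3) (c := 8) gE4 (by norm_num) (by norm_num) i3_8 j3_8 rfl) k

theorem r3_9 (k : ℕ) : RepT 3 (9 + 2 * k) :=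
  chO.rep (by norm_num) (by norm_num) (by norm_num) (by norm_num) (kH6 3 _ _ _ _ s3_9)
    (listNest (b := 3) (c := 9) gW9 (by norm_num) (by norm_num) i3_9 j3_9 rfl) k

theorem r2_5 : RepT 2 5 :=
  kH8 2 5 _ _ (by norm_num) (by norm_num) (kH6 2 _ _ _ _ s2_5)
    (gO_R2_2_5.strong (n := 5) (by norm_num) (by norm_num))
    (listNest (b := 2) (c := 5) gO_R2_2_5 (by norm_num) (by norm_num) i2_5 j2_5 rfl)

theorem r2_7 : RepT 2 7 :=
  kH8 2 7 _ _ (by norm_num) (by norm_num) (kH6 2 _ _ _ _ s2_7)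
    (gO_J2_7.strong (n := 7) (by norm_num) (by norm_num))
    (listNest (b := 2) (c := 7) gO_J2_7 (by norm_num) (by norm_num) i2_7 j2_7 rfl)

theorem r3_5 : RepT 3 5 :=
  kH8 3 5 _ _ (by norm_num) (by norm_num) (kH6 3 _ _ _ _ s3_5)
    (gO_SB_3_5.strong (n := 5) (by norm_num) (by norm_num))
    (listNest (b := 3) (c := 5) gO_SB_3_5 (by norm_num) (by norm_num) i3_5 j3_5 rfl)

theorem r3_6 : RepT 3 6 :=
  kH8 3 6 _ _ (by norm_num) (by norm_num) (kH6 3 _ _ _ _ s3_6)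
    (gO_SB_3_6.strong (n := 6) (by norm_num) (by norm_num))
    (listNest (b := 3) (c := 6) gO_SB_3_6 (by norm_num) (by norm_num) i3_6 j3_6 rfl)

theorem r3_7 : RepT 3 7 :=
  kH8 3 7 _ _ (by norm_num) (by norm_num) (kH6 3 _ _ _ _ s3_7)
    (gO_SB_3_7.strong (n := 7) (by norm_num) (by norm_num))
    (listNest (b := 3) (c := 7) gO_SB_3_7 (by norm_num) (by norm_num) i3_7 j3_7 rfl)

theorem r5_8 (k : ℕ) : RepT 5 (8 + 2 * k) :=
  chE.rep (by norm_num) (by norm_num) (by norm_num) (by norm_num)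
    (kH7 _ _ 1 1 (gI_DF_5.strong (n := 5) (by norm_num) (by norm_num)))
    (pinNest (b := 5) (c := 8) gE4 gI_DF_5 (by norm_num) (by norm_num) i5_8 j5_8 rfl) k

theorem r6_9 (k : ℕ) : RepT 6 (9 + 2 * k) :=
  chO.rep (by norm_num) (by norm_num) (by norm_num) (by norm_num)
    (kH7 _ _ 1 1 (gI_DF_6.strong (n := 6) (by norm_num) (by norm_num)))
    (pinNest (b := 6) (c := 9) gW9 gI_DF_6 (by norm_num) (by norm_num) i6_9 j6_9 rfl) k

theorem r7_10 (k : ℕ) : RepT 7 (10 + 2 * k) :=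
  chE.rep (by norm_num) (by norm_num) (by norm_num) (by norm_num)
    (kH7 _ _ 1 1 (gI_DF_7.strong (n := 7) (by norm_num) (by norm_num)))
    (pinNest (b := 7) (c := 10) gE4 gI_DF_7 (by norm_num) (by norm_num) i7_10 j7_10 rfl) k

theorem r8_11 (k : ℕ) : RepT 8 (11 + 2 * k) :=
  chO.rep (by norm_num) (by norm_num) (by norm_num) (by norm_num)
    (kH7 _ _ 1 1 (gI_DF_8.strong (n := 8) (by norm_num) (by norm_num)))
    (pinNest (b := 8) (c := 11) gW9 gI_DF_8 (by norm_num) (by norm_num) i8_11 j8_11 rfl) k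

theorem r10_13 (k : ℕ) : RepT 10 (13 + 2 * k) :=
  chO.rep (by norm_num) (by norm_num) (by norm_num) (by norm_num)
    (kH7 _ _ 1 1 (gI_DF_10.strong (n := 10) (by norm_num) (by norm_num)))
    (pinNest (b := 10) (c := 13) gW9 gI_DF_10 (by norm_num) (by norm_num) i10_13 j10_13 rfl) k

theorem r12_15 (k : ℕ) : RepT 12 (15 + 2 * k) :=
  chO.rep (by norm_num) (by norm_num) (by norm_num) (by norm_num)
    (kH7 _ _ 1 1 (gI_DF_12.strong (n := 12) (by norm_num) (by norm_num)))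
    (pinNest (b := 12) (c := 15) gW9 gI_DF_12 (by norm_num) (by norm_num) i12_15 j12_15 rfl) k

theorem r5_9 (k : ℕ) : RepT 5 (9 + 2 * k) :=
  chO.rep (by norm_num) (by norm_num) (by norm_num) (by norm_num)
    (kH7 _ _ 2 2 (gI_S_5_9.strong (n := 5) (by norm_num) (by norm_num)))
    (pinNest (b := 5) (c := 9) gW9 gI_S_5_9 (by norm_num) (by norm_num) i5_9 j5_9 rfl) k

theorem r7_11 (k : ℕ) : RepT 7 (11 + 2 * k) :=
  chO.rep (by norm_num) (by norm_num) (by norm_num) (by norm_num)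
    (kH7 _ _ 2 2 (gI_S_7_11.strong (n := 7) (by norm_num) (by norm_num)))
    (pinNest (b := 7) (c := 11) gW9 gI_S_7_11 (by norm_num) (by norm_num) i7_11 j7_11 rfl) k

theorem r4_9 (k : ℕ) : RepT 4 (9 + 2 * k) :=
  chO.rep (by norm_num) (by norm_num) (by norm_num) (by norm_num)
    (kH7 _ _ 2 2 (gI_S_4_9.strong (n := 4) (by norm_num) (by norm_num)))
    (pinNest (b := 4) (c := 9) gW9 gI_S_4_9 (by norm_num) (by norm_num) i4_9 j4_9 rfl) k

theorem r5_7 : RepT 5 7 :=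
  kH8 5 7 _ _ (by norm_num) (by norm_num)
    (kH7 _ _ 1 1 (gI_SB_5_7.strong (n := 5) (by norm_num) (by norm_num)))
    (gO_SB_5_7.strong (n := 7) (by norm_num) (by norm_num))
    (pinNest (b := 5) (c := 7) gO_SB_5_7 gI_SB_5_7 (by norm_num) (by norm_num) i5_7 j5_7 rfl)

theorem r7_9 : RepT 7 9 :=
  kH8 7 9 _ _ (by norm_num) (by norm_num)
    (kH7 _ _ 1 1 (gI_SB_7_9.strong (n := 7) (by norm_num) (by norm_num)))
    (gO_SB_7_9.strong (n := 9) (by norm_num) (by norm_num))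
    (pinNest (b := 7) (c := 9) gO_SB_7_9 gI_SB_7_9 (by norm_num) (by norm_num) i7_9 j7_9 rfl)

theorem r4_7 : RepT 4 7 :=
  kH8 4 7 _ _ (by norm_num) (by norm_num)
    (kH7 _ _ 1 1 (gI_47.strong (n := 4) (by norm_num) (by norm_num)))
    (gO_47.strong (n := 7) (by norm_num) (by norm_num))
    (pinNest (b := 4) (c := 7) gO_47 gI_47 (by norm_num) (by norm_num) i4_7 j4_7 rfl)

theorem r2_3 : RepT 2 3 :=
  kH8 2 3 _ _ (by norm_num) (by norm_num) (kH6 2 _ _ _ _ s2_3) (kH6 3 _ _ _ _ s2_3o)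
    (kH12 _ _ t2_3 i2_3 j2_3)

theorem r3_4 : RepT 3 4 :=
  kH8 3 4 _ _ (by norm_num) (by norm_num) (kH6 3 _ _ _ _ s3_4) (kH6 4 _ _ _ _ s3_4o)
    (kH12 _ _ t3_4 i3_4 j3_4)

end RCN
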