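import Pool.Agent.RCN.HTargets

/-!
# Boolean versions of the regions
-/

namespace RCN

/-- Boolean version of `regT` -/
def regTB (q0 d c : ℤ) (p : Cell) : Bool :=
  decide (-d ≤ p.1 - p.2 - 3 * c) && decide (p.1 - p.2 - 3 * c ≤ 0) &&
    decide (q0 ≤ p.1 + p.2 + 1 - c) && decide (p.1 + p.2 + 1 - c ≤ 0) &&
    !(decide (p.1 - p.2 - 3 * c ≤ -10) && decide (p.1 + p.2 + 1 - c ≤ -2))

/-- Boolean version of `regV` -/
def regVB (pf pL : ℤ) (p : Cell) : Bool :=
  (decide (p.1 < 0) && decide (-1 ≤ p.1 - p.2) && decide (p.1 - p.2 ≤ 0) &&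
    decide (-1 - pf ≤ p.1 + p.2)) || (decide (p.1 = 0) && decide (0 ≤ p.2) && decide (p.2 ≤ 1)) ||
  (decide (1 ≤ p.1) && decide (0 ≤ p.1 + p.2) && decide (p.1 + p.2 ≤ 1) &&
    decide (p.1 - p.2 ≤ pL))

theorem TRegB_set (c go go' gi gi' : ℤ) (mo mi : ℕ) (dp dq A B : ℤ) :
    {p : Cell | TRegB c go go' gi gi' mo mi dp dq A B p = true} =
      TReg c go go' gi gi' mo mi dp dq A B := by
  ext p
  simp only [Set.mem_setOf_eq, TRegB, TReg, Bool.and_eq_true, Bool.not_eq_true', decide_eq_true_eq]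
  tauto

theorem regTB_set (q0 d c : ℤ) : {p : Cell | regTB q0 d c p = true} = regT q0 d c := by
  ext p
  simp only [Set.mem_setOf_eq, regTB, regT, Bool.and_eq_true, Bool.not_eq_true',
    Bool.and_eq_false_iff, decide_eq_true_eq, decide_eq_false_iff_not]
  tauto

theorem regVB_set (pf pL : ℤ) : {p : Cell | regVB pf pL p = true} = regV pf pL := by
  ext p
  simp only [Set.mem_setOf_eq, regVB, regV, Bool.and_eq_true, Bool.or_eq_true, decide_eq_true_eq]
  tauto

theorem packT (hU4 : tU4) {c go go' gi gi' : ℤ} {mo mi : ℕ} {dp dq A B : ℤ}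
    {L : List (ℤ × ℤ × ℕ)} (h : certOK (TRegB c go go' gi gi' mo mi dp dq A B) L = true) :
    Pack (TReg c go go' gi gi' mo mi dp dq A B) L.length := by
  rw [← TRegB_set]
  exact hU4 _ _ h

theorem packTT (hU4 : tU4) {q0 d c : ℤ} {L : List (ℤ × ℤ × ℕ)}
    (h : certOK (regTB q0 d c) L = true) : Pack (regT q0 d c) L.length := by
  rw [← regTB_set]
  exact hU4 _ _ h

theorem packVV (hU4 : tU4) {pf pL : ℤ} {L : List (ℤ × ℤ × ℕ)}
    (h : certOK (regVB pf pL) L = true) : Pack (regV pf pL) L.length := by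
  rw [← regVB_set]
  exact hU4 _ _ h

end RCN
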