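import Pool.Agent.RCN.All
import Pool.Agent.RCN.Tools

/-!
# From certificates to families
-/

namespace RCN

/-- a pinwheel net with valid data -/
structure Pin.Good (D : Pin) (n0 : ℕ) (N : ℤ) : Prop where
  l4 : 4 ≤ N
  l6 : N ≤ 6
  le : N ≤ n0
  ok : ∀ n : ℤ, (n - n0) % 2 = 0 → D.OK n N
  oh : ∀ n : ℤ, (n - n0) % 2 = 0 → D.OKH n N

theorem Pin.good {D : Pin} {n0 : ℕ} {N : ℤ} {n : ℤ} {t0 t1 t2 t3 s0 s1 s2 s3 : ℕ}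
    (h1 : pinCheck D n N t0 t1 t2 t3 = true) (h2 : holeCheck D n N s0 s1 s2 s3 = true)
    (hn : n = n0) (l4 : 4 ≤ N) (l6 : N ≤ 6) (le : N ≤ n0) : D.Good n0 N where
  l4 := l4
  l6 := l6
  le := le
  ok := fun n' h => kU5 D n n' N _ _ _ _ h1 (by rw [hn]; exact h)
  oh := fun n' h => kH5 D n n' N _ _ _ _ h2 (by rw [hn]; exact h)

theorem Pin.Good.strong {D : Pin} {n0 : ℕ} {N : ℤ} (G : D.Good n0 N) {n : ℕ} (hn : n0 ≤ n)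
    (hp : ((n : ℤ) - n0) % 2 = 0) : Strong n (D.set n) := by
  have h : N ≤ n := by have := G.le; omega
  exact ⟨kP11 D n N G.l4 h (G.ok n hp), kH3 D n N G.l4 G.l6 h (G.ok n hp) (G.oh n hp),
    kH4 D n N G.l4 h (G.ok n hp) (G.oh n hp)⟩

/-- the chain of type C from the size `n0` on -/
structure Chain (D : Pin) (n0 : ℕ) (N : ℤ) : Prop where
  good : D.Good n0 N
  nest : ∀ n : ℕ, n0 ≤ n → (n - n0) % 2 = 0 →
    Nest (shift 1 1 (D.set n)) (D.set (n + 2)) (4 * n + 4)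

theorem Chain.rep {D : Pin} {n0 : ℕ} {N : ℤ} (C : Chain D n0 N) {b n : ℕ} {Q : Finset Cell}
    (hb : 0 < b) (hbn : b ≤ n) (hn : n0 ≤ n) (hp : (n - n0) % 2 = 0) (hQ : Strong b Q)
    (h : Nest Q (D.set n) (n ^ 2 - b ^ 2)) (k : ℕ) : RepT b (n + 2 * k) := by
  refine kH9 D N b n Q C.good.l4 C.good.l6 (by have := C.good.le; omega) hb hbn ?_ ?_ hQ h k
  · intro m
    exact ⟨C.good.ok _ (by omega), C.good.oh _ (by omega)⟩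
  · intro m
    have := C.nest (n + 2 * m) (by omega) (by omega)
    push_cast at this
    exact this

/-- all steps of type C -/
theorem genC {D : Pin} {n0 : ℕ} {N c : ℤ} {L0 L1 L2 L3 : List (ℤ × ℤ × ℕ)} (G : D.Good n0 N)
    (hc : c = n0 + 2) (g0 : D.g0 = 1) (g1 : D.g1 = 1) (g2 : D.g2 = 1) (g3 : D.g3 = 1)
    (f0 : lcCheck c 1 1 1 1 D.m0 D.m0 6 2 = true) (f1 : lcCheck c 1 1 1 1 D.m1 D.m1 6 2 = true)
    (f2 : lcCheck c 1 1 1 1 D.m2 D.m2 6 2 = true) (f3 : lcCheck c 1 1 1 1 D.m3 D.m3 6 2 = true)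
    (e0 : certOK (TRegB c 1 1 1 1 D.m0 D.m0 6 2 (3 * c - 1) c) L0 = true)
    (e1 : certOK (TRegB c 1 1 1 1 D.m1 D.m1 6 2 (3 * c - 1) c) L1 = true)
    (e2 : certOK (TRegB c 1 1 1 1 D.m2 D.m2 6 2 (3 * c - 1) c) L2 = true)
    (e3 : certOK (TRegB c 1 1 1 1 D.m3 D.m3 6 2 (3 * c - 1) c) L3 = true)
    (hs : L0.length + L1.length + L2.length + L3.length = 4 * n0 + 4) : Chain D n0 N := by
  subst hc
  have h4 : 4 ≤ n0 := by have := G.l4; have := G.le; omega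
  have key := kFC D n0 N L0.length L1.length L2.length L3.length h4 ?_ (packT kU4 e0)
    (packT kU4 e1) (packT kU4 e2) (packT kU4 e3) hs
  · refine ⟨G, ?_⟩
    intro n hn hp
    obtain ⟨m, rfl⟩ : ∃ m, n = n0 + 2 * m := ⟨(n - n0) / 2, by omega⟩
    have := key m
    push_cast
    exact this
  · intro m
    exact ⟨G.ok _ (by omega), ⟨g0, g1, g2, g3, kU6 _ _ _ _ _ _ _ _ _ _ f0 (by omega),
      kU6 _ _ _ _ _ _ _ _ _ _ f1 (by omega), kU6 _ _ _ _ _ _ _ _ _ _ f2 (by omega),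
      kU6 _ _ _ _ _ _ _ _ _ _ f3 (by omega)⟩⟩

/-- certificate of type M -/
structure CertM (O I : Pin) (b0 : ℕ) (N M : ℤ) (L0 L1 L2 L3 : List (ℤ × ℤ × ℕ)) : Prop where
  gO : O.Good (b0 + 1) N
  gI : I.Good b0 M
  types : O.g0 = 1 ∧ O.g1 = 0 ∧ O.g2 = 1 ∧ O.g3 = 1 ∧ I.g0 = 1 ∧ I.g1 = 1 ∧ I.g2 = 1 ∧ I.g3 = 0
  f0 : lcCheck (b0 + 1) 1 0 1 1 O.m0 I.m0 3 0 = true
  f1 : lcCheck (b0 + 1) 0 1 1 1 O.m1 I.m1 4 1 = true
  f2 : lcCheck (b0 + 1) 1 1 1 0 O.m2 I.m2 3 2 = true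
  f3 : lcCheck (b0 + 1) 1 1 0 1 O.m3 I.m3 2 1 = true
  e0 : certOK (TRegB (b0 + 1) 1 0 1 1 O.m0 I.m0 3 0 (3 * (b0 + 1) - 1) (b0 + 1 - 1)) L0 = true
  e1 : certOK (TRegB (b0 + 1) 0 1 1 1 O.m1 I.m1 4 1 (3 * (b0 + 1)) (b0 + 1)) L1 = true
  e2 : certOK (TRegB (b0 + 1) 1 1 1 0 O.m2 I.m2 3 2 (3 * (b0 + 1) - 1) (b0 + 1)) L2 = true
  e3 : certOK (TRegB (b0 + 1) 1 1 0 1 O.m3 I.m3 2 1 (3 * (b0 + 1) - 1) (b0 + 1)) L3 = true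
  hs : L0.length + L1.length + L2.length + L3.length = 2 * b0 + 1

theorem CertM.okm {O I : Pin} {b0 : ℕ} {N M : ℤ} {L0 L1 L2 L3 : List (ℤ × ℤ × ℕ)}
    (C : CertM O I b0 N M L0 L1 L2 L3) (c : ℤ) (h : (c - (b0 + 1)) % 2 = 0) : OKM O I c := by
  obtain ⟨t0, t1, t2, t3, t4, t5, t6, t7⟩ := C.types
  exact ⟨t0, t1, t2, t3, t4, t5, t6, t7, kU6 _ _ _ _ _ _ _ _ _ _ C.f0 h,
    kU6 _ _ _ _ _ _ _ _ _ _ C.f1 h, kU6 _ _ _ _ _ _ _ _ _ _ C.f2 h,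
    kU6 _ _ _ _ _ _ _ _ _ _ C.f3 h⟩

theorem CertM.step {O I : Pin} {b0 : ℕ} {N M : ℤ} {L0 L1 L2 L3 : List (ℤ × ℤ × ℕ)}
    (C : CertM O I b0 N M L0 L1 L2 L3) {b : ℕ} (hb : b0 ≤ b) (hp : (b - b0) % 2 = 0)
    (h : Nest (I.set b) (O.set (b + 1)) (2 * b + 1)) : RepT b (b + 1) := by
  have h4 : 4 ≤ b0 := by have := C.gI.l4; have := C.gI.le; omega
  have hI := C.gI.strong hb (by omega)
  have hO := C.gO.strong (n := b + 1) (by omega) (by push_cast; omega)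
  push_cast at hO
  refine kH8 b (b + 1) _ _ (by omega) (by omega) hI hO ?_
  have e : (b + 1) ^ 2 - b ^ 2 = 2 * b + 1 := by
    have : (b + 1) ^ 2 = b ^ 2 + (2 * b + 1) := by ring
    omega
  rw [e]
  exact h

/-- the first size of type M -/
theorem CertM.first {O I : Pin} {b0 : ℕ} {N M : ℤ} {L0 L1 L2 L3 : List (ℤ × ℤ × ℕ)}
    (C : CertM O I b0 N M L0 L1 L2 L3) : RepT b0 (b0 + 1) := by
  have h4 : 4 ≤ b0 := by have := C.gI.l4; have := C.gI.le; omega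
  refine C.step le_rfl (by omega) ?_
  rw [← C.hs]
  exact kSM O I b0 N M _ _ _ _ (by omega) (C.gO.ok _ (by push_cast; omega))
    (C.gI.ok _ (by omega)) (C.okm _ (by omega)) (packT kU4 C.e0) (packT kU4 C.e1)
    (packT kU4 C.e2) (packT kU4 C.e3)

/-- a whole class modulo 6 of type M -/
theorem CertM.all {O I : Pin} {b0 : ℕ} {N M : ℤ} {L0 L1 L2 L3 : List (ℤ × ℤ × ℕ)}
    (C : CertM O I b0 N M L0 L1 L2 L3) (h5 : 5 ≤ b0) (b : ℕ) (hb : b0 ≤ b)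
    (hp : b % 6 = b0 % 6) : RepT b (b + 1) := by
  obtain ⟨m, rfl⟩ : ∃ m, b = b0 + 6 * m := ⟨(b - b0) / 6, by omega⟩
  refine C.step hb (by omega) ?_
  have key := kFM O I b0 N M L0.length L1.length L2.length L3.length h5 ?_ (packT kU4 C.e0)
    (packT kU4 C.e1) (packT kU4 C.e2) (packT kU4 C.e3) C.hs m
  · push_cast
    exact key
  · intro m
    exact ⟨C.gO.ok _ (by push_cast; omega), C.gI.ok _ (by omega), C.okm _ (by omega)⟩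

/-- certificate of type D -/
structure CertD (O I : Pin) (b0 r : ℕ) (q0 d pf pL N M : ℤ)
    (L0 L1 L2 L3 L4 L6 : List (ℤ × ℤ × ℕ)) : Prop where
  gO : O.Good (b0 + 3) N
  gI : I.Good b0 M
  types : O.g0 = 1 ∧ O.g1 = 1 ∧ O.g2 = 1 ∧ O.g3 = 1 ∧ I.g0 = 1 ∧ I.g1 = 0 ∧ I.g2 = 1 ∧ I.g3 = 0
  b9 : 9 ≤ b0
  bds : -13 ≤ q0 ∧ q0 ≤ -5 ∧ (b0 : ℤ) + 3 + q0 ≥ 7 ∧ 9 ≤ d ∧ d ≤ 17 ∧ 6 ≤ pf ∧ pf ≤ 11 ∧
    3 ≤ pL ∧ pL ≤ 12 ∧ 2 * ((b0 : ℤ) + 3) - d - 1 - pf = 6 * r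
  f0 : lcCheck (b0 + 3) 1 1 1 0 O.m0 I.m0 9 2 = true
  f1 : lcCheck (b0 + 3) 1 1 0 1 O.m1 I.m1 10 3 = true
  f2 : lcCheck (b0 + 3) 1 1 1 0 O.m2 I.m2 9 4 = true
  f3 : lcCheck (b0 + 3) 1 1 0 1 O.m3 I.m3 8 3 = true
  e0 : certOK (TRegB (b0 + 3) 1 1 1 0 O.m0 I.m0 9 2 (3 * (b0 + 3) - 1) (b0 + 3 + q0 - 1)) L0 = true
  e1 : certOK (TRegB (b0 + 3) 1 1 0 1 O.m1 I.m1 10 3 (3 * (b0 + 3) - (pL + 1)) (b0 + 3)) L1 = true
  e2 : certOK (TRegB (b0 + 3) 1 1 1 0 O.m2 I.m2 9 4 (3 * (b0 + 3) - 1) (b0 + 3)) L2 = true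
  e3 : certOK (TRegB (b0 + 3) 1 1 0 1 O.m3 I.m3 8 3 (3 * (b0 + 3) - 1) (b0 + 3)) L3 = true
  e4 : certOK (regTB q0 d (b0 + 3)) L4 = true
  e6 : certOK (regVB pf pL) L6 = true
  hs : L0.length + L1.length + L2.length + L3.length + L4.length + r + L6.length = 6 * b0 + 9

/-- a whole class modulo 6 of type D, followed by the chain -/
theorem CertD.all {O I : Pin} {b0 r n0 : ℕ} {q0 d pf pL N N' M : ℤ}
    {L0 L1 L2 L3 L4 L6 : List (ℤ × ℤ × ℕ)}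
    (C : CertD O I b0 r q0 d pf pL N M L0 L1 L2 L3 L4 L6) (H : Chain O n0 N') (b : ℕ) (hb : b0 ≤ b)
    (hp : b % 6 = b0 % 6) (hn : n0 ≤ b + 3) (hn' : (b + 3 - n0) % 2 = 0) (k : ℕ) :
    RepT b (b + 3 + 2 * k) := by
  obtain ⟨m, rfl⟩ : ∃ m, b = b0 + 6 * m := ⟨(b - b0) / 6, by omega⟩
  obtain ⟨t0, t1, t2, t3, t4, t5, t6, t7⟩ := C.types
  obtain ⟨a1, a2, a3, a4, a5, a6, a7, a8, a9, a10⟩ := C.bds
  have hI := C.gI.strong (n := b0 + 6 * m) (by omega) (by push_cast; omega)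
  have key := kFD O I q0 d pf pL b0 r N M L0.length L1.length L2.length L3.length L4.length
    L6.length C.b9 a1 a2 a3 a4 a5 a6 a7 a8 a9 a10 ?_ (packT kU4 C.e0)
    (packT kU4 C.e1) (packT kU4 C.e2) (packT kU4 C.e3) (packTT kU4 C.e4) (packVV kU4 C.e6) C.hs m
  · refine H.rep (Q := shift 1 1 (I.set ((b0 + 6 * m : ℕ) : ℤ))) ?_ (by omega) hn hn'
      (kH7 _ _ 1 1 hI) ?_ k
    · have := C.b9
      omega
    · have e : (b0 + 6 * m + 3) ^ 2 - (b0 + 6 * m) ^ 2 = 6 * (b0 + 6 * m) + 9 := by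
        have : (b0 + 6 * m + 3) ^ 2 = (b0 + 6 * m) ^ 2 + (6 * (b0 + 6 * m) + 9) := by ring
        omega
      rw [e]
      push_cast
      exact key
  · intro m
    refine ⟨C.gO.ok _ (by push_cast; omega), C.gI.ok _ (by omega), t0, t1, t2, t3, t4, t5, t6, t7,
      kU6 _ _ _ _ _ _ _ _ _ _ C.f0 (by omega), kU6 _ _ _ _ _ _ _ _ _ _ C.f1 (by omega),
      kU6 _ _ _ _ _ _ _ _ _ _ C.f2 (by omega), kU6 _ _ _ _ _ _ _ _ _ _ C.f3 (by omega)⟩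

/-- explicit nest of two pinwheel nets -/
theorem pinNest {O I : Pin} {n0 c b : ℕ} {N M : ℤ} {i j : ℤ} {T : List (ℤ × ℤ × ℕ)}
    (gO : O.Good n0 N) (gI : I.Good b M) (hc : n0 ≤ c) (hp : (c - n0) % 2 = 0)
    (h1 : inclB O I b c i j = true)
    (h2 : certOK (fun p => pinB O c 0 0 p && !pinB I b i j p) T = true) {m : ℕ}
    (hm : T.length = m) : Nest (shift i j (I.set b)) (O.set c) m := by
  subst hm
  have a1 := gO.l4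
  have a2 := gO.le
  have a3 := gI.l4
  have a4 := gI.le
  exact kH11 O I N M b c i j T (by omega) (by omega) (gO.ok _ (by omega)) (gI.ok _ (by omega)) h1 h2

/-- explicit nest of a list in a pinwheel net -/
theorem listNest {O : Pin} {n0 c b : ℕ} {N : ℤ} {L : List (Cell × Placement)}
    {T : List (ℤ × ℤ × ℕ)} (gO : O.Good n0 N) (hc : n0 ≤ c) (hp : (c - n0) % 2 = 0)
    (h1 : (L.map Prod.fst).all (pinB O c 0 0) = true)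
    (h2 : certOK (fun p => pinB O c 0 0 p && !(L.map Prod.fst).contains p) T = true) {m : ℕ}
    (hm : T.length = m) : Nest (L.map Prod.fst).toFinset (O.set c) m := by
  subst hm
  have a1 := gO.l4
  have a2 := gO.le
  exact kH10 O N c _ T (by omega) (gO.ok _ (by omega)) h1 h2

theorem mkM {O I : Pin} {b0 : ℕ} {c N M : ℤ} {L0 L1 L2 L3 : List (ℤ × ℤ × ℕ)} (hc : c = b0 + 1)
    (gO : O.Good (b0 + 1) N) (gI : I.Good b0 M)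
    (types : O.g0 = 1 ∧ O.g1 = 0 ∧ O.g2 = 1 ∧ O.g3 = 1 ∧ I.g0 = 1 ∧ I.g1 = 1 ∧ I.g2 = 1 ∧ I.g3 = 0)
    (f0 : lcCheck c 1 0 1 1 O.m0 I.m0 3 0 = true) (f1 : lcCheck c 0 1 1 1 O.m1 I.m1 4 1 = true)
    (f2 : lcCheck c 1 1 1 0 O.m2 I.m2 3 2 = true) (f3 : lcCheck c 1 1 0 1 O.m3 I.m3 2 1 = true)
    (e0 : certOK (TRegB c 1 0 1 1 O.m0 I.m0 3 0 (3 * c - 1) (c - 1)) L0 = true)
    (e1 : certOK (TRegB c 0 1 1 1 O.m1 I.m1 4 1 (3 * c) c) L1 = true)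
    (e2 : certOK (TRegB c 1 1 1 0 O.m2 I.m2 3 2 (3 * c - 1) c) L2 = true)
    (e3 : certOK (TRegB c 1 1 0 1 O.m3 I.m3 2 1 (3 * c - 1) c) L3 = true)
    (hs : L0.length + L1.length + L2.length + L3.length = 2 * b0 + 1) :
    CertM O I b0 N M L0 L1 L2 L3 := by
  subst hc
  exact ⟨gO, gI, types, f0, f1, f2, f3, e0, e1, e2, e3, hs⟩

theorem mkD {O I : Pin} {b0 r : ℕ} {c q0 d pf pL N M : ℤ} {L0 L1 L2 L3 L4 L6 : List (ℤ × ℤ × ℕ)}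
    (hc : c = b0 + 3) (gO : O.Good (b0 + 3) N) (gI : I.Good b0 M)
    (types : O.g0 = 1 ∧ O.g1 = 1 ∧ O.g2 = 1 ∧ O.g3 = 1 ∧ I.g0 = 1 ∧ I.g1 = 0 ∧ I.g2 = 1 ∧ I.g3 = 0)
    (b9 : 9 ≤ b0)
    (bds : -13 ≤ q0 ∧ q0 ≤ -5 ∧ (b0 : ℤ) + 3 + q0 ≥ 7 ∧ 9 ≤ d ∧ d ≤ 17 ∧ 6 ≤ pf ∧ pf ≤ 11 ∧
      3 ≤ pL ∧ pL ≤ 12 ∧ 2 * ((b0 : ℤ) + 3) - d - 1 - pf = 6 * r)
    (f0 : lcCheck c 1 1 1 0 O.m0 I.m0 9 2 = true) (f1 : lcCheck c 1 1 0 1 O.m1 I.m1 10 3 = true)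
    (f2 : lcCheck c 1 1 1 0 O.m2 I.m2 9 4 = true) (f3 : lcCheck c 1 1 0 1 O.m3 I.m3 8 3 = true)
    (e0 : certOK (TRegB c 1 1 1 0 O.m0 I.m0 9 2 (3 * c - 1) (c + q0 - 1)) L0 = true)
    (e1 : certOK (TRegB c 1 1 0 1 O.m1 I.m1 10 3 (3 * c - (pL + 1)) c) L1 = true)
    (e2 : certOK (TRegB c 1 1 1 0 O.m2 I.m2 9 4 (3 * c - 1) c) L2 = true)
    (e3 : certOK (TRegB c 1 1 0 1 O.m3 I.m3 8 3 (3 * c - 1) c) L3 = true)
    (e4 : certOK (regTB q0 d c) L4 = true) (e6 : certOK (regVB pf pL) L6 = true)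
    (hs : L0.length + L1.length + L2.length + L3.length + L4.length + r + L6.length
      = 6 * b0 + 9) :
    CertD O I b0 r q0 d pf pL N M L0 L1 L2 L3 L4 L6 := by
  subst hc
  exact ⟨gO, gI, types, b9, bds, f0, f1, f2, f3, e0, e1, e2, e3, e4, e6, hs⟩

/-- the same data at a larger size of the same parity -/
theorem Pin.Good.up {D : Pin} {n0 n1 : ℕ} {N : ℤ} (G : D.Good n0 N) (h : n0 ≤ n1)
    (hp : (n1 - n0) % 2 = 0) : D.Good n1 N where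
  l4 := G.l4
  l6 := G.l6
  le := by have := G.le; omega
  ok := fun n hn => G.ok n (by omega)
  oh := fun n hn => G.oh n (by omega)

end RCN
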