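import Pool.Agent.RCN.Targets
import Pool.Agent.RepCube.CNet

/-!
# Second part of the targets: no holes, no touching corners, nets in the sense of `RepCube.IsNet`
-/

namespace RCN

open Pool.Agent.RepCube (NoHoles IsNet)

/-- no two cells of `P` touch in a corner only -/
def NoPinch (P : Finset Cell) : Prop := ∀ x y : ℤ,
  ((x, y) ∈ P → (x + 1, y + 1) ∈ P → (x + 1, y) ∈ P ∨ (x, y + 1) ∈ P) ∧
  ((x + 1, y) ∈ P → (x, y + 1) ∈ P → (x, y) ∈ P ∨ (x + 1, y + 1) ∈ P)

/-- a cube net (cell by cell) without holes and without touching corners -/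
structure Strong (n : ℕ) (P : Finset Cell) : Prop where
  net : IsCubeNet n P
  pin : NoPinch P
  hol : NoHoles P

/-- some net of the `c`-cube can be divided into a net of the `b`-cube and `c ^ 2 - b ^ 2` nets of
the unit cube; nets in the sense of `IsNet` -/
def RepT (b c : ℕ) : Prop :=
  ∃ (P R : Finset Cell) (U : Finset (Finset Cell)), IsNet P c ∧ IsNet R b ∧
    U.card = c ^ 2 - b ^ 2 ∧ (∀ S ∈ U, IsNet S 1) ∧ (∀ S ∈ U, ∀ S' ∈ U, S ≠ S' → Disjoint S S') ∧
    (∀ S ∈ U, Disjoint R S) ∧ P = R ∪ U.biUnion id

/-- every window cell outside the arm has a neighbour outside the arm which is outside the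
window or has smaller rank -/
def CoArmOK (n g g' : ℤ) (m : ℕ) : Prop :=
  ∃ r : ℤ → ℤ → ℕ, ∀ p q : ℤ, inBox p q = true → (p + q + n + 1) % 2 = 0 →
    core g g' m p q = false → ∃ d ∈ [((1 : ℤ), (1 : ℤ)), (-1, -1), (-1, 1), (1, -1)],
      core g g' m (p + d.1) (q + d.2) = false ∧
        (inBox (p + d.1) (q + d.2) = false ∨ r (p + d.1) (q + d.2) < r p q)

/-- the arm in corner coordinates, cut at `q ≤ B` -/
def armA (g g' : ℤ) (m : ℕ) (B p q : ℤ) : Bool := core g g' m p q && decide (q ≤ B)

/-- one square of four cells is not a pair of cells touching in a corner -/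
def blk (g g' : ℤ) (m : ℕ) (B p q : ℤ) : Bool :=
  (!(armA g g' m B p q && armA g g' m B p (q + 2)) ||
    (armA g g' m B (p + 1) (q + 1) || armA g g' m B (p - 1) (q + 1))) &&
  (!(armA g g' m B (p + 1) (q + 1) && armA g g' m B (p - 1) (q + 1)) ||
    (armA g g' m B p q || armA g g' m B p (q + 2)))

/-- no touching corners near the window -/
def PinchOK (n N g g' : ℤ) (m : ℕ) : Prop :=
  ∀ B : ℤ, 3 ≤ B → B ≤ 7 → N + g' - 1 ≤ B → (B - g' + 1 - n) % 2 = 0 →
    ∀ p q : ℤ, -5 ≤ p → p ≤ 5 → -6 ≤ q → q ≤ 4 → (p + q + n + 1) % 2 = 0 →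
      blk g g' m B p q = true

/-- conditions for a pinwheel net to have no holes and no touching corners -/
structure Pin.OKH (D : Pin) (n N : ℤ) : Prop where
  h0 : CoArmOK n D.g0 D.g1 D.m0
  h1 : CoArmOK n D.g1 D.g2 D.m1
  h2 : CoArmOK n D.g2 D.g3 D.m2
  h3 : CoArmOK n D.g3 D.g0 D.m3
  p0 : PinchOK n N D.g0 D.g1 D.m0
  p1 : PinchOK n N D.g1 D.g2 D.m1
  p2 : PinchOK n N D.g2 D.g3 D.m2
  p3 : PinchOK n N D.g3 D.g0 D.m3

/-- Boolean version of `CoArmOK` -/
def coCheck (n g g' : ℤ) (m t : ℕ) : Bool :=
  nine.all (fun p => nine.all (fun q =>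
    !(inBox p q && decide ((p + q + n + 1) % 2 = 0) && !core g g' m p q) ||
      [((1 : ℤ), (1 : ℤ)), (-1, -1), (-1, 1), (1, -1)].any (fun d =>
        !core g g' m (p + d.1) (q + d.2) && ((!inBox (p + d.1) (q + d.2)) ||
          decide (rankTab t (p + d.1) (q + d.2) < rankTab t p q)))))

/-- Boolean version of `PinchOK` -/
def pinchCheck (n N g g' : ℤ) (m : ℕ) : Bool :=
  (intRange 3 5).all (fun B => !(decide (N + g' - 1 ≤ B) && decide ((B - g' + 1 - n) % 2 = 0)) ||
    (intRange (-5) 11).all (fun p => (intRange (-6) 11).all (fun q =>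
      !decide ((p + q + n + 1) % 2 = 0) || blk g g' m B p q)))

/-- Boolean version of `Pin.OKH` -/
def holeCheck (D : Pin) (n N : ℤ) (t0 t1 t2 t3 : ℕ) : Bool :=
  coCheck n D.g0 D.g1 D.m0 t0 && coCheck n D.g1 D.g2 D.m1 t1 && coCheck n D.g2 D.g3 D.m2 t2 &&
  coCheck n D.g3 D.g0 D.m3 t3 && pinchCheck n N D.g0 D.g1 D.m0 && pinchCheck n N D.g1 D.g2 D.m1 &&
  pinchCheck n N D.g2 D.g3 D.m2 && pinchCheck n N D.g3 D.g0 D.m3

/-- `(x, y)` lies in the box `a ≤ x, y < a + k` -/
def inSq (a : ℤ) (k : ℕ) (p : Cell) : Bool :=
  decide (a ≤ p.1) && decide (p.1 < a + k) && decide (a ≤ p.2) && decide (p.2 < a + k)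

/-- the four neighbours of a cell -/
def nbrs (p : Cell) : List Cell := [(p.1 + 1, p.2), (p.1 - 1, p.2), (p.1, p.2 + 1), (p.1, p.2 - 1)]

/-- the cells of `ord` do not belong to `L`, and each has a neighbour outside the box or earlier
in the list (`seen`) -/
def escList (a : ℤ) (k : ℕ) (L : List Cell) : List Cell → List Cell → Bool
  | _, [] => true
  | seen, p :: l => (!L.contains p) && (nbrs p).any (fun q => (!inSq a k q) || seen.contains q) &&
      escList a k L (p :: seen) l

/-- explicit check that a list of cells has no holes: `L` lies in the box, and `ord` lists the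
cells of the box outside `L` in the order in which they can be reached from outside -/
def holeB (a : ℤ) (k : ℕ) (L ord : List Cell) : Bool :=
  L.all (inSq a k) && escList a k L [] ord &&
    (intRange a k).all (fun x => (intRange a k).all (fun y => L.contains (x, y) || ord.contains (x, y)))

/-- explicit check that a list of cells has no touching corners -/
def pinchB (L : List Cell) : Bool :=
  L.all (fun p =>
    (!L.contains (p.1 + 1, p.2 + 1) || (L.contains (p.1 + 1, p.2) || L.contains (p.1, p.2 + 1))) &&
    (!L.contains (p.1 - 1, p.2 + 1) || (L.contains (p.1 - 1, p.2) || L.contains (p.1, p.2 + 1))))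

/-- all checks for an explicit net -/
def strongB (n : ℕ) (a : ℤ) (k : ℕ) (L : List (Cell × Placement)) (ord : List Cell) : Bool :=
  netCheck n L && pinchB (L.map Prod.fst) && holeB a k (L.map Prod.fst) ord

/-- certificate for an explicit nest: the cells of the tiles satisfy `S` -/
def pinB (D : Pin) (n : ℤ) (i j : ℤ) (p : Cell) : Bool :=
  let x := p.1 - i
  let y := p.2 - j
  let arm := fun (g g' : ℤ) (m : ℕ) (x y : ℤ) =>
    decide (y < 0) && (core g g' m (x - y - 3 * n) (x + y + 1) && decide (x + y + 1 ≤ n + g' - 1))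
  (decide (0 ≤ x) && decide (x < n) && decide (0 ≤ y) && decide (y < n)) ||
    (arm D.g0 D.g1 D.m0 x y || (arm D.g1 D.g2 D.m1 y (n - 1 - x) ||
      (arm D.g2 D.g3 D.m2 (n - 1 - x) (n - 1 - y) || arm D.g3 D.g0 D.m3 (n - 1 - y) x)))

/-- explicit inclusion of the moved pinwheel net `I` of the `b`-cube in `O` -/
def inclB (O I : Pin) (b c i j : ℤ) : Bool :=
  (intRange (-2 * b) (5 * b + 1).toNat).all (fun x =>
    (intRange (-2 * b) (5 * b + 1).toNat).all (fun y =>
      !pinB I b 0 0 (x, y) || pinB O c 0 0 (x + i, y + j)))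

/-! ## Group H -/

/-- Bridge: a cell-by-cell net without touching corners and holes is a net in the topological
sense.  Build `CNet P n` (file Pool/Agent/RepCube/Defs.lean) from the folding `f`: corner
`p c = (o - u - v) / 2`, edge vectors `u`, `v`, as functions `Fin 3 → ℤ` (`![_, _, _]`); all three
coordinates of `o - u - v` are even by `OnCube`; `ctr = o`; `hor`, `ver` from `right`, `up`;
`inj`, `cov` from `once`; then use `CNet.isNet`. `IsPolyomino` there: nonempty, connected,
no holes. -/
def tH1 : Prop := ∀ (n : ℕ) (P : Finset Cell), 0 < n → Strong n P → IsNet P n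

/-- Nets of the unit cube have no touching corners and no holes.  They have 6 cells (tA1) and
are connected.  (1) If `c ∉ t`, then one of the four rays from `c` (parallel to the axes) avoids
`t`: otherwise `t` has a cell on each of the four rays; divide the other cells of the plane in
the four open quadrants with respect to `c`; if `t` misses two of the four quadrants, then some
union of rays and quadrants (an arc of the cyclic arrangement ray, quadrant, ray, ...; 6 cases)
contains a cell of `t` but not all and is closed under adjacency inside `t`, contradiction with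
connectedness; so `t` meets at least three quadrants and has at least 4 + 3 = 7 cells.
(2) So there are no holes (walk along the free ray).  (3) Touching corners: say
`(x, y), (x + 1, y + 1) ∈ t`, `(x + 1, y), (x, y + 1) ∉ t`; from `(x + 1, y)` the ray to the right
or the ray down is free, from `(x, y + 1)` the ray to the left or the ray up is free; the two
free rays separate the two cells (4 cases), contradiction with connectedness. -/
def tH2 : Prop := ∀ t : Finset Cell, IsCubeNet 1 t → NoPinch t ∧ NoHoles t

/-- Pinwheel nets have no touching corners.  Take a square of four cells with lower left cell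
`(x, y)`.  If all four cells have `0 ≤ x`, `y < 0` (sector of arm 0, other sectors by tP0): in
corner coordinates the cells are `(p, q)`, `(p + 1, q + 1)`, `(p - 1, q + 1)`, `(p, q + 2)`; if
the square meets the window (`-5 ≤ p ≤ 5`, `-6 ≤ q ≤ 4`) use `PinchOK` with `B = n + g1 - 1` if
this is at most 7, otherwise with `B = 6` or `B = 7` of the right parity (all `q` are at most 6,
so the cut does not matter); outside the windows the arm is given by three inequalities (omega).
Squares which meet the base square, or two sectors: near the sides of the base square the cells of the arms with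
`y = -1`, `0 ≤ x < n` are all present except possibly `(0, -1)`; the cell `(n, -1)` is present iff
`g1 = 1` and then `(n, 0)` is not (its frame-1 coordinates `(0, -1)` have `q = 0`). -/
def tH3 : Prop := ∀ (D : Pin) (n N : ℤ), 4 ≤ N → N ≤ 6 → N ≤ n → D.OK n N → D.OKH n N → NoPinch (D.set n)

/-- Pinwheel nets have no holes.  By tP1 the arm `k` lies in the sector `k` (frame coordinates
`0 ≤ x`, `y < 0`), the sectors and the base square partition the plane (tP0).  Let `c` be a cell
outside the net, say in sector 0, so it is not in the arm 0.  Outside the window: (i) `q ≤ g0 - 1`: walk to the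
left (never through the window: `q - p` is constant, and inside the strip `|q - p| ≤ 4` one has
`p + q ≤ 4` now, so `p + q < -4`) until `x = 0`, then down (`p + q = 1 - 3 n < -4`); (ii) `p ≥ g1`:
walk to the right (if `|q - p| ≤ 4` then `p + q ≥ -4`, so `p + q > 4`); (iii) `q ≥ n + g1`: walk
to the right.  All cells on the way are outside the arm, in sector 0 and outside the window.
Window cells: the core is false (by `ArmOK` window cells with true core satisfy
`q ≤ N + g1 - 1`, so they are in the arm); walk to a cell outside the window with `CoArmOK`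
(induction on the rank). -/
def tH4 : Prop := ∀ (D : Pin) (n N : ℤ), 4 ≤ N → N ≤ n → D.OK n N → D.OKH n N → NoHoles (D.set n)

/-- Soundness of `holeCheck`; only the parity of the size matters. -/
def tH5 : Prop := ∀ (D : Pin) (n n' N : ℤ) (t0 t1 t2 t3 : ℕ),
  holeCheck D n N t0 t1 t2 t3 = true → (n' - n) % 2 = 0 → D.OKH n' N

/-- Soundness of the explicit checks (uses tU1).  A cell outside the box escapes along a ray; a
cell of `ord` has a neighbour outside `L` which escapes (induction along the list). -/
def tH6 : Prop := ∀ (n : ℕ) (a : ℤ) (k : ℕ) (L : List (Cell × Placement)) (ord : List Cell),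
  strongB n a k L ord = true → Strong n (L.map Prod.fst).toFinset

/-- Moving a net. -/
def tH7 : Prop := ∀ (n : ℕ) (P : Finset Cell) (i j : ℤ), Strong n P → Strong n (shift i j P)

/-- From a nest to a division in the strong sense (as tA6, with tH1, tH2). -/
def tH8 : Prop := ∀ (b c : ℕ) (Q P : Finset Cell), 0 < b → b ≤ c → Strong b Q → Strong c P →
  Nest Q P (c ^ 2 - b ^ 2) → RepT b c

/-- Composition with the chain (as tFX, with tH3, tH4, tH7, tH8, tA7, tP11). -/
def tH9 : Prop := ∀ (D : Pin) (N : ℤ) (b n : ℕ) (Q : Finset Cell), 4 ≤ N → N ≤ 6 → N ≤ n → 0 < b →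
  b ≤ n →
  (∀ m : ℕ, D.OK (n + 2 * m) N ∧ D.OKH (n + 2 * m) N) →
  (∀ m : ℕ, Nest (shift 1 1 (D.set (n + 2 * m))) (D.set (n + 2 * m + 2)) (4 * (n + 2 * m) + 4)) →
  Strong b Q → Nest Q (D.set n) (n ^ 2 - b ^ 2) → ∀ k : ℕ, RepT b (n + 2 * k)

/-- Explicit nest of an explicit list of cells in a pinwheel net (uses tU4, tA4, tP2). -/
def tH10 : Prop := ∀ (O : Pin) (N : ℤ) (c : ℕ) (Q : List Cell) (T : List (ℤ × ℤ × ℕ)), 4 ≤ c →
  O.OK c N → Q.all (pinB O c 0 0) = true →
  certOK (fun p => pinB O c 0 0 p && !Q.contains p) T = true → Nest Q.toFinset (O.set c) T.length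

/-- Explicit nest of a pinwheel net in a pinwheel net (uses tU4, tA4, tP2). -/
def tH11 : Prop := ∀ (O I : Pin) (N M : ℤ) (b c : ℕ) (i j : ℤ) (T : List (ℤ × ℤ × ℕ)), 4 ≤ b →
  4 ≤ c → O.OK c N → I.OK b M → inclB O I b c i j = true →
  certOK (fun p => pinB O c 0 0 p && !pinB I b i j p) T = true →
  Nest (shift i j (I.set b)) (O.set c) T.length

/-- Explicit nest of a list in a list (uses tU4, tA4). -/
def tH12 : Prop := ∀ (P Q : List Cell) (T : List (ℤ × ℤ × ℕ)), Q.all (fun p => P.contains p) = true →
  certOK (fun p => P.contains p && !Q.contains p) T = true → Nest Q.toFinset P.toFinset T.length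

end RCN
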