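import Pool.Agent.RCN.Expl

/-! # The theorem -/

namespace RCN

/-- steps from `b` to `b + 1` -/
theorem repM (b : ℕ) (h : 4 ≤ b) : RepT b (b + 1) := by
  rcases (show b = 4 ∨ 5 ≤ b by omega) with rfl | h5
  · exact cM4.first
  have h6 : b % 6 = 0 ∨ b % 6 = 1 ∨ b % 6 = 2 ∨ b % 6 = 3 ∨ b % 6 = 4 ∨ b % 6 = 5 := by omega
  rcases h6 with h6 | h6 | h6 | h6 | h6 | h6
  · exact cM6.all (by norm_num) b (by omega) (by omega)
  · exact cM7.all (by norm_num) b (by omega) (by omega)
  · exact cM8.all (by norm_num) b (by omega) (by omega)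
  · exact cM9.all (by norm_num) b (by omega) (by omega)
  · exact cM10.all (by norm_num) b (by omega) (by omega)
  · exact cM5.all (by norm_num) b (by omega) (by omega)

/-- steps from `b` to `b + 2`, `b + 4`, ... for even `b` -/
theorem repCE (b : ℕ) (h : 4 ≤ b) (h2 : b % 2 = 0) (k : ℕ) : RepT b (b + 2 + 2 * k) := by
  refine chE.rep (by omega) (by omega) (by omega) (by omega)
    (kH7 _ _ 1 1 (gE4.strong (n := b) h (by omega))) ?_ k
  have e : (b + 2) ^ 2 - b ^ 2 = 4 * b + 4 := by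
    have : (b + 2) ^ 2 = b ^ 2 + (4 * b + 4) := by ring
    omega
  rw [e]
  have := chE.nest b h (by omega)
  push_cast
  exact this

/-- steps from `b` to `b + 2`, `b + 4`, ... for odd `b` -/
theorem repCO (b : ℕ) (h : 9 ≤ b) (h2 : b % 2 = 1) (k : ℕ) : RepT b (b + 2 + 2 * k) := by
  refine chO.rep (by omega) (by omega) (by omega) (by omega)
    (kH7 _ _ 1 1 (gW9.strong (n := b) h (by omega))) ?_ k
  have e : (b + 2) ^ 2 - b ^ 2 = 4 * b + 4 := by
    have : (b + 2) ^ 2 = b ^ 2 + (4 * b + 4) := by ring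
    omega
  rw [e]
  have := chO.nest b h (by omega)
  push_cast
  exact this

/-- steps from `b` to `b + 3`, `b + 5`, ... -/
theorem repD (b : ℕ) (h : 5 ≤ b) (k : ℕ) : RepT b (b + 3 + 2 * k) := by
  rcases (show b = 5 ∨ b = 6 ∨ b = 7 ∨ b = 8 ∨ b = 10 ∨ b = 12 ∨ (9 ≤ b ∧ b % 2 = 1) ∨
      (14 ≤ b ∧ b % 2 = 0) by omega) with rfl | rfl | rfl | rfl | rfl | rfl | h9 | h9
  · exact r5_8 k
  · exact r6_9 k
  · exact r7_10 k
  · exact r8_11 k
  · exact r10_13 k
  · exact r12_15 k
  · rcases (show b % 6 = 1 ∨ b % 6 = 3 ∨ b % 6 = 5 by omega) with h6 | h6 | h6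
    · rcases (show b = 13 ∨ 13 ≤ b by omega) with h | h
      · exact cD13.all chE b (by omega) (by omega) (by omega) (by omega) k
      · exact cD13.all chE b (by omega) (by omega) (by omega) (by omega) k
    · exact cD9.all chE b (by omega) (by omega) (by omega) (by omega) k
    · exact cD11.all chE b (by omega) (by omega) (by omega) (by omega) k
  · rcases (show b % 6 = 0 ∨ b % 6 = 2 ∨ b % 6 = 4 by omega) with h6 | h6 | h6
    · exact cD18.all chO b (by omega) (by omega) (by omega) (by omega) k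
    · exact cD14.all chO b (by omega) (by omega) (by omega) (by omega) k
    · exact cD16.all chO b (by omega) (by omega) (by omega) (by omega) k

/-- the full answer -/
theorem main (b c : ℕ) (hb : 1 < b) (hc : b < c) : RepT b c := by
  rcases (show b = 2 ∨ b = 3 ∨ 4 ≤ b by omega) with rfl | rfl | h4
  · rcases (show c = 3 ∨ c = 5 ∨ c = 7 ∨ (4 ≤ c ∧ c % 2 = 0) ∨ (9 ≤ c ∧ c % 2 = 1) by omega)
      with rfl | rfl | rfl | h | h
    · exact r2_3
    · exact r2_5
    · exact r2_7
    · have := r2_4 ((c - 4) / 2)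
      rwa [show 4 + 2 * ((c - 4) / 2) = c by omega] at this
    · have := r2_9 ((c - 9) / 2)
      rwa [show 9 + 2 * ((c - 9) / 2) = c by omega] at this
  · rcases (show c = 4 ∨ c = 5 ∨ c = 6 ∨ c = 7 ∨ (8 ≤ c ∧ c % 2 = 0) ∨ (9 ≤ c ∧ c % 2 = 1)
      by omega) with rfl | rfl | rfl | rfl | h | h
    · exact r3_4
    · exact r3_5
    · exact r3_6
    · exact r3_7
    · have := r3_8 ((c - 8) / 2)
      rwa [show 8 + 2 * ((c - 8) / 2) = c by omega] at this
    · have := r3_9 ((c - 9) / 2)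
      rwa [show 9 + 2 * ((c - 9) / 2) = c by omega] at this
  rcases (show c = b + 1 ∨ (b + 2 ≤ c ∧ (c - b) % 2 = 0) ∨ (b + 3 ≤ c ∧ (c - b) % 2 = 1)
    by omega) with rfl | h | h
  · exact repM b h4
  · -- even difference
    rcases (show b % 2 = 0 ∨ (9 ≤ b ∧ b % 2 = 1) ∨ b = 5 ∨ b = 7 by omega) with h2 | h2 | rfl | rfl
    · have := repCE b h4 h2 ((c - b - 2) / 2)
      rwa [show b + 2 + 2 * ((c - b - 2) / 2) = c by omega] at this
    · have := repCO b h2.1 h2.2 ((c - b - 2) / 2)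
      rwa [show b + 2 + 2 * ((c - b - 2) / 2) = c by omega] at this
    · rcases (show c = 7 ∨ 9 ≤ c by omega) with rfl | h9
      · exact r5_7
      · have := r5_9 ((c - 9) / 2)
        rwa [show 9 + 2 * ((c - 9) / 2) = c by omega] at this
    · rcases (show c = 9 ∨ 11 ≤ c by omega) with rfl | h9
      · exact r7_9
      · have := r7_11 ((c - 11) / 2)
        rwa [show 11 + 2 * ((c - 11) / 2) = c by omega] at this
  · -- odd difference
    rcases (show b = 4 ∨ 5 ≤ b by omega) with rfl | h5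
    · rcases (show c = 7 ∨ 9 ≤ c by omega) with rfl | h9
      · exact r4_7
      · have := r4_9 ((c - 9) / 2)
        rwa [show 9 + 2 * ((c - 9) / 2) = c by omega] at this
    · have := repD b h5 ((c - b - 3) / 2)
      rwa [show b + 3 + 2 * ((c - b - 3) / 2) = c by omega] at this

end RCN
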