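import Pool.Agent.RCN.Targets

/-!
# RCN: the target A1
-/

set_option autoImplicit false

namespace RCN

/-- midpoints -/
def A1_M (n : ℕ) : Finset ℤ := (Finset.range n).image (fun i : ℕ => 2 * (i : ℤ) + 1)

/-- end points -/
def A1_E (n : ℕ) : Finset ℤ := {0, 2 * (n : ℤ)}

theorem A1_mem_M (n : ℕ) (t : ℤ) : t ∈ A1_M n ↔ Mid n t := by
  unfold A1_M Mid
  rw [Finset.mem_image]
  constructor
  · rintro ⟨i, hi, rfl⟩
    rw [Finset.mem_range] at hi
    refine ⟨⟨i, by ring⟩, by positivity, ?_⟩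
    omega
  · rintro ⟨⟨k, hk⟩, h1, h2⟩
    refine ⟨k.toNat, ?_, ?_⟩
    · rw [Finset.mem_range]
      omega
    · omega

theorem A1_mem_E (n : ℕ) (t : ℤ) : t ∈ A1_E n ↔ End n t := by
  unfold A1_E End
  simp

theorem A1_card_M (n : ℕ) : (A1_M n).card = n := by
  unfold A1_M
  rw [Finset.card_image_of_injective, Finset.card_range]
  intro a b h
  have : 2 * (a : ℤ) + 1 = 2 * (b : ℤ) + 1 := h
  omega

theorem A1_card_E (n : ℕ) (hn : n ≠ 0) : (A1_E n).card = 2 := by
  unfold A1_E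
  rw [Finset.card_pair]
  omega

theorem A1_disj {n : ℕ} {t : ℤ} (h : Mid n t) (h' : End n t) : False := by
  obtain ⟨⟨k, hk⟩, h1, h2⟩ := h
  rcases h' with h' | h' <;> omega

/-- the centres -/
def A1_S (n : ℕ) : Finset Vec :=
  (A1_E n ×ˢ (A1_M n ×ˢ A1_M n)) ∪ ((A1_M n ×ˢ (A1_E n ×ˢ A1_M n)) ∪
    (A1_M n ×ˢ (A1_M n ×ˢ A1_E n)))

theorem A1_mem_S (n : ℕ) (o : Vec) : o ∈ A1_S n ↔ Surf n o := by
  unfold A1_S Surf
  simp only [Finset.mem_union, Finset.mem_product, A1_mem_M, A1_mem_E]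

theorem A1_card_S (n : ℕ) : (A1_S n).card = 6 * n ^ 2 := by
  by_cases hn : n = 0
  · subst hn
    have : A1_M 0 = ∅ := by
      unfold A1_M
      simp
    unfold A1_S
    rw [this]
    simp
  · unfold A1_S
    rw [Finset.card_union_of_disjoint, Finset.card_union_of_disjoint]
    · simp only [Finset.card_product, A1_card_M, A1_card_E n hn]
      ring
    · rw [Finset.disjoint_left]
      intro o h1 h2
      simp only [Finset.mem_product, A1_mem_M, A1_mem_E] at h1 h2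
      exact A1_disj h2.2.1 h1.2.1
    · rw [Finset.disjoint_left]
      intro o h1 h2
      simp only [Finset.mem_union, Finset.mem_product, A1_mem_M, A1_mem_E] at h1 h2
      rcases h2 with h2 | h2
      · exact A1_disj h2.1 h1.1
      · exact A1_disj h2.1 h1.1

theorem A1_surf {n : ℤ} {s : Placement} (h : OnCube n s) : Surf n s.o := by
  obtain ⟨-, -, -, h⟩ := h
  rcases h with h | h | h
  · exact Or.inl ⟨h.1, h.2.1, h.2.2.1⟩
  · exact Or.inr (Or.inl ⟨h.1, h.2.1, h.2.2.1⟩)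
  · exact Or.inr (Or.inr ⟨h.1, h.2.1, h.2.2.1⟩)

theorem pA1 : tA1 := by
  rintro n P ⟨-, f, hf⟩
  rw [← A1_card_S n]
  have himg : P.image (fun p => (f p).o) = A1_S n := by
    ext o
    rw [Finset.mem_image, A1_mem_S]
    constructor
    · rintro ⟨p, hp, rfl⟩
      exact A1_surf (hf.on p hp)
    · intro ho
      obtain ⟨p, ⟨hp, hpo⟩, -⟩ := hf.once o ho
      exact ⟨p, hp, hpo⟩
  rw [← himg, Finset.card_image_of_injOn]
  intro p hp q hq hpq
  have hpq' : (f p).o = (f q).o := hpq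
  exact (hf.once (f p).o (A1_surf (hf.on p hp))).unique ⟨hp, rfl⟩ ⟨hq, hpq'.symm⟩

end RCN
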