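import Pool.Agent.RCN.HTargets

/-!
# Target tH3 : pinwheel nets have no touching corners
-/

namespace RCN

/-- no touching corners in the square of four cells with lower left cell `(x, y)` -/
def H3_NP (M : ℤ → ℤ → Prop) (x y : ℤ) : Prop :=
  (M x y → M (x + 1) (y + 1) → M (x + 1) y ∨ M x (y + 1)) ∧
  (M (x + 1) y → M x (y + 1) → M x y ∨ M (x + 1) (y + 1))

/-- turning the frame -/
theorem H3_rot (hP0 : tP0) (D : Pin) (n x y : ℤ) (h : H3_NP (D.rot.Mem n) y (n - 2 - x)) :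
    H3_NP (D.Mem n) x y := by
  have a := hP0.1 D n x y
  have b := hP0.1 D n (x + 1) y
  have c := hP0.1 D n x (y + 1)
  have d := hP0.1 D n (x + 1) (y + 1)
  rw [show n - 1 - x = n - 2 - x + 1 by ring] at a c
  rw [show n - 1 - (x + 1) = n - 2 - x by ring] at b d
  obtain ⟨h1, h2⟩ := h
  unfold H3_NP
  rw [a, b, c, d]
  exact ⟨fun u v => (h2 v u).symm.imp id id |>.symm.imp id id, fun u v => (h1 u v).symm⟩

theorem H3_rotOKH (D : Pin) (n N : ℤ) (h : D.OKH n N) : D.rot.OKH n N :=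
  ⟨h.h1, h.h2, h.h3, h.h0, h.p1, h.p2, h.p3, h.p0⟩

/-- bounds of the types -/
theorem H3_g {a : ℤ} (h : a = 0 ∨ a = 1) : 0 ≤ a ∧ a ≤ 1 := by
  rcases h with h | h <;> rw [h] <;> decide

/-- in the sector 0 the net is its arm 0 -/
theorem H3_sec0 (hP1 : tP1) (D : Pin) (n N x y : ℤ) (hn : 4 ≤ n) (hD : D.OK n N) (hx : 0 ≤ x)
    (hy : y < 0) : D.Mem n x y ↔ Arm n D.g0 D.g1 D.m0 x y := by
  have g0 := H3_g hD.b0
  have g1 := H3_g hD.b1
  have g2 := H3_g hD.b2
  have g3 := H3_g hD.b3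
  unfold Pin.Mem
  constructor
  · rintro (h | h | h | h | h)
    · omega
    · exact h
    · have := hP1 n D.g1 D.g2 D.m1 y (n - 1 - x) hn g1.1 g1.2 g2.1 g2.2 h
      omega
    · have := hP1 n D.g2 D.g3 D.m2 (n - 1 - x) (n - 1 - y) hn g2.1 g2.2 g3.1 g3.2 h
      omega
    · have := hP1 n D.g3 D.g0 D.m3 (n - 1 - y) x hn g3.1 g3.2 g0.1 g0.2 h
      omega
  · intro h
    exact Or.inr (Or.inl h)

/-- the core outside the window -/
theorem H3_core {g g' : ℤ} {m : ℕ} {p q : ℤ} (h : ¬ (-4 ≤ p ∧ p ≤ 4 ∧ -4 ≤ q ∧ q ≤ 4)) :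
    core g g' m p q = true ↔ g ≤ q ∧ p ≤ g' - 1 := by
  unfold core
  have hb : ¬ (inBox p q = true) := by
    intro hb
    simp only [inBox, Bool.and_eq_true, decide_eq_true_eq] at hb
    omega
  rw [if_neg hb]
  simp only [Bool.and_eq_true, decide_eq_true_eq]

/-- the cells `(x, -1)` and `(x, 0)` with `x > n` do not belong to the net -/
theorem H3_far (hP1 : tP1) (D : Pin) (n N x : ℤ) (hn : 4 ≤ n) (hD : D.OK n N) (hx : n + 1 ≤ x) :
    ¬ D.Mem n x (-1) ∧ ¬ D.Mem n x 0 := by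
  have g0 := H3_g hD.b0
  have g1 := H3_g hD.b1
  have g2 := H3_g hD.b2
  have g3 := H3_g hD.b3
  constructor
  · rw [H3_sec0 hP1 D n N x (-1) hn hD (by omega) (by omega)]
    rintro ⟨-, -, h⟩
    omega
  · unfold Pin.Mem
    rintro (h | h | h | h | h)
    · omega
    · have := h.1
      omega
    · have h2 := h.2.1
      rw [H3_core (by omega)] at h2
      omega
    · have := hP1 n D.g2 D.g3 D.m2 (n - 1 - x) (n - 1 - 0) hn g2.1 g2.2 g3.1 g3.2 h
      omega
    · have := hP1 n D.g3 D.g0 D.m3 (n - 1 - 0) x hn g3.1 g3.2 g0.1 g0.2 h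
      omega

/-- from the Boolean condition to the arm -/
theorem H3_blk (n g g' : ℤ) (m : ℕ) (x y : ℤ) (hy : y ≤ -2)
    (h : blk g g' m (n + g' - 1) (x - y - 3 * n) (x + y + 1) = true) :
    H3_NP (Arm n g g' m) x y := by
  have e : ∀ u v : ℤ, v < 0 → (Arm n g g' m u v ↔
      armA g g' m (n + g' - 1) (u - v - 3 * n) (u + v + 1) = true) := by
    intro u v hv
    unfold Arm armA
    simp only [Bool.and_eq_true, decide_eq_true_eq]
    exact ⟨fun w => w.2, fun w => ⟨hv, w⟩⟩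
  unfold H3_NP
  rw [e x y (by omega), e (x + 1) y (by omega), e x (y + 1) (by omega),
    e (x + 1) (y + 1) (by omega)]
  rw [show x + 1 - y - 3 * n = x - y - 3 * n + 1 by ring,
    show x + 1 + y + 1 = x + y + 1 + 1 by ring,
    show x - (y + 1) - 3 * n = x - y - 3 * n - 1 by ring,
    show x + (y + 1) + 1 = x + y + 1 + 1 by ring,
    show x + 1 - (y + 1) - 3 * n = x - y - 3 * n by ring,
    show x + 1 + (y + 1) + 1 = x + y + 1 + 2 by ring]
  unfold blk at h
  generalize armA g g' m (n + g' - 1) (x - y - 3 * n) (x + y + 1) = a at *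
  generalize armA g g' m (n + g' - 1) (x - y - 3 * n) (x + y + 1 + 2) = b at *
  generalize armA g g' m (n + g' - 1) (x - y - 3 * n + 1) (x + y + 1 + 1) = c at *
  generalize armA g g' m (n + g' - 1) (x - y - 3 * n - 1) (x + y + 1 + 1) = d at *
  revert a b c d
  decide

/-- outside the window -/
theorem H3_out (g g' : ℤ) (m : ℕ) (B p q : ℤ) (hg0 : 0 ≤ g) (hg1 : g ≤ 1) (hB : 3 ≤ B)
    (hw : ¬ (-5 ≤ p ∧ p ≤ 5 ∧ -6 ≤ q ∧ q ≤ 4)) : blk g g' m B p q = true := by
  have e : ∀ u v : ℤ, ¬ (-4 ≤ u ∧ u ≤ 4 ∧ -4 ≤ v ∧ v ≤ 4) →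
      armA g g' m B u v = decide (g ≤ v ∧ u ≤ g' - 1 ∧ v ≤ B) := by
    intro u v huv
    rw [Bool.eq_iff_iff]
    unfold armA
    rw [Bool.and_eq_true, H3_core huv, decide_eq_true_eq, decide_eq_true_eq]
    tauto
  unfold blk
  rw [e p q (by omega), e p (q + 2) (by omega), e (p + 1) (q + 1) (by omega),
    e (p - 1) (q + 1) (by omega)]
  simp only [Bool.and_eq_true, Bool.or_eq_true, Bool.not_eq_true', Bool.and_eq_false_iff,
    decide_eq_true_eq, decide_eq_false_iff_not]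
  constructor <;> omega

/-- the cut does not matter above the window -/
theorem H3_cut (g g' : ℤ) (m : ℕ) (B B' p q : ℤ) (h1 : q + 2 ≤ B) (h2 : q + 2 ≤ B')
    (h : blk g g' m B' p q = true) : blk g g' m B p q = true := by
  have e : ∀ u v : ℤ, v ≤ q + 2 → armA g g' m B u v = armA g g' m B' u v := by
    intro u v hv
    unfold armA
    rw [decide_eq_true (show v ≤ B by omega), decide_eq_true (show v ≤ B' by omega)]
  unfold blk at *
  rw [e p q (by omega), e p (q + 2) (by omega), e (p + 1) (q + 1) (by omega),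
    e (p - 1) (q + 1) (by omega)]
  exact h

/-- all squares inside the sector -/
theorem H3_all (n N g g' : ℤ) (m : ℕ) (p q : ℤ) (hN : 4 ≤ N) (hN6 : N ≤ 6) (hn : N ≤ n)
    (hg0 : 0 ≤ g) (hg1 : g ≤ 1) (hg0' : 0 ≤ g') (hg1' : g' ≤ 1) (hp : PinchOK n N g g' m)
    (hpar : (p + q + n + 1) % 2 = 0) : blk g g' m (n + g' - 1) p q = true := by
  by_cases hw : -5 ≤ p ∧ p ≤ 5 ∧ -6 ≤ q ∧ q ≤ 4
  · obtain ⟨w1, w2, w3, w4⟩ := hw
    by_cases hB : n + g' - 1 ≤ 7
    · exact hp (n + g' - 1) (by omega) hB (by omega) (by omega) p q w1 w2 w3 w4 hpar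
    · by_cases h6 : (6 - g' + 1 - n) % 2 = 0
      · exact H3_cut g g' m _ 6 p q (by omega) (by omega)
          (hp 6 (by omega) (by omega) (by omega) h6 p q w1 w2 w3 w4 hpar)
      · exact H3_cut g g' m _ 7 p q (by omega) (by omega)
          (hp 7 (by omega) (by omega) (by omega) (by omega) p q w1 w2 w3 w4 hpar)
  · exact H3_out g g' m _ p q hg0 hg1 (by omega) hw

/-- squares whose lower left cell lies in the sector 0 -/
theorem H3_main (hP1 : tP1) (D : Pin) (n N x y : ℤ) (hN : 4 ≤ N) (hN6 : N ≤ 6) (hn : N ≤ n)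
    (hD : D.OK n N) (hH : D.OKH n N) (hx : 0 ≤ x) (hy : y < 0) : H3_NP (D.Mem n) x y := by
  have g0 := H3_g hD.b0
  have g1 := H3_g hD.b1
  by_cases hy2 : y ≤ -2
  · have h := H3_blk n D.g0 D.g1 D.m0 x y hy2
      (H3_all n N D.g0 D.g1 D.m0 _ _ hN hN6 hn g0.1 g0.2 g1.1 g1.2 hH.p0 (by omega))
    unfold H3_NP at *
    rw [H3_sec0 hP1 D n N x y (by omega) hD hx hy,
      H3_sec0 hP1 D n N (x + 1) y (by omega) hD (by omega) hy,
      H3_sec0 hP1 D n N x (y + 1) (by omega) hD hx (by omega),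
      H3_sec0 hP1 D n N (x + 1) (y + 1) (by omega) hD (by omega) (by omega)]
    exact h
  · have hy1 : y = -1 := by omega
    subst hy1
    by_cases hx1 : x < n
    · have hb : D.Mem n x (-1 + 1) := Or.inl ⟨hx, hx1, by omega, by omega⟩
      refine ⟨fun _ _ => Or.inr hb, fun _ _ => ?_⟩
      by_cases hx2 : x + 1 < n
      · exact Or.inr (Or.inl ⟨by omega, hx2, by omega, by omega⟩)
      · left
        rw [H3_sec0 hP1 D n N x (-1) (by omega) hD hx hy]
        refine ⟨hy, ?_, by omega⟩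
        rw [H3_core (by omega)]
        constructor <;> omega
    · have hf := H3_far hP1 D n N (x + 1) (by omega) hD (by omega)
      exact ⟨fun _ h => absurd h hf.2, fun h _ => absurd h hf.1⟩

/-- Pinwheel nets have no touching corners. -/
theorem pH3 (hP0 : tP0) (hP1 : tP1) (hP2 : tP2) : tH3 := by
  intro D n N hN hN6 hn hD hH
  have key : ∀ x y : ℤ, H3_NP (D.Mem n) x y := by
    intro x y
    have hD1 := hP0.2 _ _ _ hD
    have hD2 := hP0.2 _ _ _ hD1
    have hD3 := hP0.2 _ _ _ hD2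
    have hH1 := H3_rotOKH _ _ _ hH
    have hH2 := H3_rotOKH _ _ _ hH1
    have hH3 := H3_rotOKH _ _ _ hH2
    by_cases c0 : 0 ≤ x ∧ y < 0
    · exact H3_main hP1 D n N x y hN hN6 hn hD hH c0.1 c0.2
    by_cases c1 : 0 ≤ y ∧ n - 2 - x < 0
    · exact H3_rot hP0 D n x y
        (H3_main hP1 D.rot n N _ _ hN hN6 hn hD1 hH1 c1.1 c1.2)
    by_cases c2 : 0 ≤ n - 2 - x ∧ n - 2 - y < 0
    · exact H3_rot hP0 D n x y (H3_rot hP0 D.rot n _ _
        (H3_main hP1 D.rot.rot n N _ _ hN hN6 hn hD2 hH2 c2.1 c2.2))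
    by_cases c3 : 0 ≤ n - 2 - y ∧ x < 0
    · exact H3_rot hP0 D n x y (H3_rot hP0 D.rot n _ _ (H3_rot hP0 D.rot.rot n _ _
        (H3_main hP1 D.rot.rot.rot n N _ _ hN hN6 hn hD3 hH3 c3.1 (by omega))))
    have b1 : D.Mem n x y := Or.inl ⟨by omega, by omega, by omega, by omega⟩
    have b2 : D.Mem n (x + 1) y := Or.inl ⟨by omega, by omega, by omega, by omega⟩
    exact ⟨fun _ _ => Or.inl b2, fun _ _ => Or.inl b1⟩
  intro x y
  rw [hP2 D n N x y (by omega) hD, hP2 D n N (x + 1) y (by omega) hD,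
    hP2 D n N x (y + 1) (by omega) hD, hP2 D n N (x + 1) (y + 1) (by omega) hD]
  exact key x y

end RCN
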