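import Pool.Agent.RCN.Targets

/-!
# RCN: every unit square of the surface is covered
-/

namespace RCN

theorem P8_sec0 (n X Y : ℤ) (hX : 0 ≤ X) (hY : Y < 0) : sec n (X, Y) = 0 := by
  unfold sec
  rw [if_pos ⟨hX, hY⟩]

theorem P8_sec1 (n X Y : ℤ) (hX : 0 ≤ X) (hY : Y < 0) : sec n (n - 1 - Y, X) = 1 := by
  unfold sec
  rw [if_neg, if_pos]
  · exact ⟨by show n ≤ n - 1 - Y; omega, hX⟩
  · rintro ⟨-, h⟩
    have : X < 0 := h
    omega

theorem P8_sec2 (n X Y : ℤ) (hn : 0 < n) (hX : 0 ≤ X) (hY : Y < 0) :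
    sec n (n - 1 - X, n - 1 - Y) = 2 := by
  unfold sec
  rw [if_neg, if_neg, if_pos]
  · exact ⟨by show n ≤ n - 1 - Y; omega, by show n - 1 - X < n; omega⟩
  · rintro ⟨h, -⟩
    have : n ≤ n - 1 - X := h
    omega
  · rintro ⟨-, h⟩
    have : n - 1 - Y < 0 := h
    omega

theorem P8_sec3 (n X Y : ℤ) (hn : 0 < n) (hX : 0 ≤ X) (hY : Y < 0) :
    sec n (Y, n - 1 - X) = 3 := by
  unfold sec
  rw [if_neg, if_neg, if_neg, if_pos]
  · exact ⟨hY, by show n - 1 - X < n; omega⟩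
  · rintro ⟨h, -⟩
    have : n ≤ n - 1 - X := h
    omega
  · rintro ⟨h, -⟩
    have : n ≤ Y := h
    omega
  · rintro ⟨h, -⟩
    have : 0 ≤ Y := h
    omega

theorem P8_o0 (n X Y : ℤ) (hX : 0 ≤ X) (hY : Y < 0) :
    (pinFold n (X, Y)).o = (E0 n X Y).o := by
  unfold pinFold
  rw [P8_sec0 n X Y hX hY]
  rfl

theorem P8_o1 (n X Y : ℤ) (hX : 0 ≤ X) (hY : Y < 0) :
    (pinFold n (n - 1 - Y, X)).o =
      (2 * n - (E0 n X Y).o.2.1, (E0 n X Y).o.1, (E0 n X Y).o.2.2) := by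
  unfold pinFold
  rw [P8_sec1 n X Y hX hY]
  have h : fr n 1 (n - 1 - Y, X) = (X, Y) := by
    show (X, n - 1 - (n - 1 - Y)) = (X, Y)
    rw [sub_sub_cancel]
  rw [h]
  rfl

theorem P8_o2 (n X Y : ℤ) (hn : 0 < n) (hX : 0 ≤ X) (hY : Y < 0) :
    (pinFold n (n - 1 - X, n - 1 - Y)).o =
      (2 * n - (E0 n X Y).o.1, 2 * n - (E0 n X Y).o.2.1, (E0 n X Y).o.2.2) := by
  unfold pinFold
  rw [P8_sec2 n X Y hn hX hY]
  have h : fr n 2 (n - 1 - X, n - 1 - Y) = (X, Y) := by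
    show (n - 1 - (n - 1 - X), n - 1 - (n - 1 - Y)) = (X, Y)
    rw [sub_sub_cancel, sub_sub_cancel]
  rw [h]
  rfl

theorem P8_o3 (n X Y : ℤ) (hn : 0 < n) (hX : 0 ≤ X) (hY : Y < 0) :
    (pinFold n (Y, n - 1 - X)).o =
      ((E0 n X Y).o.2.1, 2 * n - (E0 n X Y).o.1, (E0 n X Y).o.2.2) := by
  unfold pinFold
  rw [P8_sec3 n X Y hn hX hY]
  have h : fr n 3 (Y, n - 1 - X) = (X, Y) := by
    show (n - 1 - (n - 1 - X), n - 1 - (n - 1 - Y)) = (X, Y)
    rw [sub_sub_cancel, sub_sub_cancel]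
  rw [h]
  show (2 * n - (2 * n - (E0 n X Y).o.2.1), 2 * n - (E0 n X Y).o.1, (E0 n X Y).o.2.2) = _
  rw [sub_sub_cancel]

/-- the arm `k` in absolute coordinates is in the net -/
theorem P8_m0 (D : Pin) (n X Y : ℤ) (h : Arm n D.g0 D.g1 D.m0 X Y) : D.Mem n X Y :=
  Or.inr (Or.inl h)

theorem P8_m1 (D : Pin) (n X Y : ℤ) (h : Arm n D.g1 D.g2 D.m1 X Y) :
    D.Mem n (n - 1 - Y) X := by
  refine Or.inr (Or.inr (Or.inl ?_))
  rw [sub_sub_cancel]
  exact h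

theorem P8_m2 (D : Pin) (n X Y : ℤ) (h : Arm n D.g2 D.g3 D.m2 X Y) :
    D.Mem n (n - 1 - X) (n - 1 - Y) := by
  refine Or.inr (Or.inr (Or.inr (Or.inl ?_)))
  rw [sub_sub_cancel, sub_sub_cancel]
  exact h

theorem P8_m3 (D : Pin) (n X Y : ℤ) (h : Arm n D.g3 D.g0 D.m3 X Y) :
    D.Mem n Y (n - 1 - X) := by
  refine Or.inr (Or.inr (Or.inr (Or.inr ?_)))
  rw [sub_sub_cancel]
  exact h

theorem P8_core_out (g g' : ℤ) (m : ℕ) (p q : ℤ) (hb : inBox p q = false) (h1 : g ≤ q)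
    (h2 : p ≤ g' - 1) : core g g' m p q = true := by
  unfold core
  rw [hb]
  simp [h1, h2]

theorem P8_box_false (p q : ℤ) (h : p + q < -4 ∨ 4 < p + q ∨ q - p < -4 ∨ 4 < q - p) :
    inBox p q = false := by
  unfold inBox
  rw [Bool.eq_false_iff]
  intro h'
  simp only [Bool.and_eq_true, decide_eq_true_eq] at h'
  omega

theorem P8_box_false' (p q : ℤ) (h : inBox p q = false) :
    p + q < -4 ∨ 4 < p + q ∨ q - p < -4 ∨ 4 < q - p := by
  by_contra hc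
  have : inBox p q = true := by
    unfold inBox
    simp only [Bool.and_eq_true, decide_eq_true_eq]
    omega
  rw [this] at h
  exact absurd h (by decide)

/-- first part of the arm: the face `y = 0` -/
theorem P8_arm_near (n g g' : ℤ) (m : ℕ) (u d : ℤ) (hn : 4 ≤ n) (hg' : 0 ≤ g') (hu : 0 ≤ u)
    (hun : u < n) (hd : 0 ≤ d) (hdn : d < n) (h : g ≤ u - d) : Arm n g g' m u (-1 - d) := by
  refine ⟨by omega, P8_core_out _ _ _ _ _ (P8_box_false _ _ ?_) ?_ ?_, ?_⟩ <;> omega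

/-- second part of the arm: the face `x = 2 n` -/
theorem P8_arm_far (n g g' : ℤ) (m : ℕ) (u d : ℤ) (hn : 4 ≤ n) (hg : g ≤ 1) (_hg' : 0 ≤ g')
    (hu : 0 ≤ u) (_hun : u < n) (hd : 0 ≤ d) (hdn : d < n) (h : u - d ≤ g' - 1) :
    Arm n g g' m (n + u) (-1 - d) := by
  refine ⟨by omega, P8_core_out _ _ _ _ _ (P8_box_false _ _ ?_) ?_ ?_, ?_⟩ <;> omega

theorem P8_E0_near (n u d : ℤ) (hun : u < n) (hd : 0 ≤ d) (hdn : d < n) :
    (E0 n u (-1 - d)).o = (2 * u + 1, 0, 2 * d + 1) := by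
  unfold E0
  rw [if_neg (by omega), if_pos (by omega), if_pos hun]
  show ((2 * u + 1, 0, -2 * (-1 - d) - 1) : Vec) = _
  congr 2
  omega

theorem P8_E0_far (n u d : ℤ) (hu : 0 ≤ u) (hd : 0 ≤ d) (hdn : d < n) :
    (E0 n (n + u) (-1 - d)).o = (2 * n, 2 * u + 1, 2 * d + 1) := by
  unfold E0
  rw [if_neg (by omega), if_pos (by omega), if_neg (by omega)]
  show ((2 * n, 2 * (n + u - n) + 1, -2 * (-1 - d) - 1) : Vec) = _
  congr 2 <;> omega

/-- top part of the arm -/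
theorem P8_arm_top (n g g' : ℤ) (m : ℕ) (X Y p q : ℤ) (hg' : 0 ≤ g')
    (hX : 2 * X = p + q + 3 * n - 1) (hY : 2 * Y = q - p - 3 * n - 1)
    (h1 : -n < p + q) (h2 : p + q < n) (_h3 : -n < q - p) (h4 : q - p < n)
    (h : core g g' m p q = true) : Arm n g g' m X Y := by
  refine ⟨by omega, ?_, by omega⟩
  rw [show X - Y - 3 * n = p by omega, show X + Y + 1 = q by omega]
  exact h

theorem P8_E0_top (n X Y p q : ℤ) (hX : 2 * X = p + q + 3 * n - 1)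
    (hY : 2 * Y = q - p - 3 * n - 1) (h4 : q - p < n) (hn : 0 < n) :
    (E0 n X Y).o = (n + (q - p), n + (p + q), 2 * n) := by
  unfold E0
  rw [if_neg (by omega), if_neg (by omega)]
  show ((4 * n + 1 + 2 * Y, 2 * (X - n) + 1, 2 * n) : Vec) = _
  rw [show 4 * n + 1 + 2 * Y = n + (q - p) by omega,
    show 2 * (X - n) + 1 = n + (p + q) by omega]

/-- the side face number `k` -/
theorem P8_side0 (D : Pin) (n N u d : ℤ) (hn : 4 ≤ n) (hD : D.OK n N) (hu : 0 ≤ u) (hun : u < n)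
    (hd : 0 ≤ d) (hdn : d < n) :
    ∃ x y, D.Mem n x y ∧ (pinFold n (x, y)).o = (2 * n, 2 * u + 1, 2 * d + 1) := by
  have b0 := hD.b0
  have b1 := hD.b1
  have b2 := hD.b2
  rcases le_or_gt D.g1 (u - d) with h | h
  · refine ⟨_, _, P8_m1 D n u (-1 - d) (P8_arm_near n _ _ _ u d hn (by omega) hu hun hd hdn h), ?_⟩
    rw [P8_o1 n u (-1 - d) hu (by omega), P8_E0_near n u d hun hd hdn]
    show ((2 * n - 0, 2 * u + 1, 2 * d + 1) : Vec) = _
    rw [sub_zero]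
  · refine ⟨_, _, P8_m0 D n (n + u) (-1 - d) (P8_arm_far n _ _ _ u d hn (by omega) (by omega) hu
      hun hd hdn (by omega)), ?_⟩
    rw [P8_o0 n (n + u) (-1 - d) (by omega) (by omega), P8_E0_far n u d hu hd hdn]

theorem P8_side1 (D : Pin) (n N u d : ℤ) (hn : 4 ≤ n) (hD : D.OK n N) (hu : 0 ≤ u) (hun : u < n)
    (hd : 0 ≤ d) (hdn : d < n) :
    ∃ x y, D.Mem n x y ∧ (pinFold n (x, y)).o = (2 * n - (2 * u + 1), 2 * n, 2 * d + 1) := by
  have b1 := hD.b1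
  have b2 := hD.b2
  have b3 := hD.b3
  rcases le_or_gt D.g2 (u - d) with h | h
  · refine ⟨_, _, P8_m2 D n u (-1 - d) (P8_arm_near n _ _ _ u d hn (by omega) hu hun hd hdn h), ?_⟩
    rw [P8_o2 n u (-1 - d) (by omega) hu (by omega), P8_E0_near n u d hun hd hdn]
    show ((2 * n - (2 * u + 1), 2 * n - 0, 2 * d + 1) : Vec) = _
    rw [sub_zero]
  · refine ⟨_, _, P8_m1 D n (n + u) (-1 - d) (P8_arm_far n _ _ _ u d hn (by omega) (by omega) hu
      hun hd hdn (by omega)), ?_⟩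
    rw [P8_o1 n (n + u) (-1 - d) (by omega) (by omega), P8_E0_far n u d hu hd hdn]

theorem P8_side2 (D : Pin) (n N u d : ℤ) (hn : 4 ≤ n) (hD : D.OK n N) (hu : 0 ≤ u) (hun : u < n)
    (hd : 0 ≤ d) (hdn : d < n) :
    ∃ x y, D.Mem n x y ∧ (pinFold n (x, y)).o = (0, 2 * n - (2 * u + 1), 2 * d + 1) := by
  have b2 := hD.b2
  have b3 := hD.b3
  have b0 := hD.b0
  rcases le_or_gt D.g3 (u - d) with h | h
  · refine ⟨_, _, P8_m3 D n u (-1 - d) (P8_arm_near n _ _ _ u d hn (by omega) hu hun hd hdn h), ?_⟩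
    rw [P8_o3 n u (-1 - d) (by omega) hu (by omega), P8_E0_near n u d hun hd hdn]
  · refine ⟨_, _, P8_m2 D n (n + u) (-1 - d) (P8_arm_far n _ _ _ u d hn (by omega) (by omega) hu
      hun hd hdn (by omega)), ?_⟩
    rw [P8_o2 n (n + u) (-1 - d) (by omega) (by omega) (by omega), P8_E0_far n u d hu hd hdn]
    show ((2 * n - 2 * n, 2 * n - (2 * u + 1), 2 * d + 1) : Vec) = _
    rw [sub_self]

theorem P8_side3 (D : Pin) (n N u d : ℤ) (hn : 4 ≤ n) (hD : D.OK n N) (hu : 0 ≤ u) (hun : u < n)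
    (hd : 0 ≤ d) (hdn : d < n) :
    ∃ x y, D.Mem n x y ∧ (pinFold n (x, y)).o = (2 * u + 1, 0, 2 * d + 1) := by
  have b3 := hD.b3
  have b0 := hD.b0
  have b1 := hD.b1
  rcases le_or_gt D.g0 (u - d) with h | h
  · refine ⟨_, _, P8_m0 D n u (-1 - d) (P8_arm_near n _ _ _ u d hn (by omega) hu hun hd hdn h), ?_⟩
    rw [P8_o0 n u (-1 - d) hu (by omega), P8_E0_near n u d hun hd hdn]
  · refine ⟨_, _, P8_m3 D n (n + u) (-1 - d) (P8_arm_far n _ _ _ u d hn (by omega) (by omega) hu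
      hun hd hdn (by omega)), ?_⟩
    rw [P8_o3 n (n + u) (-1 - d) (by omega) (by omega) (by omega), P8_E0_far n u d hu hd hdn]
    show ((2 * u + 1, 2 * n - 2 * n, 2 * d + 1) : Vec) = _
    rw [sub_self]

/-- one of the four arms contains the cell over a given top square -/
theorem P8_pick (D : Pin) (n N p q : ℤ) (hD : D.OK n N) (hpar : (p + q + n + 1) % 2 = 0) :
    core D.g0 D.g1 D.m0 p q = true ∨ core D.g1 D.g2 D.m1 (-q) p = true ∨
      core D.g2 D.g3 D.m2 (-p) (-q) = true ∨ core D.g3 D.g0 D.m3 q (-p) = true := by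
  cases hb : inBox p q with
  | true =>
    have h1 := hD.one p q hb hpar
    by_contra hc
    simp only [not_or, Bool.not_eq_true] at hc
    obtain ⟨c0, c1, c2, c3⟩ := hc
    rw [c0, c1, c2, c3] at h1
    exact absurd h1 (by decide)
  | false =>
    have b0 := hD.b0
    have b1 := hD.b1
    have b2 := hD.b2
    have b3 := hD.b3
    have hb' := P8_box_false' p q hb
    have hcases : (D.g0 ≤ q ∧ p ≤ D.g1 - 1) ∨ (D.g1 ≤ p ∧ -q ≤ D.g2 - 1) ∨
        (D.g2 ≤ -q ∧ -p ≤ D.g3 - 1) ∨ (D.g3 ≤ -p ∧ q ≤ D.g0 - 1) := by omega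
    rcases hcases with h | h | h | h
    · exact Or.inl (P8_core_out _ _ _ _ _ hb h.1 h.2)
    · exact Or.inr (Or.inl (P8_core_out _ _ _ _ _ (P8_box_false _ _ (by omega)) h.1 h.2))
    · exact Or.inr (Or.inr (Or.inl (P8_core_out _ _ _ _ _ (P8_box_false _ _ (by omega)) h.1 h.2)))
    · exact Or.inr (Or.inr (Or.inr (P8_core_out _ _ _ _ _ (P8_box_false _ _ (by omega)) h.1 h.2)))

theorem P8_top (D : Pin) (n N p q : ℤ) (hn : 4 ≤ n) (hD : D.OK n N)
    (hpar : (p + q + n + 1) % 2 = 0) (h1 : -n < p + q) (h2 : p + q < n) (h3 : -n < q - p)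
    (h4 : q - p < n) :
    ∃ x y, D.Mem n x y ∧ (pinFold n (x, y)).o = (n + (q - p), n + (p + q), 2 * n) := by
  have b0 := hD.b0
  have b1 := hD.b1
  have b2 := hD.b2
  have b3 := hD.b3
  rcases P8_pick D n N p q hD hpar with h | h | h | h
  · obtain ⟨X, hX⟩ : ∃ X, 2 * X = p + q + 3 * n - 1 := ⟨(p + q + 3 * n - 1) / 2, by omega⟩
    obtain ⟨Y, hY⟩ : ∃ Y, 2 * Y = q - p - 3 * n - 1 := ⟨(q - p - 3 * n - 1) / 2, by omega⟩
    refine ⟨_, _, P8_m0 D n X Y (P8_arm_top n _ _ _ X Y p q (by omega) hX hY h1 h2 h3 h4 h), ?_⟩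
    rw [P8_o0 n X Y (by omega) (by omega), P8_E0_top n X Y p q hX hY h4 (by omega)]
  · obtain ⟨X, hX⟩ : ∃ X, 2 * X = -q + p + 3 * n - 1 := ⟨(-q + p + 3 * n - 1) / 2, by omega⟩
    obtain ⟨Y, hY⟩ : ∃ Y, 2 * Y = p - -q - 3 * n - 1 := ⟨(p - -q - 3 * n - 1) / 2, by omega⟩
    refine ⟨_, _, P8_m1 D n X Y (P8_arm_top n _ _ _ X Y (-q) p (by omega) hX hY (by omega)
      (by omega) (by omega) (by omega) h), ?_⟩
    rw [P8_o1 n X Y (by omega) (by omega), P8_E0_top n X Y (-q) p hX hY (by omega) (by omega)]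
    show ((2 * n - (n + (-q + p)), n + (p - -q), 2 * n) : Vec) = _
    rw [show 2 * n - (n + (-q + p)) = n + (q - p) by ring,
      show n + (p - -q) = n + (p + q) by ring]
  · obtain ⟨X, hX⟩ : ∃ X, 2 * X = -p + -q + 3 * n - 1 := ⟨(-p + -q + 3 * n - 1) / 2, by omega⟩
    obtain ⟨Y, hY⟩ : ∃ Y, 2 * Y = -q - -p - 3 * n - 1 := ⟨(-q - -p - 3 * n - 1) / 2, by omega⟩
    refine ⟨_, _, P8_m2 D n X Y (P8_arm_top n _ _ _ X Y (-p) (-q) (by omega) hX hY (by omega)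
      (by omega) (by omega) (by omega) h), ?_⟩
    rw [P8_o2 n X Y (by omega) (by omega) (by omega),
      P8_E0_top n X Y (-p) (-q) hX hY (by omega) (by omega)]
    show ((2 * n - (n + (-q - -p)), 2 * n - (n + (-p + -q)), 2 * n) : Vec) = _
    rw [show 2 * n - (n + (-q - -p)) = n + (q - p) by ring,
      show 2 * n - (n + (-p + -q)) = n + (p + q) by ring]
  · obtain ⟨X, hX⟩ : ∃ X, 2 * X = q + -p + 3 * n - 1 := ⟨(q + -p + 3 * n - 1) / 2, by omega⟩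
    obtain ⟨Y, hY⟩ : ∃ Y, 2 * Y = -p - q - 3 * n - 1 := ⟨(-p - q - 3 * n - 1) / 2, by omega⟩
    refine ⟨_, _, P8_m3 D n X Y (P8_arm_top n _ _ _ X Y q (-p) (by omega) hX hY (by omega)
      (by omega) (by omega) (by omega) h), ?_⟩
    rw [P8_o3 n X Y (by omega) (by omega) (by omega),
      P8_E0_top n X Y q (-p) hX hY (by omega) (by omega)]
    show ((n + (q + -p), 2 * n - (n + (-p - q)), 2 * n) : Vec) = _
    rw [show n + (q + -p) = n + (q - p) by ring,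
      show 2 * n - (n + (-p - q)) = n + (p + q) by ring]

theorem P8_bottom (D : Pin) (n x y : ℤ) (hx : 0 ≤ x) (hxn : x < n) (hy : 0 ≤ y) (hyn : y < n) :
    D.Mem n x y ∧ (pinFold n (x, y)).o = (2 * x + 1, 2 * y + 1, 0) := by
  refine ⟨Or.inl ⟨hx, hxn, hy, hyn⟩, ?_⟩
  have hs : sec n (x, y) = 0 := by
    unfold sec
    rw [if_neg, if_neg, if_neg, if_neg]
    · rintro ⟨h, -⟩
      have : x < 0 := h
      omega
    · rintro ⟨h, -⟩
      have : n ≤ y := h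
      omega
    · rintro ⟨h, -⟩
      have : n ≤ x := h
      omega
    · rintro ⟨-, h⟩
      have : y < 0 := h
      omega
  unfold pinFold
  rw [hs]
  show (E0 n x y).o = _
  unfold E0
  rw [if_pos hy]

theorem P8_mid (n t : ℤ) (h : Mid n t) : ∃ u, 0 ≤ u ∧ u < n ∧ t = 2 * u + 1 := by
  obtain ⟨⟨u, hu⟩, h1, h2⟩ := h
  exact ⟨u, by omega, by omega, hu⟩

theorem pP8 : tP8 := by
  intro D n N o hN hNn hD hS
  have hn : 4 ≤ n := le_trans hN hNn
  obtain ⟨o1, o2, o3⟩ := o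
  rcases hS with ⟨h1, h2, h3⟩ | ⟨h1, h2, h3⟩ | ⟨h1, h2, h3⟩
  · obtain ⟨u, hu, hun, eu⟩ := P8_mid _ _ h2
    obtain ⟨d, hd, hdn, ed⟩ := P8_mid _ _ h3
    replace eu : o2 = 2 * u + 1 := eu
    replace ed : o3 = 2 * d + 1 := ed
    rcases h1 with h1 | h1
    · replace h1 : o1 = 0 := h1
      obtain ⟨x, y, hm, ho⟩ := P8_side2 D n N (n - 1 - u) d hn hD (by omega) (by omega) hd hdn
      refine ⟨x, y, hm, ?_⟩
      rw [ho, h1, eu, ed, show 2 * n - (2 * (n - 1 - u) + 1) = 2 * u + 1 by ring]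
    · replace h1 : o1 = 2 * n := h1
      obtain ⟨x, y, hm, ho⟩ := P8_side0 D n N u d hn hD hu hun hd hdn
      exact ⟨x, y, hm, by rw [ho, h1, eu, ed]⟩
  · obtain ⟨u, hu, hun, eu⟩ := P8_mid _ _ h1
    obtain ⟨d, hd, hdn, ed⟩ := P8_mid _ _ h3
    replace eu : o1 = 2 * u + 1 := eu
    replace ed : o3 = 2 * d + 1 := ed
    rcases h2 with h2 | h2
    · replace h2 : o2 = 0 := h2
      obtain ⟨x, y, hm, ho⟩ := P8_side3 D n N u d hn hD hu hun hd hdn
      exact ⟨x, y, hm, by rw [ho, h2, eu, ed]⟩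
    · replace h2 : o2 = 2 * n := h2
      obtain ⟨x, y, hm, ho⟩ := P8_side1 D n N (n - 1 - u) d hn hD (by omega) (by omega) hd hdn
      refine ⟨x, y, hm, ?_⟩
      rw [ho, h2, eu, ed, show 2 * n - (2 * (n - 1 - u) + 1) = 2 * u + 1 by ring]
  · obtain ⟨u, hu, hun, eu⟩ := P8_mid _ _ h1
    obtain ⟨v, hv, hvn, ev⟩ := P8_mid _ _ h2
    replace eu : o1 = 2 * u + 1 := eu
    replace ev : o2 = 2 * v + 1 := ev
    rcases h3 with h3 | h3
    · replace h3 : o3 = 0 := h3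
      obtain ⟨hm, ho⟩ := P8_bottom D n u v hu hun hv hvn
      exact ⟨u, v, hm, by rw [ho, h3, eu, ev]⟩
    · replace h3 : o3 = 2 * n := h3
      obtain ⟨x, y, hm, ho⟩ := P8_top D n N (v - u) (u + v + 1 - n) hn hD (by omega) (by omega)
        (by omega) (by omega) (by omega)
      refine ⟨x, y, hm, ?_⟩
      rw [ho, h3, eu, ev, show n + (u + v + 1 - n - (v - u)) = 2 * u + 1 by ring,
        show n + (v - u + (u + v + 1 - n)) = 2 * v + 1 by ring]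

end RCN
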