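import Pool.Agent.RCN.Defs

/-!
# Targets for the full answer of MP_404bc2_co
-/

namespace RCN

/-! ## Checkers -/

/-- the 64 fixed nets of the unit cube -/
def shapeTab : List (List Cell) := [
  [(0, 0), (0, 1), (0, 2), (1, 1), (2, 1), (3, 1)],
  [(0, 0), (0, 1), (0, 2), (1, 2), (1, 3), (1, 4)],
  [(0, 0), (0, 1), (1, 1), (1, 2), (1, 3), (2, 1)],
  [(0, 0), (0, 1), (1, 1), (1, 2), (1, 3), (2, 2)],
  [(0, 0), (0, 1), (1, 1), (1, 2), (1, 3), (2, 3)],
  [(0, 0), (0, 1), (1, 1), (1, 2), (2, 1), (3, 1)],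
  [(0, 0), (0, 1), (1, 1), (1, 2), (2, 2), (2, 3)],
  [(0, 0), (0, 1), (1, 1), (2, 1), (2, 2), (3, 1)],
  [(0, 0), (0, 1), (1, 1), (2, 1), (2, 2), (3, 2)],
  [(0, 0), (0, 1), (1, 1), (2, 1), (3, 1), (3, 2)],
  [(0, 0), (1, 0), (1, 1), (1, 2), (1, 3), (2, 0)],
  [(0, 0), (1, 0), (1, 1), (1, 2), (1, 3), (2, 1)],
  [(0, 0), (1, 0), (1, 1), (1, 2), (1, 3), (2, 2)],
  [(0, 0), (1, 0), (1, 1), (1, 2), (1, 3), (2, 3)],
  [(0, 0), (1, 0), (1, 1), (1, 2), (2, 1), (3, 1)],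
  [(0, 0), (1, 0), (1, 1), (1, 2), (2, 2), (2, 3)],
  [(0, 0), (1, 0), (1, 1), (2, 1), (2, 2), (3, 1)],
  [(0, 0), (1, 0), (1, 1), (2, 1), (2, 2), (3, 2)],
  [(0, 0), (1, 0), (1, 1), (2, 1), (3, 1), (3, 2)],
  [(0, 0), (1, 0), (2, 0), (2, 1), (3, 1), (4, 1)],
  [(0, 1), (0, 2), (1, 0), (1, 1), (2, 1), (3, 1)],
  [(0, 1), (0, 2), (1, 1), (2, 0), (2, 1), (3, 0)],
  [(0, 1), (0, 2), (1, 1), (2, 0), (2, 1), (3, 1)],
  [(0, 1), (0, 2), (1, 1), (2, 1), (3, 0), (3, 1)],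
  [(0, 1), (1, 0), (1, 1), (1, 2), (1, 3), (2, 0)],
  [(0, 1), (1, 0), (1, 1), (1, 2), (1, 3), (2, 1)],
  [(0, 1), (1, 0), (1, 1), (1, 2), (1, 3), (2, 2)],
  [(0, 1), (1, 0), (1, 1), (1, 2), (1, 3), (2, 3)],
  [(0, 1), (1, 0), (1, 1), (1, 2), (2, 1), (3, 1)],
  [(0, 1), (1, 0), (1, 1), (1, 2), (2, 2), (2, 3)],
  [(0, 1), (1, 0), (1, 1), (2, 1), (2, 2), (3, 1)],
  [(0, 1), (1, 0), (1, 1), (2, 1), (2, 2), (3, 2)],
  [(0, 1), (1, 0), (1, 1), (2, 1), (3, 1), (3, 2)],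
  [(0, 1), (1, 1), (1, 2), (1, 3), (2, 0), (2, 1)],
  [(0, 1), (1, 1), (1, 2), (2, 0), (2, 1), (3, 0)],
  [(0, 1), (1, 1), (1, 2), (2, 0), (2, 1), (3, 1)],
  [(0, 1), (1, 1), (1, 2), (2, 1), (3, 0), (3, 1)],
  [(0, 1), (1, 1), (2, 0), (2, 1), (2, 2), (3, 0)],
  [(0, 1), (1, 1), (2, 0), (2, 1), (2, 2), (3, 1)],
  [(0, 1), (1, 1), (2, 0), (2, 1), (2, 2), (3, 2)],
  [(0, 1), (1, 1), (2, 0), (2, 1), (3, 0), (4, 0)],
  [(0, 1), (1, 1), (2, 0), (2, 1), (3, 1), (3, 2)],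
  [(0, 1), (1, 1), (2, 1), (2, 2), (3, 0), (3, 1)],
  [(0, 1), (1, 1), (2, 1), (3, 0), (3, 1), (3, 2)],
  [(0, 2), (0, 3), (0, 4), (1, 0), (1, 1), (1, 2)],
  [(0, 2), (0, 3), (1, 0), (1, 1), (1, 2), (2, 0)],
  [(0, 2), (0, 3), (1, 0), (1, 1), (1, 2), (2, 1)],
  [(0, 2), (0, 3), (1, 0), (1, 1), (1, 2), (2, 2)],
  [(0, 2), (0, 3), (1, 1), (1, 2), (2, 0), (2, 1)],
  [(0, 2), (1, 0), (1, 1), (1, 2), (1, 3), (2, 0)],
  [(0, 2), (1, 0), (1, 1), (1, 2), (1, 3), (2, 1)],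
  [(0, 2), (1, 0), (1, 1), (1, 2), (1, 3), (2, 2)],
  [(0, 2), (1, 0), (1, 1), (1, 2), (1, 3), (2, 3)],
  [(0, 2), (1, 0), (1, 1), (1, 2), (2, 1), (3, 1)],
  [(0, 2), (1, 0), (1, 1), (1, 2), (2, 2), (2, 3)],
  [(0, 2), (1, 1), (1, 2), (1, 3), (2, 0), (2, 1)],
  [(0, 2), (1, 1), (1, 2), (2, 0), (2, 1), (3, 0)],
  [(0, 2), (1, 1), (1, 2), (2, 0), (2, 1), (3, 1)],
  [(0, 2), (1, 1), (1, 2), (2, 1), (3, 0), (3, 1)],
  [(0, 3), (1, 0), (1, 1), (1, 2), (1, 3), (2, 0)],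
  [(0, 3), (1, 0), (1, 1), (1, 2), (1, 3), (2, 1)],
  [(0, 3), (1, 0), (1, 1), (1, 2), (1, 3), (2, 2)],
  [(0, 3), (1, 0), (1, 1), (1, 2), (1, 3), (2, 3)],
  [(0, 3), (1, 1), (1, 2), (1, 3), (2, 0), (2, 1)]]

/-- cells of the tile `(x, y, k)`: the `k`-th shape moved by `(x, y)` -/
def tileCells (t : ℤ × ℤ × ℕ) : List Cell :=
  (shapeTab.getD t.2.2 []).map (fun p => (p.1 + t.1, p.2 + t.2.1))

/-- code of a cell, injective on `-64 ≤ x, y < 64` -/
def codeCell (p : Cell) : ℕ := (p.1 + 64).toNat + 128 * (p.2 + 64).toNat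

/-- the code is valid -/
def codeOK (p : Cell) : Bool :=
  decide (-64 ≤ p.1) && decide (p.1 < 64) && decide (-64 ≤ p.2) && decide (p.2 < 64)

/-- no repetition, fast version with a bit mask -/
def nodupAux : List ℕ → ℕ → Bool
  | [], _ => true
  | i :: l, acc => (!acc.testBit i) && nodupAux l (acc ||| (1 <<< i))

/-- certificate for `Pack {p | S p = true} L.length` -/
def certOK (S : Cell → Bool) (L : List (ℤ × ℤ × ℕ)) : Bool :=
  L.all (fun t => decide (t.2.2 < 64) && (tileCells t).all (fun p => S p && codeOK p)) &&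
    nodupAux ((L.flatMap tileCells).map codeCell) 0

/-- Boolean version of `TReg` -/
def TRegB (c go go' gi gi' : ℤ) (mo mi : ℕ) (dp dq A B : ℤ) (p : Cell) : Bool :=
  core go go' mo (p.1 - p.2 - 3 * c) (p.1 + p.2 + 1) &&
    !core gi gi' mi (p.1 - p.2 - 3 * c + dp) (p.1 + p.2 + 1 - dq) &&
      decide (-A ≤ p.1 - p.2 - 3 * c) && decide (p.1 + p.2 + 1 ≤ B)

/-- the cells are listed so that every cell but the first touches an earlier one -/
def connList : List Cell → List Cell → Bool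
  | _, [] => true
  | seen, p :: l => (seen.isEmpty || seen.any (fun q => decide (Adj q p))) && connList (p :: seen) l

/-- explicit check that a list of placed cells is a net of the `n`-cube -/
def netCheck (n : ℕ) (L : List (Cell × Placement)) : Bool :=
  (!L.isEmpty) && decide (L.length = 6 * n ^ 2) && decide ((L.map Prod.fst).Nodup) &&
    decide ((L.map (fun a => a.2.o)).Nodup) && connList [] (L.map Prod.fst) &&
    L.all (fun a => decide (OnCube n a.2)) &&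
    L.all (fun a => L.all (fun b =>
      (!decide (b.1 = (a.1.1 + 1, a.1.2)) || decide (GlueR a.2 b.2)) &&
      (!decide (b.1 = (a.1.1, a.1.2 + 1)) || decide (GlueU a.2 b.2))))

/-- the integers `-4, ..., 4` -/
def nine : List ℤ := [-4, -3, -2, -1, 0, 1, 2, 3, 4]

/-- rank table: digits in base 32 -/
def rankTab (t : ℕ) (p q : ℤ) : ℕ := (t >>> (5 * widx p q)) % 32

/-- Boolean version of `Reach` -/
def reachB (N g g' : ℤ) (m t : ℕ) (p q : ℤ) : Bool :=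
  [((1 : ℤ), (1 : ℤ)), (-1, -1), (-1, 1), (1, -1)].any (fun d =>
    core g g' m (p + d.1) (q + d.2) && decide (q + d.2 ≤ N + g' - 1) &&
      ((!inBox (p + d.1) (q + d.2)) ||
        decide (rankTab t (p + d.1) (q + d.2) < rankTab t p q)))

/-- Boolean version of `ArmOK` -/
def armCheck (n N g g' : ℤ) (m t : ℕ) : Bool :=
  nine.all (fun p => nine.all (fun q =>
    !(inBox p q && decide ((p + q + n + 1) % 2 = 0) && core g g' m p q) ||
      (decide (q ≤ N + g' - 1) && reachB N g g' m t p q)))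

/-- Boolean version of `Pin.OK` -/
def pinCheck (D : Pin) (n N : ℤ) (t0 t1 t2 t3 : ℕ) : Bool :=
  (decide (D.g0 = 0) || decide (D.g0 = 1)) && (decide (D.g1 = 0) || decide (D.g1 = 1)) &&
  (decide (D.g2 = 0) || decide (D.g2 = 1)) && (decide (D.g3 = 0) || decide (D.g3 = 1)) &&
  nine.all (fun p => nine.all (fun q =>
    !(inBox p q && decide ((p + q + n + 1) % 2 = 0)) ||
      decide ((core D.g0 D.g1 D.m0 p q).toNat + (core D.g1 D.g2 D.m1 (-q) p).toNat +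
        (core D.g2 D.g3 D.m2 (-p) (-q)).toNat + (core D.g3 D.g0 D.m3 q (-p)).toNat = 1))) &&
  armCheck n N D.g0 D.g1 D.m0 t0 && armCheck n N D.g1 D.g2 D.m1 t1 &&
  armCheck n N D.g2 D.g3 D.m2 t2 && armCheck n N D.g3 D.g0 D.m3 t3

/-- the integers `a, a + 1, ..., a + k - 1` -/
def intRange (a : ℤ) (k : ℕ) : List ℤ := (List.range k).map (fun i => a + (i : ℤ))

/-- Boolean version of `LC` -/
def lcCheck (n go go' gi gi' : ℤ) (mo mi : ℕ) (dp dq : ℤ) : Bool :=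
  (intRange (-24) 33).all (fun p => (intRange (-8) 21).all (fun q =>
    !(decide ((p + q + n + 1) % 2 = 0) && core gi gi' mi (p + dp) (q - dq)) ||
      core go go' mo p q))

/-! ## Group A: generalities -/

/-- The number of cells of a net of the `n`-cube is `6 n ^ 2`.
Proof: by `once` the map `p ↦ (f p).o` is a bijection from `P` onto the set of all `o` with
`Surf n o` (it maps into that set by `OnCube`); that set is the finset
`(E ×ˢ M ×ˢ M) ∪ (M ×ˢ E ×ˢ M) ∪ (M ×ˢ M ×ˢ E)` with `E = {0, 2 n}` and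
`M = (range n).image (fun i => 2 i + 1)`; the three parts are disjoint (parity), each has
`2 n ^ 2` elements (for `n = 0` everything is empty). -/
def tA1 : Prop := ∀ (n : ℕ) (P : Finset Cell), IsCubeNet n P → P.card = 6 * n ^ 2

/-- Nets may be translated: use `f' p = f (p.1 - i, p.2 - j)`. -/
def tA2 : Prop := ∀ (n : ℕ) (P : Finset Cell) (i j : ℤ), IsCubeNet n P → IsCubeNet n (shift i j P)

/-- Nets may be turned by 90 degrees: the cell `(x, y)` goes to `(-y, x)`; with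
`f (y', -x') = ⟨o, u, v⟩` use `f' (x', y') = ⟨o, -v, u⟩` (the plane direction right at the new
cell comes from the direction down at the old cell, the direction up from the direction right). -/
def tA3 : Prop := ∀ (n : ℕ) (P : Finset Cell), IsCubeNet n P →
  IsCubeNet n (P.image (fun p => (-p.2, p.1)))

/-- Packings of disjoint sets may be united (a net is nonempty, so no tile occurs twice), and
packings are monotone. -/
def tA4 : Prop := (∀ (S S' : Set Cell) (N : ℕ), S ⊆ S' → Pack S N → Pack S' N) ∧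
  (∀ (S S' : Set Cell) (N N' : ℕ), Pack S N → Pack S' N' → Disjoint S S' →
    Pack (S ∪ S') (N + N')) ∧ (∀ S : Set Cell, Pack S 0)

/-- Packings may be translated and turned (uses tA2, tA3).  `fr c k` is the `k`-th iterate of
`p ↦ (p.2, c - 1 - p.1)`, a rotation by -90 degrees followed by a translation. -/
def tA5 : Prop := (∀ (S : Set Cell) (N : ℕ) (i j : ℤ), Pack S N →
    Pack {p | ((p.1 - i, p.2 - j) : Cell) ∈ S} N) ∧
  (∀ (S : Set Cell) (N : ℕ) (c : ℤ) (k : ℕ), Pack S N → Pack {p | fr c k p ∈ S} N)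

/-- From a nest with the right number of tiles to a division (uses tA1: `P` has `6 c ^ 2` cells,
`Q` has `6 b ^ 2`, every tile has 6 cells; the tiles are disjoint and lie in `P \ Q`, so by
counting they fill `P \ Q`). -/
def tA6 : Prop := ∀ (b c : ℕ) (Q P : Finset Cell), b ≤ c → IsCubeNet b Q → IsCubeNet c P →
  Nest Q P (c ^ 2 - b ^ 2) → Good b c

/-- Nests may be composed and translated. -/
def tA7 : Prop := (∀ (Q P R : Finset Cell) (N M : ℕ), Nest Q P N → Nest P R M → Nest Q R (N + M)) ∧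
  (∀ (Q P : Finset Cell) (N : ℕ) (i j : ℤ), Nest Q P N → Nest (shift i j Q) (shift i j P) N) ∧
  (∀ (P : Finset Cell) (i j k l : ℤ), shift i j (shift k l P) = shift (i + k) (j + l) P)

/-! ## Group U: tiles and checkers -/

/-- Soundness of `netCheck`.  The folding is `f p = (the placement listed with p)` (any value
elsewhere).  `once`: the centres of the list are distinct, satisfy `Surf n`, and there are
`6 n ^ 2` of them, which is the number of all `o` with `Surf n o` (see tA1), so every such `o`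
occurs.  Connectivity: `connList` gives a path from every cell to the first one. -/
def tU1 : Prop := ∀ (n : ℕ) (L : List (Cell × Placement)), netCheck n L = true →
  IsCubeNet n (L.map Prod.fst).toFinset

/-- All shapes of the table are nets of the unit cube (uses tU1: write down the placements of
the 64 shapes, e.g. by a computable function that rolls the cube along the cells, and decide). -/
def tU2 : Prop := ∀ s ∈ shapeTab, IsCubeNet 1 s.toFinset

/-- Diagonal blocks: both parities give six cells in a staircase with steps 2-2-2, which is a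
net of the unit cube (uses tU2, tA2: the shape is one of the table, moved). -/
def tU3 : Prop := ∀ P0 q0 : ℤ,
  Pack {p : Cell | P0 ≤ p.1 - p.2 ∧ p.1 - p.2 ≤ P0 + 5 ∧ q0 ≤ p.1 + p.2 ∧ p.1 + p.2 ≤ q0 + 1} 1 ∧
  Pack {p : Cell | P0 ≤ p.1 - p.2 ∧ p.1 - p.2 ≤ P0 + 1 ∧ q0 ≤ p.1 + p.2 ∧ p.1 + p.2 ≤ q0 + 5} 1

/-- Soundness of the certificates (uses tU2, tA2). -/
def tU4 : Prop := ∀ (S : Cell → Bool) (L : List (ℤ × ℤ × ℕ)), certOK S L = true →
  Pack {p | S p = true} L.length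

/-- Soundness of `pinCheck`; only the parity of the size matters. -/
def tU5 : Prop := ∀ (D : Pin) (n n' N : ℤ) (t0 t1 t2 t3 : ℕ),
  pinCheck D n N t0 t1 t2 t3 = true → (n' - n) % 2 = 0 → D.OK n' N

/-- Soundness of `lcCheck`; only the parity of the size matters. -/
def tU6 : Prop := ∀ (n n' go go' gi gi' : ℤ) (mo mi : ℕ) (dp dq : ℤ),
  lcCheck n go go' gi gi' mo mi dp dq = true → (n' - n) % 2 = 0 →
    LC n' go go' gi gi' mo mi dp dq

/-! ## Group T: the regions `TReg` -/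

/-- `TReg (c + 2)` is the translate of `TReg c` by `(3, -3)` (uses tA5). -/
def tT1 : Prop := ∀ (c go go' gi gi' : ℤ) (mo mi : ℕ) (dp dq A B : ℤ) (N : ℕ),
  Pack (TReg c go go' gi gi' mo mi dp dq A B) N →
    Pack (TReg (c + 2) go go' gi gi' mo mi dp dq A B) N

/-- Enlarging `A` by 6.  With `p = p.1 - p.2 - 3 c`, `q = p.1 + p.2 + 1`: the new region contains
the old one and the `l` blocks `-A - 6 ≤ p ≤ -A - 1`, `go + 2 j ≤ q ≤ go + 2 j + 1`, `j < l`
(outside both windows, since `p ≤ -6` and `p + dp ≤ -6`), which are disjoint from it and from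
each other (uses tU3, tA4; induction on the number of blocks). -/
def tT2 : Prop := ∀ (c go go' gi gi' : ℤ) (mo mi : ℕ) (dp dq A B : ℤ) (N l : ℕ),
  0 ≤ go → go ≤ 1 → 0 ≤ go' → 0 ≤ gi' → 5 ≤ A → 5 + dp ≤ A → dq + gi - go = 2 * (l : ℤ) →
  go + 2 * (l : ℤ) - 1 ≤ B →
  Pack (TReg c go go' gi gi' mo mi dp dq A B) N →
    Pack (TReg c go go' gi gi' mo mi dp dq (A + 6) B) (N + l)

/-- Enlarging `B` by 6: new blocks `gi' - dp + 2 j ≤ p ≤ gi' - dp + 2 j + 1`,
`B + 1 ≤ q ≤ B + 6`, `j < e` (outside both windows since `q ≥ 5` and `q - dq ≥ 5`). -/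
def tT3 : Prop := ∀ (c go go' gi gi' : ℤ) (mo mi : ℕ) (dp dq A B : ℤ) (N e : ℕ),
  go ≤ 1 → gi ≤ 1 → 4 ≤ B → 4 + dq ≤ B → dp - gi' ≤ A → dp + go' - gi' = 2 * (e : ℤ) →
  Pack (TReg c go go' gi gi' mo mi dp dq A B) N →
    Pack (TReg c go go' gi gi' mo mi dp dq A (B + 6)) (N + e)

/-- Enlarging `B` by 2 when the end strip has width 6: one new block
`go' - 6 ≤ p ≤ go' - 1`, `B + 1 ≤ q ≤ B + 2`. -/
def tT4 : Prop := ∀ (c go go' gi gi' : ℤ) (mo mi : ℕ) (dp dq A B : ℤ) (N : ℕ),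
  go ≤ 1 → gi ≤ 1 → 4 ≤ B → 4 + dq ≤ B → dp - gi' ≤ A → dp + go' - gi' = 6 →
  Pack (TReg c go go' gi gi' mo mi dp dq A B) N →
    Pack (TReg c go go' gi gi' mo mi dp dq A (B + 2)) (N + 1)


/-! ## Group P: pinwheel nets

Throughout `4 ≤ N ≤ n` and `D.OK n N`.  Corner coordinates of the cell `(x, y)` (frame
coordinates) are `p = x - y - 3 n`, `q = x + y + 1`; `p + q = 2 x + 1 - 3 n`,
`q - p = 2 y + 1 + 3 n`.  -/

/-- folding of the base square and of the first arm: base square (bottom face `z = 0`), face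
`y = 0` below it, then face `x = 2 n` to the right, then the top face below that one -/
def E0 (n x y : ℤ) : Placement :=
  if 0 ≤ y then ⟨(2 * x + 1, 2 * y + 1, 0), (1, 0, 0), (0, 1, 0)⟩
  else if -n ≤ y then
    if x < n then ⟨(2 * x + 1, 0, -2 * y - 1), (1, 0, 0), (0, 0, -1)⟩
    else ⟨(2 * n, 2 * (x - n) + 1, -2 * y - 1), (0, 1, 0), (0, 0, -1)⟩
  else ⟨(4 * n + 1 + 2 * y, 2 * (x - n) + 1, 2 * n), (0, 1, 0), (1, 0, 0)⟩

/-- turning the cube (about its vertical axis) and the plane by 90 degrees -/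
def rotS (n : ℤ) (s : Placement) : Placement :=
  ⟨(2 * n - s.o.2.1, s.o.1, s.o.2.2), (s.v.2.1, -s.v.1, -s.v.2.2), (-s.u.2.1, s.u.1, s.u.2.2)⟩

/-- which arm's quadrant contains the cell (0 for the base square) -/
def sec (n : ℤ) (p : Cell) : ℕ :=
  if 0 ≤ p.1 ∧ p.2 < 0 then 0 else if n ≤ p.1 ∧ 0 ≤ p.2 then 1
  else if n ≤ p.2 ∧ p.1 < n then 2 else if p.1 < 0 ∧ p.2 < n then 3 else 0

/-- the folding of a pinwheel net -/
def pinFold (n : ℤ) (p : Cell) : Placement :=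
  (rotS n)^[sec n p] (E0 n (fr n (sec n p) p).1 (fr n (sec n p) p).2)

/-- the region on which `E0` folds well: base square and the three squares of the first arm -/
def Reg0 (n x y : ℤ) : Prop := (0 ≤ x ∧ x < n ∧ 0 ≤ y ∧ y < n) ∨
  (0 ≤ x ∧ x < 2 * n ∧ -2 * n ≤ y ∧ y < 0 ∧ (y < -n → n ≤ x))

/-- the data seen after turning the frame -/
def Pin.rot (D : Pin) : Pin := ⟨D.g1, D.g2, D.g3, D.g0, D.m1, D.m2, D.m3, D.m0⟩

/-- Symmetry: `D.Mem n x y ↔ D.rot.Mem n y (n - 1 - x)` (reorder the disjuncts), and `OK` is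
preserved (in `one` replace `(p, q)` by `(q, -p)`; `inBox` and the parity condition are
preserved). -/
def tP0 : Prop := (∀ (D : Pin) (n x y : ℤ), D.Mem n x y ↔ D.rot.Mem n y (n - 1 - x)) ∧
  (∀ (D : Pin) (n N : ℤ), D.OK n N → D.rot.OK n N)

/-- An arm lies in the region `Reg0`, more precisely in its second part (for every mask).
Outside the window: `q ≥ g ≥ 0`, `p ≤ g' - 1 ≤ 0`, `q ≤ n + g' - 1 ≤ n`.  In the window
`-4 ≤ 2 x + 1 - 3 n ≤ 4`, `-4 ≤ 2 y + 1 + 3 n ≤ 4`. -/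
def tP1 : Prop := ∀ (n g g' : ℤ) (m : ℕ) (x y : ℤ), 4 ≤ n → 0 ≤ g → g ≤ 1 → 0 ≤ g' → g' ≤ 1 →
  Arm n g g' m x y → 0 ≤ x ∧ x < 2 * n ∧ -2 * n ≤ y ∧ y < 0 ∧ (y < -n → n ≤ x)

/-- Membership in `D.set n` (uses tP1: all cells of the arms have coordinates between `-2 n`
and `3 n`). -/
def tP2 : Prop := ∀ (D : Pin) (n N x y : ℤ), 4 ≤ n → D.OK n N →
  (((x, y) : Cell) ∈ D.set n ↔ D.Mem n x y)

/-- The folding `E0` on `Reg0`: every cell goes to a unit square of the surface and adjacent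
cells are glued.  Case distinction on the squares that contain the two cells. -/
def tP3 : Prop := ∀ n : ℤ, 1 ≤ n →
  (∀ x y, Reg0 n x y → OnCube n (E0 n x y)) ∧
  (∀ x y, Reg0 n x y → Reg0 n (x + 1) y → GlueR (E0 n x y) (E0 n (x + 1) y)) ∧
  (∀ x y, Reg0 n x y → Reg0 n x (y + 1) → GlueU (E0 n x y) (E0 n x (y + 1)))

/-- `rotS` is compatible with everything. -/
def tP4 : Prop := ∀ n : ℤ, (∀ s, OnCube n s → OnCube n (rotS n s)) ∧
  (∀ s t, GlueR s t → GlueU (rotS n s) (rotS n t)) ∧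
  (∀ s t, GlueU s t → GlueR (rotS n t) (rotS n s)) ∧
  (∀ x y, 0 ≤ x → x < n → 0 ≤ y → y < n → rotS n (E0 n y (n - 1 - x)) = E0 n x y)

/-- The folding sends cells of the net to unit squares of the surface (uses tP1, tP3, tP4: a cell
of the arm number `k` has `sec = k`, since `0 ≤ x` and `y < 0` in its frame coordinates). -/
def tP5 : Prop := ∀ (D : Pin) (n N x y : ℤ), 4 ≤ n → D.OK n N → D.Mem n x y →
  OnCube n (pinFold n (x, y))

/-- Gluing, horizontal (uses tP1, tP3, tP4, tP0).  If both cells are in the base square or in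
the same arm, or one in the base square and one in an arm, both lie in the region `Reg0` of the
frame of that arm, where the placement is `rotS^[k] (E0 ..)` (for base cells by the last part
of tP4), and the gluing comes from tP3 and tP4 (the direction right of the plane is the direction
right, down, left, up of the frames 0, 1, 2, 3).  Cells of different arms are never adjacent: for
the arms 0 and 1 adjacency would force the cells `(x, -1)`, `(x, 0)` with `x ≥ n`; the first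
requires `x ≤ n + g1 - 1`, so `x = n`, `g1 = 1`, the second has frame coordinates `(0, -1)`
in frame 1 with `q = 0`, outside the window, so it requires `g1 ≤ 0`.  Other neighbouring arms
by symmetry (tP0); the arms 0 and 2 are separated by the base rows (`y < 0`, `y ≥ n`). -/
def tP6 : Prop := ∀ (D : Pin) (n N x y : ℤ), 4 ≤ n → D.OK n N → D.Mem n x y →
  D.Mem n (x + 1) y → GlueR (pinFold n (x, y)) (pinFold n (x + 1, y))

/-- Gluing, vertical; the same proof. -/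
def tP7 : Prop := ∀ (D : Pin) (n N x y : ℤ), 4 ≤ n → D.OK n N → D.Mem n x y →
  D.Mem n x (y + 1) → GlueU (pinFold n (x, y)) (pinFold n (x, y + 1))

/-- Every unit square of the surface is covered.  Bottom face: base square.  Face `x = 2 n`,
centre `(2 n, 2 u + 1, 2 d + 1)`, `0 ≤ u, d < n`: if `u - d ≥ g1` it is the cell with frame-1
coordinates `(u, -1 - d)` (arm 1, `q = u - d`), otherwise the cell `(n + u, -1 - d)` of arm 0
(`q - n = u - d ≤ g1 - 1`); both are outside the windows.  The other side faces by symmetry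
(turn with tP0 and `rotS`).  Top face, centre `(X, Y, 2 n)`: put `a = X - n`, `b = Y - n`,
`p = (b - a) / 2`, `q = (a + b) / 2`; the cell with corner coordinates `(p, q)` in frame 0,
`(-q, p)` in frame 1, `(-p, -q)` in frame 2 or `(q, -p)` in frame 3 is sent to it.  If
`inBox p q` exactly one of the four cells is in its arm by `D.OK.one` (the bound `q ≤ N + g' - 1`
of `ArmOK` gives the last condition of `Arm`).  Otherwise one of
`g0 ≤ q ∧ p ≤ g1 - 1`, `g1 ≤ p ∧ -q ≤ g2 - 1`, `g2 ≤ -q ∧ -p ≤ g3 - 1`, `g3 ≤ -p ∧ q ≤ g0 - 1`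
holds. -/
def tP8 : Prop := ∀ (D : Pin) (n N : ℤ) (o : Vec), 4 ≤ N → N ≤ n → D.OK n N → Surf n o →
  ∃ x y, D.Mem n x y ∧ (pinFold n (x, y)).o = o

/-- No unit square is covered twice.  Read off the face of the centre: base cells go to the
bottom face; in frame coordinates a cell of the first arm with `y ≥ -n` goes to the face `y = 0`
if `x < n` and to the face `x = 2 n` if `x ≥ n`; a cell with `y < -n` goes to the top.  Two cells of the same
arm: `E0` is injective.  Side face `x = 2 n`: the cells of arm 0 on it have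
`u - d ≤ g1 - 1`, those of arm 1 have `u - d ≥ g1`.  Top face: the two cells have corner
coordinates related as in tP8, inside the window use `D.OK.one`, outside the four conditions
are mutually exclusive (as not `inBox`). -/
def tP9 : Prop := ∀ (D : Pin) (n N x y x' y' : ℤ), 4 ≤ N → N ≤ n → D.OK n N → D.Mem n x y →
  D.Mem n x' y' → (pinFold n (x, y)).o = (pinFold n (x', y')).o → x = x' ∧ y = y'

/-- Connectivity.  Base cells are connected with `(0, 0)`.  A cell of the first arm outside the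
window: if `y = -1` and `x < n` the cell above is a base cell.  Otherwise, if `q + 1 ≤ n + g' - 1` the cell
above (corner coordinates `(p - 1, q + 1)`) is again in the arm and outside the window
(`q - p ≥ 0` outside the window forces `|p + q| > 4` or `q - p > 4`; both are preserved), and if
`q = n + g' - 1` the cell to the left (`(p - 1, q - 1)`) is in the arm (then `y ≥ -n`, so
`q - p = 2 y + 1 + 3 n ≥ 5`).  As `x - y` drops in each step this ends in the base square.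
A window cell of the arm is joined to a cell outside the window by `ArmOK` (induction on the
rank).  The other arms by symmetry (tP0). -/
def tP10 : Prop := ∀ (D : Pin) (n N : ℤ), 4 ≤ N → N ≤ n → D.OK n N → IsPolyomino (D.set n)

/-- Pinwheel nets are nets (uses tP2, tP5 .. tP10). -/
def tP11 : Prop := ∀ (D : Pin) (n : ℕ) (N : ℤ), 4 ≤ N → N ≤ n → D.OK n N → IsCubeNet n (D.set n)

/-! ## Group S: one step

Parameters of the four arms of a step from the size `b` to the size `c = b + s`, where the base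
square of the inner net has its lower left corner at `(i, j)`. In the frame of arm `k` the inner
corner is `(i_k, j_k)`, `(i_0, j_0) = (i, j)`, `(i_(k+1), j_(k+1)) = (j_k, s - i_k)`; the corner
coordinates of the inner net are `p + dp`, `q - dq` with `dp = 3 s - i_k + j_k`,
`dq = i_k + j_k`. -/

/-- the region of arm `k` for a step of type M: `s = 1`, `(i, j) = (0, 0)` -/
def regM (O I : Pin) (c : ℤ) : ℕ → Set Cell
  | 0 => TReg c 1 0 1 1 O.m0 I.m0 3 0 (3 * c - 1) (c - 1)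
  | 1 => TReg c 0 1 1 1 O.m1 I.m1 4 1 (3 * c) c
  | 2 => TReg c 1 1 1 0 O.m2 I.m2 3 2 (3 * c - 1) c
  | _ => TReg c 1 1 0 1 O.m3 I.m3 2 1 (3 * c - 1) c

/-- types and local compatibility for a step of type M -/
structure OKM (O I : Pin) (c : ℤ) : Prop where
  o0 : O.g0 = 1
  o1 : O.g1 = 0
  o2 : O.g2 = 1
  o3 : O.g3 = 1
  i0 : I.g0 = 1
  i1 : I.g1 = 1
  i2 : I.g2 = 1
  i3 : I.g3 = 0
  c0 : LC c 1 0 1 1 O.m0 I.m0 3 0
  c1 : LC c 0 1 1 1 O.m1 I.m1 4 1
  c2 : LC c 1 1 1 0 O.m2 I.m2 3 2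
  c3 : LC c 1 1 0 1 O.m3 I.m3 2 1

/-- the region of arm `k` for a step of type C: `s = 2`, `(i, j) = (1, 1)`, the same data -/
def regC (D : Pin) (c : ℤ) : ℕ → Set Cell
  | 0 => TReg c 1 1 1 1 D.m0 D.m0 6 2 (3 * c - 1) c
  | 1 => TReg c 1 1 1 1 D.m1 D.m1 6 2 (3 * c - 1) c
  | 2 => TReg c 1 1 1 1 D.m2 D.m2 6 2 (3 * c - 1) c
  | _ => TReg c 1 1 1 1 D.m3 D.m3 6 2 (3 * c - 1) c

/-- types and local compatibility for a step of type C -/
structure OKC (D : Pin) (c : ℤ) : Prop where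
  o0 : D.g0 = 1
  o1 : D.g1 = 1
  o2 : D.g2 = 1
  o3 : D.g3 = 1
  c0 : LC c 1 1 1 1 D.m0 D.m0 6 2
  c1 : LC c 1 1 1 1 D.m1 D.m1 6 2
  c2 : LC c 1 1 1 1 D.m2 D.m2 6 2
  c3 : LC c 1 1 1 1 D.m3 D.m3 6 2

/-- the region of arm `k` for a step of type D: `s = 3`, `(i, j) = (1, 1)`; the arm 0 is cut at
`q ≤ c + q0 - 1`, the arm 1 at `x - y ≥ pL + 1` -/
def regD (O I : Pin) (q0 pL c : ℤ) : ℕ → Set Cell
  | 0 => TReg c 1 1 1 0 O.m0 I.m0 9 2 (3 * c - 1) (c + q0 - 1)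
  | 1 => TReg c 1 1 0 1 O.m1 I.m1 10 3 (3 * c - (pL + 1)) c
  | 2 => TReg c 1 1 1 0 O.m2 I.m2 9 4 (3 * c - 1) c
  | _ => TReg c 1 1 0 1 O.m3 I.m3 8 3 (3 * c - 1) c

/-- types and local compatibility for a step of type D -/
structure OKD (O I : Pin) (c : ℤ) : Prop where
  o0 : O.g0 = 1
  o1 : O.g1 = 1
  o2 : O.g2 = 1
  o3 : O.g3 = 1
  i0 : I.g0 = 1
  i1 : I.g1 = 0
  i2 : I.g2 = 1
  i3 : I.g3 = 0
  c0 : LC c 1 1 1 0 O.m0 I.m0 9 2
  c1 : LC c 1 1 0 1 O.m1 I.m1 10 3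
  c2 : LC c 1 1 1 0 O.m2 I.m2 9 4
  c3 : LC c 1 1 0 1 O.m3 I.m3 8 3

/-- the corner region of type D at the far end of arm 0 (frame 0) -/
def regT (q0 d c : ℤ) : Set Cell :=
  {p | -d ≤ p.1 - p.2 - 3 * c ∧ p.1 - p.2 - 3 * c ≤ 0 ∧ q0 ≤ p.1 + p.2 + 1 - c ∧
    p.1 + p.2 + 1 - c ≤ 0 ∧ ¬(p.1 - p.2 - 3 * c ≤ -10 ∧ p.1 + p.2 + 1 - c ≤ -2)}

/-- the strip along arm 0 (frame 0) -/
def regF (d pf c : ℤ) : Set Cell :=
  {p | c + pf + 1 ≤ p.1 - p.2 ∧ p.1 - p.2 ≤ 3 * c - d - 1 ∧ c - 2 ≤ p.1 + p.2 ∧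
    p.1 + p.2 ≤ c - 1}

/-- the region near the corner of the base square between arm 0 and arm 1 (frame 1) -/
def regV (pf pL : ℤ) : Set Cell :=
  {p | (p.1 < 0 ∧ -1 ≤ p.1 - p.2 ∧ p.1 - p.2 ≤ 0 ∧ -1 - pf ≤ p.1 + p.2) ∨
    (p.1 = 0 ∧ 0 ≤ p.2 ∧ p.2 ≤ 1) ∨
    (1 ≤ p.1 ∧ 0 ≤ p.1 + p.2 ∧ p.1 + p.2 ≤ 1 ∧ p.1 - p.2 ≤ pL)}

/-- Type M: the inner net lies in the outer net. -/
def tSM1 : Prop := ∀ (O I : Pin) (c x y : ℤ), 5 ≤ c → OKM O I c → I.Mem (c - 1) x y → O.Mem c x y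

/-- Type M: the four regions lie in the layer.  In the frame `k` the inner net is the inner net
with base corner `(i_k, j_k) = (0,0), (0,1), (1,1), (1,0)`.  A cell `(x, y)` of the region (frame
coordinates) with `y < 0` is in the outer arm; if `y ≥ 0` the definition forces `x + y` to be at
most `1` and it is one of the cells `(0,0)` (`k = 1`), `(1,0)` (`k = 2`) of the outer base
square.  It is not in the inner arm `k` (inner core false), not in the inner base square, not in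
the inner arm `k - 1` (that arm is on the other side of the line `x - y = P0`), and not in
the other two (far away).  Windows of other arms are far away. -/
def tSM2 : Prop := ∀ (O I : Pin) (c : ℤ) (k : ℕ) (p : Cell), 5 ≤ c → OKM O I c → k < 4 →
  fr c k p ∈ regM O I c k → O.Mem c p.1 p.2 ∧ ¬ I.Mem (c - 1) p.1 p.2

/-- Type M: the four regions are disjoint.  In frame coordinates every cell of the region has
`0 ≤ x` and (`y < 0` or `x + y ≤ 1`, `0 ≤ y ≤ 1`). -/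
def tSM3 : Prop := ∀ (O I : Pin) (c : ℤ) (k l : ℕ) (p : Cell), 5 ≤ c → OKM O I c → k < 4 → l < 4 →
  fr c k p ∈ regM O I c k → fr c l p ∈ regM O I c l → k = l

/-- Type M, summary (uses tSM1, tSM2, tSM3, tA4, tA5, tP2). -/
def tSM : Prop := ∀ (O I : Pin) (b N M : ℤ) (N0 N1 N2 N3 : ℕ), 4 ≤ b → O.OK (b + 1) N → I.OK b M →
  OKM O I (b + 1) → Pack (regM O I (b + 1) 0) N0 → Pack (regM O I (b + 1) 1) N1 →
  Pack (regM O I (b + 1) 2) N2 → Pack (regM O I (b + 1) 3) N3 →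
  Nest (I.set b) (O.set (b + 1)) (N0 + N1 + N2 + N3)

/-- Type C: the inner net (moved by `(1, 1)`) lies in the outer net. -/
def tSC1 : Prop := ∀ (D : Pin) (c x y : ℤ), 6 ≤ c → OKC D c → D.Mem (c - 2) (x - 1) (y - 1) →
  D.Mem c x y

/-- Type C: the four regions lie in the layer (all four frames look the same; the only cell
with `y ≥ 0` is `(1, 0)`). -/
def tSC2 : Prop := ∀ (D : Pin) (c : ℤ) (k : ℕ) (p : Cell), 6 ≤ c → OKC D c → k < 4 →
  fr c k p ∈ regC D c k → D.Mem c p.1 p.2 ∧ ¬ D.Mem (c - 2) (p.1 - 1) (p.2 - 1)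

/-- Type C: the four regions are disjoint. -/
def tSC3 : Prop := ∀ (D : Pin) (c : ℤ) (k l : ℕ) (p : Cell), 6 ≤ c → OKC D c → k < 4 → l < 4 →
  fr c k p ∈ regC D c k → fr c l p ∈ regC D c l → k = l

/-- Type C, summary (uses tSC1, tSC2, tSC3, tA4, tA5, tP2). -/
def tSC : Prop := ∀ (D : Pin) (b N : ℤ) (N0 N1 N2 N3 : ℕ), 4 ≤ b → D.OK (b + 2) N → D.OK b N →
  OKC D (b + 2) → Pack (regC D (b + 2) 0) N0 → Pack (regC D (b + 2) 1) N1 →
  Pack (regC D (b + 2) 2) N2 → Pack (regC D (b + 2) 3) N3 →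
  Nest (shift 1 1 (D.set b)) (D.set (b + 2)) (N0 + N1 + N2 + N3)

/-- Type D: the inner net (moved by `(1, 1)`) lies in the outer net. -/
def tSD1 : Prop := ∀ (O I : Pin) (c x y : ℤ), 8 ≤ c → OKD O I c → I.Mem (c - 3) (x - 1) (y - 1) →
  O.Mem c x y

/-- Type D: the four arm regions lie in the layer (`(i_k, j_k) = (1,1), (1,2), (2,2), (2,1)`). -/
def tSD2 : Prop := ∀ (O I : Pin) (q0 pL c : ℤ) (k : ℕ) (p : Cell), 12 ≤ c → -13 ≤ q0 → q0 ≤ -5 →
  3 ≤ pL → pL ≤ 12 → OKD O I c → k < 4 → fr c k p ∈ regD O I q0 pL c k →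
  O.Mem c p.1 p.2 ∧ ¬ I.Mem (c - 3) (p.1 - 1) (p.2 - 1)

/-- Type D: the other three regions lie in the layer. -/
def tSD3 : Prop := ∀ (O I : Pin) (q0 d pf pL c : ℤ) (p : Cell), 12 ≤ c → -13 ≤ q0 → q0 ≤ -5 →
  c + q0 ≥ 7 → 9 ≤ d → d ≤ 17 → 6 ≤ pf → pf ≤ 11 → 3 ≤ pL → pL ≤ 12 → d + pf + 1 ≤ 2 * c →
  OKD O I c → (p ∈ regT q0 d c ∨ p ∈ regF d pf c ∨ fr c 1 p ∈ regV pf pL) →
  O.Mem c p.1 p.2 ∧ ¬ I.Mem (c - 3) (p.1 - 1) (p.2 - 1)

/-- Type D: the seven regions are disjoint. -/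
def tSD4 : Prop := ∀ (O I : Pin) (q0 d pf pL c : ℤ), 12 ≤ c → -13 ≤ q0 → q0 ≤ -5 →
  c + q0 ≥ 7 → 9 ≤ d → d ≤ 17 → 6 ≤ pf → pf ≤ 11 → 3 ≤ pL → pL ≤ 12 → d + pf + 1 ≤ 2 * c →
  OKD O I c → (∀ (k l : ℕ) (p : Cell), k < 4 → l < 4 → fr c k p ∈ regD O I q0 pL c k →
    fr c l p ∈ regD O I q0 pL c l → k = l) ∧
  (∀ (k : ℕ) (p : Cell), k < 4 → fr c k p ∈ regD O I q0 pL c k →
    p ∉ regT q0 d c ∧ p ∉ regF d pf c ∧ fr c 1 p ∉ regV pf pL) ∧
  (∀ p : Cell, ¬(p ∈ regT q0 d c ∧ p ∈ regF d pf c) ∧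
    ¬(p ∈ regT q0 d c ∧ fr c 1 p ∈ regV pf pL) ∧ ¬(p ∈ regF d pf c ∧ fr c 1 p ∈ regV pf pL))

/-- Type D, summary (uses tSD1 .. tSD4, tA4, tA5, tP2). -/
def tSD : Prop := ∀ (O I : Pin) (q0 d pf pL b N M : ℤ) (N0 N1 N2 N3 N4 N5 N6 : ℕ), 9 ≤ b →
  -13 ≤ q0 → q0 ≤ -5 → b + 3 + q0 ≥ 7 → 9 ≤ d → d ≤ 17 → 6 ≤ pf → pf ≤ 11 → 3 ≤ pL → pL ≤ 12 →
  d + pf + 1 ≤ 2 * (b + 3) → O.OK (b + 3) N → I.OK b M → OKD O I (b + 3) →
  Pack (regD O I q0 pL (b + 3) 0) N0 → Pack (regD O I q0 pL (b + 3) 1) N1 →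
  Pack (regD O I q0 pL (b + 3) 2) N2 → Pack (regD O I q0 pL (b + 3) 3) N3 →
  Pack (regT q0 d (b + 3)) N4 → Pack (regF d pf (b + 3)) N5 → Pack (regV pf pL) N6 →
  Nest (shift 1 1 (I.set b)) (O.set (b + 3)) (N0 + N1 + N2 + N3 + N4 + N5 + N6)

/-! ## Group F: families -/

/-- Type C for all sizes: from packings at the size `n0` (with `c = n0 + 2`) to
`Nest (shift 1 1 (D.set n)) (D.set (n + 2)) ((n + 2) ^ 2 - n ^ 2)` for `n = n0 + 2 m`: by tT1,
tT2 (`l = 1`) and tT4 the four numbers grow by 2 when `n` grows by 2, and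
`(n + 2) ^ 2 - n ^ 2 = 4 n + 4` grows by 8 (uses tSC). -/
def tFC : Prop := ∀ (D : Pin) (n0 : ℕ) (N : ℤ) (N0 N1 N2 N3 : ℕ), 4 ≤ n0 →
  (∀ m : ℕ, D.OK (n0 + 2 * m) N ∧ OKC D (n0 + 2 * m)) →
  Pack (regC D (n0 + 2) 0) N0 → Pack (regC D (n0 + 2) 1) N1 → Pack (regC D (n0 + 2) 2) N2 →
  Pack (regC D (n0 + 2) 3) N3 → N0 + N1 + N2 + N3 = 4 * n0 + 4 →
  ∀ m : ℕ, Nest (shift 1 1 (D.set (n0 + 2 * m))) (D.set (n0 + 2 * m + 2))
    (4 * (n0 + 2 * m) + 4)

/-- Type M for all sizes of a class modulo 6: when `b` grows by 6 the four numbers grow by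
`1, 5, 5, 1` (tT1 three times, tT2 three times with `l = 0, 1, 1, 0`, tT3 with
`e = 1, 2, 2, 1`; here `b0 ≥ 5` is used, for `4 + dq ≤ B` in the arm 2), and
`(b + 1) ^ 2 - b ^ 2 = 2 b + 1` grows by 12 (uses tSM). -/
def tFM : Prop := ∀ (O I : Pin) (b0 : ℕ) (N M : ℤ) (N0 N1 N2 N3 : ℕ), 5 ≤ b0 →
  (∀ m : ℕ, O.OK (b0 + 6 * m + 1) N ∧ I.OK (b0 + 6 * m) M ∧ OKM O I (b0 + 6 * m + 1)) →
  Pack (regM O I (b0 + 1) 0) N0 → Pack (regM O I (b0 + 1) 1) N1 → Pack (regM O I (b0 + 1) 2) N2 →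
  Pack (regM O I (b0 + 1) 3) N3 → N0 + N1 + N2 + N3 = 2 * b0 + 1 →
  ∀ m : ℕ, Nest (I.set (b0 + 6 * m)) (O.set (b0 + 6 * m + 1)) (2 * (b0 + 6 * m) + 1)

/-- Type D for all sizes of a class modulo 6: when `b` grows by 6 the numbers of the four arms
grow by `8, 8, 11, 7` (tT1 three times, tT2 three times with `l = 1, 1, 2, 1`, tT3 with
`e = 5, 5, 5, 4`), the strip `regF` is a union of `r = (2 c - d - 1 - pf) / 6` blocks (tU3) and `r`
grows by 2, `regT` is only translated, `regV` does not change;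
`(b + 3) ^ 2 - b ^ 2 = 6 b + 9` grows by 36 (uses tSD). -/
def tFD : Prop := ∀ (O I : Pin) (q0 d pf pL : ℤ) (b0 r : ℕ) (N M : ℤ) (N0 N1 N2 N3 N4 N6 : ℕ),
  9 ≤ b0 → -13 ≤ q0 → q0 ≤ -5 → (b0 : ℤ) + 3 + q0 ≥ 7 → 9 ≤ d → d ≤ 17 → 6 ≤ pf → pf ≤ 11 →
  3 ≤ pL → pL ≤ 12 → 2 * ((b0 : ℤ) + 3) - d - 1 - pf = 6 * r →
  (∀ m : ℕ, O.OK (b0 + 6 * m + 3) N ∧ I.OK (b0 + 6 * m) M ∧ OKD O I (b0 + 6 * m + 3)) →
  Pack (regD O I q0 pL (b0 + 3) 0) N0 → Pack (regD O I q0 pL (b0 + 3) 1) N1 →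
  Pack (regD O I q0 pL (b0 + 3) 2) N2 → Pack (regD O I q0 pL (b0 + 3) 3) N3 →
  Pack (regT q0 d (b0 + 3)) N4 → Pack (regV pf pL) N6 →
  N0 + N1 + N2 + N3 + N4 + r + N6 = 6 * b0 + 9 →
  ∀ m : ℕ, Nest (shift 1 1 (I.set (b0 + 6 * m))) (O.set (b0 + 6 * m + 3))
    (6 * (b0 + 6 * m) + 9)

/-- Composition with the chain: if all steps of type C from `n` on exist and a net `Q` of the
`b`-cube nests in `D.set n` with the right number of tiles, then `(b, n + 2 k)` is good for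
every `k` (uses tA6, tA7, tP11; induction on `k` with the nets
`D.set (n + 2 k) ⊇ shift 1 1 (D.set (n + 2 k - 2))`). -/
def tFX : Prop := ∀ (D : Pin) (N : ℤ) (b n : ℕ) (Q : Finset Cell), 4 ≤ N → N ≤ n → b ≤ n →
  (∀ m : ℕ, D.OK (n + 2 * m) N) →
  (∀ m : ℕ, Nest (shift 1 1 (D.set (n + 2 * m))) (D.set (n + 2 * m + 2)) (4 * (n + 2 * m) + 4)) →
  IsCubeNet b Q → Nest Q (D.set n) (n ^ 2 - b ^ 2) → ∀ k : ℕ, Good b (n + 2 * k)

end RCN
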